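import Pool.Agent.Lib.MP_361a6f_ag.FL.Defs

/-!
# Statements of the elementary rows: the algebra of tensors and diagrams
-/

open Filter Topology MeasureTheory

namespace Pool.Agent.Lib.MP_361a6f_ag.FL

/-- Row AL1: the action of matrices and the forms on tensors. -/
structure Alg1 : Prop where
  gT_one : ∀ {I : Type} [Fintype I] [DecidableEq I] {L : ℕ} (u : Ten I L),
    gT (1 : Matrix I I ℂ) u = u
  gT_mul : ∀ {I : Type} [Fintype I] [DecidableEq I] {L : ℕ} (g h : Matrix I I ℂ) (u : Ten I L),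
    gT (g * h) u = gT g (gT h u)
  gT_add : ∀ {I : Type} [Fintype I] [DecidableEq I] {L : ℕ} (g : Matrix I I ℂ) (u v : Ten I L),
    gT g (u + v) = gT g u + gT g v
  gT_smul : ∀ {I : Type} [Fintype I] [DecidableEq I] {L : ℕ} (g : Matrix I I ℂ) (c : ℂ)
    (u : Ten I L), gT g (c • u) = c • gT g u
  gT_cont : ∀ {I : Type} [Fintype I] [DecidableEq I] {L : ℕ},
    Continuous fun p : Matrix I I ℂ × Ten I L => gT p.1 p.2
  hT_conj : ∀ {I : Type} [Fintype I] [DecidableEq I] {L : ℕ} (u v : Ten I L),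
    (starRingEnd ℂ) (hT u v) = hT v u
  hT_self : ∀ {I : Type} [Fintype I] [DecidableEq I] {L : ℕ} (u : Ten I L),
    hT u u = ((∑ w, ‖u w‖ ^ 2 : ℝ) : ℂ)
  /-- the hermitian adjoint -/
  hT_gT : ∀ {I : Type} [Fintype I] [DecidableEq I] {L : ℕ} (g : Matrix I I ℂ) (u v : Ten I L),
    hT (gT g u) v = hT u (gT g.conjTranspose v)
  hT_aT : ∀ {I : Type} [Fintype I] [DecidableEq I] {L : ℕ} (A : Matrix I I ℂ) (u v : Ten I L),
    hT (aT A u) v = hT u (aT A.conjTranspose v)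
  aT_add : ∀ {I : Type} [Fintype I] [DecidableEq I] {L : ℕ} (A : Matrix I I ℂ) (u v : Ten I L),
    aT A (u + v) = aT A u + aT A v
  aT_smul : ∀ {I : Type} [Fintype I] [DecidableEq I] {L : ℕ} (A : Matrix I I ℂ) (c : ℂ)
    (u : Ten I L), aT A (c • u) = c • aT A u
  add_aT : ∀ {I : Type} [Fintype I] [DecidableEq I] {L : ℕ} (A B : Matrix I I ℂ) (u : Ten I L),
    aT (A + B) u = aT A u + aT B u
  smul_aT : ∀ {I : Type} [Fintype I] [DecidableEq I] {L : ℕ} (c : ℂ) (A : Matrix I I ℂ)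
    (u : Ten I L), aT (c • A) u = c • aT A u
  aT_comm : ∀ {I : Type} [Fintype I] [DecidableEq I] {L : ℕ} (A B : Matrix I I ℂ) (u : Ten I L),
    aT A (aT B u) - aT B (aT A u) = aT (A * B - B * A) u
  gT_aT : ∀ {I : Type} [Fintype I] [DecidableEq I] {L : ℕ} (g A : Matrix I I ℂ) (u : Ten I L),
    g * g⁻¹ = 1 → gT g (aT A u) = aT (g * A * g⁻¹) (gT g u)
  /-- the exponential -/
  gT_exp : ∀ {I : Type} [Fintype I] [DecidableEq I] {L : ℕ} (A : Matrix I I ℂ) (u : Ten I L),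
    HasSum (fun n : ℕ => ((n.factorial : ℂ)⁻¹) • (aT A)^[n] u) (gT (NormedSpace.exp A) u)
  psiT_gT : ∀ {I Λ : Type} [Fintype I] [DecidableEq I] [DecidableEq Λ] (D : Dat I Λ) {L : ℕ}
    (g : Matrix I I ℂ) (u v : Ten I L), IsG D g → psiT D (gT g u) (gT g v) = psiT D u v
  psiT_aT : ∀ {I Λ : Type} [Fintype I] [DecidableEq I] [DecidableEq Λ] (D : Dat I Λ) {L : ℕ}
    (A : Matrix I I ℂ) (u v : Ten I L), IsLie D A → psiT D (aT A u) v = -psiT D u (aT A v)
  psiT_jT : ∀ {I Λ : Type} [Fintype I] [DecidableEq I] [DecidableEq Λ] (D : Dat I Λ) {L : ℕ}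
    (u v : Ten I L), psiT D u (jT D v) = hT u v
  psiT_jT_jT : ∀ {I Λ : Type} [Fintype I] [DecidableEq I] [DecidableEq Λ] (D : Dat I Λ) {L : ℕ}
    (u v : Ten I L), psiT D (jT D u) (jT D v) = (starRingEnd ℂ) (psiT D u v)
  hT_jT_jT : ∀ {I Λ : Type} [Fintype I] [DecidableEq I] [DecidableEq Λ] (D : Dat I Λ) {L : ℕ}
    (u v : Ten I L), hT (jT D u) (jT D v) = hT v u
  jT_gT : ∀ {I Λ : Type} [Fintype I] [DecidableEq I] [DecidableEq Λ] (D : Dat I Λ) {L : ℕ}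
    (g : Matrix I I ℂ) (u : Ten I L), IsK D g → jT D (gT g u) = gT g (jT D u)
  jT_aT : ∀ {I Λ : Type} [Fintype I] [DecidableEq I] [DecidableEq Λ] (D : Dat I Λ) {L : ℕ}
    (A : Matrix I I ℂ) (u : Ten I L), IsLie D A →
    jT D (aT A u) = aT (-A.conjTranspose) (jT D u)
  jT_add : ∀ {I Λ : Type} [Fintype I] [DecidableEq I] [DecidableEq Λ] (D : Dat I Λ) {L : ℕ}
    (u v : Ten I L), jT D (u + v) = jT D u + jT D v
  jT_smul : ∀ {I Λ : Type} [Fintype I] [DecidableEq I] [DecidableEq Λ] (D : Dat I Λ) {L : ℕ}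
    (c : ℂ) (u : Ten I L), jT D (c • u) = (starRingEnd ℂ) c • jT D u
  /-- the group and the Lie algebra -/
  G_one : ∀ {I Λ : Type} [Fintype I] [DecidableEq I] [DecidableEq Λ] (D : Dat I Λ), IsG D 1
  G_mul : ∀ {I Λ : Type} [Fintype I] [DecidableEq I] [DecidableEq Λ] (D : Dat I Λ)
    (g h : Matrix I I ℂ), IsG D g → IsG D h → IsG D (g * h)
  G_inv : ∀ {I Λ : Type} [Fintype I] [DecidableEq I] [DecidableEq Λ] (D : Dat I Λ)
    (g : Matrix I I ℂ), IsG D g → IsG D g⁻¹ ∧ g * g⁻¹ = 1 ∧ g⁻¹ * g = 1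
  G_exp : ∀ {I Λ : Type} [Fintype I] [DecidableEq I] [DecidableEq Λ] (D : Dat I Λ)
    (A : Matrix I I ℂ), IsLie D A → IsG D (NormedSpace.exp A)
  K_exp : ∀ {I Λ : Type} [Fintype I] [DecidableEq I] [DecidableEq Λ] (D : Dat I Λ)
    (A : Matrix I I ℂ), IsLie D A → A.conjTranspose = -A → IsK D (NormedSpace.exp A)
  Lie_adj : ∀ {I Λ : Type} [Fintype I] [DecidableEq I] [DecidableEq Λ] (D : Dat I Λ)
    (A : Matrix I I ℂ), IsLie D A → IsLie D A.conjTranspose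
  Lie_smul : ∀ {I Λ : Type} [Fintype I] [DecidableEq I] [DecidableEq Λ] (D : Dat I Λ) (c : ℂ)
    (A : Matrix I I ℂ), IsLie D A → IsLie D (c • A)
  Lie_add : ∀ {I Λ : Type} [Fintype I] [DecidableEq I] [DecidableEq Λ] (D : Dat I Λ)
    (A B : Matrix I I ℂ), IsLie D A → IsLie D B → IsLie D (A + B)

/-- Row AL2: equivariance of the diagram maps. -/
structure Alg2 : Prop where
  om_gT : ∀ {I Λ : Type} [Fintype I] [DecidableEq I] [DecidableEq Λ] (D : Dat I Λ)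
    (g : Matrix I I ℂ) (α : Λ), IsG D g → gT g (om D α) = om D α
  match_gT : ∀ {I Λ : Type} [Fintype I] [DecidableEq I] [DecidableEq Λ] (D : Dat I Λ) {L : ℕ}
    (m : Ten I L) (g : Matrix I I ℂ), IsMatch D L m → IsG D g → gT g m = m
  match_jT : ∀ {I Λ : Type} [Fintype I] [DecidableEq I] [DecidableEq Λ] (D : Dat I Λ) {L : ℕ}
    (m : Ten I L), IsMatch D L m → jT D m = m
  outer_gT : ∀ {I : Type} [Fintype I] [DecidableEq I] {p q : ℕ} (g : Matrix I I ℂ)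
    (u : Ten I p) (v : Ten I q), gT g (outer u v) = outer (gT g u) (gT g v)
  outer_jT : ∀ {I Λ : Type} [Fintype I] [DecidableEq I] [DecidableEq Λ] (D : Dat I Λ) {p q : ℕ}
    (u : Ten I p) (v : Ten I q), jT D (outer u v) = outer (jT D u) (jT D v)
  cont_gT : ∀ {I Λ : Type} [Fintype I] [DecidableEq I] [DecidableEq Λ] (D : Dat I Λ) {p c : ℕ}
    (g : Matrix I I ℂ) (u : Ten I p) (m : Ten I (p + c)), IsG D g →
    gT g (cont D u m) = cont D (gT g u) (gT g m)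
  cont_jT : ∀ {I Λ : Type} [Fintype I] [DecidableEq I] [DecidableEq Λ] (D : Dat I Λ) {p c : ℕ}
    (u : Ten I p) (m : Ten I (p + c)), jT D (cont D u m) = cont D (jT D u) (jT D m)
  dm_gS : ∀ {I Λ ι : Type} [Fintype I] [DecidableEq I] [DecidableEq Λ] [Fintype ι] {len : ι → ℕ}
    (D : Dat I Λ) (c : ℕ) (l : List ι) (m : Ten I ((l.map len).sum + c)) (g : Matrix I I ℂ)
    (s : Tup I len), IsMatch D _ m → IsG D g → dm D c l m (gS g s) = gT g (dm D c l m s)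
  dm_jS : ∀ {I Λ ι : Type} [Fintype I] [DecidableEq I] [DecidableEq Λ] [Fintype ι] {len : ι → ℕ}
    (D : Dat I Λ) (c : ℕ) (l : List ι) (m : Ten I ((l.map len).sum + c)) (s : Tup I len),
    IsMatch D _ m → dm D c l m (jS D s) = jT D (dm D c l m s)
  dm_cont : ∀ {I Λ ι : Type} [Fintype I] [DecidableEq I] [DecidableEq Λ] [Fintype ι]
    {len : ι → ℕ} (D : Dat I Λ) (c : ℕ) (l : List ι) (m : Ten I ((l.map len).sum + c)),
    Continuous fun s : Tup I len => dm D c l m s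
  /-- every diagram map is a polynomial map -/
  dm_poly : ∀ {I Λ ι : Type} [Fintype I] [DecidableEq I] [DecidableEq Λ] [Fintype ι]
    {len : ι → ℕ} (D : Dat I Λ) (c : ℕ) (l : List ι) (m : Ten I ((l.map len).sum + c)),
    PolyMap (fun s : Tup I len => dm D c l m s)

/-- Row EQP: equivariant polynomial maps are combinations of diagram maps. -/
def EqpStatement : Prop :=
  ∀ {I Λ ι : Type} [Fintype I] [DecidableEq I] [DecidableEq Λ] [Fintype ι] {len : ι → ℕ}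
    {D : Dat I Λ} (_ : HM D) (c : ℕ) (P : Tup I len → Ten I c), PolyMap P →
    (∀ g s, IsK D g → P (gS g s) = gT g (P s)) → P ∈ DM D len c

end Pool.Agent.Lib.MP_361a6f_ag.FL
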