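import Pool.Agent.Lib.MP_361a6f_ag.PP.Stat

/-!
# Finite level: the definitions used in the statement
-/

open CategoryTheory AlgebraicGeometry MonoidalCategory CartesianMonoidalCategory

universe u v w

namespace Pool.Agent.Lib.MP_361a6f_ag.FL

open Pool.Agent.Lib.MP_361a6f_ag.H3 Pool.Agent.Lib.MP_361a6f_ag.SQ
  Pool.Agent.Lib.MP_361a6f_ag.PP

/-- Formal products of factors with labels in `Fin m`. -/
inductive Prd (m : ℕ) : Type
  | leaf (a : Fin m) : Prd m
  | prod (P Q : Prd m) : Prd m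

noncomputable section

variable {k : Type u} [Field k] {K : Type v} [Field K] {m : ℕ}

/-- The number of factors. -/
def Prd.size : Prd m → ℕ
  | .leaf _ => 1
  | .prod P Q => P.size + Q.size

/-- The product of varieties `X_a` that belongs to a formal product. -/
def Prd.obj (X : Fin m → Sch k) : Prd m → Sch k
  | .leaf a => X a
  | .prod P Q => (P.obj X).prod (Q.obj X)

/-- The dimension, if `X_a` has the dimension `n a`. -/
def Prd.dim (n : Fin m → ℕ) : Prd m → ℕ
  | .leaf a => n a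
  | .prod P Q => P.dim n + Q.dim n

/-- The sum of the pull-backs of the classes `ξ_a` under the projections to the factors. -/
def Prd.pol (W : CohomologyData.{u, v, w} k K) {X : Fin m → Sch k} (ξ : ∀ a, W.coh (X a)) :
    (P : Prd m) → W.coh (P.obj X)
  | .leaf a => ξ a
  | .prod P Q => W.pb (Sch.pr₁ (P.obj X) (Q.obj X)) (P.pol W ξ)
      + W.pb (Sch.pr₂ (P.obj X) (Q.obj X)) (Q.pol W ξ)

/-- The classes `Σ c_i pr_i^* ξ_{a_i}` with rational numbers `c_i > 0`. -/
inductive IsPol (W : CohomologyData.{u, v, w} k K) {X : Fin m → Sch k} (ξ : ∀ a, W.coh (X a)) :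
    (P : Prd m) → W.coh (P.obj X) → Prop
  | leaf (a : Fin m) (c : ℚ) : 0 < c → IsPol W ξ (.leaf a) (W.scal (c : K) (ξ a))
  | prod (P Q : Prd m) (η : W.coh (P.obj X)) (θ : W.coh (Q.obj X)) : IsPol W ξ P η →
      IsPol W ξ Q θ → IsPol W ξ (.prod P Q) (W.pb (Sch.pr₁ (P.obj X) (Q.obj X)) η
        + W.pb (Sch.pr₂ (P.obj X) (Q.obj X)) θ)

/-- The morphisms between products that are composed of projections, permutations of the factors
and, if `N ≥ 3`, diagonals. -/
inductive CoordMor (X : Fin m → Sch k) (N : ℕ) :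
    (P Q : Prd m) → Sch.Mor (P.obj X) (Q.obj X) → Prop
  | id (P : Prd m) : CoordMor X N P P (𝟙 _)
  | comp (P Q R : Prd m) (f : Sch.Mor (P.obj X) (Q.obj X)) (g : Sch.Mor (Q.obj X) (R.obj X)) :
      CoordMor X N P Q f → CoordMor X N Q R g → CoordMor X N P R (f ≫ g)
  | pr₁ (P Q : Prd m) : CoordMor X N (.prod P Q) P (Sch.pr₁ (P.obj X) (Q.obj X))
  | pr₂ (P Q : Prd m) : CoordMor X N (.prod P Q) Q (Sch.pr₂ (P.obj X) (Q.obj X))
  | swap (P Q : Prd m) : CoordMor X N (.prod P Q) (.prod Q P)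
      (lift (Sch.pr₂ (P.obj X) (Q.obj X)) (Sch.pr₁ (P.obj X) (Q.obj X)))
  | assoc (P Q R : Prd m) : CoordMor X N (.prod (.prod P Q) R) (.prod P (.prod Q R))
      (lift (Sch.pr₁ ((P.prod Q).obj X) (R.obj X) ≫ Sch.pr₁ (P.obj X) (Q.obj X))
        (lift (Sch.pr₁ ((P.prod Q).obj X) (R.obj X) ≫ Sch.pr₂ (P.obj X) (Q.obj X))
          (Sch.pr₂ ((P.prod Q).obj X) (R.obj X))))
  | prod (P P' Q Q' : Prd m) (f : Sch.Mor (P.obj X) (P'.obj X))
      (g : Sch.Mor (Q.obj X) (Q'.obj X)) : CoordMor X N P P' f → CoordMor X N Q Q' g →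
      CoordMor X N (.prod P Q) (.prod P' Q')
        (lift (Sch.pr₁ (P.obj X) (Q.obj X) ≫ f) (Sch.pr₂ (P.obj X) (Q.obj X) ≫ g))
  | diag (P : Prd m) : 3 ≤ N → CoordMor X N P (.prod P P) (lift (𝟙 _) (𝟙 _))

/-- The classes generated by the algebraic classes on the products of at most `N` factors under
exterior products, pull-backs and push-forwards along the morphisms above and, if `N ≥ 3`, cup
products. -/
inductive Gen (W : CohomologyData.{u, v, w} k K) (X : Fin m → Sch k) (N : ℕ) :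
    (P : Prd m) → W.coh (P.obj X) → Prop
  | alg (P : Prd m) (l : ℕ) (z : W.coh (P.obj X)) : P.size ≤ N → W.IsAlg (P.obj X) l z →
      Gen W X N P z
  | ext (P Q : Prd m) (z : W.coh (P.obj X)) (z' : W.coh (Q.obj X)) : Gen W X N P z →
      Gen W X N Q z' → Gen W X N (.prod P Q) (W.ext z z')
  | pb (P Q : Prd m) (f : Sch.Mor (P.obj X) (Q.obj X)) (z : W.coh (Q.obj X)) :
      CoordMor X N P Q f → Gen W X N Q z → Gen W X N P (W.pb f z)
  | pf (P Q : Prd m) (f : Sch.Mor (P.obj X) (Q.obj X)) (z : W.coh (P.obj X)) :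
      CoordMor X N P Q f → Gen W X N P z → Gen W X N Q (W.pf f z)
  | cup (P : Prd m) (z z' : W.coh (P.obj X)) : 3 ≤ N → Gen W X N P z → Gen W X N P z' →
      Gen W X N P (W.cup z z')

/-- The `K`-span of the classes generated by the algebraic classes on the products of at most `N`
factors. -/
def genSpan (W : CohomologyData.{u, v, w} k K) (X : Fin m → Sch k) (N : ℕ) (P : Prd m) :
    Submodule K (W.coh (P.obj X)) :=
  Submodule.span K {z | Gen W X N P z}

end

/-- Theorem R. -/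
def ThmRStatement : Prop :=
  ∀ {k : Type u} [Field k] {K : Type v} [Field K] [CharZero K] (_ : K →+* ℂ)
    (W : CohomologyData.{u, v, w} k K) (𝒱 : VarietyClass k) (_ : IsWeilCohomology W 𝒱)
    {m : ℕ} {X : Fin m → Sch k} {n : Fin m → ℕ} (_ : ∀ a, 𝒱.mem (X a) (n a))
    {ξ : ∀ a, W.coh (X a)} (_ : ∀ a, PositiveDivisor W (X a) (n a) (ξ a))
    (_ : ∀ a, HardLefschetz W (X a) (n a) (ξ a))
    (_ : ∀ a, AlgebraicLambda W (X a) (n a) (ξ a))
    (N : ℕ) (_ : 2 ≤ N)
    (_ : ∀ P : Prd m, P.size = N → HodgeType W (P.obj X) (P.dim n) (P.pol W ξ))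
    (P : Prd m) (η : W.coh (P.obj X)) (_ : IsPol W ξ P η),
    HodgeOn W (P.obj X) (P.dim n) η (genSpan W X N P)

end Pool.Agent.Lib.MP_361a6f_ag.FL
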