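import Pool.Agent.Lib.MP_361a6f_ag.FL.Defs
import Pool.Agent.Lib.MP_361a6f_ag.FL.AlgDefs
import Pool.Agent.Lib.MP_361a6f_ag.FL.Stat
import Pool.Agent.Lib.MP_361a6f_ag.PP.LMP
import Pool.Agent.Lib.MP_361a6f_ag.PP.TAL

/-!
# Finite level: the geometric host (coefficients in `ℂ`) and the statements of its rows
-/

open CategoryTheory AlgebraicGeometry MonoidalCategory CartesianMonoidalCategory

universe u v w

namespace Pool.Agent.Lib.MP_361a6f_ag.FL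

open Pool.Agent.Lib.MP_361a6f_ag.H3 Pool.Agent.Lib.MP_361a6f_ag.SQ
  Pool.Agent.Lib.MP_361a6f_ag.PP

variable {k : Type u} [Field k] {m : ℕ}

/-- the label of the `i`-th factor -/
def Prd.lw : (P : Prd m) → Fin P.size → Fin m
  | .leaf a => fun _ => a
  | .prod P Q => Fin.append P.lw Q.lw

theorem memP {𝒱 : VarietyClass k} {X : Fin m → Sch k} {n : Fin m → ℕ}
    (h : ∀ a, 𝒱.mem (X a) (n a)) : ∀ P : Prd m, 𝒱.mem (P.obj X) (P.dim n)
  | .leaf a => h a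
  | .prod P Q => 𝒱.prod (memP h P) (memP h Q)

/-- Factors with complex coefficients, with adapted bases; `e a x` is zero if the letter of `x`
does not belong to the factor `a`. -/
structure Host (W : CohomologyData.{u, 0, w} k ℂ) (𝒱 : VarietyClass k) (m : ℕ) where
  hW : IsWeilCohomology W 𝒱
  X : Fin m → Sch k
  n : Fin m → ℕ
  mem : ∀ a, 𝒱.mem (X a) (n a)
  ξ : ∀ a, W.coh (X a)
  ξ_alg : ∀ a, ξ a ∈ W.alg (X a) 1
  Lam : ∀ a, Module.End ℂ (W.coh (X a))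
  lam : ∀ a, LamData W (X a) (n a) (ξ a) (Lam a)
  I : Type
  [fin : Fintype I]
  [dec : DecidableEq I]
  D : Dat I (Fin m × ℕ)
  odd_iff : ∀ l, D.odd l ↔ Odd l.2
  e : ∀ a, I → W.coh (X a)
  e_ne : ∀ a x, (D.typ x).1 ≠ a → e a x = 0
  e_gr : ∀ a x, e a x ∈ W.gr (X a) (D.typ x).2
  e_psi : ∀ a x y, (D.typ x).1 = a → (D.typ y).1 = a →
    psi W (X a) (ξ a) (Lam a) (lam a).slm.internal (e a x) (e a y)
      = if y = D.τ x then D.s x else 0
  e_span : ∀ a, Submodule.span ℂ (Set.range (e a)) = ⊤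

attribute [instance] Host.fin Host.dec

noncomputable section

namespace Host

variable {W : CohomologyData.{u, 0, w} k ℂ} {𝒱 : VarietyClass k} (H : Host W 𝒱 m)

theorem memP (P : Prd m) : 𝒱.mem (P.obj H.X) (P.dim H.n) := FL.memP H.mem P

/-- the dual Lefschetz operator of a product -/
def LamP : (P : Prd m) → Module.End ℂ (W.coh (P.obj H.X))
  | .leaf a => H.Lam a
  | .prod P Q => lamProd H.hW (H.memP P) (H.memP Q) (LamP P) (LamP Q)

theorem lamP : (P : Prd m) →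
    LamData W (P.obj H.X) (P.dim H.n) (P.pol W H.ξ) (H.LamP P) ∧
      P.pol W H.ξ ∈ W.alg (P.obj H.X) 1
  | .leaf a => ⟨H.lam a, H.ξ_alg a⟩
  | .prod P Q => by
    obtain ⟨h1, h1'⟩ := lamP P
    obtain ⟨h2, h2'⟩ := lamP Q
    have hp := 𝒱.prod (H.memP P) (H.memP Q)
    refine ⟨(lmp tal H.hW (H.memP P) (H.memP Q) (H.hW.alg_gr (H.memP P) h1')
      (H.hW.alg_gr (H.memP Q) h2')).2 h1 h2, ?_⟩
    exact add_mem (H.hW.pull_alg hp (H.memP P) _ h1') (H.hW.pull_alg hp (H.memP Q) _ h2')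

/-- the form `ψ` on the cohomology of a product -/
def psiP (P : Prd m) (x y : W.coh (P.obj H.X)) : ℂ :=
  psi W (P.obj H.X) (P.pol W H.ξ) (H.LamP P) (H.lamP P).1.slm.internal x y

/-- the star operator of a product -/
def starP (P : Prd m) : Module.End ℂ (W.coh (P.obj H.X)) :=
  star (H.lamP P).1.slm.internal (Lop W (P.obj H.X) (P.pol W H.ξ)) (H.LamP P)

/-- the exterior product of basis vectors that belongs to a word -/
def E : (P : Prd m) → (Fin P.size → H.I) → W.coh (P.obj H.X)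
  | .leaf a, w => H.e a (w ⟨0, Nat.one_pos⟩)
  | .prod P Q, w => W.pull (fst (P.obj H.X) (Q.obj H.X)) (E P (fun i => w (Fin.castAdd Q.size i)))
      * W.pull (snd (P.obj H.X) (Q.obj H.X)) (E Q (fun i => w (Fin.natAdd P.size i)))

/-- the coordinates of a class -/
def tc (P : Prd m) : W.coh (P.obj H.X) →ₗ[ℂ] Ten H.I P.size :=
  LinearMap.pi fun w => sg H.D w • ((W.tr (P.obj H.X)) ∘ₗ
    (LinearMap.mulRight ℂ (H.starP P (H.E P (H.D.τ ∘ w)))))

theorem tc_apply (P : Prd m) (z : W.coh (P.obj H.X)) (w : Fin P.size → H.I) :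
    H.tc P z w = sg H.D w * H.psiP P z (H.E P (H.D.τ ∘ w)) := rfl

/-- the word `w` does not fit to the factors of `P` -/
def Off (P : Prd m) (w : Fin P.size → H.I) : Prop := ∃ i, (H.D.typ (w i)).1 ≠ P.lw i

/-- the coordinates of the algebraic classes on products of `L` factors -/
def At (L : ℕ) : AddSubgroup (Ten H.I L) :=
  AddSubgroup.closure ({u | L = 0 ∧ ∃ q : ℚ, u = fun _ => (q : ℂ)} ∪
    {u | ∃ (P : Prd m) (h : P.size = L) (z : W.coh (P.obj H.X)), z ∈ tot W (P.obj H.X) ∧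
      u = fun w => H.tc P z (w ∘ Fin.cast h)})

/-- two products with the same factors in the same order (with different brackets) -/
def Rel (P Q : Prd m) : Prop :=
  ∃ (h : P.size = Q.size) (f : P.obj H.X ⟶ Q.obj H.X) (g : Q.obj H.X ⟶ P.obj H.X),
    (∀ w : Fin Q.size → H.I, W.pull f (H.E Q w) = H.E P (w ∘ Fin.cast h)) ∧
    (∀ w : Fin P.size → H.I, W.pull g (H.E P w) = H.E Q (w ∘ Fin.cast h.symm)) ∧
    ∀ i, P.lw i = Q.lw (Fin.cast h i)

/-- Row GE: coordinates. -/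
structure GeFacts : Prop where
  expand : ∀ P z, z = ∑ w, H.tc P z w • H.E P w
  inj : ∀ P, Function.Injective (H.tc P)
  tc_outer : ∀ (P Q : Prd m) (y : W.coh (P.obj H.X)) (x : W.coh (Q.obj H.X)),
    H.tc (.prod P Q) (W.pull (fst (P.obj H.X) (Q.obj H.X)) y
      * W.pull (snd (P.obj H.X) (Q.obj H.X)) x) = outer (H.tc P y) (H.tc Q x)
  tc_off : ∀ P z w, H.Off P w → H.tc P z w = 0
  E_off : ∀ P w, H.Off P w → H.E P w = 0
  tc_sum : ∀ (P : Prd m) (u : Ten H.I P.size), (∀ w, H.Off P w → u w = 0) →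
    H.tc P (∑ w, u w • H.E P w) = u
  E_gr : ∀ P w, H.E P w ∈ W.gr (P.obj H.X) (∑ i, (H.D.typ (w i)).2)
  psi_E : ∀ P w w', ¬ H.Off P w → ¬ H.Off P w' →
    H.psiP P (H.E P w) (H.E P w') = if w' = H.D.τ ∘ w then sg H.D w else 0
  psi_tc : ∀ P z z', psiT H.D (H.tc P z) (H.tc P z') = H.psiP P z z'
  even : ∀ (P : Prd m) (z : W.coh (P.obj H.X)), z ∈ tot W (P.obj H.X) →
    ∀ w, H.tc P z w ≠ 0 → Even (∑ i, (H.D.typ (w i)).2)
  /-- spanning by exterior products of basis vectors -/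
  ind : ∀ (P : Prd m) (M : Submodule ℂ (W.coh (P.obj H.X))), (∀ w, H.E P w ∈ M) → M = ⊤

/-- Row GR: change of the brackets. -/
structure RelFacts : Prop where
  refl : ∀ P, H.Rel P P
  symm : ∀ P Q, H.Rel P Q → H.Rel Q P
  trans : ∀ P Q R, H.Rel P Q → H.Rel Q R → H.Rel P R
  prod : ∀ P Q P' Q', H.Rel P P' → H.Rel Q Q' → H.Rel (.prod P Q) (.prod P' Q')
  assoc : ∀ P Q R, H.Rel (.prod (.prod P Q) R) (.prod P (.prod Q R))
  split : ∀ (R : Prd m) (p c : ℕ), 0 < p → 0 < c → R.size = p + c →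
    ∃ P Q : Prd m, P.size = p ∧ Q.size = c ∧ H.Rel R (.prod P Q)
  /-- all products with the same word of labels are related -/
  coh : ∀ (P Q : Prd m) (h : P.size = Q.size), (∀ i, P.lw i = Q.lw (Fin.cast h i)) → H.Rel P Q
  /-- the coordinates of algebraic classes do not depend on the brackets -/
  tc : ∀ (P Q : Prd m), H.Rel P Q → ∃ h : P.size = Q.size, ∀ z : W.coh (Q.obj H.X),
    z ∈ tot W (Q.obj H.X) → ∃ z' : W.coh (P.obj H.X), z' ∈ tot W (P.obj H.X) ∧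
      ∀ w, H.tc P z' w = H.tc Q z (w ∘ Fin.cast h.symm)

/-- Rows GO, GP, GC, GPAR: the system of the coordinates of the algebraic classes. -/
structure AtFacts : Prop where
  /-- in length `0` -/
  zero : ∀ u, u ∈ H.At 0 ↔ ∃ q : ℚ, u = fun _ => (q : ℂ)
  rat : ∀ (L : ℕ) (q : ℚ), ∀ u ∈ H.At L, (q : ℂ) • u ∈ H.At L
  /-- row GO -/
  outer : ∀ (p q : ℕ), ∀ u ∈ H.At p, ∀ v ∈ H.At q, outer u v ∈ H.At (p + q)
  /-- row GP -/
  perm : ∀ (L : ℕ) (σ : Equiv.Perm (Fin L)), ∀ u ∈ H.At L, permT σ u ∈ H.At L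
  /-- row GC -/
  cont : ∀ (p c : ℕ), ∀ u ∈ H.At p, ∀ v ∈ H.At (p + c), cont H.D u v ∈ H.At c
  /-- row GC -/
  om : ∀ α, om H.D α ∈ H.At 2
  /-- row GPAR -/
  par : ∀ (L : ℕ), ∀ u ∈ H.At L, jT H.D (jT H.D u) = u

/-- Row GPOS: positivity in the lengths at most `N`. -/
def Pos (N : ℕ) : Prop := ∀ L ≤ N, ∀ u ∈ H.At L, u ≠ 0 → RatPos (psiT H.D u u)

/-- Row GT: an inner real structure that fixes the algebraic classes of level `N`. -/
def Fix (N : ℕ) (g : Matrix H.I H.I ℂ) : Prop :=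
  IsG H.D g ∧ ∀ L ≤ N, ∀ u ∈ H.At L, gT g (jT H.D (gT g⁻¹ u)) = u

/-- Row GJ: the real structures on all products. -/
structure JFacts (N : ℕ) (g : Matrix H.I H.I ℂ)
    (J : ∀ P : Prd m, W.coh (P.obj H.X) →ₛₗ[starRingEnd ℂ] W.coh (P.obj H.X)) : Prop where
  rs : ∀ P, IsRS W (P.obj H.X) (P.dim H.n) (P.pol W H.ξ) (H.LamP P) (J P)
  prod : ∀ (P Q : Prd m) (y : W.coh (P.obj H.X)) (x : W.coh (Q.obj H.X)),
    J (.prod P Q) (W.pull (fst (P.obj H.X) (Q.obj H.X)) y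
        * W.pull (snd (P.obj H.X) (Q.obj H.X)) x)
      = W.pull (fst (P.obj H.X) (Q.obj H.X)) (J P y)
        * W.pull (snd (P.obj H.X) (Q.obj H.X)) (J Q x)
  tc : ∀ P z, H.tc P (J P z) = gT g (jT H.D (gT g⁻¹ (H.tc P z)))
  fix : ∀ P : Prd m, P.size ≤ N → ∀ z : W.coh (P.obj H.X), z ∈ tot W (P.obj H.X) → J P z = z
  cor : ∀ P Q : Prd m, P.size + Q.size ≤ N → ∀ γ : W.coh (P.obj H.X ⊗ Q.obj H.X),
    γ ∈ tot W (P.obj H.X ⊗ Q.obj H.X) → ∀ s, J Q (W.push (snd (P.obj H.X) (Q.obj H.X)) (W.pull (fst (P.obj H.X) (Q.obj H.X)) s * γ))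
      = W.push (snd (P.obj H.X) (Q.obj H.X)) (W.pull (fst (P.obj H.X) (Q.obj H.X)) (J P s) * γ)

end Host

end

/-! ### Statements of the rows -/

/-- Row GB: adapted bases exist. -/
def GbStatement : Prop :=
  ∀ {k : Type u} [Field k] {W : CohomologyData.{u, 0, w} k ℂ} {𝒱 : VarietyClass k}
    (_ : IsWeilCohomology W 𝒱) {m : ℕ} {X : Fin m → Sch k} {n : Fin m → ℕ}
    (_ : ∀ a, 𝒱.mem (X a) (n a)) {ξ : ∀ a, W.coh (X a)} (_ : ∀ a, ξ a ∈ W.alg (X a) 1)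
    (_ : ∀ a, HardLefschetz W (X a) (n a) (ξ a)) (_ : ∀ a, AlgebraicLambda W (X a) (n a) (ξ a)),
    ∃ H : Host W 𝒱 m, H.X = X ∧ H.n = n ∧ HEq H.ξ ξ

/-- Row GE. -/
def GeStatement : Prop :=
  ∀ {k : Type u} [Field k] {W : CohomologyData.{u, 0, w} k ℂ} {𝒱 : VarietyClass k} {m : ℕ}
    (H : Host W 𝒱 m), H.GeFacts

/-- Row GR. -/
def GrStatement : Prop :=
  ∀ {k : Type u} [Field k] {W : CohomologyData.{u, 0, w} k ℂ} {𝒱 : VarietyClass k} {m : ℕ}
    (H : Host W 𝒱 m), H.RelFacts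

/-- Rows GO, GP, GC, GPAR. -/
def AtStatement : Prop :=
  ∀ {k : Type u} [Field k] {W : CohomologyData.{u, 0, w} k ℂ} {𝒱 : VarietyClass k} {m : ℕ}
    (H : Host W 𝒱 m), H.AtFacts

/-- Row GPOS. -/
def GposStatement : Prop :=
  ∀ {k : Type u} [Field k] {W : CohomologyData.{u, 0, w} k ℂ} {𝒱 : VarietyClass k} {m : ℕ}
    (H : Host W 𝒱 m) (N : ℕ),
    (∀ a, PositiveDivisor W (H.X a) (H.n a) (H.ξ a)) →
    (∀ P : Prd m, P.size = N → HodgeType W (P.obj H.X) (P.dim H.n) (P.pol W H.ξ)) → H.Pos N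

/-- Row GT (from `YStatement`). -/
def GtStatement : Prop :=
  ∀ {k : Type u} [Field k] {W : CohomologyData.{u, 0, w} k ℂ} {𝒱 : VarietyClass k} {m : ℕ}
    (H : Host W 𝒱 m) (N : ℕ), H.Pos N → ∃ g, H.Fix N g

/-- Row GJ. -/
def GjStatement : Prop :=
  ∀ {k : Type u} [Field k] {W : CohomologyData.{u, 0, w} k ℂ} {𝒱 : VarietyClass k} {m : ℕ}
    (H : Host W 𝒱 m) (N : ℕ) (_ : 2 ≤ N) (g : Matrix H.I H.I ℂ), H.Fix N g →
    ∃ J, H.JFacts N g J

/-- Row GM: the real structures fix everything that is generated in level `N`. -/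
def GmStatement : Prop :=
  ∀ {k : Type u} [Field k] {W : CohomologyData.{u, 0, w} k ℂ} {𝒱 : VarietyClass k} {m : ℕ}
    (H : Host W 𝒱 m) (N : ℕ) (_ : 2 ≤ N) (g : Matrix H.I H.I ℂ) (J) (_ : H.JFacts N g J),
    ∀ P z, Gen W H.X N P z → J P z = z

/-- Row GQ: positivity on everything that is generated. -/
def GqStatement : Prop :=
  ∀ {k : Type u} [Field k] {W : CohomologyData.{u, 0, w} k ℂ} {𝒱 : VarietyClass k} {m : ℕ}
    (H : Host W 𝒱 m) (N : ℕ) (g : Matrix H.I H.I ℂ) (J) (_ : H.JFacts N g J),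
    (∀ P z, Gen W H.X N P z → J P z = z) → ∀ (P : Prd m) (η : W.coh (P.obj H.X)),
    IsPol W H.ξ P η → HodgeOn W (P.obj H.X) (P.dim H.n) η (genSpan W H.X N P)

/-- Theorem R with coefficients in `ℂ`. -/
def RcStatement : Prop :=
  ∀ {k : Type u} [Field k] {W : CohomologyData.{u, 0, w} k ℂ} {𝒱 : VarietyClass k}
    (_ : IsWeilCohomology W 𝒱) {m : ℕ} {X : Fin m → Sch k} {n : Fin m → ℕ}
    (_ : ∀ a, 𝒱.mem (X a) (n a)) {ξ : ∀ a, W.coh (X a)}
    (_ : ∀ a, PositiveDivisor W (X a) (n a) (ξ a))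
    (_ : ∀ a, HardLefschetz W (X a) (n a) (ξ a))
    (_ : ∀ a, AlgebraicLambda W (X a) (n a) (ξ a)) (N : ℕ) (_ : 2 ≤ N)
    (_ : ∀ P : Prd m, P.size = N → HodgeType W (P.obj X) (P.dim n) (P.pol W ξ))
    (P : Prd m) (η : W.coh (P.obj X)) (_ : IsPol W ξ P η),
    HodgeOn W (P.obj X) (P.dim n) η (genSpan W X N P)

/-- Row GBC: extension of the coefficients. -/
def GbcStatement : Prop := RcStatement.{u, w} → ThmRStatement.{u, v, w}

end Pool.Agent.Lib.MP_361a6f_ag.FL
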