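import Pool.Agent.Lib.MP_361a6f_ag.FL.AlgDefs

/-!
# Theorems X and Y from their rows
-/

open Filter Topology MeasureTheory

set_option linter.unusedSectionVars false

namespace Pool.Agent.Lib.MP_361a6f_ag.FL

namespace XY

variable {I Λ ι : Type} [Fintype I] [DecidableEq I] [DecidableEq Λ] [Fintype ι] {len : ι → ℕ}
  (D : Dat I Λ)

omit [Fintype ι] [DecidableEq Λ] in
theorem gT_zero_len {L : ℕ} (h : L = 0) (g : Matrix I I ℂ) (u : Ten I L) : gT g u = u := by
  subst h
  funext w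
  unfold gT
  rw [Fintype.sum_eq_single w (fun w' hw' => absurd (Subsingleton.elim w' w) hw')]
  simp

omit [Fintype I] [DecidableEq I] [DecidableEq Λ] in
theorem s_mul (i : I) : (¬ D.odd (D.typ i) → D.s i * D.s (D.τ i) = 1) ∧
    (D.odd (D.typ i) → D.s i * D.s (D.τ i) = -1) := by
  constructor
  · intro h
    obtain ⟨h1, h2⟩ := D.even_τ i h
    rw [h1, h2, one_mul]
  · intro h
    obtain ⟨_, h2⟩ := D.odd_τ i h
    rw [h2]
    rcases D.s_val i with h3 | h3 <;> rw [h3] <;> norm_num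

omit [Fintype I] [DecidableEq I] [DecidableEq Λ] in
theorem s_typ {i j : I} (h : D.typ i = D.typ j) :
    D.s i * D.s (D.τ i) = D.s j * D.s (D.τ j) := by
  by_cases ho : D.odd (D.typ i)
  · rw [(s_mul D i).2 ho, (s_mul D j).2 (h ▸ ho)]
  · rw [(s_mul D i).1 ho, (s_mul D j).1 (fun h' => ho (h ▸ h'))]

omit [Fintype I] [DecidableEq I] [DecidableEq Λ] in
theorem conj_sg {L : ℕ} (w : Fin L → I) : (starRingEnd ℂ) (sg D w) = sg D w := by
  unfold sg
  rw [map_prod]
  refine Finset.prod_congr rfl fun i _ => ?_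
  rcases D.s_val (w i) with h | h <;> rw [h] <;> simp

omit [Fintype I] [DecidableEq I] [DecidableEq Λ] in
theorem jT_jT {L : ℕ} (u : Ten I L) (w : Fin L → I) :
    jT D (jT D u) w = (∏ i, D.s (w i) * D.s (D.τ (w i))) * u w := by
  unfold jT
  have h : D.τ ∘ (D.τ ∘ w) = w := by
    funext i
    exact D.τ_τ (w i)
  rw [h, map_mul, conj_sg, Complex.conj_conj, ← mul_assoc, Finset.prod_mul_distrib,
    mul_comm (∏ i, D.s (w i))]
  rfl

omit [DecidableEq Λ] in
theorem jT_jT_gT {L : ℕ} (g : Matrix I I ℂ) (hg : IsG D g) (u : Ten I L) :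
    jT D (jT D (gT g u)) = gT g (jT D (jT D u)) := by
  funext w
  rw [jT_jT]
  unfold gT
  rw [Finset.mul_sum]
  refine Finset.sum_congr rfl fun w' _ => ?_
  rw [jT_jT]
  by_cases h : ∀ i, D.typ (w i) = D.typ (w' i)
  · have : (∏ i, D.s (w i) * D.s (D.τ (w i))) = ∏ i, D.s (w' i) * D.s (D.τ (w' i)) :=
      Finset.prod_congr rfl fun i _ => s_typ D (h i)
    rw [this]
    ring
  · push Not at h
    obtain ⟨i, hi⟩ := h
    have : (∏ i, g (w i) (w' i)) = 0 :=
      Finset.prod_eq_zero (Finset.mem_univ i) (hg.1 _ _ hi)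
    rw [this]
    ring

variable {D}

/-- transport of the complex span of the diagrams -/
theorem gT_MT (a1 : Alg1) (a2 : Alg2) {g : Matrix I I ℂ} (hg : IsG D g) {s t : Tup I len}
    (h : gS g s = t) {c : ℕ} {u : Ten I c} (hu : u ∈ MT D s c) : gT g u ∈ MT D t c := by
  unfold MT at hu
  induction hu using Submodule.span_induction with
  | mem x hx =>
    obtain ⟨l, m, hm, rfl⟩ := hx
    refine Submodule.subset_span ⟨l, m, hm, ?_⟩
    rw [← h, a2.dm_gS D c l m g s hm hg]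
  | zero =>
    have : gT g (0 : Ten I c) = 0 := by
      have := a1.gT_smul g 0 (0 : Ten I c)
      rwa [zero_smul, zero_smul] at this
    rw [this]
    exact zero_mem _
  | add x y _ _ hx hy =>
    rw [a1.gT_add]
    exact add_mem hx hy
  | smul a x _ hx =>
    rw [a1.gT_smul]
    exact Submodule.smul_mem _ _ hx

/-- transport of the real span of the diagrams -/
theorem gT_RT (a1 : Alg1) (a2 : Alg2) {g : Matrix I I ℂ} (hg : IsG D g) {s t : Tup I len}
    (h : gS g s = t) {c : ℕ} {u : Ten I c} (hu : u ∈ RT D s c) : gT g u ∈ RT D t c := by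
  unfold RT at hu
  induction hu using Submodule.span_induction with
  | mem x hx =>
    obtain ⟨l, m, hm, rfl⟩ := hx
    refine Submodule.subset_span ⟨l, m, hm, ?_⟩
    rw [← h, a2.dm_gS D c l m g s hm hg]
  | zero =>
    have : gT g (0 : Ten I c) = 0 := by
      have := a1.gT_smul g 0 (0 : Ten I c)
      rwa [zero_smul, zero_smul] at this
    rw [this]
    exact zero_mem _
  | add x y _ _ hx hy =>
    rw [a1.gT_add]
    exact add_mem hx hy
  | smul a x _ hx =>
    have h1 : gT g (a • x) = a • gT g x := by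
      have h2 := a1.gT_smul g (a : ℂ) x
      have h3 : ∀ y : Ten I c, ((a : ℂ) • y) = a • y := by
        intro y
        funext w
        simp
      rwa [h3, h3] at h2
    rw [h1]
    exact Submodule.smul_mem _ _ hx

theorem inv_gS (a1 : Alg1) {g : Matrix I I ℂ} (hg : IsG D g) {s t : Tup I len}
    (h : gS g s = t) : gS g⁻¹ t = s := by
  rw [← h]
  funext i
  change gT g⁻¹ (gT g (s i)) = s i
  rw [← a1.gT_mul, (a1.G_inv D g hg).2.2, a1.gT_one]

theorem gT_inv (a1 : Alg1) {g : Matrix I I ℂ} (hg : IsG D g) {c : ℕ} (v : Ten I c) :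
    gT g (gT g⁻¹ v) = v := by
  rw [← a1.gT_mul, (a1.G_inv D g hg).2.1, a1.gT_one]

theorem inv_gT (a1 : Alg1) {g : Matrix I I ℂ} (hg : IsG D g) {c : ℕ} (v : Ten I c) :
    gT g⁻¹ (gT g v) = v := by
  rw [← a1.gT_mul, (a1.G_inv D g hg).2.2, a1.gT_one]

/-- positivity is transported -/
theorem posAt_gS (a1 : Alg1) (a2 : Alg2) {g : Matrix I I ℂ} (hg : IsG D g) {s t : Tup I len}
    (h : gS g s = t) {c : ℕ} (hp : PosAt D t c) : PosAt D s c := by
  intro u hu hne
  have h1 : gT g u ∈ RT D t c := gT_RT a1 a2 hg h hu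
  have h2 : gT g u ≠ 0 := by
    intro h3
    apply hne
    rw [← inv_gT a1 hg u, h3]
    have := a1.gT_smul g⁻¹ 0 (0 : Ten I c)
    rwa [zero_smul, zero_smul] at this
  obtain ⟨r, hr, hr'⟩ := hp _ h1 h2
  exact ⟨r, hr, by rw [← hr', a1.psiT_gT D g u u hg]⟩

/-- the unit component of a limit -/
theorem hS_ne (a1 : Alg1) {t s : Tup I len} (i₀ : ι) (h0 : len i₀ = 0) (h1 : ∀ w, t i₀ w = 1)
    (g : ℕ → Matrix I I ℂ) (hlim : Tendsto (fun j => gS (g j) t) atTop (𝓝 s)) :
    hS s s ≠ 0 := by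
  have hs : s i₀ = t i₀ := by
    have h2 : Tendsto (fun j => gS (g j) t i₀) atTop (𝓝 (s i₀)) :=
      (tendsto_pi_nhds.mp hlim) i₀
    have h3 : (fun j => gS (g j) t i₀) = fun _ => t i₀ := by
      funext j
      exact gT_zero_len h0 (g j) (t i₀)
    rw [h3] at h2
    exact tendsto_nhds_unique h2 tendsto_const_nhds |>.symm ▸ rfl
  have h4 : hS s s = ((∑ i, ∑ w, ‖s i w‖ ^ 2 : ℝ) : ℂ) := by
    unfold hS
    rw [Complex.ofReal_sum]
    exact Finset.sum_congr rfl fun i _ => a1.hT_self (s i)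
  rw [h4]
  have hw : ∃ w : Fin (len i₀) → I, True := ⟨fun i => (Fin.elim0 (h0 ▸ i)), trivial⟩
  obtain ⟨w₀, _⟩ := hw
  have h5 : (0 : ℝ) < ∑ i, ∑ w, ‖s i w‖ ^ 2 := by
    refine Finset.sum_pos' (fun i _ => Finset.sum_nonneg fun w _ => by positivity)
      ⟨i₀, Finset.mem_univ _, Finset.sum_pos' (fun w _ => by positivity)
        ⟨w₀, Finset.mem_univ _, ?_⟩⟩
    rw [hs, h1 w₀]
    norm_num
  exact_mod_cast h5.ne'

/-- `ψ` is symmetric on the tensors fixed by `J₀ J₀` -/
theorem psiT_symm (a1 : Alg1) {c : ℕ} {u v : Ten I c} (hu : jT D (jT D u) = u)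
    (hv : jT D (jT D v) = v) : psiT D u v = psiT D v u := by
  have h1 : psiT D u v = hT u (jT D v) := by
    conv_lhs => rw [← hv]
    exact a1.psiT_jT D u (jT D v)
  have h2 : psiT D v u = hT v (jT D u) := by
    conv_lhs => rw [← hu]
    exact a1.psiT_jT D v (jT D u)
  rw [h1, h2]
  have h3 := a1.hT_jT_jT D (jT D u) v
  rwa [hu] at h3

/-- the tensors in the complex span are fixed by `J₀ J₀` -/
theorem jj_MT (a1 : Alg1) (a2 : Alg2) {t : Tup I len} (ht : jS D (jS D t) = t) {c : ℕ}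
    {u : Ten I c} (hu : u ∈ MT D t c) : jT D (jT D u) = u := by
  unfold MT at hu
  induction hu using Submodule.span_induction with
  | mem x hx =>
    obtain ⟨l, m, hm, rfl⟩ := hx
    rw [← a2.dm_jS D c l m t hm, ← a2.dm_jS D c l m (jS D t) hm, ht]
  | zero =>
    have : jT D (0 : Ten I c) = 0 := by
      have := a1.jT_smul D 0 (0 : Ten I c)
      rwa [zero_smul, map_zero, zero_smul] at this
    rw [this, this]
  | add x y _ _ hx hy => rw [a1.jT_add, a1.jT_add, hx, hy]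
  | smul a x _ hx => rw [a1.jT_smul, a1.jT_smul, hx, Complex.conj_conj]

theorem RT_le_MT {t : Tup I len} {c : ℕ} {u : Ten I c} (hu : u ∈ RT D t c) : u ∈ MT D t c := by
  unfold RT at hu
  induction hu using Submodule.span_induction with
  | mem x hx => exact Submodule.subset_span hx
  | zero => exact zero_mem _
  | add x y _ _ hx hy => exact add_mem hx hy
  | smul a x _ hx =>
    have : a • x = (a : ℂ) • x := by
      funext w
      simp
    rw [this]
    exact Submodule.smul_mem _ _ hx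

theorem MT_split {t : Tup I len} {c : ℕ} {u : Ten I c} (hu : u ∈ MT D t c) :
    ∃ a ∈ RT D t c, ∃ b ∈ RT D t c, u = a + Complex.I • b := by
  unfold MT at hu
  induction hu using Submodule.span_induction with
  | mem x hx => exact ⟨x, Submodule.subset_span hx, 0, zero_mem _, by simp⟩
  | zero => exact ⟨0, zero_mem _, 0, zero_mem _, by simp⟩
  | add x y _ _ hx hy =>
    obtain ⟨a, ha, b, hb, rfl⟩ := hx
    obtain ⟨a', ha', b', hb', rfl⟩ := hy
    exact ⟨a + a', add_mem ha ha', b + b', add_mem hb hb', by rw [smul_add]; abel⟩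
  | smul z x _ hx =>
    obtain ⟨a, ha, b, hb, rfl⟩ := hx
    refine ⟨z.re • a - z.im • b, sub_mem (Submodule.smul_mem _ _ ha) (Submodule.smul_mem _ _ hb),
      z.im • a + z.re • b, add_mem (Submodule.smul_mem _ _ ha) (Submodule.smul_mem _ _ hb), ?_⟩
    funext w
    simp only [Pi.smul_apply, Pi.add_apply, Pi.sub_apply, smul_eq_mul, Complex.real_smul]
    conv_lhs => rw [← Complex.re_add_im z]
    linear_combination (z.im * b w : ℂ) * Complex.I_mul_I

theorem psiT_expand {c : ℕ} (a b : Ten I c) (x y : ℂ) :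
    psiT D (a + x • b) (a + y • b)
      = psiT D a a + y * psiT D a b + x * psiT D b a + x * y * psiT D b b := by
  unfold psiT
  simp only [Finset.mul_sum, ← Finset.sum_add_distrib]
  refine Finset.sum_congr rfl fun w _ => ?_
  simp only [Pi.add_apply, Pi.smul_apply, smul_eq_mul]
  ring

/-- positivity implies nondegeneracy -/
theorem ndAt_of_posAt (a1 : Alg1) (a2 : Alg2) {t : Tup I len} (ht : jS D (jS D t) = t) {c : ℕ}
    (hp : PosAt D t c) : NdAt D t c := by
  intro u hu hne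
  obtain ⟨a, ha, b, hb, rfl⟩ := MT_split hu
  refine ⟨a + (-Complex.I) • b, add_mem (RT_le_MT ha) (Submodule.smul_mem _ _ (RT_le_MT hb)), ?_⟩
  rw [psiT_expand, psiT_symm a1 (jj_MT a1 a2 ht (RT_le_MT hb)) (jj_MT a1 a2 ht (RT_le_MT ha))]
  have h0 : psiT D (0 : Ten I c) 0 = 0 := by simp [psiT]
  have hq : ∀ x ∈ RT D t c, ∃ r : ℝ, 0 ≤ r ∧ psiT D x x = (r : ℂ) ∧ (x ≠ 0 → 0 < r) := by
    intro x hx
    by_cases h : x = 0
    · exact ⟨0, le_rfl, by rw [h, h0]; simp, fun h' => absurd h h'⟩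
    · obtain ⟨r, hr, hr'⟩ := hp x hx h
      exact ⟨r, hr.le, hr', fun _ => hr⟩
  obtain ⟨r, hr, hr', hr''⟩ := hq a ha
  obtain ⟨q, hq0, hq', hq''⟩ := hq b hb
  rw [hr', hq']
  have h1 : (r : ℂ) + -Complex.I * psiT D a b + Complex.I * psiT D a b
      + Complex.I * -Complex.I * (q : ℂ) = ((r + q : ℝ) : ℂ) := by
    push_cast
    linear_combination (-(q : ℂ)) * Complex.I_mul_I
  rw [h1]
  have h2 : 0 < r + q := by
    by_cases h : a = 0
    · have hb0 : b ≠ 0 := by
        rintro rfl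
        exact hne (by rw [h]; simp)
      have := hq'' hb0
      linarith
    · have := hr'' h
      linarith
  exact_mod_cast h2.ne'

/-- the closed orbit and its minimal point -/
theorem orbit (a1 : Alg1) (cpt : CptStatement) (mn : MinStatement) (clo : CloStatement)
    (t : Tup I len) (hnd : ∀ i, NdAt D t (len i)) (h1 : ∃ i, len i = 0 ∧ ∀ w, t i w = 1) :
    ∃ (s : Tup I len) (g : Matrix I I ℂ), Minimal D s ∧ hS s s ≠ 0 ∧ IsG D g ∧ gS g s = t := by
  obtain ⟨i₀, h0, h1⟩ := h1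
  obtain ⟨s, g, hg, hlim, hmin⟩ := mn D t
  have hne := hS_ne a1 i₀ h0 h1 g hlim
  obtain ⟨H⟩ := cpt D
  obtain ⟨x, hx, hx'⟩ := clo H t s hnd hne hmin g hg hlim
  exact ⟨s, x, hmin, hne, hx, hx'⟩

/-- invariants of the stabiliser -/
theorem inv_stab (a1 : Alg1) {s t : Tup I len} {g : Matrix I I ℂ} (hg : IsG D g)
    (h : gS g s = t) {c : ℕ} {v : Ten I c} (hv : ∀ x, IsG D x → gS x t = t → gT x v = v)
    {x : Matrix I I ℂ} (hx : IsG D x) (hxs : gS x s = s) : gT x (gT g⁻¹ v) = gT g⁻¹ v := by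
  have h1 : IsG D (g * x * g⁻¹) := a1.G_mul D _ _ (a1.G_mul D _ _ hg hx) (a1.G_inv D g hg).1
  have h2 : gS (g * x * g⁻¹) t = t := by
    have h3 := inv_gS a1 hg h
    funext i
    change gT (g * x * g⁻¹) (t i) = t i
    rw [a1.gT_mul, a1.gT_mul]
    have h4 : gT g⁻¹ (t i) = s i := congrFun h3 i
    have h5 : gT x (s i) = s i := congrFun hxs i
    have h6 : gT g (s i) = t i := congrFun h i
    rw [h4, h5, h6]
  have h7 := hv _ h1 h2
  rw [a1.gT_mul, a1.gT_mul] at h7
  have h8 := congrArg (gT g⁻¹) h7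
  rwa [inv_gT a1 hg] at h8

end XY

open XY

/-- Theorem X. -/
theorem thmX (a1 : Alg1) (a2 : Alg2) (cpt : CptStatement) (mn : MinStatement)
    (clo : CloStatement) (l2 : L2Statement) : XStatement := by
  intro I Λ ι _ _ _ _ len D t hnd hunit
  obtain ⟨s, g, hmin, hne, hg, hgs⟩ := orbit a1 cpt mn clo t hnd hunit
  obtain ⟨H⟩ := cpt D
  refine ⟨g, hg, fun c v hv => ?_⟩
  have key : ∀ k, gS (H.mat k) s = s → gT (H.mat k) (gT g⁻¹ v) = gT g⁻¹ v :=
    fun k hk => inv_stab a1 hg hgs hv (H.mem k).1 hk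
  have hinv : IsG D g⁻¹ := (a1.G_inv D g hg).1
  constructor
  · have h1 := l2 H s hmin hne c (gT g⁻¹ v) key
    have h2 := gT_MT a1 a2 hg hgs h1
    rwa [gT_inv a1 hg] at h2
  · refine gT_MT a1 a2 hg hgs (l2 H s hmin hne c _ fun k hk => ?_)
    rw [← a1.jT_gT D _ _ (H.mem k), key k hk]

/-- Theorem Y. -/
theorem thmY (a1 : Alg1) (a2 : Alg2) (cpt : CptStatement) (mn : MinStatement)
    (clo : CloStatement) (l2 : L2Statement) (real : RealStatement) : YStatement := by
  intro I Λ ι _ _ _ _ len D t hpos hunit hjj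
  have hnd : ∀ i, NdAt D t (len i) := fun i => ndAt_of_posAt a1 a2 hjj (hpos i)
  obtain ⟨s, g, hmin, hne, hg, hgs⟩ := orbit a1 cpt mn clo t hnd hunit
  obtain ⟨H⟩ := cpt D
  have hinv : IsG D g⁻¹ := (a1.G_inv D g hg).1
  have hs := inv_gS a1 hg hgs
  have hjs : jS D (jS D s) = s := by
    rw [← hs]
    funext i
    change jT D (jT D (gT g⁻¹ (t i))) = gT g⁻¹ (t i)
    rw [jT_jT_gT D _ hinv]
    have : jT D (jT D (t i)) = t i := congrFun hjj i
    rw [this]
  have hpos0 : PosAt D t 0 := by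
    obtain ⟨i₀, h0, _⟩ := hunit
    have := hpos i₀
    rwa [h0] at this
  have hreal : jS D s = s := real H s hmin hne (fun i => posAt_gS a1 a2 hg hgs (hpos i))
    (posAt_gS a1 a2 hg hgs hpos0) hjs
  refine ⟨g, hg, fun i => ?_, fun c v hv => ?_⟩
  · have h1 : gT g⁻¹ (t i) = s i := congrFun hs i
    have h2 : jT D (s i) = s i := congrFun hreal i
    rw [h1, h2]
    exact congrFun hgs i
  · have h1 := l2 H s hmin hne c (gT g⁻¹ v)
      (fun k hk => inv_stab a1 hg hgs hv (H.mem k).1 hk)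
    have h2 := gT_MT a1 a2 hg hgs h1
    rwa [gT_inv a1 hg] at h2

end Pool.Agent.Lib.MP_361a6f_ag.FL
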