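import Pool.Agent.Lib.MP_361a6f_ag.FL.GeoCont

/-!
# Antilinear structures that fix the algebraic classes on products of two factors commute with the
algebraic correspondences
-/

open CategoryTheory AlgebraicGeometry MonoidalCategory CartesianMonoidalCategory

universe u v w

set_option autoImplicit false
set_option linter.unusedSectionVars false

namespace Pool.Agent.Lib.MP_361a6f_ag.FL

open Pool.Agent.Lib.MP_361a6f_ag.H3 Pool.Agent.Lib.MP_361a6f_ag.SQ
  Pool.Agent.Lib.MP_361a6f_ag.IP2 Pool.Agent.Lib.MP_361a6f_ag.PP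

namespace GeoJ

variable {k : Type u} [Field k] {W : CohomologyData.{u, 0, w} k ℂ} {𝒱 : VarietyClass k}

/-- `γ` is fixed by `j ⊗ j` -/
def Fixed (W : CohomologyData.{u, 0, w} k ℂ) {X Y : Sch k}
    (jX : W.coh X →ₛₗ[starRingEnd ℂ] W.coh X) (jY : W.coh Y →ₛₗ[starRingEnd ℂ] W.coh Y)
    (γ : W.coh (X ⊗ Y)) : Prop :=
  ∃ (N : ℕ) (a : Fin N → W.coh X) (b : Fin N → W.coh Y),
    γ = ∑ ν, W.pull (fst X Y) (a ν) * W.pull (snd X Y) (b ν) ∧
    γ = ∑ ν, W.pull (fst X Y) (jX (a ν)) * W.pull (snd X Y) (jY (b ν))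

section comm

variable (hsta : StaStatement.{w}) (hW : IsWeilCohomology W 𝒱) {X Y : Sch k} {n d : ℕ}
  (hX : 𝒱.mem X n) (hY : 𝒱.mem Y d) {ξ : W.coh X} (hξ : ξ ∈ W.alg X 1)
  {Lam : Module.End ℂ (W.coh X)} (D : LamData W X n ξ Lam)
  {jX : W.coh X →ₛₗ[starRingEnd ℂ] W.coh X} {jY : W.coh Y →ₛₗ[starRingEnd ℂ] W.coh Y}

include hsta hW hX hY hξ in
/-- the operator `cor γ ∘ *` of an exterior product -/
theorem cor_sum_star {N : ℕ} (a : Fin N → W.coh X) (b : Fin N → W.coh Y) (s : W.coh X) :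
    cor W (∑ ν, W.pull (fst X Y) (a ν) * W.pull (snd X Y) (b ν))
        (star D.slm.internal (Lop W X ξ) Lam s)
      = ∑ ν, psi W X ξ Lam D.slm.internal s (a ν) • b ν := by
  rw [cor_apply, Finset.mul_sum, map_sum]
  refine Finset.sum_congr rfl fun ν _ => ?_
  rw [← GeoCont.con_ext hsta hW hX hY hξ D, cor_apply]

include hsta hW hX hY hξ in
/-- if `j ⊗ j` fixes all algebraic classes then `j` commutes with all algebraic
correspondences -/
theorem comm (hconj : ∀ x y, psi W X ξ Lam D.slm.internal (jX x) (jX y)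
      = starRingEnd ℂ (psi W X ξ Lam D.slm.internal x y))
    (hfix : ∀ γ ∈ tot W (X ⊗ Y), Fixed W jX jY γ) {u : W.coh X →ₗ[ℂ] W.coh Y}
    (hu : AlgCor W X Y u) (s : W.coh X) : jY (u s) = u (jX s) := by
  have hSS : ∀ x, star D.slm.internal (Lop W X ξ) Lam
      (star D.slm.internal (Lop W X ξ) Lam x) = x := (hsta D.slm).2.1
  have hu' : AlgCor W X Y (u ∘ₗ star D.slm.internal (Lop W X ξ) Lam) :=
    AlgCor.comp hW hX hX hY hu (algOp_star hW hX hξ D)
  obtain ⟨γ, hγ, h⟩ := hu'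
  obtain ⟨N, a, b, h1, h2⟩ := hfix γ hγ
  have h3 : ∀ x, u x = cor W γ (star D.slm.internal (Lop W X ξ) Lam x) := by
    intro x
    rw [cor_apply, ← h, LinearMap.comp_apply, hSS]
  have h4 : u s = ∑ ν, psi W X ξ Lam D.slm.internal s (a ν) • b ν := by
    rw [h3, h1, cor_sum_star hsta hW hX hY hξ D]
  have h5 : u (jX s) = ∑ ν, psi W X ξ Lam D.slm.internal (jX s) (jX (a ν)) • jY (b ν) := by
    rw [h3, h2, cor_sum_star hsta hW hX hY hξ D]
  rw [h4, h5, map_sum]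
  refine Finset.sum_congr rfl fun ν _ => ?_
  rw [LinearMap.map_smulₛₗ, hconj]

end comm

section rs

variable (hsta : StaStatement.{w}) (hW : IsWeilCohomology W 𝒱) {X : Sch k} {n : ℕ}
  (hX : 𝒱.mem X n) {ξ : W.coh X} (hξ : ξ ∈ W.alg X 1)
  {Lam : Module.End ℂ (W.coh X)} (D : LamData W X n ξ Lam)
  {j : W.coh X →ₛₗ[starRingEnd ℂ] W.coh X}

include hsta hW hX hξ in
/-- the real structure -/
theorem isRS (hgr : ∀ i x, x ∈ W.gr X i → j x ∈ W.gr X i) (hone : j 1 = 1)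
    (hconj : ∀ x y, psi W X ξ Lam D.slm.internal (j x) (j y)
      = starRingEnd ℂ (psi W X ξ Lam D.slm.internal x y))
    (hpos : ∀ x, x ≠ 0 → ∃ r : ℝ, 0 < r ∧
      psi W X ξ Lam D.slm.internal x (j x) = (r : ℂ))
    (hcomm : ∀ u : Module.End ℂ (W.coh X), AlgOp W X u → ∀ s, j (u s) = u (j s)) :
    IsRS W X n ξ Lam j := by
  have hstar : ∀ s, j (star D.slm.internal (Lop W X ξ) Lam s)
      = star D.slm.internal (Lop W X ξ) Lam (j s) := hcomm _ (algOp_star hW hX hξ D)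
  have hSS : ∀ x, star D.slm.internal (Lop W X ξ) Lam
      (star D.slm.internal (Lop W X ξ) Lam x) = x := (hsta D.slm).2.1
  refine ⟨D.slm, hgr, fun x => hcomm _ (algOp_Lop hW hX hξ D) x, fun x => hcomm _ D.alg x, hone,
    fun x y => ?_, hpos⟩
  have h1 : ∀ y, psi W X ξ Lam D.slm.internal x (star D.slm.internal (Lop W X ξ) Lam y)
      = W.tr X (x * y) := fun y => by rw [psi, hSS]
  have h2 : W.tr X (j x * j y) = psi W X ξ Lam D.slm.internal (j x)
      (star D.slm.internal (Lop W X ξ) Lam (j y)) := by rw [psi, hSS]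
  rw [h2, ← hstar, hconj, h1]

end rs

end GeoJ

end Pool.Agent.Lib.MP_361a6f_ag.FL
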