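import Pool.Agent.Lib.MP_361a6f_ag.FL.GeoDefs
import Pool.Agent.Lib.MP_361a6f_ag.FL.GeoJ

/-!
# Row GJ: the real structures on all products
-/

open CategoryTheory AlgebraicGeometry MonoidalCategory CartesianMonoidalCategory

universe u v w

set_option autoImplicit false
set_option linter.unusedSectionVars false

namespace Pool.Agent.Lib.MP_361a6f_ag.FL

open Pool.Agent.Lib.MP_361a6f_ag.H3 Pool.Agent.Lib.MP_361a6f_ag.SQ
  Pool.Agent.Lib.MP_361a6f_ag.IP2 Pool.Agent.Lib.MP_361a6f_ag.PP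

namespace GJ

/-! ### The antilinear operator on tensors -/

section ten

variable {I Λ : Type} [Fintype I] [DecidableEq I] [DecidableEq Λ] (D : Dat I Λ)
  (g : Matrix I I ℂ)

/-- the conjugate of `J₀` by `g` -/
noncomputable def JT {L : ℕ} (u : Ten I L) : Ten I L := gT g (jT D (gT g⁻¹ u))

variable (a1 : Alg1)

include a1

theorem JT_add {L : ℕ} (u v : Ten I L) : JT D g (u + v) = JT D g u + JT D g v := by
  rw [JT, a1.gT_add, a1.jT_add, a1.gT_add]; rfl

theorem JT_smul {L : ℕ} (c : ℂ) (u : Ten I L) :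
    JT D g (c • u) = (starRingEnd ℂ) c • JT D g u := by
  rw [JT, a1.gT_smul, a1.jT_smul, a1.gT_smul]; rfl

variable {g} (hg : IsG D g)

include hg

theorem psi_JT_JT {L : ℕ} (u v : Ten I L) :
    psiT D (JT D g u) (JT D g v) = (starRingEnd ℂ) (psiT D u v) := by
  have hi := (a1.G_inv D g hg).1
  rw [JT, JT, a1.psiT_gT D g _ _ hg, a1.psiT_jT_jT, a1.psiT_gT D g⁻¹ _ _ hi]

theorem psi_JT {L : ℕ} (u : Ten I L) :
    psiT D u (JT D g u) = hT (gT g⁻¹ u) (gT g⁻¹ u) := by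
  have hi := a1.G_inv D g hg
  have h1 := a1.psiT_gT D g⁻¹ u (JT D g u) hi.1
  rw [← h1]
  have h2 : gT g⁻¹ (JT D g u) = jT D (gT g⁻¹ u) := by
    rw [JT, ← a1.gT_mul, hi.2.2, a1.gT_one]
  rw [h2, a1.psiT_jT]

theorem psi_JT_pos {L : ℕ} (u : Ten I L) (hu : u ≠ 0) :
    ∃ r : ℝ, 0 < r ∧ psiT D u (JT D g u) = (r : ℂ) := by
  have hi := a1.G_inv D g hg
  rw [psi_JT D a1 hg]
  set v := gT g⁻¹ u with hv
  have hv0 : v ≠ 0 := by
    intro h0
    apply hu
    have h1 : gT g v = u := by rw [hv, ← a1.gT_mul, hi.2.1, a1.gT_one]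
    rw [← h1, h0]
    have h2 := a1.gT_smul g 0 (0 : Ten I L)
    rwa [zero_smul, zero_smul] at h2
  refine ⟨∑ w, ‖v w‖ ^ 2, ?_, a1.hT_self v⟩
  obtain ⟨w, hw⟩ : ∃ w, v w ≠ 0 := by
    by_contra hcon
    push Not at hcon
    exact hv0 (funext hcon)
  have h3 : ∀ w ∈ (Finset.univ : Finset (Fin L → I)), 0 ≤ ‖v w‖ ^ 2 := fun w _ => by positivity
  have h4 := Finset.single_le_sum h3 (Finset.mem_univ w)
  have h5 : 0 < ‖v w‖ ^ 2 := by positivity
  exact lt_of_lt_of_le h5 h4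

omit hg a1 in
/-- supports that depend only on the letters are preserved -/
theorem gT_supp {g : Matrix I I ℂ} (hg : IsG D g) {L : ℕ} (S : (Fin L → I) → Prop)
    (hS : ∀ w w', (∀ i, D.typ (w i) = D.typ (w' i)) → S w → S w') {u : Ten I L}
    (hu : ∀ w, S w → u w = 0) (w : Fin L → I) (hw : S w) : gT g u w = 0 := by
  rw [gT]
  refine Finset.sum_eq_zero fun w' _ => ?_
  by_cases h : ∀ i, D.typ (w i) = D.typ (w' i)
  · rw [hu w' (hS w w' h hw), mul_zero]
  · push Not at h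
    obtain ⟨i, hi⟩ := h
    rw [Finset.prod_eq_zero (Finset.mem_univ i) (hg.1 _ _ hi), zero_mul]

theorem JT_supp {L : ℕ} (S : (Fin L → I) → Prop)
    (hS : ∀ w w', (∀ i, D.typ (w i) = D.typ (w' i)) → S w → S w') {u : Ten I L}
    (hu : ∀ w, S w → u w = 0) (w : Fin L → I) (hw : S w) : JT D g u w = 0 := by
  have hi := (a1.G_inv D g hg).1
  refine gT_supp D hg S hS ?_ w hw
  intro w hw
  have h1 : gT g⁻¹ u (D.τ ∘ w) = 0 := by
    refine gT_supp D hi S hS hu _ (hS w _ (fun i => ?_) hw)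
    rw [Function.comp_apply, D.typ_τ]
  rw [jT, h1, map_zero, mul_zero]

omit hg in
theorem JT_outer (a2 : Alg2) {p q : ℕ} (u : Ten I p) (v : Ten I q) :
    JT D g (outer u v) = outer (JT D g u) (JT D g v) := by
  rw [JT, a2.outer_gT, a2.outer_jT, a2.outer_gT]; rfl

end ten

/-! ### The real structures -/

variable {k : Type u} [Field k] {W : CohomologyData.{u, 0, w} k ℂ} {𝒱 : VarietyClass k} {m : ℕ}
  (H : Host W 𝒱 m)

/-- the antilinear operator on the cohomology of a product -/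
noncomputable def J (a1 : Alg1) (g : Matrix H.I H.I ℂ) (P : Prd m) :
    W.coh (P.obj H.X) →ₛₗ[starRingEnd ℂ] W.coh (P.obj H.X) where
  toFun z := ∑ w, JT H.D g (H.tc P z) w • H.E P w
  map_add' x y := by
    rw [map_add, JT_add H.D g a1, ← Finset.sum_add_distrib]
    refine Finset.sum_congr rfl fun w _ => ?_
    rw [Pi.add_apply, add_smul]
  map_smul' c x := by
    rw [map_smul, JT_smul H.D g a1, Finset.smul_sum]
    refine Finset.sum_congr rfl fun w _ => ?_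
    rw [Pi.smul_apply, smul_assoc]

variable (a1 : Alg1) (a2 : Alg2) {g : Matrix H.I H.I ℂ} (hg : IsG H.D g) (ge : H.GeFacts)

theorem J_apply (P : Prd m) (z : W.coh (P.obj H.X)) :
    J H a1 g P z = ∑ w, JT H.D g (H.tc P z) w • H.E P w := rfl

include hg ge in
theorem tc_J (P : Prd m) (z : W.coh (P.obj H.X)) :
    H.tc P (J H a1 g P z) = JT H.D g (H.tc P z) := by
  rw [J_apply]
  refine ge.tc_sum P _ ?_
  refine JT_supp H.D a1 hg (H.Off P) ?_ (ge.tc_off P z)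
  rintro w w' h ⟨i, hi⟩
  exact ⟨i, by rw [← h i]; exact hi⟩

include hg ge a2 in
theorem J_prod (P Q : Prd m) (y : W.coh (P.obj H.X)) (x : W.coh (Q.obj H.X)) :
    J H a1 g (.prod P Q) (W.pull (fst (P.obj H.X) (Q.obj H.X)) y
        * W.pull (snd (P.obj H.X) (Q.obj H.X)) x)
      = W.pull (fst (P.obj H.X) (Q.obj H.X)) (J H a1 g P y)
        * W.pull (snd (P.obj H.X) (Q.obj H.X)) (J H a1 g Q x) := by
  refine ge.inj (.prod P Q) ?_
  rw [tc_J H a1 hg ge, ge.tc_outer, ge.tc_outer, tc_J H a1 hg ge, tc_J H a1 hg ge]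
  exact JT_outer H.D a1 a2 _ _

include hg ge in
theorem J_conj (P : Prd m) (x y : W.coh (P.obj H.X)) :
    H.psiP P (J H a1 g P x) (J H a1 g P y) = starRingEnd ℂ (H.psiP P x y) := by
  rw [← ge.psi_tc, ← ge.psi_tc, tc_J H a1 hg ge, tc_J H a1 hg ge, psi_JT_JT H.D a1 hg]

include hg ge in
theorem J_pos (P : Prd m) (x : W.coh (P.obj H.X)) (hx : x ≠ 0) :
    ∃ r : ℝ, 0 < r ∧ H.psiP P x (J H a1 g P x) = (r : ℂ) := by
  rw [← ge.psi_tc, tc_J H a1 hg ge]
  refine psi_JT_pos H.D a1 hg _ fun h0 => hx (ge.inj P ?_)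
  rw [h0, map_zero]

include ge in
/-- the coordinates of homogeneous classes -/
theorem tc_gr (hsta : StaStatement.{w}) (P : Prd m) {i : ℕ} {x : W.coh (P.obj H.X)}
    (hx : x ∈ W.gr (P.obj H.X) i) (w : Fin P.size → H.I)
    (hw : ∑ l, (H.D.typ (w l)).2 ≠ i) : H.tc P x w = 0 := by
  have hM := H.memP P
  rw [H.tc_apply]
  have h1 : H.E P (H.D.τ ∘ w) ∈ W.gr (P.obj H.X) (∑ l, (H.D.typ (w l)).2) := by
    have h2 := ge.E_gr P (H.D.τ ∘ w)
    have h3 : ∑ l, (H.D.typ ((H.D.τ ∘ w) l)).2 = ∑ l, (H.D.typ (w l)).2 :=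
      Finset.sum_congr rfl fun l _ => by rw [Function.comp_apply, H.D.typ_τ]
    rwa [h3] at h2
  have h4 : H.psiP P x (H.E P (H.D.τ ∘ w)) = 0 := by
    rw [Host.psiP, psi]
    by_cases hd : ∑ l, (H.D.typ (w l)).2 ≤ 2 * P.dim H.n
    · have h5 := (hsta (H.lamP P).1.slm).1 _ _ hd h1
      exact H.hW.tr_gr hM (H.hW.mul_gr hM hx h5) (by omega)
    · rw [H.hW.top_gr hM h1 (by omega), map_zero, mul_zero, map_zero]
  rw [h4, mul_zero]

include hg ge in
theorem J_gr (hsta : StaStatement.{w}) (P : Prd m) (i : ℕ) (x : W.coh (P.obj H.X))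
    (hx : x ∈ W.gr (P.obj H.X) i) : J H a1 g P x ∈ W.gr (P.obj H.X) i := by
  rw [J_apply]
  refine Submodule.sum_mem _ fun w _ => ?_
  by_cases hw : ∑ l, (H.D.typ (w l)).2 = i
  · refine Submodule.smul_mem _ _ ?_
    rw [← hw]
    exact ge.E_gr P w
  · have h1 : JT H.D g (H.tc P x) w = 0 := by
      refine JT_supp H.D a1 hg (fun w => ∑ l, (H.D.typ (w l)).2 ≠ i) ?_
        (fun w hw => tc_gr H ge hsta P hx w hw) w hw
      intro w w' h hw
      have h2 : ∑ l, (H.D.typ (w' l)).2 = ∑ l, (H.D.typ (w l)).2 :=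
        Finset.sum_congr rfl fun l _ => by rw [h l]
      exact fun h3 => hw (h2.symm.trans h3)
    rw [h1, zero_smul]
    exact zero_mem _

variable {N : ℕ} (hfix : H.Fix N g)

include ge hfix in
theorem J_fix (P : Prd m) (hP : P.size ≤ N) (z : W.coh (P.obj H.X))
    (hz : z ∈ tot W (P.obj H.X)) : J H a1 g P z = z := by
  refine ge.inj P ?_
  rw [tc_J H a1 hfix.1 ge]
  exact hfix.2 _ hP _ (AddSubgroup.subset_closure (Or.inr ⟨P, rfl, z, hz, rfl⟩))

include ge hfix a2 in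
theorem J_fixed (P Q : Prd m) (hPQ : P.size + Q.size ≤ N)
    (γ : W.coh (P.obj H.X ⊗ Q.obj H.X)) (hγ : γ ∈ tot W (P.obj H.X ⊗ Q.obj H.X)) :
    GeoJ.Fixed W (J H a1 g P) (J H a1 g Q) γ := by
  obtain ⟨M, a, b, hab⟩ := TRC.exists_sum H.hW (H.memP P) (H.memP Q) γ
  refine ⟨M, a, b, hab, ?_⟩
  have h1 : J H a1 g (.prod P Q) γ = γ := J_fix H a1 ge hfix (.prod P Q) hPQ γ hγ
  have h2 : J H a1 g (.prod P Q) γ
      = ∑ ν, J H a1 g (.prod P Q) (W.pull (fst (P.obj H.X) (Q.obj H.X)) (a ν)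
        * W.pull (snd (P.obj H.X) (Q.obj H.X)) (b ν)) := by
    conv_lhs => rw [hab]
    exact map_sum _ _ _
  rw [← h1, h2]
  exact Finset.sum_congr rfl fun ν _ => J_prod H a1 a2 hfix.1 ge P Q _ _

include ge hfix a2 in
theorem J_cor (hsta : StaStatement.{w}) (P Q : Prd m) (hPQ : P.size + Q.size ≤ N)
    {u : W.coh (P.obj H.X) →ₗ[ℂ] W.coh (Q.obj H.X)}
    (hu : AlgCor W (P.obj H.X) (Q.obj H.X) u) (s : W.coh (P.obj H.X)) :
    J H a1 g Q (u s) = u (J H a1 g P s) :=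
  GeoJ.comm hsta H.hW (H.memP P) (H.memP Q) (H.lamP P).2 (H.lamP P).1
    (J_conj H a1 hfix.1 ge P) (fun γ hγ => J_fixed H a1 a2 ge hfix P Q hPQ γ hγ) hu s

include ge hfix a2 in
theorem J_rs (hsta : StaStatement.{w}) (hRsp : RspStatement.{u, w}) (hN : 2 ≤ N) :
    ∀ P : Prd m, IsRS W (P.obj H.X) (P.dim H.n) (P.pol W H.ξ) (H.LamP P) (J H a1 g P)
  | .leaf a => GeoJ.isRS hsta H.hW (H.memP (.leaf a)) (H.lamP (.leaf a)).2 (H.lamP (.leaf a)).1
      (J_gr H a1 hfix.1 ge hsta (.leaf a))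
      (J_fix H a1 ge hfix (.leaf a) (show 1 ≤ N by omega) 1 (one_tot H.hW (H.mem a)))
      (J_conj H a1 hfix.1 ge (.leaf a)) (J_pos H a1 hfix.1 ge (.leaf a))
      (fun u hu s => J_cor H a1 a2 ge hfix hsta (.leaf a) (.leaf a) hN hu s)
  | .prod P Q => by
    obtain ⟨j, hj, hjp⟩ := hRsp H.hW (H.memP P) (H.memP Q)
      (H.hW.alg_gr (H.memP P) (j := 1) (H.lamP P).2)
      (H.hW.alg_gr (H.memP Q) (j := 1) (H.lamP Q).2) (J_rs hsta hRsp hN P)
      (J_rs hsta hRsp hN Q)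
    have e : j = J H a1 g (.prod P Q) := by
      refine LinearMap.ext fun z => ?_
      have hz : z ∈ Submodule.span ℂ {z | ∃ (y : W.coh (P.obj H.X)) (x : W.coh (Q.obj H.X)),
          z = W.ext y x} := by
        rw [H.hW.kunneth.span (H.memP P) (H.memP Q)]
        exact Submodule.mem_top
      induction hz using Submodule.span_induction with
      | mem z hz =>
        obtain ⟨y, x, rfl⟩ := hz
        exact (hjp y x).trans (J_prod H a1 a2 hfix.1 ge P Q y x).symm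
      | zero => exact (map_zero j).trans (map_zero (J H a1 g (.prod P Q))).symm
      | add a b _ _ ha hb =>
        exact (map_add j a b).trans ((congrArg₂ (· + ·) ha hb).trans
          (map_add (J H a1 g (.prod P Q)) a b).symm)
      | smul c a _ ha =>
        exact (LinearMap.map_smulₛₗ j c a).trans ((congrArg (fun t => (starRingEnd ℂ c) • t)
          ha).trans (LinearMap.map_smulₛₗ (J H a1 g (.prod P Q)) c a).symm)
    subst e
    exact hj

end GJ

/-- Row GJ. -/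
theorem gj (hsta : StaStatement.{w}) (hRsp : RspStatement.{u, w}) (a1 : Alg1) (a2 : Alg2)
    (hge : GeStatement.{u, w}) : GjStatement.{u, w} := by
  intro k _ W 𝒱 m H N hN g hfix
  have ge := hge H
  refine ⟨GJ.J H a1 g, GJ.J_rs H a1 a2 ge hfix hsta hRsp hN,
    GJ.J_prod H a1 a2 hfix.1 ge, GJ.tc_J H a1 hfix.1 ge, GJ.J_fix H a1 ge hfix, ?_⟩
  intro P Q hPQ γ hγ s
  exact GJ.J_cor H a1 a2 ge hfix hsta P Q hPQ (cor_algCor hγ) s

end Pool.Agent.Lib.MP_361a6f_ag.FL
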