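import Pool.Agent.Lib.MP_361a6f_ag.FL.GeoDefs
import Pool.Agent.Lib.MP_361a6f_ag.FL.GO
import Pool.Agent.Lib.MP_361a6f_ag.PP.PSI
import Pool.Agent.Lib.MP_361a6f_ag.PP.StaB
import Pool.Agent.Lib.MP_361a6f_ag.PP.SL2

/-!
# Row GPOS: positivity of the form on the coordinates of algebraic classes
-/

open CategoryTheory AlgebraicGeometry MonoidalCategory CartesianMonoidalCategory

universe u v w

namespace Pool.Agent.Lib.MP_361a6f_ag.FL

open Pool.Agent.Lib.MP_361a6f_ag.H3 Pool.Agent.Lib.MP_361a6f_ag.SQ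
  Pool.Agent.Lib.MP_361a6f_ag.PP

namespace GPOS

theorem lw_left {m : ℕ} (P Q : Prd m) (j : Fin P.size) :
    (Prd.prod P Q).lw (Fin.castAdd Q.size j) = P.lw j := Fin.append_left P.lw Q.lw j

theorem lw_right {m : ℕ} (P Q : Prd m) (j : Fin Q.size) :
    (Prd.prod P Q).lw (Fin.natAdd P.size j) = Q.lw j := Fin.append_right P.lw Q.lw j

/-- a product with a given word of labels -/
theorem exists_prd {m : ℕ} (L : ℕ) (b : Fin (L + 1) → Fin m) :
    ∃ (P : Prd m) (h : P.size = L + 1), ∀ i, P.lw i = b (Fin.cast h i) := by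
  induction L with
  | zero =>
    refine ⟨.leaf (b 0), rfl, fun i => ?_⟩
    change b 0 = b _
    congr 1
    ext
    have : (i : ℕ) < 1 := i.2
    simp
  | succ L ih =>
    obtain ⟨P, h, hP⟩ := ih (fun i => b i.castSucc)
    refine ⟨.prod P (.leaf (b (Fin.last _))), by change P.size + 1 = _; rw [h], fun i => ?_⟩
    refine Fin.addCases (m := P.size) (n := (Prd.leaf (b (Fin.last (L + 1)))).size)
      (motive := fun i => (Prd.prod P (.leaf (b (Fin.last _)))).lw i = b (Fin.cast _ i))
      (fun j => ?_) (fun j => ?_) i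
    · rw [lw_left, hP]
      congr 1
    · rw [lw_right]
      change b _ = b _
      congr 1
      ext
      have h1 : (j : ℕ) < 1 := j.2
      simp [h]

section abs

variable {I Λ : Type} [Fintype I] [DecidableEq I] [DecidableEq Λ] (D : Dat I Λ) {L : ℕ}

theorem psiT_cast {p : ℕ} (h : p = L) (u v : Ten I p) :
    psiT D (fun w : Fin L → I => u (w ∘ Fin.cast h)) (fun w => v (w ∘ Fin.cast h))
      = psiT D u v := by
  subst h
  rfl

theorem psiT_sum {β : Type*} [Fintype β] (u : β → Ten I L) (v : Ten I L) :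
    psiT D (∑ b, u b) v = ∑ b, psiT D (u b) v := by
  simp only [psiT, Finset.sum_apply, Finset.sum_mul, Finset.mul_sum]
  rw [Finset.sum_comm]

theorem psiT_sum' {β : Type*} [Fintype β] (u : Ten I L) (v : β → Ten I L) :
    psiT D u (∑ b, v b) = ∑ b, psiT D u (v b) := by
  simp only [psiT, Finset.sum_apply, Finset.mul_sum]
  rw [Finset.sum_comm]

theorem psiT_outer {p q : ℕ} (u u' : Ten I p) (v v' : Ten I q) :
    psiT D (outer u v) (outer u' v') = psiT D u u' * psiT D v v' := by
  simp only [psiT]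
  rw [Finset.sum_mul_sum, ← Finset.sum_product', Finset.univ_product_univ]
  refine (Fintype.sum_equiv (Fin.appendEquiv p q) _ _ fun x => ?_).symm
  obtain ⟨x, y⟩ := x
  have h1 : sg D (Fin.append x y) = sg D x * sg D y := by
    simp only [sg, Fin.prod_univ_add, Fin.append_left, Fin.append_right]
  have h0 : (Fin.appendEquiv p q) (x, y) = Fin.append x y := rfl
  rw [h0, h1]
  simp only [outer, Function.comp_apply, Fin.append_left, Fin.append_right]
  have h2 : (fun i => D.τ (x i)) = D.τ ∘ x := rfl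
  have h3 : (fun i => D.τ (y i)) = D.τ ∘ y := rfl
  rw [h2, h3]
  ring

end abs

section host

variable {k : Type u} [Field k] {m : ℕ} {W : CohomologyData.{u, 0, w} k ℂ} {𝒱 : VarietyClass k}
  (H : Host W 𝒱 m)

theorem size_pos (P : Prd m) : 0 < P.size := by
  induction P with
  | leaf a => exact Nat.one_pos
  | prod P Q ih _ => exact Nat.add_pos_left ih _

/-- the tensors in length `0` -/
theorem at_zero {u : Ten H.I 0} (hu : u ∈ H.At 0) : ∃ q : ℚ, u = fun _ => (q : ℂ) := by
  refine AddSubgroup.closure_induction (p := fun u _ => ∃ q : ℚ, u = fun _ => (q : ℂ))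
    ?_ ?_ ?_ ?_ hu
  · rintro u (⟨_, q, rfl⟩ | ⟨P, h, _⟩)
    · exact ⟨q, rfl⟩
    · exact absurd h (size_pos P).ne'
  · exact ⟨0, by funext; simp⟩
  · rintro _ _ _ _ ⟨q, rfl⟩ ⟨q', rfl⟩
    exact ⟨q + q', by funext; simp⟩
  · rintro _ _ ⟨q, rfl⟩
    exact ⟨-q, by funext; simp⟩

/-- the tensors in `At` are sums over the words of labels -/
theorem at_succ (gr : H.RelFacts) {L : ℕ} (PP : (Fin (L + 1) → Fin m) → Prd m)
    (hs : ∀ b, (PP b).size = L + 1) (hl : ∀ b i, (PP b).lw i = b (Fin.cast (hs b) i))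
    {u : Ten H.I (L + 1)} (hu : u ∈ H.At (L + 1)) :
    ∃ z : ∀ b, W.coh ((PP b).obj H.X), (∀ b, z b ∈ tot W ((PP b).obj H.X)) ∧
      u = ∑ b, fun w => H.tc (PP b) (z b) (w ∘ Fin.cast (hs b)) := by
  classical
  refine AddSubgroup.closure_induction (p := fun u _ =>
    ∃ z : ∀ b, W.coh ((PP b).obj H.X), (∀ b, z b ∈ tot W ((PP b).obj H.X)) ∧
      u = ∑ b, fun w => H.tc (PP b) (z b) (w ∘ Fin.cast (hs b))) ?_ ?_ ?_ ?_ hu
  · rintro u (⟨h0, _⟩ | ⟨P, h, z, hz, rfl⟩)
    · exact absurd h0 (Nat.succ_ne_zero _)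
    · obtain ⟨b0, hb0⟩ : ∃ b0 : Fin (L + 1) → Fin m, ∀ i, b0 i = P.lw (Fin.cast h.symm i) :=
        ⟨_, fun _ => rfl⟩
      have hR : H.Rel (PP b0) P := by
        refine gr.coh _ _ ((hs b0).trans h.symm) (fun i => ?_)
        rw [hl, hb0]
        rfl
      obtain ⟨h', hR'⟩ := gr.tc _ _ hR
      obtain ⟨z', hz', hzz⟩ := hR' z hz
      refine ⟨fun b => if hb : b = b0 then hb ▸ z' else 0, fun b => ?_, ?_⟩
      · by_cases hb : b = b0
        · subst hb
          simpa using hz'
        · simp only [dif_neg hb]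
          exact zero_mem _
      · rw [Finset.sum_eq_single b0]
        · funext w
          simp only [dite_true]
          rw [hzz]
          congr 1
        · intro b _ hb
          funext w
          simp only [dif_neg hb, map_zero]
          rfl
        · intro h
          exact absurd (Finset.mem_univ _) h
  · refine ⟨fun b => 0, fun b => zero_mem _, ?_⟩
    symm
    refine Finset.sum_eq_zero fun b _ => ?_
    funext w
    rw [map_zero]
    rfl
  · rintro _ _ _ _ ⟨z, hz, rfl⟩ ⟨z', hz', rfl⟩
    refine ⟨fun b => z b + z' b, fun b => add_mem (hz b) (hz' b), ?_⟩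
    rw [← Finset.sum_add_distrib]
    refine Finset.sum_congr rfl fun b _ => ?_
    funext w
    rw [map_add]
    rfl
  · rintro _ _ ⟨z, hz, rfl⟩
    refine ⟨fun b => -z b, fun b => neg_mem (hz b), ?_⟩
    rw [← Finset.sum_neg_distrib]
    refine Finset.sum_congr rfl fun b _ => ?_
    funext w
    rw [map_neg]
    rfl

/-- parts with different words of labels are orthogonal -/
theorem orth (ge : H.GeFacts) {L : ℕ} {P P' : Prd m} (h : P.size = L) (h' : P'.size = L)
    (hne : ∃ i : Fin L, P.lw (Fin.cast h.symm i) ≠ P'.lw (Fin.cast h'.symm i))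
    (z : W.coh (P.obj H.X)) (z' : W.coh (P'.obj H.X)) :
    psiT H.D (fun w : Fin L → H.I => H.tc P z (w ∘ Fin.cast h))
      (fun w => H.tc P' z' (w ∘ Fin.cast h')) = 0 := by
  obtain ⟨i, hi⟩ := hne
  refine Finset.sum_eq_zero fun w _ => ?_
  by_cases h1 : (H.D.typ (w i)).1 = P.lw (Fin.cast h.symm i)
  · have h2 : H.tc P' z' ((H.D.τ ∘ w) ∘ Fin.cast h') = 0 := by
      refine ge.tc_off _ _ _ ⟨Fin.cast h'.symm i, ?_⟩
      change (H.D.typ (H.D.τ (w (Fin.cast h' (Fin.cast h'.symm i))))).1 ≠ _
      rw [H.D.typ_τ]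
      change (H.D.typ (w i)).1 ≠ _
      rw [h1]
      exact hi
    change sg H.D w * (_ * H.tc P' z' ((H.D.τ ∘ w) ∘ Fin.cast h')) = 0
    rw [h2, mul_zero, mul_zero]
  · have h2 : H.tc P z (w ∘ Fin.cast h) = 0 :=
      ge.tc_off _ _ _ ⟨Fin.cast h.symm i, h1⟩
    change sg H.D w * (H.tc P z (w ∘ Fin.cast h) * _) = 0
    rw [h2, zero_mul, mul_zero]

end host

end GPOS

open GPOS in
/-- Row GPOS in one length -/
theorem GPOS.pos_len (ge : GeStatement.{u, w}) (gr : GrStatement.{u, w}) {k : Type u} [Field k]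
    {W : CohomologyData.{u, 0, w} k ℂ} {𝒱 : VarietyClass k} {m : ℕ} (H : Host W 𝒱 m) (L : ℕ)
    (hQ : ∀ P : Prd m, P.size = L → HodgeType W (P.obj H.X) (P.dim H.n) (P.pol W H.ξ)) :
    ∀ u ∈ H.At L, u ≠ 0 → RatPos (psiT H.D u u) := by
  intro u hu hne
  classical
  rcases L with _ | L
  · obtain ⟨q, rfl⟩ := at_zero H hu
    have hq : q ≠ 0 := by
      rintro rfl
      exact hne (by funext; simp)
    refine ⟨q * q, mul_self_pos.2 hq, ?_⟩
    simp [psiT, sg]
  · choose PP hs hl using fun b : Fin (L + 1) → Fin m => exists_prd L b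
    obtain ⟨z, hz, rfl⟩ := at_succ H (gr H) PP hs hl hu
    have hpsi : psiT H.D (∑ b, fun w => H.tc (PP b) (z b) (w ∘ Fin.cast (hs b)))
        (∑ b, fun w => H.tc (PP b) (z b) (w ∘ Fin.cast (hs b)))
        = ∑ b, H.psiP (PP b) (z b) (z b) := by
      rw [psiT_sum]
      refine Finset.sum_congr rfl fun b _ => ?_
      rw [psiT_sum', Finset.sum_eq_single b]
      · rw [psiT_cast, (ge H).psi_tc]
      · intro b' _ hb'
        refine orth H (ge H) (hs b) (hs b') ?_ _ _
        obtain ⟨i, hi⟩ := Function.ne_iff.1 hb'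
        refine ⟨i, ?_⟩
        rw [hl, hl]
        exact hi.symm
      · intro h
        exact absurd (Finset.mem_univ _) h
    rw [hpsi]
    have hp : ∀ b, z b ≠ 0 → RatPos (H.psiP (PP b) (z b) (z b)) := fun b hb =>
      psi_pos sl2 staB H.hW (H.memP (PP b)) (H.lamP (PP b)).2 (H.lamP (PP b)).1
        (hQ (PP b) (hs b)) (z b) (hz b) hb
    refine PSI.ratPos_sum' _ _ (fun b _ => ?_) ?_
    · by_cases hb : z b = 0
      · left
        rw [hb]
        simp [Host.psiP, psi]
      · exact Or.inr (hp b hb)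
    · by_contra hcon
      push Not at hcon
      refine hne (Finset.sum_eq_zero fun b _ => ?_)
      have hb : z b = 0 := by
        by_contra hb
        obtain ⟨r, hr, h⟩ := hp b hb
        rw [hcon b (Finset.mem_univ _)] at h
        have : (r : ℂ) = 0 := h.symm
        exact hr.ne' (by exact_mod_cast this)
      funext w
      rw [hb, map_zero]
      rfl

/-- `ψ(1, 1)` is positive for a factor -/
theorem GPOS.psi_one {k : Type u} [Field k] {W : CohomologyData.{u, 0, w} k ℂ}
    {𝒱 : VarietyClass k} {m : ℕ} (H : Host W 𝒱 m) (a : Fin m)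
    (hpos : PositiveDivisor W (H.X a) (H.n a) (H.ξ a)) :
    RatPos (H.psiP (.leaf a) 1 1) := by
  have h1 : (1 : W.coh (H.X a)) ∈ W.gr (H.X a) (2 * 0) := H.hW.one_gr (H.mem a)
  have hL : ∀ j : ℕ, (Lop W (H.X a) (H.ξ a) ^ j) 1 = H.ξ a ^ j := by
    intro j
    induction j with
    | zero => simp
    | succ j ih =>
      rw [pow_succ', Module.End.mul_apply, ih, pow_succ']
      rfl
  have h2 := (staB (H.lam a).slm).2.2.2.2.1 0 1 (Nat.zero_le _) h1
    ((H.lam a).slm.Λ_low 0 1 (by norm_num) h1)
  rw [hL] at h2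
  obtain ⟨q, hq, hq'⟩ := hpos.2
  refine ⟨((H.n a).factorial : ℚ)⁻¹ * q, by positivity, ?_⟩
  change psi W (H.X a) (H.ξ a) (H.Lam a) (H.lam a).slm.internal 1 1 = _
  rw [psi, one_mul, h2, map_smul, smul_eq_mul]
  change _ * W.Tr (H.ξ a ^ (H.n a - 2 * 0)) = _
  rw [Nat.mul_zero, Nat.sub_zero, hq']
  push_cast
  ring

open GPOS in
/-- Row GPOS -/
theorem gpos (ge : GeStatement.{u, w}) (gr : GrStatement.{u, w}) : GposStatement.{u, w} := by
  intro k _ W 𝒱 m H N hpos hQ
  have key : ∀ d L, L + d = N → ∀ u ∈ H.At L, u ≠ 0 → RatPos (psiT H.D u u) := by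
    intro d
    induction d with
    | zero =>
      intro L hL
      exact pos_len ge gr H L (fun P hP => hQ P (hP.trans (by omega)))
    | succ d ih =>
      intro L hL u hu hne
      rcases Nat.eq_zero_or_pos L with rfl | hL0
      · exact pos_len ge gr H 0 (fun P hP => absurd hP (size_pos P).ne') u hu hne
      · by_cases hm : ∃ a : Fin m, True
        · obtain ⟨a, -⟩ := hm
          obtain ⟨v, hv, q, hq, hq'⟩ : ∃ v ∈ H.At 1, RatPos (psiT H.D v v) := by
            refine ⟨H.tc (.leaf a) 1, AddSubgroup.subset_closure (Or.inr ⟨.leaf a, rfl, 1,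
              one_tot H.hW (H.mem a), rfl⟩), ?_⟩
            have h1 := psi_one H a (hpos a)
            rw [← (ge H).psi_tc] at h1
            exact h1
          have h2 := psiT_outer H.D u u v v
          have hq0 : (q : ℂ) ≠ 0 := by exact_mod_cast hq.ne'
          have hou : outer u v ≠ 0 := by
            intro h
            obtain ⟨w, hw⟩ := Function.ne_iff.1 hne
            have hv0 : v ≠ 0 := by
              rintro rfl
              simp only [psiT, Pi.zero_apply, zero_mul, mul_zero, Finset.sum_const_zero] at hq'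
              exact hq0 hq'.symm
            obtain ⟨w', hw'⟩ := Function.ne_iff.1 hv0
            have := congrFun h (Fin.append w w')
            simp only [outer, Fin.append_left, Fin.append_right, Pi.zero_apply,
              mul_eq_zero] at this
            rcases this with h | h
            · exact hw h
            · exact hw' h
          obtain ⟨r, hr, hr'⟩ := ih (L + 1) (by omega) (outer u v)
            (GO.outer H (ge H) L 1 u hu v hv) hou
          refine ⟨r / q, div_pos hr hq, ?_⟩
          have h3 : psiT H.D u u * (q : ℂ) = (r : ℂ) := by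
            rw [← hr', ← hq']
            exact h2.symm
          push_cast
          rw [← h3]
          field_simp
        · exfalso
          refine hne ?_
          refine AddSubgroup.closure_induction (p := fun u _ => u = 0) ?_ rfl ?_ ?_ hu
          · rintro x (⟨h0, _⟩ | ⟨P, h, _⟩)
            · omega
            · exfalso
              have : ∀ P : Prd m, False := by
                intro P
                induction P with
                | leaf a => exact hm ⟨a, trivial⟩
                | prod _ _ h _ => exact h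
              exact this P
          · rintro _ _ _ _ rfl rfl
            exact add_zero _
          · rintro _ _ rfl
            exact neg_zero
  intro L hL
  exact key (N - L) L (by omega)

end Pool.Agent.Lib.MP_361a6f_ag.FL
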