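import Pool.Agent.Lib.MP_361a6f_ag.FL.AlgDefs

/-!
# Rational systems of tensors

A system of rational tensors, closed under the diagram operations, on which `ψ` is positive in
small lengths, is fixed by a real structure `g J₀ g⁻¹` in small lengths.
-/

open Filter Topology MeasureTheory

set_option linter.unusedSectionVars false
set_option linter.unusedVariables false

namespace Pool.Agent.Lib.MP_361a6f_ag.FL

variable {I Λ : Type} [Fintype I] [DecidableEq I] [DecidableEq Λ]

/-- a system of rational tensors -/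
structure ASys (D : Dat I Λ) (At : (L : ℕ) → Ten I L → Prop) : Prop where
  zero : ∀ L, At L 0
  add : ∀ L u v, At L u → At L v → At L (u + v)
  qsmul : ∀ L (q : ℚ) u, At L u → At L ((q : ℂ) • u)
  one : At 0 (fun _ => 1)
  rat : ∀ u, At 0 u → ∃ q : ℚ, ∀ w, u w = (q : ℂ)
  perm : ∀ (L : ℕ) (σ : Equiv.Perm (Fin L)) (u : Ten I L), At L u → At L (permT σ u)
  outer : ∀ (p q : ℕ) (u : Ten I p) (v : Ten I q), At p u → At q v → At (p + q) (outer u v)
  cont : ∀ (p c : ℕ) (u : Ten I p) (m : Ten I (p + c)), At p u → At (p + c) m →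
    At c (cont D u m)
  om : ∀ α, At 2 (om D α)
  even : ∀ L u, At L u → jT D (jT D u) = u

namespace Qps

variable (D : Dat I Λ)

/-- `ψ` as a bilinear map -/
noncomputable def psiL (L : ℕ) : Ten I L →ₗ[ℂ] Ten I L →ₗ[ℂ] ℂ :=
  LinearMap.mk₂ ℂ (psiT D)
    (by
      intro a b c
      simp only [psiT, Pi.add_apply]
      rw [← Finset.sum_add_distrib]
      exact Finset.sum_congr rfl (fun w _ => by ring))
    (by
      intro r a b
      simp only [psiT, Pi.smul_apply, smul_eq_mul]
      rw [Finset.mul_sum]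
      exact Finset.sum_congr rfl (fun w _ => by ring))
    (by
      intro a b c
      simp only [psiT, Pi.add_apply]
      rw [← Finset.sum_add_distrib]
      exact Finset.sum_congr rfl (fun w _ => by ring))
    (by
      intro r a b
      simp only [psiT, Pi.smul_apply, smul_eq_mul]
      rw [Finset.mul_sum]
      exact Finset.sum_congr rfl (fun w _ => by ring))

theorem psiL_apply {L : ℕ} (u v : Ten I L) : psiL D L u v = psiT D u v := rfl

theorem real_smul {L : ℕ} (r : ℝ) (u : Ten I L) : r • u = (r : ℂ) • u := by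
  funext w
  simp

theorem cont_zero {p : ℕ} (u : Ten I p) (m : Ten I (p + 0)) (w : Fin 0 → I) :
    cont D u m w = psiT D u m := by
  simp only [cont, psiT]
  refine Finset.sum_congr rfl (fun w' _ => ?_)
  congr 2
  congr 1
  funext i
  exact Fin.append_left (D.τ ∘ w') w i

variable {D} {At : (L : ℕ) → Ten I L → Prop}

theorem psi_rat (S : ASys D At) {L : ℕ} {u v : Ten I L} (hu : At L u) (hv : At L v) :
    ∃ q : ℚ, psiT D u v = (q : ℂ) := by
  obtain ⟨q, hq⟩ := S.rat _ (S.cont L 0 u v hu hv)
  exact ⟨q, by rw [← hq Fin.elim0]; exact (cont_zero D u v Fin.elim0).symm⟩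

theorem psi_symm (a1 : Alg1) {L : ℕ} {u v : Ten I L} (hu : jT D (jT D u) = u)
    (hv : jT D (jT D v) = v) : psiT D u v = psiT D v u := by
  have h1 : psiT D u v = hT u (jT D v) := by
    conv_lhs => rw [← hv]
    exact a1.psiT_jT D u (jT D v)
  have h2 : psiT D v u = hT v (jT D u) := by
    conv_lhs => rw [← hu]
    exact a1.psiT_jT D v (jT D u)
  have h3 : hT (jT D u) v = hT (jT D v) u := by
    have := a1.hT_jT_jT D u (jT D v)
    rwa [hv] at this
  rw [h1, h2, ← a1.hT_conj (jT D u) v, h3, a1.hT_conj]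

/-- a finite set of nonzero orthogonal vectors of the system -/
structure Orth (D : Dat I Λ) (At : (L : ℕ) → Ten I L → Prop) (L : ℕ) (T : Finset (Ten I L)) :
    Prop where
  mem : ∀ x ∈ T, At L x
  ne : ∀ x ∈ T, x ≠ 0
  orth : ∀ x ∈ T, ∀ y ∈ T, x ≠ y → psiT D x y = 0

variable {L : ℕ}

theorem orth_ext (S : ASys D At) (a1 : Alg1)
    (hpos : ∀ u, At L u → u ≠ 0 → ∃ q : ℚ, 0 < q ∧ psiT D u u = (q : ℂ))
    {T : Finset (Ten I L)} (hT : Orth D At L T) {v : Ten I L} (hv : At L v) :
    ∃ T' : Finset (Ten I L), T ⊆ T' ∧ Orth D At L T' ∧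
      v ∈ Submodule.span ℝ (T' : Set (Ten I L)) := by
  classical
  -- the coefficients
  have hc : ∀ w : Ten I L, ∃ q : ℚ, w ∈ T → psiT D v w = (q : ℂ) * psiT D w w := by
    intro w
    by_cases hw : w ∈ T
    · obtain ⟨q, hq⟩ := psi_rat S hv (hT.mem w hw)
      obtain ⟨r, hr, hr'⟩ := hpos w (hT.mem w hw) (hT.ne w hw)
      refine ⟨q / r, fun _ => ?_⟩
      rw [hq, hr']
      have : (r : ℂ) ≠ 0 := by exact_mod_cast hr.ne'
      push_cast
      field_simp
    · exact ⟨0, fun h => absurd h hw⟩
  choose c hc using hc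
  have hsum : ∀ T₁ : Finset (Ten I L), T₁ ⊆ T → At L (∑ w ∈ T₁, (c w : ℂ) • w) := by
    intro T₁
    induction T₁ using Finset.induction_on with
    | empty => intro _; simpa using S.zero L
    | insert a s ha ih =>
      intro h
      rw [Finset.sum_insert ha]
      exact S.add L _ _ (S.qsmul L _ _ (hT.mem a (h (Finset.mem_insert_self a s))))
        (ih (fun x hx => h (Finset.mem_insert_of_mem hx)))
  set p : Ten I L := ∑ w ∈ T, (c w : ℂ) • w with hp
  have hpAt : At L p := hsum T (Finset.Subset.refl _)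
  have hpspan : p ∈ Submodule.span ℝ (T : Set (Ten I L)) := by
    refine Submodule.sum_mem _ (fun w hw => ?_)
    have : (c w : ℂ) • w = (c w : ℝ) • w := by rw [real_smul]; push_cast; rfl
    rw [this]
    exact Submodule.smul_mem _ _ (Submodule.subset_span hw)
  have hv' : At L (v - p) := by
    have h1 : v - p = v + ((-1 : ℚ) : ℂ) • p := by push_cast; rw [neg_one_smul, sub_eq_add_neg]
    rw [h1]
    exact S.add L _ _ hv (S.qsmul L _ _ hpAt)
  have hperp : ∀ w ∈ T, psiT D (v - p) w = 0 := by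
    intro w hw
    rw [← psiL_apply, map_sub, LinearMap.sub_apply, hp, map_sum, LinearMap.sum_apply]
    rw [Finset.sum_eq_single w]
    · rw [map_smul, LinearMap.smul_apply, psiL_apply, psiL_apply, hc w hw, smul_eq_mul, sub_self]
    · intro b hb hbw
      rw [map_smul, LinearMap.smul_apply, psiL_apply, hT.orth b hb w hw hbw, smul_zero]
    · intro h
      exact absurd hw h
  by_cases h0 : v - p = 0
  · refine ⟨T, Finset.Subset.refl _, hT, ?_⟩
    rw [sub_eq_zero.1 h0]
    exact hpspan
  · refine ⟨insert (v - p) T, Finset.subset_insert _ _, ⟨?_, ?_, ?_⟩, ?_⟩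
    · intro x hx
      rcases Finset.mem_insert.1 hx with rfl | hx
      · exact hv'
      · exact hT.mem x hx
    · intro x hx
      rcases Finset.mem_insert.1 hx with rfl | hx
      · exact h0
      · exact hT.ne x hx
    · intro x hx y hy hxy
      rcases Finset.mem_insert.1 hx with rfl | hx
      · rcases Finset.mem_insert.1 hy with rfl | hy
        · exact absurd rfl hxy
        · exact hperp y hy
      · rcases Finset.mem_insert.1 hy with rfl | hy
        · rw [psi_symm a1 (S.even L _ (hT.mem x hx)) (S.even L _ hv')]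
          exact hperp x hx
        · exact hT.orth x hx y hy hxy
    · have hle : Submodule.span ℝ (T : Set (Ten I L))
          ≤ Submodule.span ℝ ((insert (v - p) T : Finset (Ten I L)) : Set (Ten I L)) :=
        Submodule.span_mono (by simp)
      have h1 : (v - p) + p ∈ Submodule.span ℝ
          ((insert (v - p) T : Finset (Ten I L)) : Set (Ten I L)) :=
        Submodule.add_mem _ (Submodule.subset_span (by simp)) (hle hpspan)
      rwa [sub_add_cancel] at h1

theorem orth_ext_fin (S : ASys D At) (a1 : Alg1)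
    (hpos : ∀ u, At L u → u ≠ 0 → ∃ q : ℚ, 0 < q ∧ psiT D u u = (q : ℂ))
    (V : Finset (Ten I L)) : ∀ {T : Finset (Ten I L)} (_ : Orth D At L T) (_ : ∀ v ∈ V, At L v),
    ∃ T' : Finset (Ten I L), T ⊆ T' ∧ Orth D At L T' ∧
      ∀ v ∈ V, v ∈ Submodule.span ℝ (T' : Set (Ten I L)) := by
  classical
  induction V using Finset.induction_on with
  | empty => intro T hT _; exact ⟨T, Finset.Subset.refl _, hT, by simp⟩
  | insert a s ha ih =>
    intro T hT hV
    obtain ⟨T₁, h1, h2, h3⟩ := ih hT (fun v hv => hV v (Finset.mem_insert_of_mem hv))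
    obtain ⟨T₂, h4, h5, h6⟩ := orth_ext S a1 hpos h2 (hV a (Finset.mem_insert_self a s))
    refine ⟨T₂, h1.trans h4, h5, fun v hv => ?_⟩
    rcases Finset.mem_insert.1 hv with rfl | hv
    · exact h6
    · exact Submodule.span_mono (by exact_mod_cast h4) (h3 v hv)

/-- every vector of the real span of the system is in the real span of an orthogonal set -/
theorem exists_orth (S : ASys D At) (a1 : Alg1)
    (hpos : ∀ u, At L u → u ≠ 0 → ∃ q : ℚ, 0 < q ∧ psiT D u u = (q : ℂ))
    {u : Ten I L} (hu : u ∈ Submodule.span ℝ {v : Ten I L | At L v}) :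
    ∃ T : Finset (Ten I L), Orth D At L T ∧ u ∈ Submodule.span ℝ (T : Set (Ten I L)) := by
  obtain ⟨V, hV, huV⟩ := Submodule.mem_span_finite_of_mem_span hu
  obtain ⟨T, -, h1, h2⟩ := orth_ext_fin S a1 hpos V (T := ∅)
    ⟨by simp, by simp, by simp⟩ (fun v hv => hV hv)
  exact ⟨T, h1, (Submodule.span_le.2 (fun v hv => h2 v hv)) huV⟩

theorem pos_span (S : ASys D At) (a1 : Alg1)
    (hpos : ∀ u, At L u → u ≠ 0 → ∃ q : ℚ, 0 < q ∧ psiT D u u = (q : ℂ))
    {u : Ten I L} (hu : u ∈ Submodule.span ℝ {v : Ten I L | At L v}) (h0 : u ≠ 0) :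
    ∃ r : ℝ, 0 < r ∧ psiT D u u = (r : ℂ) := by
  classical
  obtain ⟨T, hT, huT⟩ := exists_orth S a1 hpos hu
  obtain ⟨f, -, hf⟩ := Submodule.mem_span_finset.1 huT
  -- the values on the diagonal
  have hd : ∀ w : Ten I L, ∃ r : ℝ, w ∈ T → 0 < r ∧ psiT D w w = (r : ℂ) := by
    intro w
    by_cases hw : w ∈ T
    · obtain ⟨q, hq, hq'⟩ := hpos w (hT.mem w hw) (hT.ne w hw)
      exact ⟨(q : ℝ), fun _ => ⟨by exact_mod_cast hq, by rw [hq']; push_cast; rfl⟩⟩
    · exact ⟨0, fun h => absurd h hw⟩
  choose d hd using hd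
  have hval : psiT D u u = ((∑ w ∈ T, f w ^ 2 * d w : ℝ) : ℂ) := by
    rw [← hf, ← psiL_apply]
    simp only [real_smul, map_sum, map_smul, LinearMap.sum_apply, LinearMap.smul_apply]
    push_cast
    refine Finset.sum_congr rfl (fun w hw => ?_)
    rw [Finset.sum_eq_single w]
    · rw [psiL_apply, (hd w hw).2, smul_eq_mul, smul_eq_mul]
      ring
    · intro b hb hbw
      rw [psiL_apply, hT.orth b hb w hw hbw, smul_zero]
      try simp
    · intro h
      exact absurd hw h
  refine ⟨∑ w ∈ T, f w ^ 2 * d w, ?_, hval⟩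
  have hnn : ∀ w ∈ T, 0 ≤ f w ^ 2 * d w := fun w hw => mul_nonneg (sq_nonneg _) (hd w hw).1.le
  rcases (Finset.sum_nonneg hnn).lt_or_eq with h | h
  · exact h
  · exfalso
    apply h0
    rw [← hf]
    refine Finset.sum_eq_zero (fun w hw => ?_)
    have h1 := (Finset.sum_eq_zero_iff_of_nonneg hnn).1 h.symm w hw
    have h2 : f w = 0 := by
      rcases mul_eq_zero.1 h1 with h2 | h2
      · exact pow_eq_zero_iff (two_ne_zero) |>.1 h2
      · exact absurd h2 (hd w hw).1.ne'
    rw [h2, zero_smul]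

/-! ### Diagrams -/

theorem match_mem (S : ASys D At) {L : ℕ} {m : Ten I L} (hm : IsMatch D L m) : At L m := by
  induction hm with
  | nil => exact S.one
  | step L m α _ ih => exact S.outer L 2 m (om D α) ih (S.om α)
  | perm L m σ _ ih => exact S.perm L σ m ih

variable {ι : Type} [Fintype ι] {len : ι → ℕ}

theorem prodT_mem (S : ASys D At) {t : Tup I len} (ht : ∀ i, At (len i) (t i)) (l : List ι) :
    At (l.map len).sum (prodT t l) := by
  induction l with
  | nil => exact S.one
  | cons i l ih => exact S.outer (len i) (l.map len).sum (t i) (prodT t l) (ht i) ih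

theorem dm_mem (S : ASys D At) {t : Tup I len} (ht : ∀ i, At (len i) (t i)) (c : ℕ)
    (l : List ι) {m : Ten I ((l.map len).sum + c)} (hm : IsMatch D _ m) :
    At c (dm D c l m t) :=
  S.cont _ c _ m (prodT_mem S ht l) (match_mem S hm)

/-- the real span of the diagrams at a tuple of the system is positive in small lengths -/
theorem posAt (S : ASys D At) (a1 : Alg1) {c : ℕ}
    (hpos : ∀ u, At c u → u ≠ 0 → ∃ q : ℚ, 0 < q ∧ psiT D u u = (q : ℂ))
    {t : Tup I len} (ht : ∀ i, At (len i) (t i)) : PosAt D t c := by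
  intro u hu h0
  refine pos_span S a1 hpos ?_ h0
  refine Submodule.span_mono ?_ hu
  rintro v ⟨l, m, hm, rfl⟩
  exact dm_mem S ht c l hm

/-! ### Real and imaginary part -/

/-- every vector in the complex span is `x + i y` with `x`, `y` in the real span -/
theorem re_im {L : ℕ} (B : Set (Ten I L)) {z : Ten I L} (hz : z ∈ Submodule.span ℂ B) :
    ∃ x ∈ Submodule.span ℝ B, ∃ y ∈ Submodule.span ℝ B, z = x + Complex.I • y := by
  induction hz using Submodule.span_induction with
  | mem x hx => exact ⟨x, Submodule.subset_span hx, 0, Submodule.zero_mem _, by simp⟩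
  | zero => exact ⟨0, Submodule.zero_mem _, 0, Submodule.zero_mem _, by simp⟩
  | add a b _ _ ha hb =>
    obtain ⟨x, hx, y, hy, rfl⟩ := ha
    obtain ⟨x', hx', y', hy', rfl⟩ := hb
    exact ⟨x + x', Submodule.add_mem _ hx hx', y + y', Submodule.add_mem _ hy hy', by
      rw [smul_add]; abel⟩
  | smul c a _ ha =>
    obtain ⟨x, hx, y, hy, rfl⟩ := ha
    refine ⟨c.re • x - c.im • y, Submodule.sub_mem _ (Submodule.smul_mem _ _ hx)
      (Submodule.smul_mem _ _ hy), c.im • x + c.re • y,
      Submodule.add_mem _ (Submodule.smul_mem _ _ hx) (Submodule.smul_mem _ _ hy), ?_⟩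
    funext w
    simp only [Pi.smul_apply, Pi.add_apply, Pi.sub_apply, smul_eq_mul, Complex.real_smul]
    conv_lhs => rw [← Complex.re_add_im c]
    ring_nf
    rw [Complex.I_sq]
    ring

/-- the values of `ψ` on the real span of the system are real -/
theorem psi_real (S : ASys D At) {v : Ten I L} (hv : At L v) {x : Ten I L}
    (hx : x ∈ Submodule.span ℝ {u : Ten I L | At L u}) : (psiT D x v).im = 0 := by
  induction hx using Submodule.span_induction with
  | mem u hu =>
    obtain ⟨q, hq⟩ := psi_rat S hu hv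
    rw [hq]
    exact_mod_cast Complex.ofReal_im (q : ℝ)
  | zero => rw [← psiL_apply, map_zero]; rfl
  | add a b _ _ ha hb =>
    rw [← psiL_apply, map_add, LinearMap.add_apply, psiL_apply, psiL_apply, Complex.add_im, ha, hb,
      add_zero]
  | smul c a _ ha =>
    rw [real_smul, ← psiL_apply, map_smul, LinearMap.smul_apply, psiL_apply, smul_eq_mul,
      Complex.im_ofReal_mul, ha, mul_zero]

/-- the antilinear operator `g J₀ g⁻¹` -/
noncomputable def jG (D : Dat I Λ) (g : Matrix I I ℂ) {L : ℕ} (u : Ten I L) : Ten I L :=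
  gT g (jT D (gT g⁻¹ u))

theorem jG_add (a1 : Alg1) (g : Matrix I I ℂ) {L : ℕ} (u v : Ten I L) :
    jG D g (u + v) = jG D g u + jG D g v := by
  rw [jG, a1.gT_add, a1.jT_add, a1.gT_add]; rfl

theorem jG_smul (a1 : Alg1) (g : Matrix I I ℂ) {L : ℕ} (c : ℂ) (u : Ten I L) :
    jG D g (c • u) = (starRingEnd ℂ) c • jG D g u := by
  rw [jG, a1.gT_smul, a1.jT_smul, a1.gT_smul]; rfl

theorem jG_real (a1 : Alg1) (g : Matrix I I ℂ) {B : Set (Ten I L)} (hB : ∀ b ∈ B, jG D g b = b)
    {x : Ten I L} (hx : x ∈ Submodule.span ℝ B) : jG D g x = x := by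
  induction hx using Submodule.span_induction with
  | mem u hu => exact hB u hu
  | zero =>
    have := jG_smul (D := D) a1 g 0 (0 : Ten I L)
    simpa using this
  | add a b _ _ ha hb => rw [jG_add a1, ha, hb]
  | smul c a _ ha => rw [real_smul, jG_smul a1, ha, Complex.conj_ofReal]

/-- members of the system in the complex span of fixed members are fixed -/
theorem fixed_of_span (S : ASys D At) (a1 : Alg1)
    (hpos : ∀ u, At L u → u ≠ 0 → ∃ q : ℚ, 0 < q ∧ psiT D u u = (q : ℂ))
    (g : Matrix I I ℂ) {B : Set (Ten I L)} (hBAt : ∀ b ∈ B, At L b) (hB : ∀ b ∈ B, jG D g b = b)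
    {z : Ten I L} (hz : At L z) (hzB : z ∈ Submodule.span ℂ B) : jG D g z = z := by
  obtain ⟨x, hx, y, hy, hxy⟩ := re_im B hzB
  have hle : Submodule.span ℝ B ≤ Submodule.span ℝ {u : Ten I L | At L u} :=
    Submodule.span_mono (fun b hb => hBAt b hb)
  -- `y` is orthogonal to the members of `B`
  have h1 : ∀ b ∈ B, psiT D y b = 0 := by
    intro b hb
    have e1 := psi_real S (hBAt b hb) (hle hx)
    have e2 := psi_real S (hBAt b hb) (hle hy)
    have e3 := psi_real S (hBAt b hb)
      (Submodule.subset_span (R := ℝ) (show z ∈ {u : Ten I L | At L u} from hz))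
    rw [hxy, ← psiL_apply, map_add, LinearMap.add_apply, map_smul, LinearMap.smul_apply,
      psiL_apply, psiL_apply, Complex.add_im, e1, zero_add, smul_eq_mul, Complex.I_mul_im] at e3
    exact Complex.ext e3 e2
  have h2 : ∀ v ∈ Submodule.span ℝ B, psiT D y v = 0 := by
    intro v hv
    induction hv using Submodule.span_induction with
    | mem u hu => exact h1 u hu
    | zero => rw [← psiL_apply, map_zero]
    | add a b _ _ ha hb => rw [← psiL_apply, map_add, psiL_apply, psiL_apply, ha, hb, add_zero]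
    | smul c a _ ha => rw [real_smul, ← psiL_apply, map_smul, psiL_apply, ha, smul_zero]
  have h3 : y = 0 := by
    by_contra h
    obtain ⟨r, hr, hr'⟩ := pos_span S a1 hpos (hle hy) h
    rw [h2 y hy] at hr'
    have : r = 0 := by exact_mod_cast hr'.symm
    exact hr.ne' this
  rw [hxy, h3, smul_zero, add_zero]
  exact jG_real a1 g hB hx

end Qps

open Qps

/-- **The real structure**: a rational system that is positive in the lengths `≤ N` is fixed by
`g J₀ g⁻¹` in the lengths `≤ N`. -/
theorem qps (hY : YStatement) (a1 : Alg1) {D : Dat I Λ} {At : (L : ℕ) → Ten I L → Prop}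
    (S : ASys D At) (N : ℕ)
    (hpos : ∀ L, L ≤ N → ∀ u, At L u → u ≠ 0 → ∃ q : ℚ, 0 < q ∧ psiT D u u = (q : ℂ)) :
    ∃ g : Matrix I I ℂ, IsG D g ∧ ∀ L, L ≤ N → ∀ u, At L u →
      gT g (jT D (gT g⁻¹ u)) = u := by
  classical
  -- finite sets that span
  have hb : ∀ L : ℕ, ∃ B : Set (Ten I L), B.Finite ∧ (∀ b ∈ B, At L b) ∧
      ∀ u, At L u → u ∈ Submodule.span ℂ B := by
    intro L
    obtain ⟨B, hB1, hB2, hB3⟩ := exists_linearIndependent ℂ {u : Ten I L | At L u}
    exact ⟨B, hB3.setFinite, fun b hb => hB1 hb, fun u hu => by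
      rw [hB2]; exact Submodule.subset_span hu⟩
  choose B hB1 hB2 hB3 using hb
  have : ∀ L, Fintype (B L) := fun L => (hB1 L).fintype
  let ι : Type := Option (Σ L : Fin (N + 1), B (L : ℕ))
  let len : ι → ℕ := fun i => i.elim 0 (fun x => (x.1 : ℕ))
  let t : Tup I len := fun i => match i with
    | none => fun _ => 1
    | some x => x.2.1
  have ht : ∀ i, At (len i) (t i) := by
    intro i
    match i with
    | none => exact S.one
    | some x => exact hB2 _ _ x.2.2
  have hlen : ∀ i, len i ≤ N := by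
    intro i
    match i with
    | none => exact Nat.zero_le _
    | some x => exact Nat.lt_succ_iff.1 x.1.2
  obtain ⟨g, hg, hgt, -⟩ := hY D t (fun i => posAt S a1 (hpos _ (hlen i)) ht)
    ⟨none, rfl, fun _ => rfl⟩ (by
      funext i
      exact S.even _ _ (ht i))
  refine ⟨g, hg, fun L hL u hu => ?_⟩
  refine fixed_of_span S a1 (hpos L hL) g (hB2 L) ?_ hu (hB3 L u hu)
  intro b hb
  exact hgt (some ⟨⟨L, Nat.lt_succ_iff.2 hL⟩, ⟨b, hb⟩⟩)

end Pool.Agent.Lib.MP_361a6f_ag.FL
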