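import Pool.Agent.Lib.MP_361a6f_ag.FL.GeoDefs
import Pool.Agent.Lib.MP_361a6f_ag.FL.Qps

/-!
# Row GT: an inner real structure that fixes the algebraic classes of level `N`
-/

open CategoryTheory AlgebraicGeometry MonoidalCategory CartesianMonoidalCategory

universe u v w

namespace Pool.Agent.Lib.MP_361a6f_ag.FL

open Pool.Agent.Lib.MP_361a6f_ag.H3 Pool.Agent.Lib.MP_361a6f_ag.SQ
  Pool.Agent.Lib.MP_361a6f_ag.PP

/-- the coordinates of the algebraic classes form a rational system of tensors -/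
theorem aSys_at {k : Type u} [Field k] {W : CohomologyData.{u, 0, w} k ℂ} {𝒱 : VarietyClass k}
    {m : ℕ} {H : Host W 𝒱 m} (hA : H.AtFacts) : ASys H.D (fun L u => u ∈ H.At L) where
  zero _ := zero_mem _
  add _ _ _ hu hv := add_mem hu hv
  qsmul L q u hu := hA.rat L q u hu
  one := (hA.zero _).2 ⟨1, by simp⟩
  rat u hu := by
    obtain ⟨q, rfl⟩ := (hA.zero _).1 hu
    exact ⟨q, fun _ => rfl⟩
  perm L σ u hu := hA.perm L σ u hu
  outer p q u v hu hv := hA.outer p q u hu v hv
  cont p c u m hu hm := hA.cont p c u hu m hm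
  om α := hA.om α
  even L u hu := hA.par L u hu

/-- Row GT. -/
theorem gt (hY : YStatement) (hAt : AtStatement.{u, w}) (a1 : Alg1) : GtStatement.{u, w} := by
  intro k _ W 𝒱 m H N hpos
  obtain ⟨g, hg, h⟩ := qps hY a1 (aSys_at (hAt H)) N (fun L hL u hu h0 => hpos L hL u hu h0)
  exact ⟨g, hg, fun L hL u hu => h L hL u hu⟩

end Pool.Agent.Lib.MP_361a6f_ag.FL
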