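import Pool.Agent.Lib.MP_361a6f_ag.FL.GeoDefs
import Pool.Agent.Lib.MP_361a6f_ag.PP.STP
import Pool.Agent.Lib.MP_361a6f_ag.PP.StaB
import Pool.Agent.Lib.MP_361a6f_ag.PP.SL2

/-!
# Row GE: coordinates of classes on products
-/

open CategoryTheory AlgebraicGeometry MonoidalCategory CartesianMonoidalCategory

universe u v w

namespace Pool.Agent.Lib.MP_361a6f_ag.FL

open Pool.Agent.Lib.MP_361a6f_ag.H3 Pool.Agent.Lib.MP_361a6f_ag.SQ
  Pool.Agent.Lib.MP_361a6f_ag.PP

namespace Ge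

variable {k : Type u} [Field k] {m : ℕ} {W : CohomologyData.{u, 0, w} k ℂ} {𝒱 : VarietyClass k}
  (H : Host W 𝒱 m)

/-! ### bilinearity of `ψ` -/

theorem psiP_add_left (P : Prd m) (x x' y : W.coh (P.obj H.X)) :
    H.psiP P (x + x') y = H.psiP P x y + H.psiP P x' y := STP.psi_add_left _ _ _ _ _ _ _

theorem psiP_add_right (P : Prd m) (x y y' : W.coh (P.obj H.X)) :
    H.psiP P x (y + y') = H.psiP P x y + H.psiP P x y' := STP.psi_add_right _ _ _ _ _ _ _

theorem psiP_zero_left (P : Prd m) (y : W.coh (P.obj H.X)) : H.psiP P 0 y = 0 :=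
  STP.psi_zero_left _ _ _ _ _

theorem psiP_zero_right (P : Prd m) (x : W.coh (P.obj H.X)) : H.psiP P x 0 = 0 :=
  STP.psi_zero_right _ _ _ _ _

theorem psiP_smul_left (P : Prd m) (c : ℂ) (x y : W.coh (P.obj H.X)) :
    H.psiP P (c • x) y = c * H.psiP P x y := by
  rw [Host.psiP, Host.psiP, psi, psi, smul_mul_assoc, map_smul, smul_eq_mul]

theorem psiP_smul_right (P : Prd m) (c : ℂ) (x y : W.coh (P.obj H.X)) :
    H.psiP P x (c • y) = c * H.psiP P x y := by
  rw [Host.psiP, Host.psiP, psi, psi, map_smul, mul_smul_comm, map_smul, smul_eq_mul]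

theorem psiP_sum_left (P : Prd m) {ι : Type*} (s : Finset ι) (f : ι → W.coh (P.obj H.X))
    (y : W.coh (P.obj H.X)) : H.psiP P (∑ i ∈ s, f i) y = ∑ i ∈ s, H.psiP P (f i) y := by
  rw [Host.psiP, psi, Finset.sum_mul, map_sum]
  rfl

theorem psiP_sum_right (P : Prd m) {ι : Type*} (s : Finset ι) (f : ι → W.coh (P.obj H.X))
    (x : W.coh (P.obj H.X)) : H.psiP P x (∑ i ∈ s, f i) = ∑ i ∈ s, H.psiP P x (f i) := by
  rw [Host.psiP, psi, map_sum, Finset.mul_sum, map_sum]
  rfl

/-! ### signs -/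

theorem sg_mul_self {I Λ : Type} [Fintype I] [DecidableEq I] [DecidableEq Λ] (D : Dat I Λ)
    {L : ℕ} (w : Fin L → I) : sg D w * sg D w = 1 := by
  rw [sg, ← Finset.prod_mul_distrib]
  refine Finset.prod_eq_one (fun i _ => ?_)
  rcases D.s_val (w i) with h | h <;> rw [h] <;> norm_num

theorem sg_split {I Λ : Type} [Fintype I] [DecidableEq I] [DecidableEq Λ] (D : Dat I Λ)
    {p q : ℕ} (w : Fin (p + q) → I) : sg D w = sg D (fun i => w (Fin.castAdd q i))
      * sg D (fun i => w (Fin.natAdd p i)) := by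
  rw [sg, Fin.prod_univ_add]
  rfl

theorem sg_prod (P Q : Prd m) (w : Fin (Prd.prod P Q).size → H.I) :
    sg H.D w = sg H.D (fun i : Fin P.size => w (Fin.castAdd Q.size i))
      * sg H.D (fun i : Fin Q.size => w (Fin.natAdd P.size i)) :=
  sg_split (p := P.size) (q := Q.size) H.D w

/-! ### words that do not fit -/

theorem off_prod (P Q : Prd m) (w : Fin (P.size + Q.size) → H.I) :
    H.Off (.prod P Q) w ↔ H.Off P (fun i => w (Fin.castAdd Q.size i)) ∨
      H.Off Q (fun i => w (Fin.natAdd P.size i)) := by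
  constructor
  · rintro ⟨i, hi⟩
    revert hi
    refine Fin.addCases (motive := fun i => (H.D.typ (w i)).1 ≠ (Prd.prod P Q).lw i →
      H.Off P (fun i => w (Fin.castAdd Q.size i)) ∨
      H.Off Q (fun i => w (Fin.natAdd P.size i))) ?_ ?_ i
    · intro j hj
      refine Or.inl ⟨j, ?_⟩
      have : (Prd.prod P Q).lw (Fin.castAdd Q.size j) = P.lw j := Fin.append_left _ _ _
      rwa [this] at hj
    · intro j hj
      refine Or.inr ⟨j, ?_⟩
      have : (Prd.prod P Q).lw (Fin.natAdd P.size j) = Q.lw j := Fin.append_right _ _ _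
      rwa [this] at hj
  · rintro (⟨j, hj⟩ | ⟨j, hj⟩)
    · refine ⟨Fin.castAdd Q.size j, ?_⟩
      have : (Prd.prod P Q).lw (Fin.castAdd Q.size j) = P.lw j := Fin.append_left _ _ _
      rw [this]
      exact hj
    · refine ⟨Fin.natAdd P.size j, ?_⟩
      have : (Prd.prod P Q).lw (Fin.natAdd P.size j) = Q.lw j := Fin.append_right _ _ _
      rw [this]
      exact hj

theorem off_tau (P : Prd m) (w : Fin P.size → H.I) : H.Off P (H.D.τ ∘ w) ↔ H.Off P w := by
  constructor
  · rintro ⟨i, hi⟩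
    exact ⟨i, by rwa [Function.comp_apply, H.D.typ_τ] at hi⟩
  · rintro ⟨i, hi⟩
    exact ⟨i, by rwa [Function.comp_apply, H.D.typ_τ]⟩

theorem E_off : ∀ (P : Prd m) (w : Fin P.size → H.I), H.Off P w → H.E P w = 0
  | .leaf a, w, h => by
    obtain ⟨i, hi⟩ := h
    have hi0 : i = ⟨0, Nat.one_pos⟩ := Subsingleton.elim (α := Fin 1) _ _
    rw [hi0] at hi
    exact H.e_ne a _ hi
  | .prod P Q, w, h => by
    rcases (off_prod H P Q w).1 h with h | h
    · show W.pull (fst (P.obj H.X) (Q.obj H.X)) (H.E P (fun i => w (Fin.castAdd Q.size i)))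
        * W.pull (snd (P.obj H.X) (Q.obj H.X)) (H.E Q (fun i => w (Fin.natAdd P.size i))) = 0
      rw [E_off P _ h, map_zero, zero_mul]
    · show W.pull (fst (P.obj H.X) (Q.obj H.X)) (H.E P (fun i => w (Fin.castAdd Q.size i)))
        * W.pull (snd (P.obj H.X) (Q.obj H.X)) (H.E Q (fun i => w (Fin.natAdd P.size i))) = 0
      rw [E_off Q _ h, map_zero, mul_zero]

theorem E_gr : ∀ (P : Prd m) (w : Fin P.size → H.I),
    H.E P w ∈ W.gr (P.obj H.X) (∑ i, (H.D.typ (w i)).2)
  | .leaf a, w => by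
    have h : ∑ i : Fin 1, (H.D.typ (w i)).2 = (H.D.typ (w ⟨0, Nat.one_pos⟩)).2 := by
      rw [Fin.sum_univ_one]
      rfl
    show H.e a (w ⟨0, Nat.one_pos⟩) ∈ W.gr (H.X a) (∑ i : Fin 1, (H.D.typ (w i)).2)
    rw [h]
    exact H.e_gr a _
  | .prod P Q, w => by
    have h : ∑ i : Fin (P.size + Q.size), (H.D.typ (w i)).2
        = ∑ i, (H.D.typ (w (Fin.castAdd Q.size i))).2
          + ∑ i, (H.D.typ (w (Fin.natAdd P.size i))).2 := Fin.sum_univ_add _
    have hp := 𝒱.prod (H.memP P) (H.memP Q)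
    show W.pull (fst (P.obj H.X) (Q.obj H.X)) (H.E P (fun i => w (Fin.castAdd Q.size i)))
        * W.pull (snd (P.obj H.X) (Q.obj H.X)) (H.E Q (fun i => w (Fin.natAdd P.size i)))
      ∈ W.gr (P.obj H.X ⊗ Q.obj H.X) (∑ i : Fin (P.size + Q.size), (H.D.typ (w i)).2)
    rw [h]
    exact H.hW.mul_gr hp (H.hW.pull_gr hp (H.memP P) _ (E_gr P _))
      (H.hW.pull_gr hp (H.memP Q) _ (E_gr Q _))

theorem psi_prod (P Q : Prd m) (y y' : W.coh (P.obj H.X)) (x x' : W.coh (Q.obj H.X)) :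
    H.psiP (.prod P Q) (W.pull (fst (P.obj H.X) (Q.obj H.X)) y
        * W.pull (snd (P.obj H.X) (Q.obj H.X)) x)
      (W.pull (fst (P.obj H.X) (Q.obj H.X)) y' * W.pull (snd (P.obj H.X) (Q.obj H.X)) x')
      = H.psiP P y y' * H.psiP Q x x' :=
  (stp sl2 staB H.hW (H.memP P) (H.memP Q) (H.hW.alg_gr (H.memP P) (H.lamP P).2)
    (H.hW.alg_gr (H.memP Q) (H.lamP Q).2) (H.lamP P).1.slm (H.lamP Q).1.slm
    (H.lamP (.prod P Q)).1.slm).2 y x y' x'

theorem psi_E : ∀ (P : Prd m) (w w' : Fin P.size → H.I), ¬ H.Off P w → ¬ H.Off P w' →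
    H.psiP P (H.E P w) (H.E P w') = if w' = H.D.τ ∘ w then sg H.D w else 0
  | .leaf a, w, w', h, h' => by
    have h1 : (H.D.typ (w ⟨0, Nat.one_pos⟩)).1 = a := by
      by_contra hn
      exact h ⟨⟨0, Nat.one_pos⟩, hn⟩
    have h2 : (H.D.typ (w' ⟨0, Nat.one_pos⟩)).1 = a := by
      by_contra hn
      exact h' ⟨⟨0, Nat.one_pos⟩, hn⟩
    have h3 := H.e_psi a _ _ h1 h2
    have h4 : (w' = H.D.τ ∘ w) ↔ w' ⟨0, Nat.one_pos⟩ = H.D.τ (w ⟨0, Nat.one_pos⟩) := by
      constructor
      · intro e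
        rw [e]
        rfl
      · intro e
        funext i
        have hi0 : i = ⟨0, Nat.one_pos⟩ := Subsingleton.elim (α := Fin 1) _ _
        rw [hi0]
        exact e
    have h5 : sg H.D w = H.D.s (w ⟨0, Nat.one_pos⟩) := by
      show ∏ i : Fin 1, H.D.s (w i) = _
      rw [Fin.prod_univ_one]
      rfl
    show psi W (H.X a) (H.ξ a) (H.Lam a) (H.lam a).slm.internal (H.e a (w ⟨0, Nat.one_pos⟩))
      (H.e a (w' ⟨0, Nat.one_pos⟩)) = _
    rw [h3, h5]
    simp only [h4]
  | .prod P Q, w, w', h, h' => by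
    have h1 := (off_prod H P Q w).not.1 h
    have h2 := (off_prod H P Q w').not.1 h'
    push Not at h1 h2
    show H.psiP (.prod P Q) (W.pull (fst (P.obj H.X) (Q.obj H.X))
          (H.E P (fun i => w (Fin.castAdd Q.size i)))
        * W.pull (snd (P.obj H.X) (Q.obj H.X)) (H.E Q (fun i => w (Fin.natAdd P.size i))))
      (W.pull (fst (P.obj H.X) (Q.obj H.X)) (H.E P (fun i => w' (Fin.castAdd Q.size i)))
        * W.pull (snd (P.obj H.X) (Q.obj H.X)) (H.E Q (fun i => w' (Fin.natAdd P.size i)))) = _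
    rw [psi_prod, psi_E P _ _ h1.1 h2.1, psi_E Q _ _ h1.2 h2.2]
    have h3 : (w' = H.D.τ ∘ w) ↔ ((fun i => w' (Fin.castAdd Q.size i))
        = H.D.τ ∘ (fun i => w (Fin.castAdd Q.size i))) ∧
        ((fun i => w' (Fin.natAdd P.size i)) = H.D.τ ∘ (fun i => w (Fin.natAdd P.size i))) := by
      constructor
      · intro e
        rw [e]
        exact ⟨rfl, rfl⟩
      · rintro ⟨e1, e2⟩
        funext i
        refine Fin.addCases (motive := fun i => w' i = (H.D.τ ∘ w) i) ?_ ?_ i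
        · intro j
          exact congrFun e1 j
        · intro j
          exact congrFun e2 j
    rw [sg_prod H P Q w]
    by_cases e1 : (fun i => w' (Fin.castAdd Q.size i))
        = H.D.τ ∘ (fun i => w (Fin.castAdd Q.size i))
    · by_cases e2 : (fun i => w' (Fin.natAdd P.size i))
          = H.D.τ ∘ (fun i => w (Fin.natAdd P.size i))
      · rw [if_pos e1, if_pos e2, if_pos (h3.2 ⟨e1, e2⟩)]
      · rw [if_neg e2, if_neg (fun e => e2 (h3.1 e).2), mul_zero]
    · rw [if_neg e1, if_neg (fun e => e1 (h3.1 e).1), zero_mul]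

theorem ind : ∀ (P : Prd m) (M : Submodule ℂ (W.coh (P.obj H.X))), (∀ w, H.E P w ∈ M) → M = ⊤
  | .leaf a, M, h => by
    refine top_le_iff.1 ?_
    have : Submodule.span ℂ (Set.range (H.e a)) ≤ M := by
      refine Submodule.span_le.2 ?_
      rintro _ ⟨x, rfl⟩
      exact h (fun _ => x)
    rw [H.e_span a] at this
    exact this
  | .prod P Q, M, h => by
    have h1 : ∀ (w₂ : Fin Q.size → H.I) (y : W.coh (P.obj H.X)),
        W.pull (fst (P.obj H.X) (Q.obj H.X)) y
          * W.pull (snd (P.obj H.X) (Q.obj H.X)) (H.E Q w₂) ∈ M := by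
      intro w₂ y
      have := ind P (M.comap ((LinearMap.mulRight ℂ
        (W.pull (snd (P.obj H.X) (Q.obj H.X)) (H.E Q w₂))) ∘ₗ
          (W.pull (fst (P.obj H.X) (Q.obj H.X))).toLinearMap)) (by
        intro w₁
        have h2 := h (Fin.append w₁ w₂)
        have h3 : H.E (.prod P Q) (Fin.append w₁ w₂) = W.pull (fst (P.obj H.X) (Q.obj H.X))
            (H.E P w₁) * W.pull (snd (P.obj H.X) (Q.obj H.X)) (H.E Q w₂) := by
          show W.pull (fst (P.obj H.X) (Q.obj H.X))
              (H.E P (fun i => Fin.append w₁ w₂ (Fin.castAdd Q.size i)))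
            * W.pull (snd (P.obj H.X) (Q.obj H.X))
              (H.E Q (fun i => Fin.append w₁ w₂ (Fin.natAdd P.size i))) = _
          simp only [Fin.append_left, Fin.append_right]
        rw [h3] at h2
        exact h2)
      have hy : y ∈ (⊤ : Submodule ℂ (W.coh (P.obj H.X))) := trivial
      rw [← this] at hy
      exact hy
    have h2 : ∀ (y : W.coh (P.obj H.X)) (x : W.coh (Q.obj H.X)),
        W.pull (fst (P.obj H.X) (Q.obj H.X)) y * W.pull (snd (P.obj H.X) (Q.obj H.X)) x ∈ M := by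
      intro y x
      have := ind Q (M.comap ((LinearMap.mulLeft ℂ
        (W.pull (fst (P.obj H.X) (Q.obj H.X)) y)) ∘ₗ
          (W.pull (snd (P.obj H.X) (Q.obj H.X))).toLinearMap)) (fun w₂ => h1 w₂ y)
      have hx : x ∈ (⊤ : Submodule ℂ (W.coh (Q.obj H.X))) := trivial
      rw [← this] at hx
      exact hx
    refine top_le_iff.1 ?_
    have h3 := H.hW.kunneth_span (H.memP P) (H.memP Q)
    have h4 : Submodule.span ℂ {z | ∃ (x : W.coh (P.obj H.X)) (y : W.coh (Q.obj H.X)),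
      z = W.pull (fst (P.obj H.X) (Q.obj H.X)) x * W.pull (snd (P.obj H.X) (Q.obj H.X)) y} ≤ M := by
      refine Submodule.span_le.2 ?_
      rintro _ ⟨x, y, rfl⟩
      exact h2 x y
    rw [h3] at h4
    exact h4

theorem tc_off (P : Prd m) (z : W.coh (P.obj H.X)) (w : Fin P.size → H.I) (h : H.Off P w) :
    H.tc P z w = 0 := by
  rw [Host.tc_apply, E_off H P _ ((off_tau H P w).2 h), psiP_zero_right, mul_zero]

theorem tc_E (P : Prd m) (w₀ w : Fin P.size → H.I) (h₀ : ¬ H.Off P w₀) :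
    H.tc P (H.E P w₀) w = if w = w₀ then 1 else 0 := by
  by_cases h : H.Off P w
  · rw [tc_off H P _ w h, if_neg]
    rintro rfl
    exact h₀ h
  · rw [Host.tc_apply, psi_E H P _ _ h₀ (fun h' => h ((off_tau H P w).1 h'))]
    by_cases e : w = w₀
    · rw [e, if_pos rfl, if_pos rfl, sg_mul_self]
    · rw [if_neg e, if_neg, mul_zero]
      intro e'
      apply e
      funext i
      have := congrFun e' i
      simp only [Function.comp_apply] at this
      rw [← H.D.τ_τ (w i), this, H.D.τ_τ]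

theorem expand (P : Prd m) (z : W.coh (P.obj H.X)) : z = ∑ w, H.tc P z w • H.E P w := by
  have h := ind H P (LinearMap.eqLocus (LinearMap.id) (∑ w, ((LinearMap.proj w ∘ₗ H.tc P :
    W.coh (P.obj H.X) →ₗ[ℂ] ℂ)).smulRight (H.E P w))) (by
      intro w₀
      rw [LinearMap.mem_eqLocus]
      simp only [LinearMap.id_apply, LinearMap.sum_apply, LinearMap.smulRight_apply,
        LinearMap.comp_apply, LinearMap.proj_apply]
      by_cases h₀ : H.Off P w₀
      · rw [E_off H P w₀ h₀, map_zero]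
        simp
      · rw [Finset.sum_eq_single w₀]
        · rw [tc_E H P w₀ w₀ h₀, if_pos rfl, one_smul]
        · intro w _ hw
          rw [tc_E H P w₀ w h₀, if_neg hw, zero_smul]
        · intro h
          exact absurd (Finset.mem_univ _) h)
  have hz : z ∈ (⊤ : Submodule ℂ (W.coh (P.obj H.X))) := trivial
  rw [← h, LinearMap.mem_eqLocus] at hz
  simpa only [LinearMap.id_apply, LinearMap.sum_apply, LinearMap.smulRight_apply,
        LinearMap.comp_apply, LinearMap.proj_apply] using hz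

theorem inj (P : Prd m) : Function.Injective (H.tc P) := by
  intro z z' h
  rw [expand H P z, expand H P z', h]

theorem tc_outer (P Q : Prd m) (y : W.coh (P.obj H.X)) (x : W.coh (Q.obj H.X)) :
    H.tc (.prod P Q) (W.pull (fst (P.obj H.X) (Q.obj H.X)) y
      * W.pull (snd (P.obj H.X) (Q.obj H.X)) x) = outer (H.tc P y) (H.tc Q x) := by
  funext w
  rw [Host.tc_apply]
  show sg H.D w * H.psiP (.prod P Q) (W.pull (fst (P.obj H.X) (Q.obj H.X)) y
      * W.pull (snd (P.obj H.X) (Q.obj H.X)) x)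
    (W.pull (fst (P.obj H.X) (Q.obj H.X)) (H.E P (fun i => (H.D.τ ∘ w) (Fin.castAdd Q.size i)))
        * W.pull (snd (P.obj H.X) (Q.obj H.X))
          (H.E Q (fun i => (H.D.τ ∘ w) (Fin.natAdd P.size i)))) = _
  rw [psi_prod, sg_prod H P Q w]
  show _ = H.tc P y _ * H.tc Q x _
  rw [Host.tc_apply, Host.tc_apply]
  have e1 : (fun i => (H.D.τ ∘ w) (Fin.castAdd Q.size i))
    = H.D.τ ∘ (fun i => w (Fin.castAdd Q.size i)) := rfl
  have e2 : (fun i => (H.D.τ ∘ w) (Fin.natAdd P.size i))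
    = H.D.τ ∘ (fun i => w (Fin.natAdd P.size i)) := rfl
  rw [e1, e2]
  ring

theorem tc_sum (P : Prd m) (u : Ten H.I P.size) (hu : ∀ w, H.Off P w → u w = 0) :
    H.tc P (∑ w, u w • H.E P w) = u := by
  funext w₀
  rw [map_sum, Finset.sum_apply, Finset.sum_eq_single w₀]
  · rw [map_smul, Pi.smul_apply, smul_eq_mul]
    by_cases h : H.Off P w₀
    · rw [hu w₀ h, zero_mul]
    · rw [tc_E H P w₀ w₀ h, if_pos rfl, mul_one]
  · intro w _ hw
    rw [map_smul, Pi.smul_apply, smul_eq_mul]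
    by_cases h : H.Off P w
    · rw [hu w h, zero_mul]
    · rw [tc_E H P w w₀ h, if_neg (fun e => hw e.symm), mul_zero]
  · intro h
    exact absurd (Finset.mem_univ _) h

theorem psi_tc (P : Prd m) (z z' : W.coh (P.obj H.X)) :
    psiT H.D (H.tc P z) (H.tc P z') = H.psiP P z z' := by
  have h1 : ∀ w, sg H.D w * (H.tc P z w * H.tc P z' (H.D.τ ∘ w))
      = H.tc P z w * H.psiP P (H.E P w) z' := by
    intro w
    by_cases h : H.Off P w
    · rw [tc_off H P z w h]
      ring
    · have h2 : H.psiP P (H.E P w) z' = sg H.D w * H.tc P z' (H.D.τ ∘ w) := by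
        conv_lhs => rw [expand H P z']
        rw [psiP_sum_right, Finset.sum_eq_single (H.D.τ ∘ w)]
        · rw [psiP_smul_right, psi_E H P _ _ h (fun h' => h ((off_tau H P w).1 h')), if_pos rfl,
            mul_comm]
        · intro w' _ hw'
          rw [psiP_smul_right]
          by_cases h3 : H.Off P w'
          · rw [tc_off H P z' w' h3, zero_mul]
          · rw [psi_E H P _ _ h h3, if_neg hw', mul_zero]
        · intro h
          exact absurd (Finset.mem_univ _) h
      rw [h2]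
      ring
  rw [psiT]
  simp only [h1]
  conv_rhs => rw [expand H P z]
  rw [psiP_sum_left]
  exact Finset.sum_congr rfl (fun w _ => (psiP_smul_left H P _ _ _).symm)

theorem even (P : Prd m) (z : W.coh (P.obj H.X)) (hz : z ∈ tot W (P.obj H.X))
    (w : Fin P.size → H.I) (hw : H.tc P z w ≠ 0) : Even (∑ i, (H.D.typ (w i)).2) := by
  by_contra hodd
  apply hw
  have hP := H.memP P
  refine tot_induction H.hW (P := fun z => H.tc P z w = 0) hz ?_ ?_
  · intro j z hz
    have hzg := H.hW.alg_gr hP hz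
    rw [Host.tc_apply, Host.psiP, psi]
    have hE := E_gr H P (H.D.τ ∘ w)
    have h1 : ∑ i, (H.D.typ ((H.D.τ ∘ w) i)).2 = ∑ i, (H.D.typ (w i)).2 :=
      Finset.sum_congr rfl (fun i _ => by rw [Function.comp_apply, H.D.typ_τ])
    rw [h1] at hE
    rcases lt_or_ge (2 * P.dim H.n) (∑ i, (H.D.typ (w i)).2) with h | h
    · rw [H.hW.top_gr hP hE h, map_zero, mul_zero, map_zero, mul_zero]
    · have h2 := (staB (H.lamP P).1.slm).1 _ _ h hE
      rw [H.hW.tr_gr hP (H.hW.mul_gr hP hzg h2), mul_zero]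
      intro h3
      apply hodd
      refine ⟨j, ?_⟩
      omega
  · intro a b ha hb
    rw [map_add, Pi.add_apply, ha, hb, add_zero]

end Ge

/-- Row GE. -/
theorem ge : GeStatement.{u, w} := by
  intro k _ W 𝒱 m H
  exact ⟨Ge.expand H, Ge.inj H, Ge.tc_outer H, fun P z w h => Ge.tc_off H P z w h, Ge.E_off H,
    Ge.tc_sum H, Ge.E_gr H, Ge.psi_E H, Ge.psi_tc H, Ge.even H, Ge.ind H⟩

end Pool.Agent.Lib.MP_361a6f_ag.FL
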