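import Pool.Agent.Lib.MP_361a6f_ag.FL.Defs

/-!
# Positivity on real spans, abstract part

A rational positive definite form is positive definite on the real span; consequence for the values
of the diagram maps.
-/

namespace Pool.Agent.Lib.MP_361a6f_ag.FL

namespace GPOS

section span

variable {V : Type*} [AddCommGroup V] [Module ℝ V] (B : V →ₗ[ℝ] V →ₗ[ℝ] ℂ) (E : AddSubgroup V)

/-- a rational positive definite quadratic form is positive definite on the real span; finite
sums -/
theorem pos_sum (hq : ∀ (q : ℚ), ∀ x ∈ E, (q : ℝ) • x ∈ E)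
    (hpos : ∀ x ∈ E, x ≠ 0 → ∃ q : ℚ, 0 < q ∧ B x x = (q : ℂ)) (N : ℕ) :
    ∀ (z : Fin N → V) (c : Fin N → ℝ), (∀ ν, z ν ∈ E) → ∑ ν, c ν • z ν ≠ 0 →
      ∃ r : ℝ, 0 < r ∧ B (∑ ν, c ν • z ν) (∑ ν, c ν • z ν) = (r : ℂ) := by
  have hrat : ∀ x ∈ E, ∃ q : ℚ, B x x = (q : ℂ) := by
    intro x hx
    by_cases h : x = 0
    · exact ⟨0, by rw [h]; simp⟩
    · obtain ⟨q, _, hq'⟩ := hpos x hx h
      exact ⟨q, hq'⟩
  have hsym : ∀ x ∈ E, ∀ y ∈ E, ∃ q : ℚ, B x y + B y x = (q : ℂ) := by
    intro x hx y hy
    obtain ⟨a, ha⟩ := hrat x hx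
    obtain ⟨b, hb⟩ := hrat y hy
    obtain ⟨c, hc⟩ := hrat (x + y) (add_mem hx hy)
    refine ⟨c - a - b, ?_⟩
    push_cast
    rw [← ha, ← hb, ← hc]
    simp only [map_add, LinearMap.add_apply]
    ring
  induction N with
  | zero => intro z c _ h; simp at h
  | succ N ih =>
    intro z c hz hne
    rw [Fin.sum_univ_succ] at hne ⊢
    by_cases h0 : z 0 = 0
    · rw [h0, smul_zero, zero_add] at hne ⊢
      exact ih (fun ν => z ν.succ) (fun ν => c ν.succ) (fun ν => hz _) hne
    · obtain ⟨a, ha, hBa⟩ := hpos (z 0) (hz 0) h0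
      choose b hb using fun ν : Fin N => hsym (z ν.succ) (hz _) (z 0) (hz 0)
      set q : Fin N → ℚ := fun ν => b ν / (2 * a) with hqdef
      set z' : Fin N → V := fun ν => z ν.succ - (q ν : ℝ) • z 0 with hz'
      have hz'E : ∀ ν, z' ν ∈ E := fun ν => sub_mem (hz _) (hq _ _ (hz 0))
      set u' : V := ∑ ν, c ν.succ • z' ν with hu'
      set e : ℝ := c 0 + ∑ ν, c ν.succ * (q ν : ℝ) with he
      have hsum : c 0 • z 0 + ∑ ν : Fin N, c ν.succ • z ν.succ = e • z 0 + u' := by
        rw [hu', he]
        simp only [hz', smul_sub, Finset.sum_sub_distrib, add_smul, Finset.sum_smul, mul_smul]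
        abel
      have horth : ∀ ν, B (z' ν) (z 0) + B (z 0) (z' ν) = 0 := by
        intro ν
        have h1 := hb ν
        simp only [hz', map_sub, LinearMap.sub_apply, map_smul, LinearMap.smul_apply]
        have h2 : (((q ν : ℝ)) • B (z 0) (z 0) : ℂ) = ((b ν : ℚ) : ℂ) / 2 := by
          rw [hBa, hqdef]
          have : (a : ℂ) ≠ 0 := by exact_mod_cast ha.ne'
          rw [Complex.real_smul]
          push_cast
          field_simp
        rw [h2]
        linear_combination h1
      have horth' : B u' (z 0) + B (z 0) u' = 0 := by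
        rw [hu']
        simp only [map_sum, LinearMap.sum_apply, map_smul, LinearMap.smul_apply]
        rw [← Finset.sum_add_distrib]
        refine Finset.sum_eq_zero fun ν _ => ?_
        rw [← smul_add, horth, smul_zero]
      rw [hsum] at hne ⊢
      have hexp : B (e • z 0 + u') (e • z 0 + u')
          = ((e ^ 2 * (a : ℝ) : ℝ) : ℂ) + B u' u' := by
        simp only [map_add, LinearMap.add_apply, map_smul, LinearMap.smul_apply, hBa,
          Complex.real_smul]
        push_cast
        linear_combination (e : ℂ) * horth'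
      have ha' : (0 : ℝ) < a := by exact_mod_cast ha
      by_cases hu0 : u' = 0
      · rw [hu0, add_zero] at hne
        have he0 : e ≠ 0 := by
          intro h
          exact hne (by rw [h, zero_smul])
        refine ⟨e ^ 2 * a, by positivity, ?_⟩
        rw [hexp, hu0]
        simp
      · obtain ⟨r, hr, hB⟩ := ih z' (fun ν => c ν.succ) hz'E hu0
        refine ⟨e ^ 2 * a + r, by positivity, ?_⟩
        rw [hexp, hB]
        push_cast
        ring

/-- a rational positive definite quadratic form is positive definite on the real span -/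
theorem pos_span (hq : ∀ (q : ℚ), ∀ x ∈ E, (q : ℝ) • x ∈ E)
    (hpos : ∀ x ∈ E, x ≠ 0 → ∃ q : ℚ, 0 < q ∧ B x x = (q : ℂ)) {u : V}
    (hu : u ∈ Submodule.span ℝ (E : Set V)) (hne : u ≠ 0) :
    ∃ r : ℝ, 0 < r ∧ B u u = (r : ℂ) := by
  obtain ⟨N, c, z, rfl⟩ := Submodule.mem_span_set'.1 hu
  exact pos_sum B E hq hpos N (fun ν => (z ν : V)) c (fun ν => (z ν).2) hne

end span

section diag

variable {I Λ : Type} [Fintype I] [DecidableEq I] [DecidableEq Λ] (D : Dat I Λ)

/-- the form `ψ` as a real bilinear map -/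
noncomputable def psiR (L : ℕ) : Ten I L →ₗ[ℝ] Ten I L →ₗ[ℝ] ℂ :=
  LinearMap.mk₂ ℝ (fun u v => psiT D u v)
    (fun u u' v => by
      simp only [psiT, Pi.add_apply]
      rw [← Finset.sum_add_distrib]
      exact Finset.sum_congr rfl fun w _ => by ring)
    (fun c u v => by
      simp only [psiT, Pi.smul_apply, Complex.real_smul]
      rw [Finset.mul_sum]
      exact Finset.sum_congr rfl fun w _ => by ring)
    (fun u v v' => by
      simp only [psiT, Pi.add_apply]
      rw [← Finset.sum_add_distrib]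
      exact Finset.sum_congr rfl fun w _ => by ring)
    (fun c u v => by
      simp only [psiT, Pi.smul_apply, Complex.real_smul]
      rw [Finset.mul_sum]
      exact Finset.sum_congr rfl fun w _ => by ring)

/-- a system of subgroups of the tensors which is closed under the operations of diagrams -/
structure Closed (At : ∀ L, AddSubgroup (Ten I L)) : Prop where
  one : (fun _ => 1) ∈ At 0
  out : ∀ {p q : ℕ} {u : Ten I p} {v : Ten I q}, u ∈ At p → v ∈ At q → outer u v ∈ At (p + q)
  perm : ∀ {L : ℕ} (σ : Equiv.Perm (Fin L)) {u : Ten I L}, u ∈ At L → permT σ u ∈ At L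
  cont : ∀ {p c : ℕ} {u : Ten I p} {m : Ten I (p + c)}, u ∈ At p → m ∈ At (p + c) →
    cont D u m ∈ At c
  om : ∀ α, om D α ∈ At 2
  rat : ∀ {L : ℕ} (q : ℚ) {u : Ten I L}, u ∈ At L → (q : ℝ) • u ∈ At L

variable {D}

/-- matchings are in every closed system -/
theorem Closed.match {At : ∀ L, AddSubgroup (Ten I L)} (H : Closed D At) {L : ℕ} {m : Ten I L}
    (hm : IsMatch D L m) : m ∈ At L := by
  induction hm with
  | nil => exact H.one
  | step L m α _ ih => exact H.out ih (H.om α)
  | perm L m σ _ ih => exact H.perm σ ih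

variable {ι : Type} [Fintype ι] {len : ι → ℕ}

omit [Fintype ι] in
/-- the values of the diagram maps are in every closed system -/
theorem Closed.dm {At : ∀ L, AddSubgroup (Ten I L)} (H : Closed D At) {t : Tup I len}
    (ht : ∀ i, t i ∈ At (len i)) (c : ℕ) (l : List ι) (m : Ten I ((l.map len).sum + c))
    (hm : IsMatch D _ m) : dm D c l m t ∈ At c := by
  have h : ∀ l : List ι, prodT t l ∈ At (l.map len).sum := by
    intro l
    induction l with
    | nil => exact H.one
    | cons i l ih => exact H.out (ht i) ih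
  exact H.cont (h l) (H.match hm)

/-- positivity on the real span of the diagrams -/
theorem Closed.posAt {At : ∀ L, AddSubgroup (Ten I L)} (H : Closed D At) {t : Tup I len}
    (ht : ∀ i, t i ∈ At (len i)) (c : ℕ)
    (hpos : ∀ u ∈ At c, u ≠ 0 → ∃ q : ℚ, 0 < q ∧ psiT D u u = (q : ℂ)) : PosAt D t c := by
  intro u hu hne
  refine pos_span (psiR D c) (At c) (fun q x hx => H.rat q hx) hpos
    (Submodule.span_mono ?_ hu) hne
  rintro _ ⟨l, m, hm, rfl⟩
  exact H.dm ht c l m hm

end diag

end GPOS

end Pool.Agent.Lib.MP_361a6f_ag.FL
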