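import Pool.Agent.Lib.MP_361a6f_ag.FL.GeoDefs

/-!
# Finite level, row GR: change of the brackets
-/

open CategoryTheory AlgebraicGeometry MonoidalCategory CartesianMonoidalCategory

universe u v w

namespace Pool.Agent.Lib.MP_361a6f_ag.FL

open Pool.Agent.Lib.MP_361a6f_ag.H3 Pool.Agent.Lib.MP_361a6f_ag.SQ
  Pool.Agent.Lib.MP_361a6f_ag.PP

variable {k : Type u} [Field k] {m : ℕ}

theorem Prd.size_pos : ∀ P : Prd m, 0 < P.size
  | .leaf _ => Nat.one_pos
  | .prod P _ => Nat.add_pos_left P.size_pos _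

theorem append_cast {α : Type*} {a b a' b' : ℕ} (ha : a = a') (hb : b = b')
    (h : a + b = a' + b') {f : Fin a → α} {g : Fin b → α} {f' : Fin a' → α} {g' : Fin b' → α}
    (hf : ∀ i, f i = f' (Fin.cast ha i)) (hg : ∀ i, g i = g' (Fin.cast hb i))
    (i : Fin (a + b)) : Fin.append f g i = Fin.append f' g' (Fin.cast h i) := by
  subst ha
  subst hb
  have e1 : f = f' := funext hf
  have e2 : g = g' := funext hg
  rw [e1, e2]
  rfl

theorem of_append_cast {α : Type*} {a b a' b' : ℕ} (ha : a = a') (hb : b = b')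
    (h : a + b = a' + b') {f : Fin a → α} {g : Fin b → α} {f' : Fin a' → α} {g' : Fin b' → α}
    (hall : ∀ i, Fin.append f g i = Fin.append f' g' (Fin.cast h i)) :
    (∀ i, f i = f' (Fin.cast ha i)) ∧ ∀ i, g i = g' (Fin.cast hb i) := by
  subst ha
  subst hb
  constructor
  · intro i
    have h1 := hall (Fin.castAdd b i)
    rw [Fin.append_left] at h1
    exact h1.trans (Fin.append_left _ _ _)
  · intro i
    have h1 := hall (Fin.natAdd a i)
    rw [Fin.append_right] at h1
    exact h1.trans (Fin.append_right _ _ _)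

namespace Host

variable {W : CohomologyData.{u, 0, w} k ℂ} {𝒱 : VarietyClass k} (H : Host W 𝒱 m)

theorem rel_refl (P : Prd m) : H.Rel P P :=
  ⟨rfl, 𝟙 _, 𝟙 _, fun _ => W.pull_id _, fun _ => W.pull_id _, fun _ => rfl⟩

variable {H}

theorem Rel.symm {P Q : Prd m} (h : H.Rel P Q) : H.Rel Q P := by
  obtain ⟨hs, f, g, hf, hg, hl⟩ := h
  refine ⟨hs.symm, g, f, hg, hf, fun i => ?_⟩
  rw [hl]
  rfl

theorem Rel.trans {P Q R : Prd m} (h : H.Rel P Q) (h' : H.Rel Q R) : H.Rel P R := by
  obtain ⟨hs, f, g, hf, hg, hl⟩ := h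
  obtain ⟨hs', f', g', hf', hg', hl'⟩ := h'
  refine ⟨hs.trans hs', f ≫ f', g' ≫ g, fun w => ?_, fun w => ?_, fun i => ?_⟩
  · rw [W.pull_comp, hf', hf]
    rfl
  · rw [W.pull_comp, hg, hg']
    rfl
  · rw [hl, hl']
    rfl

theorem E_prod (P Q : Prd m) (w : Fin (Prd.prod P Q).size → H.I) :
    H.E (.prod P Q) w
      = W.pull (fst (P.obj H.X) (Q.obj H.X)) (H.E P (fun i => w (Fin.castAdd Q.size i)))
        * W.pull (snd (P.obj H.X) (Q.obj H.X)) (H.E Q (fun i => w (Fin.natAdd P.size i))) := rfl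

theorem pull_tensor {A B A' B' : Sch k} (f : A ⟶ A') (g : B ⟶ B') (a : W.coh A') (b : W.coh B') :
    W.pull (f ⊗ₘ g) (W.pull (fst A' B') a * W.pull (snd A' B') b)
      = W.pull (fst A B) (W.pull f a) * W.pull (snd A B) (W.pull g b) := by
  rw [map_mul, ← W.pull_comp, ← W.pull_comp, ← W.pull_comp, ← W.pull_comp, tensorHom_fst,
    tensorHom_snd]

theorem Rel.prod {P Q P' Q' : Prd m} (h : H.Rel P P') (h' : H.Rel Q Q') :
    H.Rel (.prod P Q) (.prod P' Q') := by
  obtain ⟨hs, f, g, hf, hg, hl⟩ := h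
  obtain ⟨hs', f', g', hf', hg', hl'⟩ := h'
  have hs2 : (Prd.prod P Q).size = (Prd.prod P' Q').size := by
    simp only [Prd.size, hs, hs']
  refine ⟨hs2, f ⊗ₘ f', g ⊗ₘ g', fun w => ?_, fun w => ?_, fun i => ?_⟩
  · rw [E_prod, E_prod]
    refine (pull_tensor f f' _ _).trans ?_
    rw [hf, hf']
    congr 3
    funext i
    exact congrArg w (Fin.ext (congrArg (· + i.val) hs.symm))
  · rw [E_prod, E_prod]
    refine (pull_tensor g g' _ _).trans ?_
    rw [hg, hg']
    congr 3
    funext i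
    exact congrArg w (Fin.ext (congrArg (· + i.val) hs))
  · exact append_cast hs hs' hs2 hl hl' i

theorem pull_assoc {A B C : Sch k} (a : W.coh A) (b : W.coh B) (c : W.coh C) :
    W.pull (α_ A B C).hom (W.pull (fst A (B ⊗ C)) a
        * W.pull (snd A (B ⊗ C)) (W.pull (fst B C) b * W.pull (snd B C) c))
      = W.pull (fst (A ⊗ B) C) (W.pull (fst A B) a * W.pull (snd A B) b)
        * W.pull (snd (A ⊗ B) C) c := by
  simp only [map_mul, ← W.pull_comp]
  rw [associator_hom_fst, associator_hom_snd_fst, associator_hom_snd_snd, mul_assoc]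

theorem pull_assoc_inv {A B C : Sch k} (a : W.coh A) (b : W.coh B) (c : W.coh C) :
    W.pull (α_ A B C).inv (W.pull (fst (A ⊗ B) C) (W.pull (fst A B) a * W.pull (snd A B) b)
        * W.pull (snd (A ⊗ B) C) c)
      = W.pull (fst A (B ⊗ C)) a
        * W.pull (snd A (B ⊗ C)) (W.pull (fst B C) b * W.pull (snd B C) c) := by
  simp only [map_mul, ← W.pull_comp]
  rw [associator_inv_fst_fst, associator_inv_fst_snd, associator_inv_snd, mul_assoc]

theorem rel_assoc (P Q R : Prd m) : H.Rel (.prod (.prod P Q) R) (.prod P (.prod Q R)) := by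
  have hs : (Prd.prod (.prod P Q) R).size = (Prd.prod P (.prod Q R)).size := by
    simp only [Prd.size, Nat.add_assoc]
  refine ⟨hs, (α_ (P.obj H.X) (Q.obj H.X) (R.obj H.X)).hom,
    (α_ (P.obj H.X) (Q.obj H.X) (R.obj H.X)).inv, fun w => ?_, fun w => ?_, fun i => ?_⟩
  · refine (pull_assoc (W := W) (H.E P (fun i => w (Fin.castAdd (Prd.prod Q R).size i)))
      (H.E Q (fun i => w (Fin.natAdd P.size (Fin.castAdd R.size i))))
      (H.E R (fun i => w (Fin.natAdd P.size (Fin.natAdd Q.size i))))).trans ?_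
    rw [E_prod, E_prod]
    congr 3
    funext i
    exact congrArg w (Fin.ext (Nat.add_assoc _ _ _).symm)
  · have e1 : (fun i => w (Fin.castAdd R.size (Fin.castAdd Q.size i)))
        = fun i => (w ∘ Fin.cast hs.symm) (Fin.castAdd (Prd.prod Q R).size i) := by
      funext i
      exact congrArg w (Fin.ext rfl)
    have e2 : (fun i => w (Fin.castAdd R.size (Fin.natAdd P.size i)))
        = fun i => (w ∘ Fin.cast hs.symm) (Fin.natAdd P.size (Fin.castAdd R.size i)) := by
      funext i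
      exact congrArg w (Fin.ext rfl)
    have e3 : (fun i => w (Fin.natAdd (Prd.prod P Q).size i))
        = fun i => (w ∘ Fin.cast hs.symm) (Fin.natAdd P.size (Fin.natAdd Q.size i)) := by
      funext i
      exact congrArg w (Fin.ext (Nat.add_assoc _ _ _))
    refine (pull_assoc_inv (W := W) (H.E P (fun i => w (Fin.castAdd R.size (Fin.castAdd Q.size i))))
      (H.E Q (fun i => w (Fin.castAdd R.size (Fin.natAdd P.size i))))
      (H.E R (fun i => w (Fin.natAdd (Prd.prod P Q).size i)))).trans ?_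
    rw [e1, e2, e3]
    rfl
  · exact congrFun (Fin.append_assoc P.lw Q.lw R.lw) i

theorem rel_split : ∀ (R : Prd m) (p c : ℕ), 0 < p → 0 < c → R.size = p + c →
    ∃ P Q : Prd m, P.size = p ∧ Q.size = c ∧ H.Rel R (.prod P Q)
  | .leaf a, p, c, hp, hc, h => by
    change 1 = p + c at h
    omega
  | .prod A B, p, c, hp, hc, h => by
    change A.size + B.size = p + c at h
    have hA := A.size_pos
    have hB := B.size_pos
    rcases lt_trichotomy A.size p with h1 | h1 | h1
    · obtain ⟨P', Q, h2, h3, h4⟩ := rel_split B (p - A.size) c (by omega) hc (by omega)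
      refine ⟨.prod A P', Q, ?_, h3, ?_⟩
      · change A.size + P'.size = p
        omega
      · exact (Rel.prod (H.rel_refl A) h4).trans (rel_assoc A P' Q).symm
    · exact ⟨A, B, h1, by omega, H.rel_refl _⟩
    · obtain ⟨P, Q', h2, h3, h4⟩ := rel_split A p (A.size - p) hp (by omega) (by omega)
      refine ⟨P, .prod Q' B, h2, ?_, ?_⟩
      · change Q'.size + B.size = c
        omega
      · exact (Rel.prod h4 (H.rel_refl B)).trans (rel_assoc P Q' B)

theorem Rel.lw {P Q : Prd m} (h : H.Rel P Q) : ∃ hs : P.size = Q.size,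
    ∀ i, P.lw i = Q.lw (Fin.cast hs i) := by
  obtain ⟨hs, f, g, hf, hg, hl⟩ := h
  exact ⟨hs, hl⟩

theorem rel_coh : ∀ (P Q : Prd m) (h : P.size = Q.size),
    (∀ i, P.lw i = Q.lw (Fin.cast h i)) → H.Rel P Q
  | .leaf a, .leaf b, h, hl => by
    have h1 : a = b := hl ⟨0, Nat.one_pos⟩
    subst h1
    exact H.rel_refl _
  | .leaf a, .prod A B, h, _ => by
    change 1 = A.size + B.size at h
    have hA := A.size_pos
    have hB := B.size_pos
    omega
  | .prod A B, Q, h, hl => by
    obtain ⟨P1, Q1, h1, h2, h3⟩ := rel_split (H := H) Q A.size B.size A.size_pos B.size_pos h.symm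
    obtain ⟨hs, hlw⟩ := h3.lw
    obtain ⟨h4, h5⟩ := of_append_cast h1.symm h2.symm (h.trans hs)
      (fun i => (hl i).trans (hlw (Fin.cast h i)))
    exact (Rel.prod (rel_coh A P1 h1.symm h4) (rel_coh B Q1 h2.symm h5)).trans h3.symm

theorem Rel.tc (hG : H.GeFacts) {P Q : Prd m} (h : H.Rel P Q) : ∃ h : P.size = Q.size,
    ∀ z : W.coh (Q.obj H.X), z ∈ tot W (Q.obj H.X) → ∃ z' : W.coh (P.obj H.X),
      z' ∈ tot W (P.obj H.X) ∧ ∀ w, H.tc P z' w = H.tc Q z (w ∘ Fin.cast h.symm) := by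
  obtain ⟨hs, f, g, hf, hg, hl⟩ := h
  refine ⟨hs, fun z hz => ⟨W.pull f z, tot_pull H.hW (H.memP P) (H.memP Q) f hz, ?_⟩⟩
  set u : Ten H.I P.size := fun w => H.tc Q z (w ∘ Fin.cast hs.symm) with hu
  have h0 : ∀ w, H.Off P w → u w = 0 := by
    rintro w ⟨i, hi⟩
    refine hG.tc_off Q z _ ⟨Fin.cast hs i, ?_⟩
    rw [← hl]
    exact hi
  have h1 : W.pull f z = ∑ w, u w • H.E P w := by
    conv_lhs => rw [hG.expand Q z]
    rw [map_sum]
    refine Fintype.sum_equiv (Equiv.arrowCongr (finCongr hs.symm) (Equiv.refl H.I)) _ _ ?_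
    intro w
    rw [map_smul, hf]
    rfl
  intro w
  rw [h1, hG.tc_sum P u h0]

end Host

/-- Row GR. -/
theorem gr (ge : GeStatement.{u, w}) : GrStatement.{u, w} := by
  intro k _ W 𝒱 m H
  exact
    { refl := H.rel_refl
      symm := fun _ _ h => h.symm
      trans := fun _ _ _ h h' => h.trans h'
      prod := fun _ _ _ _ h h' => h.prod h'
      assoc := Host.rel_assoc
      split := Host.rel_split
      coh := Host.rel_coh
      tc := fun _ _ h => h.tc (ge H) }

end Pool.Agent.Lib.MP_361a6f_ag.FL
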