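import Pool.Agent.Lib.MP_361a6f_ag.FL.AlgDefs

/-!
# Row AL1b: continuity, exponentials, the group and the Lie algebra
-/

open Filter Topology

namespace Pool.Agent.Lib.MP_361a6f_ag.FL.AL1B

open scoped Matrix

section tensors

variable {I : Type} [Fintype I] [DecidableEq I]

theorem gT_cont {L : ℕ} : Continuous fun p : Matrix I I ℂ × Ten I L => gT p.1 p.2 := by
  refine continuous_pi fun w => ?_
  unfold gT
  refine continuous_finset_sum _ fun w' _ => ?_
  refine Continuous.mul (continuous_finset_prod _ fun i _ => ?_) ?_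
  · exact (continuous_apply (w' i)).comp ((continuous_apply (w i)).comp continuous_fst)
  · exact (continuous_apply w').comp continuous_snd

/-- the derivative of an entry of `exp (t A)` -/
theorem hasDerivAt_exp_entry (A : Matrix I I ℂ) (t : ℂ) (i j : I) :
    HasDerivAt (fun t : ℂ => NormedSpace.exp (t • A) i j) ((A * NormedSpace.exp (t • A)) i j) t := by
  letI : NormedRing (Matrix I I ℂ) := Matrix.linftyOpNormedRing
  letI : NormedAlgebra ℂ (Matrix I I ℂ) := Matrix.linftyOpNormedAlgebra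
  have h := hasDerivAt_exp_smul_const' (𝕂 := ℂ) A t
  let φ : Matrix I I ℂ →L[ℂ] ℂ := LinearMap.toContinuousLinearMap (Matrix.entryLinearMap ℂ ℂ i j)
  exact φ.hasFDerivAt.comp_hasDerivAt t h

/-- the derivation as a linear map -/
noncomputable def aL {L : ℕ} (A : Matrix I I ℂ) : Ten I L →ₗ[ℂ] Ten I L where
  toFun := aT A
  map_add' u v := by
    funext w
    simp only [aT, Pi.add_apply, mul_add, Finset.sum_add_distrib]
  map_smul' c u := by
    funext w
    simp only [aT, Pi.smul_apply, smul_eq_mul, RingHom.id_apply, Finset.mul_sum]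
    refine Finset.sum_congr rfl fun i _ => Finset.sum_congr rfl fun j _ => by ring

/-- the derivation as a continuous linear map -/
noncomputable def aC {L : ℕ} (A : Matrix I I ℂ) : Ten I L →L[ℂ] Ten I L :=
  LinearMap.toContinuousLinearMap (aL A)

theorem aC_apply {L : ℕ} (A : Matrix I I ℂ) (u : Ten I L) : aC A u = aT A u := rfl

theorem aT_gT_apply {L : ℕ} (A E : Matrix I I ℂ) (u : Ten I L) (w : Fin L → I) :
    aT A (gT E u) w = ∑ w', (∑ k, (∏ i ∈ Finset.univ.erase k, E (w i) (w' i)) *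
      (A * E) (w k) (w' k)) * u w' := by
  have key : ∀ (i : Fin L) (j : I) (w' : Fin L → I),
      ∏ k, E (Function.update w i j k) (w' k) =
        E j (w' i) * ∏ k ∈ Finset.univ.erase i, E (w k) (w' k) := by
    intro i j w'
    rw [← Finset.mul_prod_erase Finset.univ _ (Finset.mem_univ i)]
    congr 1
    · simp
    · refine Finset.prod_congr rfl fun k hk => ?_
      rw [Function.update_of_ne (Finset.ne_of_mem_erase hk)]
  have h1 : aT A (gT E u) w = ∑ i : Fin L, ∑ w' : Fin L → I,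
      (∏ k ∈ Finset.univ.erase i, E (w k) (w' k)) * (A * E) (w i) (w' i) * u w' := by
    unfold aT gT
    refine Finset.sum_congr rfl fun i _ => ?_
    simp only [Finset.mul_sum]
    rw [Finset.sum_comm]
    refine Finset.sum_congr rfl fun w' _ => ?_
    rw [Matrix.mul_apply, Finset.mul_sum, Finset.sum_mul]
    refine Finset.sum_congr rfl fun j _ => ?_
    rw [key]
    ring
  rw [h1, Finset.sum_comm]
  refine Finset.sum_congr rfl fun w' _ => ?_
  rw [Finset.sum_mul]

theorem hasDerivAt_gT_exp {L : ℕ} (A : Matrix I I ℂ) (u : Ten I L) (t : ℂ) :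
    HasDerivAt (fun t : ℂ => gT (NormedSpace.exp (t • A)) u)
      (aT A (gT (NormedSpace.exp (t • A)) u)) t := by
  rw [hasDerivAt_pi]
  intro w
  rw [aT_gT_apply]
  unfold gT
  refine HasDerivAt.fun_sum fun w' _ => ?_
  refine HasDerivAt.mul_const ?_ _
  have h := HasDerivAt.fun_finset_prod (u := Finset.univ)
    (f := fun (i : Fin L) (t : ℂ) => NormedSpace.exp (t • A) (w i) (w' i))
    (fun i _ => hasDerivAt_exp_entry A t (w i) (w' i))
  simpa only [smul_eq_mul] using h

theorem gT_one {L : ℕ} (u : Ten I L) : gT (1 : Matrix I I ℂ) u = u := by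
  funext w
  unfold gT
  rw [Finset.sum_eq_single w]
  · simp
  · intro w' _ hw
    obtain ⟨i, hi⟩ := Function.ne_iff.1 hw
    refine mul_eq_zero_of_left (Finset.prod_eq_zero (Finset.mem_univ i) ?_) _
    exact Matrix.one_apply_ne (Ne.symm hi)
  · intro h
    exact absurd (Finset.mem_univ w) h

theorem gT_exp {L : ℕ} (A : Matrix I I ℂ) (u : Ten I L) :
    HasSum (fun n : ℕ => ((n.factorial : ℂ)⁻¹) • (aT A)^[n] u) (gT (NormedSpace.exp A) u) := by
  set T : Ten I L →L[ℂ] Ten I L := aC A with hT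
  let _ : NormedAlgebra ℚ (Ten I L →L[ℂ] Ten I L) := NormedAlgebra.restrictScalars ℚ ℂ _
  set F : ℂ → Ten I L := fun t => gT (NormedSpace.exp (t • A)) u with hF
  have h1 : ∀ t, HasDerivAt F (T (F t)) t := fun t => hasDerivAt_gT_exp A u t
  have h2 : ∀ t : ℂ, HasDerivAt (fun t : ℂ => NormedSpace.exp (t • (-T)))
      (NormedSpace.exp (t • (-T)) * (-T)) t := fun t => hasDerivAt_exp_smul_const (𝕂 := ℂ) (-T) t
  have h3 : ∀ t : ℂ, HasDerivAt (fun t : ℂ => (NormedSpace.exp (t • (-T))) (F t)) 0 t := by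
    intro t
    have h := (h2 t).clm_apply (h1 t)
    have e : (NormedSpace.exp (t • (-T)) * (-T)) (F t) +
        NormedSpace.exp (t • (-T)) (T (F t)) = 0 := by
      change NormedSpace.exp (t • (-T)) (-(T (F t))) + NormedSpace.exp (t • (-T)) (T (F t)) = 0
      rw [map_neg, neg_add_cancel]
    rw [e] at h
    exact h
  have h4 : (NormedSpace.exp ((1 : ℂ) • (-T))) (F 1) = (NormedSpace.exp ((0 : ℂ) • (-T))) (F 0) :=
    is_const_of_deriv_eq_zero (fun t => (h3 t).differentiableAt) (fun t => (h3 t).deriv) 1 0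
  have h5 : NormedSpace.exp (-T) (F 1) = u := by
    have h0 : F 0 = u := by
      rw [hF]
      change gT (NormedSpace.exp ((0 : ℂ) • A)) u = u
      rw [zero_smul, NormedSpace.exp_zero]
      exact gT_one u
    rw [one_smul, show (0 : ℂ) • (-T) = 0 from zero_smul ℂ (-T), NormedSpace.exp_zero, h0] at h4
    exact h4
  have h6 : NormedSpace.exp T * NormedSpace.exp (-T) = 1 := by
    rw [← NormedSpace.exp_add_of_commute (Commute.neg_right (Commute.refl T)), add_neg_cancel,
      NormedSpace.exp_zero]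
  have h7 : F 1 = NormedSpace.exp T u := by
    have e : (NormedSpace.exp T * NormedSpace.exp (-T)) (F 1) = F 1 := by
      rw [h6]
      rfl
    rw [← e]
    change NormedSpace.exp T (NormedSpace.exp (-T) (F 1)) = _
    rw [h5]
  have h8 := NormedSpace.exp_series_hasSum_exp' (𝕂 := ℂ) T
  have h9 := (ContinuousLinearMap.apply ℂ (Ten I L) u).hasSum h8
  have h10 : ∀ n : ℕ, (T ^ n) u = (aT A)^[n] u := by
    intro n
    rw [FunLike.coe_pow_eq_iterate]
    rfl
  have h11 : F 1 = gT (NormedSpace.exp A) u := by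
    rw [hF]
    change gT (NormedSpace.exp ((1 : ℂ) • A)) u = _
    rw [one_smul]
  have h12 : (fun n : ℕ => ((n.factorial : ℂ)⁻¹) • (aT A)^[n] u) =
      fun n : ℕ => (ContinuousLinearMap.apply ℂ (Ten I L) u) (((n.factorial : ℂ)⁻¹) • T ^ n) := by
    funext n
    rw [← h10]
    rfl
  rw [← h11, h7, h12]
  exact h9

end tensors

section group

variable {I Λ : Type} [Fintype I] [DecidableEq I] [DecidableEq Λ] (D : Dat I Λ)

theorem psi_mul_apply (A : Matrix I I ℂ) (i j : I) : (Psi D * A) i j = D.s i * A (D.τ i) j := by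
  rw [Matrix.mul_apply, Finset.sum_eq_single (D.τ i)]
  · simp [Psi]
  · intro k _ hk
    simp [Psi, hk]
  · intro h
    exact absurd (Finset.mem_univ _) h

theorem mul_psi_apply (A : Matrix I I ℂ) (i j : I) :
    (A * Psi D) i j = A i (D.τ j) * D.s (D.τ j) := by
  rw [Matrix.mul_apply, Finset.sum_eq_single (D.τ j)]
  · simp [Psi, D.τ_τ]
  · intro k _ hk
    have h : j ≠ D.τ k := by
      intro h
      apply hk
      rw [h, D.τ_τ]
    simp [Psi, h]
  · intro h
    exact absurd (Finset.mem_univ _) h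

theorem s_mul_self (i : I) : D.s i * D.s i = 1 := by
  rcases D.s_val i with h | h <;> rw [h] <;> norm_num

theorem s_conj (i : I) : (starRingEnd ℂ) (D.s i) = D.s i := by
  rcases D.s_val i with h | h <;> rw [h] <;> simp

theorem psi_transpose_mul : (Psi D).transpose * Psi D = 1 := by
  ext i j
  rw [mul_psi_apply, Matrix.transpose_apply]
  simp only [Psi, Matrix.of_apply]
  by_cases h : i = j
  · subst h
    rw [if_pos (D.τ_τ i).symm, s_mul_self, Matrix.one_apply_eq]
  · rw [if_neg, zero_mul, Matrix.one_apply_ne h]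
    rw [D.τ_τ]
    exact h

theorem psi_mul_transpose : Psi D * (Psi D).transpose = 1 :=
  mul_eq_one_comm.1 (psi_transpose_mul D)

theorem isUnit_psi : IsUnit (Psi D) :=
  ⟨⟨Psi D, (Psi D).transpose, psi_mul_transpose D, psi_transpose_mul D⟩, rfl⟩

theorem isLie_iff (A : Matrix I I ℂ) : IsLie D A ↔
    (∀ i j, D.typ i ≠ D.typ j → A i j = 0) ∧
      ∀ i j, A (D.τ j) i * D.s (D.τ j) + D.s i * A (D.τ i) j = 0 := by
  unfold IsLie
  refine and_congr Iff.rfl ?_
  rw [← Matrix.ext_iff]
  refine forall_congr' fun i => forall_congr' fun j => ?_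
  rw [Matrix.add_apply, mul_psi_apply, psi_mul_apply, Matrix.transpose_apply, Matrix.zero_apply]

theorem G_one : IsG D 1 := by
  refine ⟨fun i j h => Matrix.one_apply_ne ?_, ?_⟩
  · rintro rfl
    exact h rfl
  · rw [Matrix.transpose_one, one_mul, mul_one]

theorem block_mul {g h : Matrix I I ℂ} (hg : ∀ i j, D.typ i ≠ D.typ j → g i j = 0)
    (hh : ∀ i j, D.typ i ≠ D.typ j → h i j = 0) (i j : I) (hij : D.typ i ≠ D.typ j) :
    (g * h) i j = 0 := by
  rw [Matrix.mul_apply]
  refine Finset.sum_eq_zero fun k _ => ?_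
  by_cases hk : D.typ i = D.typ k
  · rw [hh k j (hk ▸ hij), mul_zero]
  · rw [hg i k hk, zero_mul]

theorem G_mul (g h : Matrix I I ℂ) (hg : IsG D g) (hh : IsG D h) : IsG D (g * h) := by
  refine ⟨block_mul D hg.1 hh.1, ?_⟩
  rw [Matrix.transpose_mul]
  calc hᵀ * gᵀ * Psi D * (g * h) = hᵀ * (gᵀ * Psi D * g) * h := by
        simp only [Matrix.mul_assoc]
    _ = Psi D := by rw [hg.2, hh.2]

theorem G_inv (g : Matrix I I ℂ) (hg : IsG D g) : IsG D g⁻¹ ∧ g * g⁻¹ = 1 ∧ g⁻¹ * g = 1 := by
  have h1 : ((Psi D).transpose * g.transpose * Psi D) * g = 1 := by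
    rw [Matrix.mul_assoc, Matrix.mul_assoc, ← Matrix.mul_assoc g.transpose, hg.2,
      psi_transpose_mul]
  have h2 : g⁻¹ = (Psi D).transpose * g.transpose * Psi D := Matrix.inv_eq_left_inv h1
  have h3 : g⁻¹ * g = 1 := by rw [h2, h1]
  have h4 : g * g⁻¹ = 1 := mul_eq_one_comm.1 h3
  refine ⟨⟨fun i j hij => ?_, ?_⟩, h4, h3⟩
  · rw [h2, mul_psi_apply, Matrix.mul_apply, Finset.sum_eq_zero, zero_mul]
    intro k _
    rw [Matrix.transpose_apply, Matrix.transpose_apply]
    by_cases hk : i = D.τ k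
    · rw [hg.1 (D.τ j) k, mul_zero]
      rw [D.typ_τ]
      intro h
      apply hij
      rw [hk, D.typ_τ, h]
    · simp [Psi, hk]
  · calc (g⁻¹)ᵀ * Psi D * g⁻¹ = (g⁻¹)ᵀ * (gᵀ * Psi D * g) * g⁻¹ := by rw [hg.2]
      _ = (g * g⁻¹)ᵀ * Psi D * (g * g⁻¹) := by
        rw [Matrix.transpose_mul]
        simp only [Matrix.mul_assoc]
      _ = Psi D := by rw [h4, Matrix.transpose_one, one_mul, mul_one]

theorem G_exp (A : Matrix I I ℂ) (hA : IsLie D A) : IsG D (NormedSpace.exp A) := by
  refine ⟨fun i j hij => ?_, ?_⟩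
  · have hc : Commute (Matrix.diagonal fun k => if D.typ k = D.typ i then (1 : ℂ) else 0) A := by
      ext k l
      rw [Matrix.diagonal_mul, Matrix.mul_diagonal]
      by_cases hk : D.typ k = D.typ l
      · rw [hk, mul_comm]
      · rw [hA.1 k l hk, mul_zero, zero_mul]
    have he := congrFun (congrFun hc.exp_right i) j
    rw [Matrix.diagonal_mul, Matrix.mul_diagonal, if_pos rfl, if_neg (Ne.symm hij), one_mul,
      mul_zero] at he
    exact he
  · have h1 : Aᵀ = Psi D * (-A) * (Psi D)⁻¹ := by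
      have h2 : Aᵀ * Psi D = Psi D * (-A) := by
        rw [mul_neg, ← add_eq_zero_iff_eq_neg]
        exact hA.2
      rw [← h2, Matrix.mul_assoc, Matrix.mul_nonsing_inv _ ((Matrix.isUnit_iff_isUnit_det _).1
        (isUnit_psi D)), mul_one]
    rw [← Matrix.exp_transpose, h1, Matrix.exp_conj _ _ (isUnit_psi D), Matrix.mul_assoc,
      Matrix.mul_assoc, ← Matrix.mul_assoc (Psi D)⁻¹, Matrix.nonsing_inv_mul _
        ((Matrix.isUnit_iff_isUnit_det _).1 (isUnit_psi D)), one_mul, Matrix.exp_neg,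
      Matrix.mul_assoc,
      Matrix.nonsing_inv_mul _ ((Matrix.isUnit_iff_isUnit_det _).1 (Matrix.isUnit_exp A)), mul_one]

theorem K_exp (A : Matrix I I ℂ) (hA : IsLie D A) (hs : A.conjTranspose = -A) :
    IsK D (NormedSpace.exp A) := by
  refine ⟨G_exp D A hA, ?_⟩
  rw [← Matrix.exp_conjTranspose, hs, Matrix.exp_neg,
    Matrix.nonsing_inv_mul _ ((Matrix.isUnit_iff_isUnit_det _).1 (Matrix.isUnit_exp A))]

theorem Lie_adj (A : Matrix I I ℂ) (hA : IsLie D A) : IsLie D A.conjTranspose := by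
  rw [isLie_iff] at hA ⊢
  refine ⟨fun i j hij => ?_, fun i j => ?_⟩
  · rw [Matrix.conjTranspose_apply, hA.1 j i (Ne.symm hij), star_zero]
  · have h := hA.2 (D.τ j) (D.τ i)
    rw [D.τ_τ, D.τ_τ] at h
    have h' : A i (D.τ j) * D.s (D.τ j) + A j (D.τ i) * D.s i = 0 := by
      linear_combination (D.s i * D.s (D.τ j)) * h - (A i (D.τ j) * D.s (D.τ j)) * s_mul_self D i
        - (D.s i * A j (D.τ i)) * s_mul_self D (D.τ j)
    have h2 := congrArg (starRingEnd ℂ) h'
    rw [map_add, map_mul, map_mul, s_conj, s_conj, map_zero] at h2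
    rw [Matrix.conjTranspose_apply, Matrix.conjTranspose_apply, ← starRingEnd_apply,
      ← starRingEnd_apply, mul_comm (D.s i)]
    exact h2

theorem Lie_smul (c : ℂ) (A : Matrix I I ℂ) (hA : IsLie D A) : IsLie D (c • A) := by
  refine ⟨fun i j hij => ?_, ?_⟩
  · rw [Matrix.smul_apply, hA.1 i j hij, smul_zero]
  · rw [Matrix.transpose_smul, Matrix.smul_mul, Matrix.mul_smul, ← smul_add, hA.2, smul_zero]

theorem Lie_add (A B : Matrix I I ℂ) (hA : IsLie D A) (hB : IsLie D B) : IsLie D (A + B) := by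
  refine ⟨fun i j hij => ?_, ?_⟩
  · rw [Matrix.add_apply, hA.1 i j hij, hB.1 i j hij, add_zero]
  · rw [Matrix.transpose_add, add_mul, mul_add, add_add_add_comm, hA.2, hB.2, add_zero]

end group

end Pool.Agent.Lib.MP_361a6f_ag.FL.AL1B
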