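import Pool.Agent.Lib.MP_361a6f_ag.FL.AlgDefs

/-!
# Row AL2: equivariance of the diagram maps
-/

open Filter Topology MeasureTheory

namespace Pool.Agent.Lib.MP_361a6f_ag.FL

namespace AL2

set_option linter.unusedSectionVars false

variable {I Λ : Type} [Fintype I] [DecidableEq I] [DecidableEq Λ] (D : Dat I Λ)

/-! ### Signs and words -/

omit [Fintype I] [DecidableEq I] [DecidableEq Λ] in
theorem s_mul_s (i : I) : D.s i * D.s i = 1 := by
  rcases D.s_val i with h | h <;> rw [h] <;> norm_num

omit [Fintype I] [DecidableEq I] [DecidableEq Λ] in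
theorem conj_s (i : I) : (starRingEnd ℂ) (D.s i) = D.s i := by
  rcases D.s_val i with h | h <;> rw [h] <;> simp

omit [Fintype I] [DecidableEq I] [DecidableEq Λ] in
theorem sg_mul_sg {L : ℕ} (w : Fin L → I) : sg D w * sg D w = 1 := by
  rw [sg, ← Finset.prod_mul_distrib]
  exact Finset.prod_eq_one fun i _ => s_mul_s D _

omit [Fintype I] [DecidableEq I] [DecidableEq Λ] in
theorem conj_sg {L : ℕ} (w : Fin L → I) : (starRingEnd ℂ) (sg D w) = sg D w := by
  rw [sg, map_prod]
  exact Finset.prod_congr rfl fun i _ => conj_s D _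

omit [Fintype I] [DecidableEq I] [DecidableEq Λ] in
theorem tau_tau {L : ℕ} (w : Fin L → I) : D.τ ∘ (D.τ ∘ w) = w := by
  funext i
  exact D.τ_τ _

/-- the involution `w ↦ τ ∘ w` -/
def tauEquiv (L : ℕ) : (Fin L → I) ≃ (Fin L → I) where
  toFun w := D.τ ∘ w
  invFun w := D.τ ∘ w
  left_inv w := tau_tau D w
  right_inv w := tau_tau D w

omit [Fintype I] [DecidableEq I] [DecidableEq Λ] in
theorem tau_append {p q : ℕ} (a : Fin p → I) (b : Fin q → I) :
    D.τ ∘ Fin.append a b = Fin.append (D.τ ∘ a) (D.τ ∘ b) := by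
  funext i
  refine Fin.addCases (fun i => ?_) (fun i => ?_) i
  · simp
  · simp

omit [Fintype I] [DecidableEq I] [DecidableEq Λ] in
theorem sg_append {p q : ℕ} (a : Fin p → I) (b : Fin q → I) :
    sg D (Fin.append a b) = sg D a * sg D b := by
  rw [sg, Fin.prod_univ_add]
  simp [sg]

omit [DecidableEq I] in
/-- sums over words of length `p + q` -/
theorem sum_append {M : Type*} [AddCommMonoid M] {p q : ℕ} (F : (Fin (p + q) → I) → M) :
    ∑ w, F w = ∑ a : Fin p → I, ∑ b : Fin q → I, F (Fin.append a b) := by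
  classical
  rw [← (Fin.appendEquiv p q).sum_comp, Fintype.sum_prod_type]
  rfl

/-! ### The outer product -/

theorem outer_gT {p q : ℕ} (g : Matrix I I ℂ) (u : Ten I p) (v : Ten I q) :
    gT g (outer u v) = outer (gT g u) (gT g v) := by
  funext w
  unfold gT outer
  rw [sum_append, Finset.sum_mul_sum]
  refine Finset.sum_congr rfl fun a _ => Finset.sum_congr rfl fun b _ => ?_
  rw [Fin.prod_univ_add]
  simp only [Fin.append_left, Fin.append_right]
  ring

omit [Fintype I] [DecidableEq I] [DecidableEq Λ] in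
theorem outer_jT {p q : ℕ} (u : Ten I p) (v : Ten I q) :
    jT D (outer u v) = outer (jT D u) (jT D v) := by
  funext w
  unfold jT outer
  have h : sg D (D.τ ∘ w) = sg D (D.τ ∘ fun i => w (Fin.castAdd q i))
      * sg D (D.τ ∘ fun i => w (Fin.natAdd p i)) := by
    rw [sg, Fin.prod_univ_add]
    rfl
  rw [h, map_mul]
  simp only [Function.comp_apply]
  have e1 : (fun i => D.τ (w (Fin.castAdd q i))) = D.τ ∘ fun i => w (Fin.castAdd q i) := rfl
  have e2 : (fun i => D.τ (w (Fin.natAdd p i))) = D.τ ∘ fun i => w (Fin.natAdd p i) := rfl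
  rw [e1, e2]
  ring

/-! ### Permutations -/

theorem perm_gT {L : ℕ} (g : Matrix I I ℂ) (σ : Equiv.Perm (Fin L)) (u : Ten I L) :
    gT g (permT σ u) = permT σ (gT g u) := by
  funext w
  unfold gT permT
  rw [← (Equiv.arrowCongr σ (Equiv.refl I)).sum_comp]
  refine Finset.sum_congr rfl fun a _ => ?_
  have e1 : (Equiv.arrowCongr σ (Equiv.refl I)) a ∘ σ = a := by
    funext i
    simp [Equiv.arrowCongr]
  have e2 : ∏ i, g (w i) ((Equiv.arrowCongr σ (Equiv.refl I)) a i)
      = ∏ i, g ((w ∘ σ) i) (a i) := by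
    rw [← Equiv.prod_comp σ]
    refine Finset.prod_congr rfl fun i _ => ?_
    simp [Equiv.arrowCongr]
  rw [e1, e2]

omit [Fintype I] [DecidableEq I] [DecidableEq Λ] in
theorem perm_jT {L : ℕ} (σ : Equiv.Perm (Fin L)) (u : Ten I L) :
    jT D (permT σ u) = permT σ (jT D u) := by
  funext w
  unfold jT permT
  have e : sg D (D.τ ∘ (w ∘ σ)) = sg D (D.τ ∘ w) := by
    rw [sg, sg, ← Equiv.prod_comp σ (fun i => D.s ((D.τ ∘ w) i))]
    rfl
  change _ = sg D (D.τ ∘ (w ∘ σ)) * _
  rw [e]
  rfl

/-! ### The invariant tensors of length two -/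

omit [DecidableEq Λ] in
theorem Psi_apply (i j : I) : Psi D i j = if j = D.τ i then D.s i else 0 := rfl

omit [DecidableEq Λ] in
theorem mul_Psi (g : Matrix I I ℂ) (i j : I) : (g * Psi D) i j = g i (D.τ j) * D.s (D.τ j) := by
  rw [Matrix.mul_apply, Finset.sum_eq_single (D.τ j)]
  · rw [Psi_apply, if_pos (D.τ_τ j).symm]
  · intro b _ hb
    rw [Psi_apply, if_neg, mul_zero]
    intro h
    exact hb (by rw [h, D.τ_τ])
  · intro h
    exact absurd (Finset.mem_univ _) h

omit [DecidableEq Λ] in
theorem Psi_mul (g : Matrix I I ℂ) (i j : I) : (Psi D * g) i j = D.s i * g (D.τ i) j := by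
  rw [Matrix.mul_apply, Finset.sum_eq_single (D.τ i)]
  · rw [Psi_apply, if_pos rfl]
  · intro b _ hb
    rw [Psi_apply, if_neg hb, zero_mul]
  · intro h
    exact absurd (Finset.mem_univ _) h

/-- the sign of a letter -/
noncomputable def ep (i : I) : ℂ := D.s i * D.s (D.τ i)

omit [Fintype I] [DecidableEq I] [DecidableEq Λ] in
theorem ep_mul_ep (i : I) : ep D i * ep D i = 1 := by
  have h1 := s_mul_s D i
  have h2 := s_mul_s D (D.τ i)
  unfold ep
  linear_combination (D.s (D.τ i) * D.s (D.τ i)) * h1 + h2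

omit [Fintype I] [DecidableEq I] [DecidableEq Λ] in
theorem ep_eq {i j : I} (h : D.typ i = D.typ j) : ep D i = ep D j := by
  by_cases ho : D.odd (D.typ i)
  · have h1 := (D.odd_τ i ho).2
    have h2 := (D.odd_τ j (h ▸ ho)).2
    unfold ep
    rw [h1, h2]
    have h3 := s_mul_s D i
    have h4 := s_mul_s D j
    linear_combination h4 - h3
  · have h1 := D.even_τ i ho
    have h2 := D.even_τ j (h ▸ ho)
    unfold ep
    rw [h1.1, h2.1, h1.2, h2.2]

omit [DecidableEq Λ] in
/-- the form on the dual space is preserved -/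
theorem Psi_dual {g : Matrix I I ℂ} (hg : IsG D g) : g * Psi D * g.transpose = Psi D := by
  -- `Ψ⁻¹ = ε Ψ`
  let E : Matrix I I ℂ := Matrix.diagonal (ep D)
  have hPE : Psi D * Psi D = E := by
    ext i j
    rw [Psi_mul, Psi_apply, D.τ_τ]
    by_cases h : j = i
    · subst h
      rw [if_pos rfl]
      exact (Matrix.diagonal_apply_eq (ep D) j).symm
    · rw [if_neg h, mul_zero]
      exact (Matrix.diagonal_apply_ne (ep D) (fun h' => h h'.symm)).symm
  have hEE : E * E = 1 := by
    rw [Matrix.diagonal_mul_diagonal, ← Matrix.diagonal_one]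
    congr 1
    funext i
    exact ep_mul_ep D i
  have hEg : E * g = g * E := by
    ext i j
    rw [Matrix.diagonal_mul, Matrix.mul_diagonal]
    by_cases h : D.typ i = D.typ j
    · rw [ep_eq D h, mul_comm]
    · rw [hg.1 i j h, mul_zero, zero_mul]
  have hEP : E * Psi D = Psi D * E := by
    rw [← hPE, mul_assoc]
  -- `(E Ψ gᵀ Ψ) g = 1`
  have h1 : (E * Psi D * g.transpose * Psi D) * g = 1 := by
    rw [mul_assoc (E * Psi D) _ _, mul_assoc (E * Psi D) _ _, hg.2, mul_assoc, hPE, hEE]
  have h2 : g * (E * Psi D * g.transpose * Psi D) = 1 := mul_eq_one_comm.1 h1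
  have h3 : g * Psi D * g.transpose * Psi D = E := by
    have h4 : E * (g * (E * Psi D * g.transpose * Psi D)) = E := by rw [h2, mul_one]
    have h5 : E * (g * (E * Psi D * g.transpose * Psi D))
        = (E * E) * (g * Psi D * g.transpose * Psi D) := by
      have : g * (E * Psi D * g.transpose * Psi D)
          = (g * E) * (Psi D * g.transpose * Psi D) := by
        simp only [mul_assoc]
      rw [this, ← hEg]
      simp only [mul_assoc]
    rw [h5, hEE, one_mul] at h4
    exact h4
  calc g * Psi D * g.transpose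
      = (g * Psi D * g.transpose * Psi D) * (Psi D * E) := by
        rw [mul_assoc (g * Psi D * g.transpose) (Psi D) (Psi D * E), ← mul_assoc (Psi D) (Psi D) E,
          hPE, hEE, mul_one]
    _ = E * (Psi D * E) := by rw [h3]
    _ = Psi D := by rw [← hEP, ← mul_assoc, hEE, one_mul]

theorem om_gT (g : Matrix I I ℂ) (α : Λ) (hg : IsG D g) : gT g (om D α) = om D α := by
  funext w
  have h0 := congrFun (congrFun (Psi_dual D hg) (w 0)) (w 1)
  rw [Matrix.mul_apply, Psi_apply] at h0
  unfold gT om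
  -- the sum over the words of length two
  have h1 : ∑ w' : Fin 2 → I, (∏ i, g (w i) (w' i))
      * (if D.typ (w' 0) = α ∧ w' 1 = D.τ (w' 0) then D.s (w' 0) else 0)
      = ∑ x : I, if D.typ x = α then g (w 0) x * g (w 1) (D.τ x) * D.s x else 0 := by
    rw [← (finTwoArrowEquiv I).symm.sum_comp, Fintype.sum_prod_type]
    refine Finset.sum_congr rfl fun x _ => ?_
    rw [Finset.sum_eq_single (D.τ x)]
    · by_cases hx : D.typ x = α
      · simp [hx, finTwoArrowEquiv]
      · simp [hx, finTwoArrowEquiv]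
    · intro b _ hb
      simp [finTwoArrowEquiv, hb]
    · intro h
      exact absurd (Finset.mem_univ _) h
  rw [h1]
  by_cases hα : D.typ (w 0) = α
  · have h2 : ∑ x : I, (if D.typ x = α then g (w 0) x * g (w 1) (D.τ x) * D.s x else 0)
        = ∑ y, (g * Psi D) (w 0) y * g.transpose y (w 1) := by
      rw [← (⟨D.τ, D.τ, D.τ_τ, D.τ_τ⟩ : I ≃ I).sum_comp]
      refine Finset.sum_congr rfl fun y _ => ?_
      change (if D.typ (D.τ y) = α then g (w 0) (D.τ y) * g (w 1) (D.τ (D.τ y)) * D.s (D.τ y)
        else 0) = _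
      rw [mul_Psi, D.τ_τ, D.typ_τ, Matrix.transpose_apply]
      split_ifs with hy
      · ring
      · have : g (w 0) (D.τ y) = 0 := hg.1 _ _ (by rw [D.typ_τ, hα]; exact fun h => hy h.symm)
        rw [this]
        ring
    rw [h2, h0]
    simp [hα]
  · rw [if_neg (fun h => hα h.1)]
    refine Finset.sum_eq_zero fun x _ => ?_
    split_ifs with hx
    · rw [hg.1 _ _ (by rw [hx]; exact hα)]
      ring
    · rfl

omit [Fintype I] in
theorem om_jT (α : Λ) : jT D (om D α) = om D α := by
  funext w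
  unfold jT om
  have hsg : sg D (D.τ ∘ w) = D.s (D.τ (w 0)) * D.s (D.τ (w 1)) := by
    rw [sg, Fin.prod_univ_two]
    rfl
  rw [hsg]
  by_cases h : D.typ (w 0) = α ∧ w 1 = D.τ (w 0)
  · rw [if_pos h, if_pos (by
      refine ⟨?_, ?_⟩
      · change D.typ (D.τ (w 0)) = α
        rw [D.typ_τ, h.1]
      · change D.τ (w 1) = D.τ (D.τ (w 0))
        rw [h.2])]
    change D.s (D.τ (w 0)) * D.s (D.τ (w 1)) * (starRingEnd ℂ) (D.s (D.τ (w 0))) = D.s (w 0)
    rw [conj_s, h.2, D.τ_τ]
    linear_combination (D.s (w 0)) * s_mul_s D (D.τ (w 0))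
  · rw [if_neg h, if_neg (by
      rintro ⟨h1, h2⟩
      refine h ⟨?_, ?_⟩
      · change D.typ (D.τ (w 0)) = α at h1
        rw [D.typ_τ] at h1
        exact h1
      · change D.τ (w 1) = D.τ (D.τ (w 0)) at h2
        have := congrArg D.τ h2
        rw [D.τ_τ, D.τ_τ] at this
        exact this), map_zero, mul_zero]

/-! ### Matchings -/

theorem nil_gT (g : Matrix I I ℂ) : gT g (fun _ => 1 : Ten I 0) = fun _ => 1 := by
  funext w
  unfold gT
  simp

theorem match_gT {L : ℕ} (m : Ten I L) (g : Matrix I I ℂ) (hm : IsMatch D L m) (hg : IsG D g) :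
    gT g m = m := by
  induction hm with
  | nil => exact nil_gT g
  | step L m α _ ih => rw [outer_gT, ih, om_gT D g α hg]
  | perm L m σ _ ih => rw [perm_gT, ih]

omit [Fintype I] in
theorem match_jT {L : ℕ} (m : Ten I L) (hm : IsMatch D L m) : jT D m = m := by
  induction hm with
  | nil =>
    funext w
    unfold jT
    simp [sg]
  | step L m α _ ih => rw [outer_jT, ih, om_jT D α]
  | perm L m σ _ ih => rw [perm_jT, ih]

/-! ### Contractions -/

omit [DecidableEq Λ] in
/-- the form is preserved -/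
theorem psiT_gT {L : ℕ} (g : Matrix I I ℂ) (u v : Ten I L) (hg : IsG D g) :
    psiT D (gT g u) (gT g v) = psiT D u v := by
  have key : ∀ a b : Fin L → I, ∑ w : Fin L → I, sg D w * ((∏ i, g (w i) (a i))
      * ∏ i, g (D.τ (w i)) (b i)) = if b = D.τ ∘ a then sg D a else 0 := by
    intro a b
    have h1 : ∀ w : Fin L → I, sg D w * ((∏ i, g (w i) (a i)) * ∏ i, g (D.τ (w i)) (b i))
        = ∏ i, (D.s (w i) * (g (w i) (a i) * g (D.τ (w i)) (b i))) := by
      intro w
      rw [sg, ← Finset.prod_mul_distrib, ← Finset.prod_mul_distrib]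
    have h2 : ∀ x y : I, ∑ z, D.s z * (g z x * g (D.τ z) y) = Psi D x y := by
      intro x y
      have h3 := congrFun (congrFun hg.2 x) y
      rw [← h3, mul_assoc, Matrix.mul_apply]
      refine Finset.sum_congr rfl fun z _ => ?_
      rw [Psi_mul, Matrix.transpose_apply]
      ring
    have h4 : ∑ w : Fin L → I, ∏ i, (D.s (w i) * (g (w i) (a i) * g (D.τ (w i)) (b i)))
        = ∏ i, ∑ z, D.s z * (g z (a i) * g (D.τ z) (b i)) := by
      rw [Finset.prod_univ_sum, Fintype.piFinset_univ]
    rw [Finset.sum_congr rfl (fun w _ => h1 w), h4]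
    by_cases hab : b = D.τ ∘ a
    · rw [if_pos hab, sg]
      refine Finset.prod_congr rfl fun i _ => ?_
      have hi : b i = D.τ (a i) := congrFun hab i
      rw [h2, Psi_apply, if_pos hi]
    · rw [if_neg hab]
      obtain ⟨i, hi⟩ := Function.ne_iff.1 hab
      refine Finset.prod_eq_zero (Finset.mem_univ i) ?_
      have hi' : ¬ b i = D.τ (a i) := hi
      rw [h2, Psi_apply, if_neg hi']
  unfold psiT
  calc ∑ w, sg D w * (gT g u w * gT g v (D.τ ∘ w))
      = ∑ w, ∑ a, ∑ b, (u a * v b) * (sg D w * ((∏ i, g (w i) (a i))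
          * ∏ i, g (D.τ (w i)) (b i))) := by
        refine Finset.sum_congr rfl fun w _ => ?_
        unfold gT
        rw [Finset.sum_mul_sum, Finset.mul_sum]
        refine Finset.sum_congr rfl fun a _ => ?_
        rw [Finset.mul_sum]
        refine Finset.sum_congr rfl fun b _ => ?_
        simp only [Function.comp_apply]
        ring
    _ = ∑ a, ∑ b, ∑ w, (u a * v b) * (sg D w * ((∏ i, g (w i) (a i))
          * ∏ i, g (D.τ (w i)) (b i))) := by
        rw [Finset.sum_comm]
        refine Finset.sum_congr rfl fun a _ => ?_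
        rw [Finset.sum_comm]
    _ = ∑ a, ∑ b, (u a * v b) * (if b = D.τ ∘ a then sg D a else 0) := by
        refine Finset.sum_congr rfl fun a _ => Finset.sum_congr rfl fun b _ => ?_
        rw [← Finset.mul_sum, key]
    _ = ∑ a, sg D a * (u a * v (D.τ ∘ a)) := by
        refine Finset.sum_congr rfl fun a _ => ?_
        rw [Finset.sum_eq_single (D.τ ∘ a)]
        · rw [if_pos rfl]
          ring
        · intro b _ hb
          rw [if_neg hb, mul_zero]
        · intro h
          exact absurd (Finset.mem_univ _) h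

omit [DecidableEq I] [DecidableEq Λ] in
theorem cont_eq {p c : ℕ} (u : Ten I p) (m : Ten I (p + c)) (w : Fin c → I) :
    cont D u m w = psiT D u (fun b => m (Fin.append b w)) := rfl

theorem cont_gT {p c : ℕ} (g : Matrix I I ℂ) (u : Ten I p) (m : Ten I (p + c)) (hg : IsG D g) :
    gT g (cont D u m) = cont D (gT g u) (gT g m) := by
  funext w
  rw [cont_eq]
  -- the first slots of `gT g m`
  have h1 : (fun b : Fin p → I => gT g m (Fin.append b w))
      = ∑ c' : Fin c → I, (∏ j, g (w j) (c' j)) • gT g (fun b : Fin p → I =>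
          m (Fin.append b c')) := by
    funext b
    rw [Finset.sum_apply]
    unfold gT
    rw [sum_append, Finset.sum_comm]
    refine Finset.sum_congr rfl fun c' _ => ?_
    rw [Pi.smul_apply, smul_eq_mul, Finset.mul_sum]
    refine Finset.sum_congr rfl fun a _ => ?_
    rw [Fin.prod_univ_add]
    simp only [Fin.append_left, Fin.append_right]
    ring
  have h2 : ∀ (x : Ten I p) (F : (Fin c → I) → Ten I p), psiT D x (∑ c', F c')
      = ∑ c', psiT D x (F c') := by
    intro x F
    unfold psiT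
    rw [Finset.sum_comm]
    refine Finset.sum_congr rfl fun w _ => ?_
    rw [Finset.sum_apply, Finset.mul_sum, Finset.mul_sum]
  have h3 : ∀ (x : Ten I p) (t : ℂ) (y : Ten I p), psiT D x (t • y) = t * psiT D x y := by
    intro x t y
    unfold psiT
    rw [Finset.mul_sum]
    refine Finset.sum_congr rfl fun w _ => ?_
    rw [Pi.smul_apply, smul_eq_mul]
    ring
  rw [h1, h2]
  unfold gT
  refine Finset.sum_congr rfl fun c' _ => ?_
  have h4 := psiT_gT D g u (fun b : Fin p → I => m (Fin.append b c')) hg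
  have h5 := h3 (gT g u) (∏ j, g (w j) (c' j)) (gT g (fun b : Fin p → I => m (Fin.append b c')))
  rw [h4] at h5
  rw [cont_eq]
  exact h5.symm

omit [DecidableEq I] [DecidableEq Λ] in
theorem cont_jT {p c : ℕ} (u : Ten I p) (m : Ten I (p + c)) :
    jT D (cont D u m) = cont D (jT D u) (jT D m) := by
  funext w
  unfold jT cont
  rw [map_sum, Finset.mul_sum, ← (tauEquiv D p).sum_comp]
  refine Finset.sum_congr rfl fun a _ => ?_
  change sg D (D.τ ∘ w) * (starRingEnd ℂ) (sg D (D.τ ∘ a) * (u (D.τ ∘ a)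
    * m (Fin.append (D.τ ∘ (D.τ ∘ a)) (D.τ ∘ w))))
    = sg D a * ((sg D (D.τ ∘ a) * (starRingEnd ℂ) (u (D.τ ∘ a)))
      * (sg D (D.τ ∘ Fin.append (D.τ ∘ a) w)
        * (starRingEnd ℂ) (m (D.τ ∘ Fin.append (D.τ ∘ a) w))))
  rw [tau_tau, tau_append, tau_tau, sg_append, map_mul, map_mul, conj_sg]
  have h := sg_mul_sg D a
  linear_combination (-(sg D (D.τ ∘ w) * sg D (D.τ ∘ a) * (starRingEnd ℂ) (u (D.τ ∘ a))
    * (starRingEnd ℂ) (m (Fin.append a (D.τ ∘ w))))) * h

/-! ### Diagram maps -/

variable {ι : Type} [Fintype ι] {len : ι → ℕ}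

omit [Fintype ι] in
theorem prodT_gS (g : Matrix I I ℂ) (s : Tup I len) (l : List ι) :
    prodT (gS g s) l = gT g (prodT s l) := by
  induction l with
  | nil => exact (nil_gT g).symm
  | cons i l ih =>
    change outer (gT g (s i)) (prodT (gS g s) l) = gT g (outer (s i) (prodT s l))
    rw [ih, outer_gT]

omit [Fintype I] [DecidableEq I] [DecidableEq Λ] [Fintype ι] in
theorem prodT_jS (s : Tup I len) (l : List ι) : prodT (jS D s) l = jT D (prodT s l) := by
  induction l with
  | nil =>
    change (fun _ => 1 : Ten I 0) = jT D (fun _ => 1 : Ten I 0)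
    funext w
    unfold jT
    simp [sg]
  | cons i l ih =>
    change outer (jT D (s i)) (prodT (jS D s) l) = jT D (outer (s i) (prodT s l))
    rw [ih, outer_jT]

omit [Fintype ι] in
theorem dm_gS (c : ℕ) (l : List ι) (m : Ten I ((l.map len).sum + c)) (g : Matrix I I ℂ)
    (s : Tup I len) (hm : IsMatch D _ m) (hg : IsG D g) :
    dm D c l m (gS g s) = gT g (dm D c l m s) := by
  unfold dm
  rw [cont_gT D g _ _ hg, match_gT D m g hm hg, prodT_gS]

omit [Fintype ι] in
theorem dm_jS (c : ℕ) (l : List ι) (m : Ten I ((l.map len).sum + c)) (s : Tup I len)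
    (hm : IsMatch D _ m) : dm D c l m (jS D s) = jT D (dm D c l m s) := by
  unfold dm
  rw [cont_jT, match_jT D m hm, prodT_jS]

omit [Fintype I] [DecidableEq I] [Fintype ι] in
theorem prodT_cont (l : List ι) : Continuous fun s : Tup I len => prodT s l := by
  induction l with
  | nil => exact continuous_const
  | cons i l ih =>
    change Continuous fun s : Tup I len => outer (s i) (prodT s l)
    refine continuous_pi fun w => ?_
    unfold outer
    have h1 : Continuous fun s : Tup I len => s i := continuous_apply i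
    exact (continuous_pi_iff.1 h1 _).mul (continuous_pi_iff.1 ih _)

omit [DecidableEq I] [DecidableEq Λ] [Fintype ι] in
theorem dm_cont (c : ℕ) (l : List ι) (m : Ten I ((l.map len).sum + c)) :
    Continuous fun s : Tup I len => dm D c l m s := by
  refine continuous_pi fun w => ?_
  unfold dm cont
  refine continuous_finsetSum _ fun a _ => ?_
  exact continuous_const.mul ((continuous_pi_iff.1 (prodT_cont l) a).mul continuous_const)

omit [Fintype I] [DecidableEq I] [Fintype ι] in
theorem prodT_poly (l : List ι) :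
    ∃ q : (Fin (l.map len).sum → I) → MvPolynomial (Σ i, (Fin (len i) → I)) ℂ,
      ∀ (s : Tup I len) w, prodT s l w = MvPolynomial.eval (fun x => s x.1 x.2) (q w) := by
  induction l with
  | nil => exact ⟨fun _ => 1, fun s w => by rw [map_one]; rfl⟩
  | cons i l ih =>
    obtain ⟨q, hq⟩ := ih
    refine ⟨fun w : Fin (len i + (l.map len).sum) → I =>
      MvPolynomial.X ⟨i, fun j => w (Fin.castAdd _ j)⟩ * q (fun j => w (Fin.natAdd _ j)),
      fun s (w : Fin (len i + (l.map len).sum) → I) => ?_⟩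
    rw [map_mul, MvPolynomial.eval_X, ← hq]
    rfl

omit [DecidableEq I] [DecidableEq Λ] [Fintype ι] in
theorem dm_poly (c : ℕ) (l : List ι) (m : Ten I ((l.map len).sum + c)) :
    PolyMap (fun s : Tup I len => dm D c l m s) := by
  obtain ⟨q, hq⟩ := prodT_poly (I := I) (len := len) l
  refine ⟨fun w => ∑ a, MvPolynomial.C (sg D a) * (q a
    * MvPolynomial.C (m (Fin.append (D.τ ∘ a) w))), fun s w => ?_⟩
  rw [map_sum]
  unfold dm cont
  refine Finset.sum_congr rfl fun a _ => ?_
  rw [map_mul, map_mul, MvPolynomial.eval_C, MvPolynomial.eval_C, hq]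

end AL2

/-- Row AL2. -/
theorem alg2 : Alg2 where
  om_gT D g α hg := AL2.om_gT D g α hg
  match_gT D _ m g hm hg := AL2.match_gT D m g hm hg
  match_jT D _ m hm := AL2.match_jT D m hm
  outer_gT g u v := AL2.outer_gT g u v
  outer_jT D _ _ u v := AL2.outer_jT D u v
  cont_gT D _ _ g u m hg := AL2.cont_gT D g u m hg
  cont_jT D _ _ u m := AL2.cont_jT D u m
  dm_gS D c l m g s hm hg := AL2.dm_gS D c l m g s hm hg
  dm_jS D c l m s hm := AL2.dm_jS D c l m s hm
  dm_cont D c l m := AL2.dm_cont D c l m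
  dm_poly D c l m := AL2.dm_poly D c l m

end Pool.Agent.Lib.MP_361a6f_ag.FL
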