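import Pool.Agent.Lib.MP_361a6f_ag.FL.AlgDefs
import Pool.Agent.Lib.MP_361a6f_ag.FL.Al1b
import Pool.Agent.Lib.MP_361a6f_ag.FL.Al2

/-!
# Row AL1a: the action of matrices and the forms on tensors, and the assembly of `Alg1`
-/

open Filter Topology

namespace Pool.Agent.Lib.MP_361a6f_ag.FL.AL1A

open scoped Matrix

section tensors

variable {I : Type} [Fintype I] [DecidableEq I]

theorem gT_mul {L : ℕ} (g h : Matrix I I ℂ) (u : Ten I L) : gT (g * h) u = gT g (gT h u) := by
  funext w
  unfold gT
  have key : ∀ w' : Fin L → I, ∏ i, (g * h) (w i) (w' i) =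
      ∑ w'' : Fin L → I, (∏ i, g (w i) (w'' i)) * ∏ i, h (w'' i) (w' i) := by
    intro w'
    simp_rw [Matrix.mul_apply]
    rw [Finset.prod_univ_sum, Fintype.piFinset_univ]
    exact Finset.sum_congr rfl fun w'' _ => Finset.prod_mul_distrib
  simp_rw [key, Finset.sum_mul, Finset.mul_sum]
  rw [Finset.sum_comm]
  exact Finset.sum_congr rfl fun w'' _ => Finset.sum_congr rfl fun w' _ => by ring

omit [DecidableEq I] in
theorem gT_add {L : ℕ} (g : Matrix I I ℂ) (u v : Ten I L) : gT g (u + v) = gT g u + gT g v := by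
  funext w
  simp only [gT, Pi.add_apply, mul_add, Finset.sum_add_distrib]

omit [DecidableEq I] in
theorem gT_smul {L : ℕ} (g : Matrix I I ℂ) (c : ℂ) (u : Ten I L) : gT g (c • u) = c • gT g u := by
  funext w
  simp only [gT, Pi.smul_apply, smul_eq_mul, Finset.mul_sum]
  exact Finset.sum_congr rfl fun w' _ => by ring

omit [DecidableEq I] in
theorem hT_conj {L : ℕ} (u v : Ten I L) : (starRingEnd ℂ) (hT u v) = hT v u := by
  unfold hT
  rw [map_sum]
  refine Finset.sum_congr rfl fun w _ => ?_
  rw [map_mul, Complex.conj_conj, mul_comm]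

omit [DecidableEq I] in
theorem hT_self {L : ℕ} (u : Ten I L) : hT u u = ((∑ w, ‖u w‖ ^ 2 : ℝ) : ℂ) := by
  unfold hT
  push_cast
  refine Finset.sum_congr rfl fun w _ => ?_
  rw [Complex.mul_conj, Complex.normSq_eq_norm_sq]
  push_cast
  rfl

omit [DecidableEq I] in
theorem hT_gT {L : ℕ} (g : Matrix I I ℂ) (u v : Ten I L) :
    hT (gT g u) v = hT u (gT g.conjTranspose v) := by
  unfold hT gT
  simp_rw [map_sum, map_mul, map_prod, Finset.sum_mul, Finset.mul_sum]
  rw [Finset.sum_comm]
  refine Finset.sum_congr rfl fun w _ => Finset.sum_congr rfl fun w' _ => ?_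
  have h : ∀ i, (starRingEnd ℂ) (g.conjTranspose (w i) (w' i)) = g (w' i) (w i) := by
    intro i
    rw [Matrix.conjTranspose_apply, starRingEnd_apply, star_star]
  simp_rw [h]
  ring

/-- the involution `(w, j) ↦ (w with j in slot k, w k)` -/
def swapE {L : ℕ} (k : Fin L) : ((Fin L → I) × I) ≃ ((Fin L → I) × I) where
  toFun p := (Function.update p.1 k p.2, p.1 k)
  invFun p := (Function.update p.1 k p.2, p.1 k)
  left_inv p := by
    refine Prod.ext ?_ ?_
    · simp
    · simp
  right_inv p := by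
    refine Prod.ext ?_ ?_
    · simp
    · simp

/-- the substitution in a double sum over words and indices -/
theorem sum_swap {L : ℕ} (k : Fin L) (F : (Fin L → I) → I → ℂ) :
    ∑ w, ∑ j, F w j = ∑ w, ∑ m, F (Function.update w k m) (w k) := by
  have h := (swapE (I := I) k).sum_comp (fun p => F p.1 p.2)
  rw [Fintype.sum_prod_type, Fintype.sum_prod_type] at h
  exact h.symm

theorem hT_aT {L : ℕ} (A : Matrix I I ℂ) (u v : Ten I L) :
    hT (aT A u) v = hT u (aT A.conjTranspose v) := by
  unfold hT aT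
  simp_rw [map_sum, map_mul, Finset.sum_mul, Finset.mul_sum]
  rw [Finset.sum_comm]
  conv_rhs => rw [Finset.sum_comm]
  refine Finset.sum_congr rfl fun k _ => ?_
  rw [sum_swap k]
  refine Finset.sum_congr rfl fun w _ => Finset.sum_congr rfl fun m _ => ?_
  rw [Matrix.conjTranspose_apply, ← starRingEnd_apply, Complex.conj_conj]
  simp only [Function.update_self, Function.update_idem, Function.update_eq_self]
  ring

theorem aT_add {L : ℕ} (A : Matrix I I ℂ) (u v : Ten I L) : aT A (u + v) = aT A u + aT A v := by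
  funext w
  simp only [aT, Pi.add_apply, mul_add, Finset.sum_add_distrib]

theorem aT_smul {L : ℕ} (A : Matrix I I ℂ) (c : ℂ) (u : Ten I L) : aT A (c • u) = c • aT A u := by
  funext w
  simp only [aT, Pi.smul_apply, smul_eq_mul, Finset.mul_sum]
  exact Finset.sum_congr rfl fun i _ => Finset.sum_congr rfl fun j _ => by ring

theorem add_aT {L : ℕ} (A B : Matrix I I ℂ) (u : Ten I L) : aT (A + B) u = aT A u + aT B u := by
  funext w
  simp only [aT, Pi.add_apply, Matrix.add_apply, add_mul, Finset.sum_add_distrib]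

theorem smul_aT {L : ℕ} (c : ℂ) (A : Matrix I I ℂ) (u : Ten I L) : aT (c • A) u = c • aT A u := by
  funext w
  simp only [aT, Pi.smul_apply, Matrix.smul_apply, smul_eq_mul, Finset.mul_sum]
  exact Finset.sum_congr rfl fun i _ => Finset.sum_congr rfl fun j _ => by ring

/-- the mixed terms in the product of two derivations -/
def mixT (A B : Matrix I I ℂ) {L : ℕ} (u : Ten I L) : Ten I L := fun w =>
  ∑ i, ∑ k ∈ Finset.univ.erase i, ∑ j, ∑ l,
    A (w i) j * (B (w k) l * u (Function.update (Function.update w i j) k l))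

theorem aT_aT {L : ℕ} (A B : Matrix I I ℂ) (u : Ten I L) :
    aT A (aT B u) = aT (A * B) u + mixT A B u := by
  funext w
  rw [Pi.add_apply]
  unfold aT mixT
  rw [← Finset.sum_add_distrib]
  refine Finset.sum_congr rfl fun i _ => ?_
  have h1 : ∀ j, A (w i) j * ∑ k, ∑ l, B (Function.update w i j k) l *
      u (Function.update (Function.update w i j) k l) =
      ∑ l, A (w i) j * (B j l * u (Function.update w i l)) +
      ∑ k ∈ Finset.univ.erase i, ∑ l, A (w i) j * (B (w k) l *
        u (Function.update (Function.update w i j) k l)) := by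
    intro j
    rw [← Finset.add_sum_erase Finset.univ _ (Finset.mem_univ i), mul_add, Finset.mul_sum,
      Finset.mul_sum]
    congr 1
    · refine Finset.sum_congr rfl fun l _ => ?_
      rw [Function.update_self, Function.update_idem]
    · refine Finset.sum_congr rfl fun k hk => ?_
      rw [Finset.mul_sum]
      refine Finset.sum_congr rfl fun l _ => ?_
      rw [Function.update_of_ne (Finset.ne_of_mem_erase hk)]
  simp_rw [h1]
  rw [Finset.sum_add_distrib]
  congr 1
  · rw [Finset.sum_comm]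
    refine Finset.sum_congr rfl fun l _ => ?_
    rw [Matrix.mul_apply, Finset.sum_mul]
    exact Finset.sum_congr rfl fun j _ => by ring
  · rw [Finset.sum_comm]

theorem mixT_comm {L : ℕ} (A B : Matrix I I ℂ) (u : Ten I L) : mixT A B u = mixT B A u := by
  funext w
  unfold mixT
  rw [Finset.sum_comm' (t' := Finset.univ) (s' := fun k => Finset.univ.erase k)]
  · refine Finset.sum_congr rfl fun k _ => Finset.sum_congr rfl fun i hi => ?_
    rw [Finset.sum_comm]
    refine Finset.sum_congr rfl fun l _ => Finset.sum_congr rfl fun j _ => ?_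
    rw [Function.update_comm (Finset.ne_of_mem_erase hi)]
    ring
  · intro i k
    simp only [Finset.mem_univ, Finset.mem_erase, true_and, and_true, ne_eq]
    exact ⟨fun h => Ne.symm h, fun h => Ne.symm h⟩

theorem aT_comm {L : ℕ} (A B : Matrix I I ℂ) (u : Ten I L) :
    aT A (aT B u) - aT B (aT A u) = aT (A * B - B * A) u := by
  rw [aT_aT, aT_aT, mixT_comm A B, sub_eq_add_neg (A * B), add_aT, ← neg_one_smul ℂ (B * A),
    smul_aT]
  rw [neg_one_smul]
  abel

theorem gT_aT_apply {L : ℕ} (g A : Matrix I I ℂ) (u : Ten I L) (w : Fin L → I) :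
    gT g (aT A u) w = ∑ w', (∑ k, (∏ i ∈ Finset.univ.erase k, g (w i) (w' i)) *
      (g * A) (w k) (w' k)) * u w' := by
  unfold gT aT
  simp_rw [Finset.mul_sum, Finset.sum_mul]
  rw [Finset.sum_comm]
  conv_rhs => rw [Finset.sum_comm]
  refine Finset.sum_congr rfl fun k _ => ?_
  rw [sum_swap k]
  refine Finset.sum_congr rfl fun w' _ => ?_
  rw [Matrix.mul_apply, Finset.mul_sum, Finset.sum_mul]
  refine Finset.sum_congr rfl fun m _ => ?_
  rw [← Finset.mul_prod_erase Finset.univ _ (Finset.mem_univ k)]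
  simp only [Function.update_self, Function.update_idem, Function.update_eq_self]
  have h : ∏ i ∈ Finset.univ.erase k, g (w i) (Function.update w' k m i) =
      ∏ i ∈ Finset.univ.erase k, g (w i) (w' i) := by
    refine Finset.prod_congr rfl fun i hi => ?_
    rw [Function.update_of_ne (Finset.ne_of_mem_erase hi)]
  rw [h]
  ring

theorem gT_aT {L : ℕ} (g A : Matrix I I ℂ) (u : Ten I L) (hg : g * g⁻¹ = 1) :
    gT g (aT A u) = aT (g * A * g⁻¹) (gT g u) := by
  funext w
  rw [gT_aT_apply, AL1B.aT_gT_apply]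
  have h1 : g⁻¹ * g = 1 := by
    exact mul_eq_one_comm.mp hg
  have h2 : g * A * g⁻¹ * g = g * A := by
    rw [Matrix.mul_assoc, h1, Matrix.mul_one]
  rw [h2]

end tensors

section forms

variable {I Λ : Type} [Fintype I] [DecidableEq I] [DecidableEq Λ] (D : Dat I Λ)

omit [Fintype I] [DecidableEq Λ] in
theorem sg_update {L : ℕ} (w : Fin L → I) (k : Fin L) (m : I) :
    sg D (Function.update w k m) = sg D w * D.s (w k) * D.s m := by
  unfold sg
  rw [← Finset.mul_prod_erase Finset.univ _ (Finset.mem_univ k),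
    ← Finset.mul_prod_erase Finset.univ (fun i => D.s (w i)) (Finset.mem_univ k)]
  have h : ∏ i ∈ Finset.univ.erase k, D.s (Function.update w k m i) =
      ∏ i ∈ Finset.univ.erase k, D.s (w i) := by
    refine Finset.prod_congr rfl fun i hi => ?_
    rw [Function.update_of_ne (Finset.ne_of_mem_erase hi)]
  rw [h, Function.update_self]
  have h3 := AL2.s_mul_s D (w k)
  linear_combination (-(D.s m * ∏ i ∈ Finset.univ.erase k, D.s (w i))) * h3

omit [Fintype I] [DecidableEq Λ] in
theorem tau_update {L : ℕ} (w : Fin L → I) (k : Fin L) (m : I) :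
    D.τ ∘ Function.update w k m = Function.update (D.τ ∘ w) k (D.τ m) :=
  Function.comp_update D.τ w k m

/-- the relation of the Lie algebra -/
theorem lie_rel {A : Matrix I I ℂ} (hA : IsLie D A) (m i : I) :
    A (D.τ i) (D.τ m) = -(D.s i * D.s m * A m i) := by
  have h := ((AL1B.isLie_iff D A).mp hA).2 i (D.τ m)
  rw [D.τ_τ] at h
  have h3 := AL2.s_mul_s D i
  linear_combination D.s i * h - A (D.τ i) (D.τ m) * h3

theorem psiT_aT {L : ℕ} (A : Matrix I I ℂ) (u v : Ten I L) (hA : IsLie D A) :
    psiT D (aT A u) v = -psiT D u (aT A v) := by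
  unfold psiT aT
  simp_rw [Finset.sum_mul, Finset.mul_sum]
  rw [← Finset.sum_neg_distrib, Finset.sum_comm]
  simp_rw [← Finset.sum_neg_distrib]
  conv_rhs => rw [Finset.sum_comm]
  refine Finset.sum_congr rfl fun k _ => ?_
  rw [sum_swap k]
  refine Finset.sum_congr rfl fun w _ => ?_
  let e : I ≃ I := ⟨D.τ, D.τ, D.τ_τ, D.τ_τ⟩
  conv_rhs => rw [← e.sum_comp]
  refine Finset.sum_congr rfl fun m _ => ?_
  simp only [Function.update_self, Function.update_idem, Function.update_eq_self]
  have he : e m = D.τ m := rfl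
  rw [he, sg_update, tau_update, Function.comp_apply, lie_rel D hA m (w k)]
  ring

omit [DecidableEq I] [DecidableEq Λ] in
theorem psiT_jT {L : ℕ} (u v : Ten I L) : psiT D u (jT D v) = hT u v := by
  unfold psiT jT hT
  refine Finset.sum_congr rfl fun w _ => ?_
  rw [AL2.tau_tau]
  have h := AL2.sg_mul_sg D w
  linear_combination (u w * (starRingEnd ℂ) (v w)) * h

omit [DecidableEq I] [DecidableEq Λ] in
theorem psiT_jT_jT {L : ℕ} (u v : Ten I L) :
    psiT D (jT D u) (jT D v) = (starRingEnd ℂ) (psiT D u v) := by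
  rw [psiT_jT]
  unfold hT jT psiT
  rw [map_sum, ← (AL2.tauEquiv D L).sum_comp]
  refine Finset.sum_congr rfl fun w _ => ?_
  have he : AL2.tauEquiv D L w = D.τ ∘ w := rfl
  rw [he, AL2.tau_tau, map_mul, map_mul, AL2.conj_sg]
  ring

omit [DecidableEq I] [DecidableEq Λ] in
theorem hT_jT_jT {L : ℕ} (u v : Ten I L) : hT (jT D u) (jT D v) = hT v u := by
  unfold hT jT
  rw [← (AL2.tauEquiv D L).sum_comp]
  refine Finset.sum_congr rfl fun w _ => ?_
  have he : AL2.tauEquiv D L w = D.τ ∘ w := rfl
  rw [he, AL2.tau_tau, map_mul, AL2.conj_sg, Complex.conj_conj]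
  have h := AL2.sg_mul_sg D w
  linear_combination ((starRingEnd ℂ) (u w) * v w) * h

/-- the relation of the compact group -/
theorem k_rel {g : Matrix I I ℂ} (hg : IsK D g) (a b : I) :
    D.s (D.τ a) * (starRingEnd ℂ) (g (D.τ a) b) = D.s b * g a (D.τ b) := by
  have h1 : g * g.conjTranspose = 1 := mul_eq_one_comm.mp hg.2
  have h2 : Psi D * g = g.conjTranspose.transpose * Psi D := by
    have h3 : g.conjTranspose.transpose * g.transpose = 1 := by
      rw [← Matrix.transpose_mul, h1, Matrix.transpose_one]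
    calc Psi D * g = (g.conjTranspose.transpose * g.transpose) * (Psi D * g) := by
          rw [h3, Matrix.one_mul]
      _ = g.conjTranspose.transpose * (g.transpose * Psi D * g) := by
          simp only [Matrix.mul_assoc]
      _ = g.conjTranspose.transpose * Psi D := by rw [hg.1.2]
  have h4 := congrFun (congrFun h2 (D.τ a)) (D.τ b)
  rw [AL2.Psi_mul, AL2.mul_Psi, D.τ_τ, D.τ_τ, Matrix.transpose_apply, Matrix.conjTranspose_apply,
    ← starRingEnd_apply] at h4
  have h5 := AL2.s_mul_s D (D.τ a)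
  have h6 := AL2.s_mul_s D b
  linear_combination (-(D.s (D.τ a) * D.s b)) * h4 + (D.s b * g a (D.τ b)) * h5 -
    (D.s (D.τ a) * (starRingEnd ℂ) (g (D.τ a) b)) * h6

theorem jT_gT {L : ℕ} (g : Matrix I I ℂ) (u : Ten I L) (hg : IsK D g) :
    jT D (gT g u) = gT g (jT D u) := by
  funext w
  unfold jT gT
  rw [map_sum, Finset.mul_sum, ← (AL2.tauEquiv D L).sum_comp (fun w' => (∏ i, g (w i) (w' i)) * _)]
  refine Finset.sum_congr rfl fun w' _ => ?_
  have he : AL2.tauEquiv D L w' = D.τ ∘ w' := rfl
  rw [he, AL2.tau_tau, map_mul, map_prod]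
  have h : sg D (D.τ ∘ w) * ∏ i, (starRingEnd ℂ) (g ((D.τ ∘ w) i) (w' i)) =
      (∏ i, g (w i) ((D.τ ∘ w') i)) * sg D w' := by
    unfold sg
    rw [← Finset.prod_mul_distrib, ← Finset.prod_mul_distrib]
    refine Finset.prod_congr rfl fun i _ => ?_
    rw [Function.comp_apply, Function.comp_apply, k_rel D hg]
    ring
  linear_combination ((starRingEnd ℂ) (u w')) * h

theorem lie_rel' {A : Matrix I I ℂ} (hA : IsLie D A) (m i : I) :
    A (D.τ i) (D.τ m) = -(D.s (D.τ i) * D.s (D.τ m) * A m i) := by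
  rw [lie_rel D hA m i]
  by_cases ht : D.typ i = D.typ m
  · have h := AL2.ep_eq D ht
    unfold AL2.ep at h
    have h1 := AL2.s_mul_s D i
    have h2 := AL2.s_mul_s D (D.τ m)
    linear_combination (A m i * D.s i * D.s m) * h2 + (A m i * D.s i * D.s (D.τ m)) * h -
      (A m i * D.s (D.τ i) * D.s (D.τ m)) * h1
  · rw [hA.1 m i (fun h => ht h.symm)]
    ring

theorem jT_aT {L : ℕ} (A : Matrix I I ℂ) (u : Ten I L) (hA : IsLie D A) :
    jT D (aT A u) = aT (-A.conjTranspose) (jT D u) := by
  funext w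
  unfold jT aT
  rw [map_sum, Finset.mul_sum]
  refine Finset.sum_congr rfl fun k _ => ?_
  let e : I ≃ I := ⟨D.τ, D.τ, D.τ_τ, D.τ_τ⟩
  rw [map_sum, Finset.mul_sum, ← e.sum_comp]
  refine Finset.sum_congr rfl fun m _ => ?_
  have he : e m = D.τ m := rfl
  beta_reduce
  rw [he, tau_update, sg_update, map_mul, Matrix.neg_apply, Matrix.conjTranspose_apply,
    ← starRingEnd_apply, Function.comp_apply, lie_rel' D hA m (w k), map_neg, map_mul, map_mul,
    AL2.conj_s, AL2.conj_s]
  ring

omit [Fintype I] [DecidableEq I] [DecidableEq Λ] in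
theorem jT_add {L : ℕ} (u v : Ten I L) : jT D (u + v) = jT D u + jT D v := by
  funext w
  simp only [jT, Pi.add_apply, map_add, mul_add]

omit [Fintype I] [DecidableEq I] [DecidableEq Λ] in
theorem jT_smul {L : ℕ} (c : ℂ) (u : Ten I L) : jT D (c • u) = (starRingEnd ℂ) c • jT D u := by
  funext w
  simp only [jT, Pi.smul_apply, smul_eq_mul, map_mul]
  ring

end forms

end Pool.Agent.Lib.MP_361a6f_ag.FL.AL1A
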