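import Pool.Agent.Lib.MP_361a6f_ag.FL.Al1a

/-!
# Row AL1: the assembly of `Alg1`
-/

namespace Pool.Agent.Lib.MP_361a6f_ag.FL

/-- Row AL1: the elementary facts on tensors, forms and the group. -/
theorem alg1 : Alg1 where
  gT_one u := AL1B.gT_one u
  gT_mul g h u := AL1A.gT_mul g h u
  gT_add g u v := AL1A.gT_add g u v
  gT_smul g c u := AL1A.gT_smul g c u
  gT_cont := AL1B.gT_cont
  hT_conj u v := AL1A.hT_conj u v
  hT_self u := AL1A.hT_self u
  hT_gT g u v := AL1A.hT_gT g u v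
  hT_aT A u v := AL1A.hT_aT A u v
  aT_add A u v := AL1A.aT_add A u v
  aT_smul A c u := AL1A.aT_smul A c u
  add_aT A B u := AL1A.add_aT A B u
  smul_aT c A u := AL1A.smul_aT c A u
  aT_comm A B u := AL1A.aT_comm A B u
  gT_aT g A u hg := AL1A.gT_aT g A u hg
  gT_exp A u := AL1B.gT_exp A u
  psiT_gT D _ g u v hg := AL2.psiT_gT D g u v hg
  psiT_aT D _ A u v hA := AL1A.psiT_aT D A u v hA
  psiT_jT D _ u v := AL1A.psiT_jT D u v
  psiT_jT_jT D _ u v := AL1A.psiT_jT_jT D u v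
  hT_jT_jT D _ u v := AL1A.hT_jT_jT D u v
  jT_gT D _ g u hg := AL1A.jT_gT D g u hg
  jT_aT D _ A u hA := AL1A.jT_aT D A u hA
  jT_add D _ u v := AL1A.jT_add D u v
  jT_smul D _ c u := AL1A.jT_smul D c u
  G_one D := AL1B.G_one D
  G_mul D g h hg hh := AL1B.G_mul D g h hg hh
  G_inv D g hg := AL1B.G_inv D g hg
  G_exp D A hA := AL1B.G_exp D A hA
  K_exp D A hA hs := AL1B.K_exp D A hA hs
  Lie_adj D A hA := AL1B.Lie_adj D A hA
  Lie_smul D c A hA := AL1B.Lie_smul D c A hA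
  Lie_add D A B hA hB := AL1B.Lie_add D A B hA hB

end Pool.Agent.Lib.MP_361a6f_ag.FL
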