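import Pool.Agent.Lib.MP_361a6f_ag.FL.Stat

/-!
# The span of the algebraic classes and the rank of the intersection form
-/

open CategoryTheory AlgebraicGeometry MonoidalCategory CartesianMonoidalCategory

universe u v w

namespace Pool.Agent.Lib.MP_361a6f_ag.FL

open Pool.Agent.Lib.MP_361a6f_ag.H3 Pool.Agent.Lib.MP_361a6f_ag.SQ
  Pool.Agent.Lib.MP_361a6f_ag.PP

noncomputable section

variable {k : Type u} [Field k]

/-- The complex span of the algebraic classes of all codimensions on `Y`. -/
def algC (W : CohomologyData.{u, 0, w} k ℂ) (Y : Sch k) : Submodule ℂ (W.coh Y) :=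
  Submodule.span ℂ {z | ∃ l, W.IsAlg Y l z}

/-- The elements of this span that are orthogonal to all algebraic classes for the intersection
form `Tr(x y)`. -/
def numC (W : CohomologyData.{u, 0, w} k ℂ) (Y : Sch k) : Submodule ℂ (W.coh Y) where
  carrier := {z | z ∈ algC W Y ∧ ∀ l y, W.IsAlg Y l y → W.Tr (W.cup z y) = 0}
  add_mem' := fun {a b} ha hb => ⟨add_mem ha.1 hb.1, fun l y hy => by
    have h : W.cup (a + b) y = W.cup a y + W.cup b y := add_mul a b y
    have h' : W.Tr (W.cup a y + W.cup b y) = W.Tr (W.cup a y) + W.Tr (W.cup b y) :=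
      map_add (W.tr Y) _ _
    rw [h, h', ha.2 l y hy, hb.2 l y hy, add_zero]⟩
  zero_mem' := ⟨zero_mem _, fun l y _ => by
    have h : W.cup 0 y = 0 := zero_mul y
    have h' : W.Tr (0 : W.coh Y) = 0 := map_zero (W.tr Y)
    rw [h, h']⟩
  smul_mem' := fun c a ha => ⟨Submodule.smul_mem _ c ha.1, fun l y hy => by
    have h : W.cup (c • a) y = c • W.cup a y := smul_mul_assoc c a y
    have h' : W.Tr (c • W.cup a y) = c • W.Tr (W.cup a y) := map_smul (W.tr Y) c _
    rw [h, h', ha.2 l y hy, smul_zero]⟩

/-- The rank of the intersection form `Tr(x y)` on the algebraic classes of `Y`: the dimension of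
the space of the algebraic classes modulo numerical equivalence. -/
def rankN (W : CohomologyData.{u, 0, w} k ℂ) (Y : Sch k) : ℕ :=
  Module.finrank ℂ (algC W Y) - Module.finrank ℂ (numC W Y)

end

end Pool.Agent.Lib.MP_361a6f_ag.FL
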