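import Pool.Agent.Lib.MP_361a6f_ag.PP.StarAlg
import Pool.Agent.Lib.MP_361a6f_ag.PP.Trc
import Pool.Agent.Lib.MP_361a6f_ag.PP.Rsp

/-!
# Contraction is an algebraic operation, and the invariant tensors of length two are algebraic
-/

open CategoryTheory AlgebraicGeometry MonoidalCategory CartesianMonoidalCategory

universe u v w

set_option autoImplicit false
set_option linter.unusedSectionVars false

namespace Pool.Agent.Lib.MP_361a6f_ag.FL

open Pool.Agent.Lib.MP_361a6f_ag.H3 Pool.Agent.Lib.MP_361a6f_ag.SQ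
  Pool.Agent.Lib.MP_361a6f_ag.IP2 Pool.Agent.Lib.MP_361a6f_ag.PP

variable {k : Type u} [Field k] {W : CohomologyData.{u, 0, w} k ℂ} {𝒱 : VarietyClass k}

namespace GeoCont

/-- an algebraic operator preserves algebraic classes -/
theorem algCor_tot (hW : IsWeilCohomology W 𝒱) {X Y : Sch k} {n d : ℕ} (hX : 𝒱.mem X n)
    (hY : 𝒱.mem Y d) {u : W.coh X →ₗ[ℂ] W.coh Y} (hu : AlgCor W X Y u) {z : W.coh X}
    (hz : z ∈ tot W X) : u z ∈ tot W Y := by
  obtain ⟨γ, hγ, hu⟩ := hu
  have hXY := 𝒱.prod hX hY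
  rw [hu]
  exact tot_push hW hXY hY _ (tot_mul hW hXY (tot_pull hW hXY hX _ hz) hγ)

section con

variable (hsta : StaStatement.{w}) (hW : IsWeilCohomology W 𝒱) {P Q : Sch k} {p q : ℕ}
  (hP : 𝒱.mem P p) (hQ : 𝒱.mem Q q) {ξ : W.coh P} (hξ : ξ ∈ W.alg P 1)
  {Lam : Module.End ℂ (W.coh P)} (D : LamData W P p ξ Lam)

include hsta hW hP hξ in
/-- `Tr(*u · x) = ψ(u, x)` -/
theorem tr_star (u x : W.coh P) :
    W.tr P (star D.slm.internal (Lop W P ξ) Lam u * x) = psi W P ξ Lam D.slm.internal u x :=
  TRC.star_adj hsta hW hP hξ D u x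

include hW hP hQ hξ in
/-- the contraction of algebraic classes is algebraic -/
theorem con_tot {u : W.coh P} (hu : u ∈ tot W P) {γ : W.coh (P ⊗ Q)} (hγ : γ ∈ tot W (P ⊗ Q)) :
    cor W γ (star D.slm.internal (Lop W P ξ) Lam u) ∈ tot W Q :=
  algCor_tot hW hP hQ (cor_algCor hγ) (algCor_tot hW hP hP (algOp_star hW hP hξ D) hu)

include hsta hW hP hQ hξ in
/-- the contraction of exterior products -/
theorem con_ext (u x : W.coh P) (y : W.coh Q) :
    cor W (W.pull (fst P Q) x * W.pull (snd P Q) y) (star D.slm.internal (Lop W P ξ) Lam u)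
      = psi W P ξ Lam D.slm.internal u x • y := by
  rw [cor_ext hW hP hQ, tr_star hsta hW hP hξ D]

include hsta hW hP hQ hξ in
/-- the contraction in coordinates -/
theorem con_coord {ι κ : Type*} [Fintype ι] [Fintype κ] (e : ι → W.coh P) (f : κ → W.coh Q)
    (c : ι → ℂ) (m : ι → κ → ℂ) :
    cor W (∑ i, ∑ l, m i l • (W.pull (fst P Q) (e i) * W.pull (snd P Q) (f l)))
        (star D.slm.internal (Lop W P ξ) Lam (∑ i, c i • e i))
      = ∑ l, (∑ i, ∑ i', c i * m i' l * psi W P ξ Lam D.slm.internal (e i) (e i')) • f l := by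
  have h0 : ∀ (s : W.coh P), cor W (∑ i, ∑ l, m i l •
      (W.pull (fst P Q) (e i) * W.pull (snd P Q) (f l))) s
      = ∑ i, ∑ l, m i l • cor W (W.pull (fst P Q) (e i) * W.pull (snd P Q) (f l)) s := by
    intro s
    rw [cor_apply, Finset.mul_sum, map_sum]
    refine Finset.sum_congr rfl fun i _ => ?_
    rw [Finset.mul_sum, map_sum]
    refine Finset.sum_congr rfl fun l _ => ?_
    rw [mul_smul_comm, map_smul, cor_apply]
  rw [h0]
  have h1 : ∀ i' l, cor W (W.pull (fst P Q) (e i') * W.pull (snd P Q) (f l))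
      (star D.slm.internal (Lop W P ξ) Lam (∑ i, c i • e i))
      = (∑ i, c i * psi W P ξ Lam D.slm.internal (e i) (e i')) • f l := by
    intro i' l
    rw [map_sum, map_sum, Finset.sum_smul]
    refine Finset.sum_congr rfl fun i _ => ?_
    rw [map_smul, map_smul, con_ext hsta hW hP hQ hξ D, smul_smul]
  simp only [h1]
  rw [Finset.sum_comm]
  refine Finset.sum_congr rfl fun l _ => ?_
  rw [Finset.sum_comm (s := Finset.univ) (t := Finset.univ)
    (f := fun i i' => c i * m i' l * psi W P ξ Lam D.slm.internal (e i) (e i')), Finset.sum_smul]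
  refine Finset.sum_congr rfl fun i' _ => ?_
  rw [smul_smul, Finset.mul_sum]
  congr 1
  refine Finset.sum_congr rfl fun i _ => ?_
  ring

end con

section oma

variable (hsta : StaStatement.{w}) (hW : IsWeilCohomology W 𝒱) {X : Sch k} {n : ℕ}
  (hX : 𝒱.mem X n) {ξ : W.coh X} (hξ : ξ ∈ W.alg X 1)
  {Lam : Module.End ℂ (W.coh X)} (D : LamData W X n ξ Lam)

include hsta hW hX hξ in
/-- the tensor `∑ s_i e_i ⊗ e_(τ i)` over the basis elements of degree `d` is algebraic -/
theorem omega_tot {I : Type*} [Fintype I] [DecidableEq I] (e : I → W.coh X) (τ : I → I)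
    (s : I → ℂ) (deg : I → ℕ) (A : I → Prop) [DecidablePred A]
    (hA : ∀ i, ¬ A i → e i = 0) (hdeg : ∀ i, e i ∈ W.gr X (deg i))
    (hττ : ∀ i, τ (τ i) = i) (hτd : ∀ i, deg (τ i) = deg i)
    (hs : ∀ i, A i → s i * s (τ i) = (-1) ^ deg i)
    (hpsi : ∀ i j, A i → psi W X ξ Lam D.slm.internal (e i) (e j) = if j = τ i then s i else 0)
    (hspan : ∀ x, ∃ c : I → ℂ, x = ∑ i, c i • e i) (d : ℕ) :
    ∑ i, (if deg i = d then s i else 0) • (W.pull (fst X X) (e i) * W.pull (snd X X) (e (τ i)))
      ∈ tot W (X ⊗ X) := by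
  set S := star D.slm.internal (Lop W X ξ) Lam with hS
  have hSS : ∀ x, S (S x) = x := (hsta D.slm).2.1
  -- the algebraic operator
  set u : Module.End ℂ (W.coh X) := (((-1 : ℚ) ^ d : ℚ) : ℂ) •
    (gop D.slm.internal (fun i => (((if i = d then 1 else 0 : ℚ)) : ℂ)) * S) with hu
  have halg : AlgCor W X X u := by
    refine AlgOp.smul hW hX _ (AlgOp.mul hW hX ?_ (algOp_star hW hX hξ D))
    exact algOp_gop hW hX hξ D (fun i => if i = d then 1 else 0)
  obtain ⟨γ, hγ, hγu⟩ := halg.exists_cor
  have key : γ = ∑ i, (if deg i = d then s i else 0) •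
      (W.pull (fst X X) (e i) * W.pull (snd X X) (e (τ i))) := by
    refine cor_injective hW hX hX ?_
    rw [← hγu]
    refine LinearMap.ext fun x => ?_
    have hx : x = S (S x) := (hSS x).symm
    rw [hx]
    obtain ⟨c, hc⟩ := hspan (S x)
    have h0 : cor W (∑ i, (if deg i = d then s i else 0) •
        (W.pull (fst X X) (e i) * W.pull (snd X X) (e (τ i)))) (S (S x))
        = ∑ i, (if deg i = d then s i else 0) •
          (psi W X ξ Lam D.slm.internal (S x) (e i) • e (τ i)) := by
      rw [cor_apply, Finset.mul_sum, map_sum]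
      refine Finset.sum_congr rfl fun i _ => ?_
      rw [mul_smul_comm, map_smul, ← cor_apply, con_ext hsta hW hX hX hξ D]
    rw [h0, hu, LinearMap.smul_apply, Module.End.mul_apply, hSS]
    -- both sides in coordinates
    have h1 : ∀ j, e (τ j) = 0 ∨ A (τ j) := fun j => by
      by_cases h : A (τ j)
      · exact Or.inr h
      · exact Or.inl (hA _ h)
    have h2 : ∀ i, psi W X ξ Lam D.slm.internal (S x) (e i) • e (τ i)
        = (c (τ i) * s (τ i)) • e (τ i) := by
      intro i
      by_cases hi : A (τ i)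
      · congr 1
        rw [hc]
        have h3 : psi W X ξ Lam D.slm.internal (∑ j, c j • e j) (e i)
            = ∑ j, c j * psi W X ξ Lam D.slm.internal (e j) (e i) := by
          rw [psi, Finset.sum_mul, map_sum]
          refine Finset.sum_congr rfl fun j _ => ?_
          rw [smul_mul_assoc, map_smul, smul_eq_mul, psi]
        rw [h3, Finset.sum_eq_single (τ i)]
        · rw [hpsi _ _ hi, if_pos (hττ i).symm]
        · intro j _ hj
          by_cases hAj : A j
          · rw [hpsi _ _ hAj, if_neg, mul_zero]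
            intro h
            exact hj (by rw [h, hττ])
          · rw [hA j hAj, psi, zero_mul, map_zero, mul_zero]
        · intro h
          exact absurd (Finset.mem_univ _) h
      · rw [hA _ hi, smul_zero, smul_zero]
    simp only [h2]
    conv_lhs => rw [hc]
    rw [map_sum, Finset.smul_sum]
    symm
    refine Finset.sum_bij (fun i _ => τ i) (fun i _ => Finset.mem_univ _)
      (fun i _ j _ h => by rw [← hττ i, h, hττ]) (fun j _ => ⟨τ j, Finset.mem_univ _, hττ j⟩)
      (fun i _ => ?_)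
    rw [map_smul, gop_apply _ _ (hdeg (τ i)), hτd]
    by_cases hi : A (τ i)
    · by_cases hd : deg i = d
      · have h4 := hs (τ i) hi
        rw [hττ, hτd, hd] at h4
        rw [if_pos hd, if_pos hd, smul_smul, smul_smul, smul_smul]
        congr 1
        push_cast
        rw [← h4]
        ring
      · rw [if_neg hd, if_neg hd]
        simp
    · rw [hA _ hi]
      simp
  rw [← key]
  exact hγ

end oma

end GeoCont

end Pool.Agent.Lib.MP_361a6f_ag.FL
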