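import Pool.Agent.Lib.MP_361a6f_ag.FL.GeoDefs
import Pool.Agent.Lib.MP_361a6f_ag.FL.GeoCont
import Pool.Agent.Lib.MP_361a6f_ag.PP.StaB

/-!
# Row GC: contraction and the invariant tensors of length two
-/

open CategoryTheory AlgebraicGeometry MonoidalCategory CartesianMonoidalCategory

universe u v w

set_option autoImplicit false

namespace Pool.Agent.Lib.MP_361a6f_ag.FL

open Pool.Agent.Lib.MP_361a6f_ag.H3 Pool.Agent.Lib.MP_361a6f_ag.SQ
  Pool.Agent.Lib.MP_361a6f_ag.PP

theorem Prd.size_posC {m : ℕ} : ∀ P : Prd m, 0 < P.size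
  | .leaf _ => Nat.one_pos
  | .prod P _ => Nat.add_pos_left P.size_posC _

namespace GC

section abs

variable {I Λ : Type} [Fintype I] [DecidableEq I] [DecidableEq Λ] (D : Dat I Λ)

theorem cont_add {p c : ℕ} (u u' : Ten I p) (m : Ten I (p + c)) :
    cont D (u + u') m = cont D u m + cont D u' m := by
  funext w
  simp only [cont, Pi.add_apply]
  rw [← Finset.sum_add_distrib]
  exact Finset.sum_congr rfl fun w' _ => by ring

theorem cont_neg {p c : ℕ} (u : Ten I p) (m : Ten I (p + c)) : cont D (-u) m = -cont D u m := by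
  funext w
  simp only [cont, Pi.neg_apply]
  rw [← Finset.sum_neg_distrib]
  exact Finset.sum_congr rfl fun w' _ => by ring

theorem cont_zero {p c : ℕ} (m : Ten I (p + c)) : cont D (0 : Ten I p) m = 0 := by
  funext w
  simp [cont]

theorem add_cont {p c : ℕ} (u : Ten I p) (m m' : Ten I (p + c)) :
    cont D u (m + m') = cont D u m + cont D u m' := by
  funext w
  simp only [cont, Pi.add_apply]
  rw [← Finset.sum_add_distrib]
  exact Finset.sum_congr rfl fun w' _ => by ring

theorem neg_cont {p c : ℕ} (u : Ten I p) (m : Ten I (p + c)) : cont D u (-m) = -cont D u m := by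
  funext w
  simp only [cont, Pi.neg_apply]
  rw [← Finset.sum_neg_distrib]
  exact Finset.sum_congr rfl fun w' _ => by ring

theorem smul_cont {p c : ℕ} (x : ℂ) (u : Ten I p) (m : Ten I (p + c)) :
    cont D u (x • m) = x • cont D u m := by
  funext w
  simp only [cont, Pi.smul_apply, smul_eq_mul]
  rw [Finset.mul_sum]
  exact Finset.sum_congr rfl fun w' _ => by ring

theorem zero_cont {p c : ℕ} (u : Ten I p) : cont D u (0 : Ten I (p + c)) = 0 := by
  funext w
  simp [cont]

theorem cont_outer {p c : ℕ} (u a : Ten I p) (b : Ten I c) :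
    cont D u (outer a b) = psiT D u a • b := by
  funext w
  simp only [cont, outer, Pi.smul_apply, smul_eq_mul, psiT, Fin.append_left, Fin.append_right]
  rw [Finset.sum_mul]
  exact Finset.sum_congr rfl fun w' _ => by ring

end abs

variable {k : Type u} [Field k] {W : CohomologyData.{u, 0, w} k ℂ} {𝒱 : VarietyClass k} {m : ℕ}
  (H : Host W 𝒱 m)

theorem at_cast {L L' : ℕ} (h : L = L') {u : Ten H.I L} (hu : u ∈ H.At L) :
    (fun w : Fin L' → H.I => u (w ∘ Fin.cast h)) ∈ H.At L' := by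
  subst h
  exact hu

theorem tc_mem {P : Prd m} {z : W.coh (P.obj H.X)} (hz : z ∈ tot W (P.obj H.X)) :
    H.tc P z ∈ H.At P.size :=
  AddSubgroup.subset_closure (Or.inr ⟨P, rfl, z, hz, rfl⟩)

theorem rat_mem (L : ℕ) (q : ℚ) (u : Ten H.I L) (hu : u ∈ H.At L) : (q : ℂ) • u ∈ H.At L := by
  refine AddSubgroup.closure_induction (p := fun u _ => (q : ℂ) • u ∈ H.At L) ?_ ?_ ?_ ?_ hu
  · rintro _ (⟨rfl, q', rfl⟩ | ⟨P, rfl, z, hz, rfl⟩)
    · refine AddSubgroup.subset_closure (Or.inl ⟨rfl, q * q', ?_⟩)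
      funext w
      simp
    · have := tc_mem H (tot_smul H.hW (H.memP P) q hz)
      rw [map_smul] at this
      exact this
  · rw [smul_zero]; exact zero_mem _
  · intro a b _ _ ha hb
    rw [smul_add]; exact add_mem ha hb
  · intro a _ ha
    rw [smul_neg]; exact neg_mem ha

/-- the coordinates of a contraction -/
theorem cont_tc (hge : H.GeFacts) (P Q : Prd m) (z : W.coh (P.obj H.X))
    (y : W.coh ((Prd.prod P Q).obj H.X)) :
    cont H.D (H.tc P z) (H.tc (.prod P Q) y)
      = H.tc Q (cor W (X := P.obj H.X) (Y := Q.obj H.X) y (H.starP P z)) := by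
  let T : W.coh (P.obj H.X ⊗ Q.obj H.X) →ₗ[ℂ] Ten H.I (P.size + Q.size) := H.tc (.prod P Q)
  have hT : ∀ x y, T (W.pull (fst (P.obj H.X) (Q.obj H.X)) x
      * W.pull (snd (P.obj H.X) (Q.obj H.X)) y) = outer (H.tc P x) (H.tc Q y) :=
    hge.tc_outer P Q
  have key : ∀ y : W.coh (P.obj H.X ⊗ Q.obj H.X), cont H.D (H.tc P z) (T y)
      = H.tc Q (cor W y (H.starP P z)) := by
    intro y
    refine prod_induction H.hW (H.memP P) (H.memP Q) (P := fun y =>
      cont H.D (H.tc P z) (T y) = H.tc Q (cor W y (H.starP P z))) y ?_ ?_ ?_ ?_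
    · intro x₁ x₂
      rw [hT, cont_outer, hge.psi_tc]
      have h2 := GeoCont.con_ext staB H.hW (H.memP P) (H.memP Q) (H.lamP P).2 (H.lamP P).1
        z x₁ x₂
      unfold Host.starP
      rw [h2, map_smul]
      rfl
    · rw [map_zero, zero_cont, cor_zero, LinearMap.zero_apply, map_zero]
    · intro a b ha hb
      rw [map_add, add_cont, ha, hb, cor_add, LinearMap.add_apply, map_add]
    · intro x a ha
      rw [map_smul, smul_cont, ha, cor_smul, LinearMap.smul_apply, map_smul]
  exact key y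

/-- the contraction of the coordinates of algebraic classes -/
theorem cont_gen (hge : H.GeFacts) (hgr : H.RelFacts) (P R : Prd m) (c : ℕ)
    (h : R.size = P.size + c) (z : W.coh (P.obj H.X)) (hz : z ∈ tot W (P.obj H.X))
    (y : W.coh (R.obj H.X)) (hy : y ∈ tot W (R.obj H.X)) :
    cont H.D (H.tc P z) (fun w => H.tc R y (w ∘ Fin.cast h)) ∈ H.At c := by
  have hfit : ∀ w', H.tc P z w' ≠ 0 → ∀ i, (H.D.typ (w' i)).1 = P.lw i := by
    intro w' hw' i
    by_contra hne
    exact hw' (hge.tc_off P z w' ⟨i, hne⟩)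
  rcases Nat.eq_zero_or_pos c with rfl | hc
  · -- the value is a rational number
    have h' : R.size = P.size := h
    have hval : cont H.D (H.tc P z) (fun w => H.tc R y (w ∘ Fin.cast h))
        = fun _ => ∑ w', sg H.D w' * (H.tc P z w' * H.tc R y ((H.D.τ ∘ w') ∘ Fin.cast h')) := by
      funext w
      rw [cont]
      refine Finset.sum_congr rfl fun w' _ => ?_
      have : (Fin.append (H.D.τ ∘ w') w) ∘ Fin.cast h = (H.D.τ ∘ w') ∘ Fin.cast h' := by
        funext i
        rw [Function.comp_apply, Function.comp_apply, Fin.append_right_nil _ _ rfl]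
        rfl
      rw [this]
    rw [hval]
    by_cases hw : ∀ i, P.lw i = R.lw (Fin.cast h'.symm i)
    · obtain ⟨h2, h3⟩ := hgr.tc P R (hgr.coh P R h'.symm hw)
      obtain ⟨y', hy', h4⟩ := h3 y hy
      have h5 : ∑ w', sg H.D w' * (H.tc P z w' * H.tc R y ((H.D.τ ∘ w') ∘ Fin.cast h'))
          = psiT H.D (H.tc P z) (H.tc P y') := by
        rw [psiT]
        refine Finset.sum_congr rfl fun w' _ => ?_
        rw [h4]
      obtain ⟨q, hq⟩ := tot_tr H.hW (H.memP P) (tot_mul H.hW (H.memP P) hz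
        (GeoCont.algCor_tot H.hW (H.memP P) (H.memP P)
          (algOp_star H.hW (H.memP P) (H.lamP P).2 (H.lamP P).1) hy'))
      refine AddSubgroup.subset_closure (Or.inl ⟨rfl, q, ?_⟩)
      rw [h5, hge.psi_tc, ← hq]
      rfl
    · push Not at hw
      obtain ⟨i, hi⟩ := hw
      refine AddSubgroup.subset_closure (Or.inl ⟨rfl, 0, ?_⟩)
      funext _
      rw [Rat.cast_zero]
      refine Finset.sum_eq_zero fun w' _ => ?_
      by_cases h0 : H.tc P z w' = 0
      · rw [h0, zero_mul, mul_zero]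
      · rw [hge.tc_off R y _ ⟨Fin.cast h'.symm i, ?_⟩, mul_zero, mul_zero]
        have h1 := hfit w' h0 i
        rw [Function.comp_apply, Function.comp_apply, H.D.typ_τ]
        have h2 : Fin.cast h' (Fin.cast h'.symm i) = i := rfl
        rw [h2, h1]
        exact hi
  · obtain ⟨P₁, Q, hP₁, hQ, hR⟩ := hgr.split R P.size c P.size_posC hc h
    subst hQ
    by_cases hw : ∀ i, P.lw i = P₁.lw (Fin.cast hP₁.symm i)
    · have hrel : H.Rel (.prod P Q) R :=
        hgr.trans _ _ _ (hgr.prod P Q P₁ Q (hgr.coh P P₁ hP₁.symm hw) (hgr.refl Q))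
          (hgr.symm _ _ hR)
      obtain ⟨h2, h3⟩ := hgr.tc (.prod P Q) R hrel
      obtain ⟨y', hy', h4⟩ := h3 y hy
      have h5 : (fun w : Fin (P.size + Q.size) → H.I => H.tc R y (w ∘ Fin.cast h))
          = H.tc (.prod P Q) y' := by
        funext w
        exact (h4 w).symm
      rw [h5, cont_tc H hge]
      refine tc_mem H ?_
      exact GeoCont.con_tot H.hW (H.memP P) (H.memP Q) (H.lamP P).2 (H.lamP P).1 hz hy'
    · push Not at hw
      obtain ⟨i, hi⟩ := hw
      obtain ⟨h2, h3⟩ := hgr.tc (.prod P₁ Q) R (hgr.symm _ _ hR)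
      obtain ⟨y', hy', h4⟩ := h3 y hy
      have h6 : P.size + Q.size = P₁.size + Q.size := by rw [hP₁]
      have h5 : cont H.D (H.tc P z) (fun w : Fin (P.size + Q.size) → H.I =>
          H.tc R y (w ∘ Fin.cast h)) = 0 := by
        funext w
        rw [cont, Pi.zero_apply]
        refine Finset.sum_eq_zero fun w' _ => ?_
        by_cases h0 : H.tc P z w' = 0
        · rw [h0, zero_mul, mul_zero]
        · have h7 := h4 ((Fin.append (H.D.τ ∘ w') w) ∘ Fin.cast h6.symm)
          have h8 : H.tc (.prod P₁ Q) y' ((Fin.append (H.D.τ ∘ w') w) ∘ Fin.cast h6.symm)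
              = H.tc R y (Fin.append (H.D.τ ∘ w') w ∘ Fin.cast h) := h7
          rw [← h8, hge.tc_off (.prod P₁ Q) y' _
            ⟨Fin.castAdd Q.size (Fin.cast hP₁.symm i), ?_⟩, mul_zero, mul_zero]
          show (H.D.typ (Fin.append (H.D.τ ∘ w') w (Fin.castAdd Q.size i))).1
            ≠ Fin.append P₁.lw Q.lw (Fin.castAdd Q.size (Fin.cast hP₁.symm i))
          rw [Fin.append_left, Fin.append_left, Function.comp_apply, H.D.typ_τ, hfit w' h0 i]
          exact hi
      rw [h5]
      exact zero_mem _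

/-- Row GC: contractions. -/
theorem cont_mem (hge : H.GeFacts) (hgr : H.RelFacts) (p c : ℕ) :
    ∀ u ∈ H.At p, ∀ v ∈ H.At (p + c), cont H.D u v ∈ H.At c := by
  intro u hu
  refine AddSubgroup.closure_induction (p := fun u _ => ∀ v ∈ H.At (p + c),
    cont H.D u v ∈ H.At c) ?_ ?_ ?_ ?_ hu
  · rintro _ (⟨rfl, q, rfl⟩ | ⟨P, rfl, z, hz, rfl⟩) v hv
    · have h0 : 0 + c = c := Nat.zero_add c
      have h1 := rat_mem H c q _ (at_cast H h0 hv)
      have h2 : cont H.D (fun _ => (q : ℂ)) v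
          = (q : ℂ) • (fun w : Fin c → H.I => v (w ∘ Fin.cast h0)) := by
        funext w
        rw [cont, Fintype.sum_unique, Pi.smul_apply, smul_eq_mul, sg]
        rw [Finset.univ_eq_empty, Finset.prod_empty, one_mul]
        congr 2
        rw [Fin.append_left_nil _ _ rfl]
      rw [h2]
      exact h1
    · refine AddSubgroup.closure_induction (p := fun v _ =>
        cont H.D (fun w => H.tc P z (w ∘ Fin.cast rfl)) v ∈ H.At c) ?_ ?_ ?_ ?_ hv
      · rintro _ (⟨h, _⟩ | ⟨R, h, y, hy, rfl⟩)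
        · have := P.size_posC
          omega
        · exact cont_gen H hge hgr P R c h z hz y hy
      · rw [zero_cont]; exact zero_mem _
      · intro a b _ _ ha hb
        rw [add_cont]; exact add_mem ha hb
      · intro a _ ha
        rw [neg_cont]; exact neg_mem ha
  · intro v _
    rw [cont_zero]; exact zero_mem _
  · intro a b _ _ ha hb v hv
    rw [cont_add]; exact add_mem (ha v hv) (hb v hv)
  · intro a _ ha v hv
    rw [cont_neg]; exact neg_mem (ha v hv)

/-- the coordinates of a basis vector -/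
theorem tc_e (a : Fin m) (x : H.I) (w : Fin 1 → H.I) :
    H.tc (.leaf a) (H.e a x) w = if (H.D.typ x).1 = a ∧ w 0 = x then 1 else 0 := by
  have hsg : sg H.D w = H.D.s (w 0) := Fin.prod_univ_one _
  have hval : H.tc (.leaf a) (H.e a x) w = H.D.s (w 0) *
      psi W (H.X a) (H.ξ a) (H.Lam a) (H.lam a).slm.internal (H.e a x) (H.e a (H.D.τ (w 0))) :=
    congrArg (· * psi W (H.X a) (H.ξ a) (H.Lam a) (H.lam a).slm.internal (H.e a x)
      (H.e a (H.D.τ (w 0)))) hsg
  rw [hval]
  generalize w 0 = y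
  by_cases hx : (H.D.typ x).1 = a
  · by_cases hy : (H.D.typ y).1 = a
    · rw [H.e_psi a x _ hx (by rw [H.D.typ_τ]; exact hy)]
      by_cases h2 : y = x
      · subst h2
        rw [if_pos rfl, if_pos ⟨hx, rfl⟩]
        rcases H.D.s_val y with h | h <;> rw [h] <;> norm_num
      · have h3 : H.D.τ y ≠ H.D.τ x := fun h => h2 (by rw [← H.D.τ_τ y, h, H.D.τ_τ])
        rw [if_neg h3, mul_zero, if_neg (fun h => h2 h.2)]
    · rw [H.e_ne a (H.D.τ y) (by rw [H.D.typ_τ]; exact hy), psi, map_zero, mul_zero, map_zero,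
        mul_zero, if_neg]
      rintro ⟨h, h'⟩
      exact hy (by rw [h']; exact h)
  · rw [H.e_ne a x hx, psi, zero_mul, map_zero, mul_zero, if_neg (fun h => hx h.1)]

/-- Row GC: the invariant tensors of length two. -/
theorem om_mem (hge : H.GeFacts) (α : Fin m × ℕ) : om H.D α ∈ H.At 2 := by
  obtain ⟨a, d⟩ := α
  have hz := GeoCont.omega_tot staB H.hW (H.mem a) (H.ξ_alg a) (H.lam a) (H.e a) H.D.τ H.D.s
    (fun x => (H.D.typ x).2) (fun x => (H.D.typ x).1 = a) (H.e_ne a) (H.e_gr a) H.D.τ_τ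
    (fun x => by rw [H.D.typ_τ])
    (fun x _ => by
      by_cases hx : H.D.odd (H.D.typ x)
      · rw [((H.odd_iff _).1 hx).neg_one_pow, (H.D.odd_τ x hx).2]
        rcases H.D.s_val x with h | h <;> rw [h] <;> norm_num
      · have h1 : Even (H.D.typ x).2 := by
          rw [← Nat.not_odd_iff_even]
          exact fun h => hx ((H.odd_iff _).2 h)
        rw [h1.neg_one_pow, (H.D.even_τ x hx).1, (H.D.even_τ x hx).2, mul_one])
    (fun x y hx => by
      by_cases hy : (H.D.typ y).1 = a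
      · exact H.e_psi a x y hx hy
      · rw [H.e_ne a y hy, psi, map_zero, mul_zero, map_zero, if_neg]
        rintro rfl
        exact hy (by rw [H.D.typ_τ]; exact hx))
    (fun x => by
      have hx : x ∈ Submodule.span ℂ (Set.range (H.e a)) := by rw [H.e_span]; trivial
      obtain ⟨c, hc⟩ := (Submodule.mem_span_range_iff_exists_fun ℂ).1 hx
      exact ⟨c, hc.symm⟩) d
  have h1 := tc_mem H (P := .prod (.leaf a) (.leaf a)) hz
  -- the coordinates as a linear map on `H(X_a ⊗ X_a)`
  let T : W.coh (H.X a ⊗ H.X a) →ₗ[ℂ] Ten H.I 2 := H.tc (.prod (.leaf a) (.leaf a))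
  have h1' : T (∑ x, (if (H.D.typ x).2 = d then H.D.s x else 0) •
      (W.pull (fst (H.X a) (H.X a)) (H.e a x) *
        W.pull (snd (H.X a) (H.X a)) (H.e a (H.D.τ x)))) ∈ H.At 2 := h1
  have hT : ∀ x y, T (W.pull (fst (H.X a) (H.X a)) x * W.pull (snd (H.X a) (H.X a)) y)
      = outer (H.tc (.leaf a) x) (H.tc (.leaf a) y) := hge.tc_outer (.leaf a) (.leaf a)
  have h2 : om H.D (a, d) = T (∑ x, (if (H.D.typ x).2 = d then H.D.s x else 0) •
      (W.pull (fst (H.X a) (H.X a)) (H.e a x) *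
        W.pull (snd (H.X a) (H.X a)) (H.e a (H.D.τ x)))) := by
    funext w
    rw [map_sum, Finset.sum_apply]
    have h3 : ∀ x, T ((if (H.D.typ x).2 = d then H.D.s x else 0) •
        (W.pull (fst (H.X a) (H.X a)) (H.e a x) *
          W.pull (snd (H.X a) (H.X a)) (H.e a (H.D.τ x)))) w
        = if x = w 0 then (if (H.D.typ x).1 = a ∧ (H.D.typ x).2 = d ∧ w 1 = H.D.τ x
          then H.D.s x else 0) else 0 := by
      intro x
      rw [map_smul, Pi.smul_apply, hT]
      have h5 : outer (H.tc (.leaf a) (H.e a x)) (H.tc (.leaf a) (H.e a (H.D.τ x))) w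
          = (if (H.D.typ x).1 = a ∧ w 0 = x then 1 else 0) *
            (if (H.D.typ x).1 = a ∧ w 1 = H.D.τ x then 1 else 0) := by
        have h6 := tc_e H a x (fun i => w (Fin.castAdd 1 i))
        have h7 := tc_e H a (H.D.τ x) (fun i => w (Fin.natAdd 1 i))
        rw [H.D.typ_τ] at h7
        exact congrArg₂ (· * ·) h6 h7
      rw [h5, smul_eq_mul]
      by_cases e1 : x = w 0
      · by_cases e2 : (H.D.typ x).1 = a
        · by_cases e3 : (H.D.typ x).2 = d
          · by_cases e4 : w 1 = H.D.τ x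
            · simp [e1.symm, e2, e3, e4]
            · simp [e1.symm, e2, e3, e4]
          · simp [e3]
        · simp [e2]
      · rw [if_neg e1]
        simp [Ne.symm e1]
    rw [Finset.sum_congr rfl fun x _ => h3 x, Finset.sum_ite_eq', if_pos (Finset.mem_univ _), om]
    have h6 : (H.D.typ (w 0) = (a, d) ∧ w 1 = H.D.τ (w 0)) ↔
        ((H.D.typ (w 0)).1 = a ∧ (H.D.typ (w 0)).2 = d ∧ w 1 = H.D.τ (w 0)) := by
      rw [Prod.ext_iff, and_assoc]
    by_cases h : H.D.typ (w 0) = (a, d) ∧ w 1 = H.D.τ (w 0)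
    · rw [if_pos h, if_pos (h6.1 h)]
    · rw [if_neg h, if_neg (fun h' => h (h6.2 h'))]
  rw [h2]
  exact h1'

end GC

/-- Row GC. -/
theorem gc_cont (ge : GeStatement.{u, w}) (gr : GrStatement.{u, w}) {k : Type u} [Field k]
    {W : CohomologyData.{u, 0, w} k ℂ} {𝒱 : VarietyClass k} {m : ℕ} (H : Host W 𝒱 m) (p c : ℕ) :
    ∀ u ∈ H.At p, ∀ v ∈ H.At (p + c), cont H.D u v ∈ H.At c :=
  GC.cont_mem H (ge H) (gr H) p c

/-- Row GC. -/
theorem gc_om (ge : GeStatement.{u, w}) {k : Type u} [Field k]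
    {W : CohomologyData.{u, 0, w} k ℂ} {𝒱 : VarietyClass k} {m : ℕ} (H : Host W 𝒱 m)
    (α : Fin m × ℕ) : om H.D α ∈ H.At 2 :=
  GC.om_mem H (ge H) α

end Pool.Agent.Lib.MP_361a6f_ag.FL
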