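import Pool.Agent.Lib.MP_361a6f_ag.FL.GO
import Pool.Agent.Lib.MP_361a6f_ag.FL.GeoPerm
import Pool.Agent.Lib.MP_361a6f_ag.FL.GC
import Pool.Agent.Lib.MP_361a6f_ag.FL.Gr
import Pool.Agent.Lib.MP_361a6f_ag.FL.Ge

/-!
# Theorem R: the algebraic tensors are closed under all operations
-/

set_option autoImplicit false

universe u w

namespace Pool.Agent.Lib.MP_361a6f_ag.FL

theorem at_ : AtStatement.{u, w} :=
  at_of ge (fun H => gp ge (gr ge) H) (fun H => gc_cont ge (gr ge) H) (fun H => gc_om ge H)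

end Pool.Agent.Lib.MP_361a6f_ag.FL
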