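import Pool.Agent.Lib.MP_361a6f_ag.FL.AlgDefs

/-!
# Rows AVG and EQP: averages of polynomial maps are diagram maps
-/

set_option linter.unusedSectionVars false

open Filter Topology MeasureTheory

namespace Pool.Agent.Lib.MP_361a6f_ag.FL

noncomputable section

variable {I Λ : Type} [Fintype I] [DecidableEq I] [DecidableEq Λ] (D : Dat I Λ)

namespace AvgRow

omit [Fintype I] [DecidableEq I] [DecidableEq Λ] in
theorem sg_sq {L : ℕ} (w : Fin L → I) : sg D w * sg D w = 1 := by
  unfold sg
  rw [← Finset.prod_mul_distrib]
  refine Finset.prod_eq_one fun i _ => ?_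
  rcases D.s_val (w i) with h | h <;> rw [h] <;> norm_num

omit [Fintype I] [DecidableEq I] [DecidableEq Λ] in
theorem τ_inj : Function.Injective D.τ := fun a b h => by
  rw [← D.τ_τ a, h, D.τ_τ]

/-- the contraction with a delta tensor -/
theorem cont_delta {p c : ℕ} (W : Fin p → I) (w0 : Fin c → I) (u : Ten I p) :
    cont D u (fun v => if v = Fin.append (D.τ ∘ W) w0 then sg D W else 0) =
      u W • (Pi.single w0 1 : Ten I c) := by
  funext w
  unfold cont
  rw [Finset.sum_eq_single W]
  · by_cases h : w = w0
    · subst h
      simp only [if_true, Pi.smul_apply, Pi.single_eq_same, smul_eq_mul, mul_one]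
      calc sg D W * (u W * sg D W) = u W * (sg D W * sg D W) := by ring
        _ = u W := by rw [sg_sq, mul_one]
    · have h0 : ¬ Fin.append (D.τ ∘ W) w = Fin.append (D.τ ∘ W) w0 := by
        intro h'
        apply h
        funext i
        have := congrFun h' (Fin.natAdd p i)
        simpa using this
      simp only [if_neg h0, Pi.smul_apply, Pi.single_eq_of_ne h, smul_zero, mul_zero]
  · intro w' _ hw'
    have h0 : ¬ Fin.append (D.τ ∘ w') w = Fin.append (D.τ ∘ W) w0 := by
      intro h'
      apply hw'
      funext i
      have := congrFun h' (Fin.castAdd c i)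
      simp only [Fin.append_left, Function.comp_apply] at this
      exact τ_inj D this
    simp only [if_neg h0, mul_zero]
  · intro h
    exact absurd (Finset.mem_univ _) h

variable {ι : Type} [Fintype ι] {len : ι → ℕ}

omit [Fintype I] [DecidableEq I] [Fintype ι] in
/-- a product of coordinates is a coordinate of an outer product -/
theorem exists_word (L : List (Σ i, (Fin (len i) → I))) :
    ∃ W : Fin (((L.map Sigma.fst).map len).sum) → I, ∀ s : Tup I len,
      prodT s (L.map Sigma.fst) W = (L.map fun x => s x.1 x.2).prod := by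
  induction L with
  | nil => exact ⟨fun i => Fin.elim0 i, fun s => rfl⟩
  | cons x L ih =>
    obtain ⟨W, hW⟩ := ih
    refine ⟨Fin.append x.2 W, fun s => ?_⟩
    have h1 : (fun i => (Fin.append x.2 W) (Fin.castAdd _ i)) = x.2 := by
      funext i; simp
    have h2 : (fun i => (Fin.append x.2 W) (Fin.natAdd (len x.1) i)) = W := by
      funext i; simp
    have h3 : ((x :: L).map fun x => s x.1 x.2).prod =
        s x.1 x.2 * (L.map fun x => s x.1 x.2).prod := by
      rw [List.map_cons, List.prod_cons]
    rw [h3, ← hW s]
    change outer (s x.1) (prodT s (L.map Sigma.fst)) (Fin.append x.2 W) = _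
    unfold outer
    rw [h1, h2]

theorem toMultiset_prod {X : Type} (d : X →₀ ℕ) (f : X → ℂ) :
    ((Finsupp.toMultiset d).map f).prod = d.prod fun x e => f x ^ e := by
  induction d using Finsupp.induction_linear with
  | zero => simp
  | add d e hd he =>
    rw [Finsupp.toMultiset_add, Multiset.map_add, Multiset.prod_add, hd, he,
      Finsupp.prod_add_index' (fun _ => pow_zero _) (fun _ _ _ => pow_add _ _ _)]
  | single a b =>
    have h : (Finsupp.single a b).prod (fun x e => f x ^ e) = f a ^ b :=
      Finsupp.prod_single_index (pow_zero _)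
    rw [Finsupp.toMultiset_single, Multiset.map_nsmul, Multiset.prod_nsmul, h,
      Multiset.map_singleton, Multiset.prod_singleton]

/-- contractions of outer products with arbitrary tensors -/
def gen (c : ℕ) : Set (Tup I len → Ten I c) :=
  {f | ∃ (l : List ι) (m : Ten I ((l.map len).sum + c)), f = dm D c l m}

omit [Fintype ι] in
theorem mono_mem {c : ℕ} (w0 : Fin c → I) (d : (Σ i, (Fin (len i) → I)) →₀ ℕ) (a : ℂ) :
    (fun s : Tup I len => MvPolynomial.eval (fun x => s x.1 x.2) (MvPolynomial.monomial d a) •
      (Pi.single w0 1 : Ten I c)) ∈ Submodule.span ℂ (gen (len := len) D c) := by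
  obtain ⟨L, hL⟩ : ∃ L : List (Σ i, (Fin (len i) → I)), (L : Multiset _) = Finsupp.toMultiset d :=
    ⟨(Finsupp.toMultiset d).toList, by simp⟩
  obtain ⟨W, hW⟩ := exists_word (I := I) (len := len) L
  have h : (fun s : Tup I len => MvPolynomial.eval (fun x => s x.1 x.2)
      (MvPolynomial.monomial d a) • (Pi.single w0 1 : Ten I c)) =
      a • dm D c (L.map Sigma.fst)
        (fun v => if v = Fin.append (D.τ ∘ W) w0 then sg D W else 0) := by
    funext s
    rw [Pi.smul_apply]
    unfold dm
    rw [cont_delta, hW s, smul_smul]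
    congr 1
    rw [MvPolynomial.eval_monomial]
    congr 1
    have : (L.map fun x => s x.1 x.2).prod =
        ((L : Multiset (Σ i, (Fin (len i) → I))).map fun x => s x.1 x.2).prod := by
      rw [Multiset.map_coe, Multiset.prod_coe]
    rw [this, hL, toMultiset_prod]
  rw [h]
  exact Submodule.smul_mem _ _ (Submodule.subset_span ⟨_, _, rfl⟩)

omit [Fintype ι] in
theorem poly_mem {c : ℕ} (P : Tup I len → Ten I c) (hP : PolyMap P) :
    P ∈ Submodule.span ℂ (gen (len := len) D c) := by
  obtain ⟨p, hp⟩ := hP
  have h : P = ∑ w0 : Fin c → I, ∑ d ∈ (p w0).support,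
      (fun s : Tup I len => MvPolynomial.eval (fun x => s x.1 x.2)
        (MvPolynomial.monomial d (MvPolynomial.coeff d (p w0))) •
          (Pi.single w0 1 : Ten I c)) := by
    funext s w
    rw [hp]
    simp only [Finset.sum_apply, Pi.smul_apply, smul_eq_mul]
    rw [Finset.sum_eq_single w]
    · simp only [Pi.single_eq_same, mul_one]
      conv_lhs => rw [(p w).as_sum]
      rw [map_sum]
    · intro w' _ hw'
      refine Finset.sum_eq_zero fun d _ => ?_
      rw [Pi.single_eq_of_ne (Ne.symm hw'), mul_zero]
    · intro h
      exact absurd (Finset.mem_univ _) h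
  rw [h]
  exact Submodule.sum_mem _ fun w0 _ => Submodule.sum_mem _ fun d _ => mono_mem D w0 d _

/-! ### The average -/

theorem integrable (H : HM D) {E : Type} [NormedAddCommGroup E] {f : H.K → E}
    (hf : Continuous f) : Integrable f H.μ :=
  hf.integrable_of_hasCompactSupport (HasCompactSupport.of_compactSpace f)

omit [Fintype I] [DecidableEq I] [DecidableEq Λ] [Fintype ι] in
theorem prodT_cont (l : List ι) : Continuous fun s : Tup I len => prodT s l := by
  induction l with
  | nil => exact continuous_const
  | cons i l ih =>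
    refine continuous_pi fun w => ?_
    change Continuous fun s : Tup I len => s i (fun j => w (Fin.castAdd _ j)) *
      prodT s l (fun j => w (Fin.natAdd (len i) j))
    refine Continuous.mul ?_ ?_
    · exact (continuous_apply _).comp (continuous_apply i)
    · exact (continuous_apply _).comp ih

omit [Fintype ι] in
theorem dm_cont' (c : ℕ) (l : List ι) (m : Ten I ((l.map len).sum + c)) :
    Continuous fun s : Tup I len => dm D c l m s := by
  refine continuous_pi fun w => ?_
  change Continuous fun s : Tup I len => ∑ w' : Fin ((l.map len).sum) → I,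
    sg D w' * (prodT s l w' * m (Fin.append (D.τ ∘ w') w))
  refine continuous_finsetSum _ fun w' _ => ?_
  exact continuous_const.mul (((continuous_apply w').comp (prodT_cont l)).mul continuous_const)

omit [DecidableEq Λ] [Fintype ι] in
theorem prodT_gS (h2 : Alg2) (g : Matrix I I ℂ) (s : Tup I len) (l : List ι) :
    prodT (gS g s) l = gT g (prodT s l) := by
  induction l with
  | nil =>
    funext w
    change (1 : ℂ) = ∑ w' : Fin 0 → I, (∏ i : Fin 0, g (w i) (w' i)) * 1
    simp
  | cons i l ih =>
    change outer (gS g s i) (prodT (gS g s) l) = gT g (outer (s i) (prodT s l))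
    rw [ih, h2.outer_gT]
    rfl

/-- the averaging operator -/
def av (H : HM D) {c : ℕ} (P : Tup I len → Ten I c) : Tup I len → Ten I c :=
  fun s => ∫ k, gT (H.mat k) (P (gS (H.mat k⁻¹) s)) ∂H.μ

/-- the average of a tensor -/
def avT (H : HM D) {L : ℕ} (m : Ten I L) : Ten I L := ∫ k, gT (H.mat k) m ∂H.μ

/-- the action of a matrix as a linear map -/
def gL (h1 : Alg1) (g : Matrix I I ℂ) (L : ℕ) : Ten I L →L[ℂ] Ten I L :=
  LinearMap.toContinuousLinearMap
    { toFun := gT g
      map_add' := fun u v => h1.gT_add g u v
      map_smul' := fun c u => h1.gT_smul g c u }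

theorem gL_apply (h1 : Alg1) (g : Matrix I I ℂ) (L : ℕ) (u : Ten I L) :
    gL h1 g L u = gT g u := rfl

/-- the contraction as a linear map -/
def cL {p c : ℕ} (u : Ten I p) : Ten I (p + c) →L[ℂ] Ten I c :=
  LinearMap.toContinuousLinearMap
    { toFun := cont D u
      map_add' := fun m m' => by
        funext w
        simp only [cont, Pi.add_apply, mul_add, Finset.sum_add_distrib]
      map_smul' := fun a m => by
        funext w
        simp only [cont, Pi.smul_apply, smul_eq_mul, RingHom.id_apply, Finset.mul_sum]
        refine Finset.sum_congr rfl fun w' _ => ?_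
        ring }

theorem cL_apply {p c : ℕ} (u : Ten I p) (m : Ten I (p + c)) : cL D u m = cont D u m := rfl

theorem cont_gT_k (h1 : Alg1) (H : HM D) {L : ℕ} (m : Ten I L) :
    Continuous fun k => gT (H.mat k) m :=
  h1.gT_cont.comp (H.cont_mat.prodMk continuous_const)

theorem avT_inv (h1 : Alg1) (H : HM D) {L : ℕ} (m : Ten I L) (g : Matrix I I ℂ)
    (hg : IsK D g) : gT g (avT D H m) = avT D H m := by
  obtain ⟨h, rfl⟩ := H.surj g hg
  have e1 : gT (H.mat h) (avT D H m) = ∫ k, gT (H.mat (h * k)) m ∂H.μ := by
    rw [← gL_apply h1, avT, ← ContinuousLinearMap.integral_comp_comm _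
      (integrable D H (cont_gT_k D h1 H m))]
    refine integral_congr_ae (Eventually.of_forall fun k => ?_)
    simp only [gL_apply, map_mul]
    exact (h1.gT_mul _ _ _).symm
  rw [e1]
  exact integral_mul_left_eq_self (μ := H.μ) (fun k => gT (H.mat k) m) h

theorem avT_mem (hF : FftStatement) (h1 : Alg1) (H : HM D) {L : ℕ} (m : Ten I L) :
    avT D H m ∈ Submodule.span ℂ {m | IsMatch D L m} :=
  hF D L _ fun g hg => avT_inv D h1 H m g hg

omit [Fintype ι] in
theorem inv_mul_mat (H : HM D) (k : H.K) : H.mat k * H.mat k⁻¹ = 1 := by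
  rw [← map_mul, mul_inv_cancel, map_one]

omit [Fintype ι] in
theorem av_dm (hF : FftStatement) (h1 : Alg1) (h2 : Alg2) (H : HM D) {c : ℕ} (l : List ι)
    (m : Ten I ((l.map len).sum + c)) : av D H (dm (len := len) D c l m) ∈ DM D len c := by
  have e1 : av D H (dm (len := len) D c l m) = dm D c l (avT D H m) := by
    funext s
    unfold av
    have : ∀ k, gT (H.mat k) (dm D c l m (gS (H.mat k⁻¹) s)) =
        cL D (prodT s l) (gT (H.mat k) m) := by
      intro k
      unfold dm
      rw [h2.cont_gT D _ _ _ (H.mem k).1, prodT_gS h2, ← h1.gT_mul, inv_mul_mat, h1.gT_one,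
        cL_apply]
    simp only [this]
    rw [ContinuousLinearMap.integral_comp_comm _ (integrable D H (cont_gT_k D h1 H m))]
    rfl
  rw [e1]
  have : ∀ x ∈ Submodule.span ℂ {m | IsMatch D ((l.map len).sum + c) m},
      dm (len := len) D c l x ∈ DM D len c := by
    intro x hx
    induction hx using Submodule.span_induction with
    | mem x hx => exact Submodule.subset_span ⟨l, x, hx, rfl⟩
    | zero =>
      have : dm (len := len) D c l 0 = 0 := by
        funext s
        exact (cL D (prodT s l)).map_zero
      rw [this]
      exact Submodule.zero_mem _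
    | add x y _ _ hx hy =>
      have : dm (len := len) D c l (x + y) = dm D c l x + dm D c l y := by
        funext s
        exact (cL D (prodT s l)).map_add x y
      rw [this]
      exact Submodule.add_mem _ hx hy
    | smul a x _ hx =>
      have : dm (len := len) D c l (a • x) = a • dm D c l x := by
        funext s
        exact (cL D (prodT s l)).map_smul a x
      rw [this]
      exact Submodule.smul_mem _ _ hx
  exact this _ (avT_mem D hF h1 H m)

omit [Fintype ι] in
theorem gS_cont (h1 : Alg1) (H : HM D) (s : Tup I len) :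
    Continuous fun k => gS (H.mat k⁻¹) s := by
  refine continuous_pi fun i => ?_
  exact h1.gT_cont.comp ((H.cont_mat.comp continuous_inv).prodMk continuous_const)

omit [Fintype ι] in
theorem av_int (h1 : Alg1) (H : HM D) {c : ℕ} {P : Tup I len → Ten I c} (hP : Continuous P)
    (s : Tup I len) : Integrable (fun k => gT (H.mat k) (P (gS (H.mat k⁻¹) s))) H.μ :=
  integrable D H (h1.gT_cont.comp (H.cont_mat.prodMk (hP.comp (gS_cont D h1 H s))))

omit [Fintype ι] in
theorem av_mem (hF : FftStatement) (h1 : Alg1) (h2 : Alg2) (H : HM D) {c : ℕ}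
    (P : Tup I len → Ten I c) (hP : P ∈ Submodule.span ℂ (gen (len := len) D c)) :
    Continuous P ∧ av D H P ∈ DM D len c := by
  induction hP using Submodule.span_induction with
  | mem P hP =>
    obtain ⟨l, m, rfl⟩ := hP
    exact ⟨dm_cont' D c l m, av_dm D hF h1 h2 H l m⟩
  | zero =>
    refine ⟨continuous_const, ?_⟩
    have : av D H (0 : Tup I len → Ten I c) = 0 := by
      funext s
      unfold av
      have : ∀ k, gT (H.mat k) (0 : Ten I c) = 0 := by
        intro k
        exact (gL h1 (H.mat k) c).map_zero
      simp only [this, integral_zero, Pi.zero_apply]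
    rw [this]
    exact Submodule.zero_mem _
  | add P Q _ _ hP hQ =>
    refine ⟨hP.1.add hQ.1, ?_⟩
    have : av D H (P + Q) = av D H P + av D H Q := by
      funext s
      rw [Pi.add_apply]
      unfold av
      rw [← integral_add (av_int D h1 H hP.1 s) (av_int D h1 H hQ.1 s)]
      refine integral_congr_ae (Eventually.of_forall fun k => ?_)
      simp only [Pi.add_apply, h1.gT_add]
    rw [this]
    exact Submodule.add_mem _ hP.2 hQ.2
  | smul a P _ hP =>
    refine ⟨hP.1.const_smul a, ?_⟩
    have : av D H (a • P) = a • av D H P := by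
      funext s
      rw [Pi.smul_apply]
      unfold av
      rw [← integral_smul]
      refine integral_congr_ae (Eventually.of_forall fun k => ?_)
      simp only [Pi.smul_apply, h1.gT_smul]
    rw [this]
    exact Submodule.smul_mem _ _ hP.2

end AvgRow

end

/-- Row AVG. -/
theorem avg (hF : FftStatement) (h1 : Alg1) (h2 : Alg2) : AvgStatement := by
  intro I Λ ι _ _ _ _ len D H c P hP
  exact (AvgRow.av_mem D hF h1 h2 H P (AvgRow.poly_mem D P hP)).2

/-- Row EQP. -/
theorem eqp (h1 : Alg1) (hA : AvgStatement) : EqpStatement := by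
  intro I Λ ι _ _ _ _ len D H c P hP hE
  have h := hA H c P hP
  have e : (fun s => ∫ k, gT (H.mat k) (P (gS (H.mat k⁻¹) s)) ∂H.μ) = P := by
    funext s
    have : ∀ k, gT (H.mat k) (P (gS (H.mat k⁻¹) s)) = P s := by
      intro k
      rw [← hE _ _ (H.mem k)]
      congr 1
      funext i
      change gT (H.mat k) (gT (H.mat k⁻¹) (s i)) = s i
      rw [← h1.gT_mul, AvgRow.inv_mul_mat, h1.gT_one]
    simp only [this, integral_const, probReal_univ, one_smul]
  rw [e] at h
  exact h

end Pool.Agent.Lib.MP_361a6f_ag.FL
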