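import Pool.Agent.Lib.MP_361a6f_ag.FL.Defs

/-!
# Row BAS: adapted bases

A finite dimensional complex vector space with a nondegenerate symmetric (alternating) form has an
orthonormal (symplectic) basis in the coordinates of `Dat`.
-/

set_option linter.unusedSectionVars false

namespace Pool.Agent.Lib.MP_361a6f_ag.FL

noncomputable section

universe w

variable {V : Type w} [AddCommGroup V] [Module ℂ V]

/-- adapted families; `o` = the form is alternating -/
structure Adp (o : Prop) (B : V →ₗ[ℂ] V →ₗ[ℂ] ℂ) {ι : Type} [DecidableEq ι] (v : ι → V)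
    (τ : ι → ι) (s : ι → ℂ) : Prop where
  τ_τ : ∀ i, τ (τ i) = i
  s_val : ∀ i, s i = 1 ∨ s i = -1
  even_τ : ¬ o → ∀ i, τ i = i ∧ s i = 1
  odd_τ : o → ∀ i, τ i ≠ i ∧ s (τ i) = -s i
  gram : ∀ i j, B (v i) (v j) = if j = τ i then s i else 0

variable {o : Prop} {B : V →ₗ[ℂ] V →ₗ[ℂ] ℂ} {ι : Type} [DecidableEq ι] {v : ι → V}
  {τ : ι → ι} {s : ι → ℂ}

lemma Adp.s_sq (h : Adp o B v τ s) (i : ι) : s i * s i = 1 := by
  rcases h.s_val i with h1 | h1 <;> rw [h1] <;> norm_num

lemma Adp.linearIndependent [Fintype ι] (h : Adp o B v τ s) : LinearIndependent ℂ v := by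
  rw [Fintype.linearIndependent_iff]
  intro g hg i
  have h1 : B (∑ j, g j • v j) (v (τ i)) = g i * s i := by
    rw [map_sum, LinearMap.sum_apply, Finset.sum_eq_single i]
    · rw [map_smul, LinearMap.smul_apply, h.gram, if_pos rfl, smul_eq_mul]
    · intro j _ hj
      rw [map_smul, LinearMap.smul_apply, h.gram, if_neg, smul_zero]
      intro h2
      apply hj
      rw [← h.τ_τ j, ← h2, h.τ_τ]
    · intro h2; exact absurd (Finset.mem_univ _) h2
  rw [hg, map_zero, LinearMap.zero_apply] at h1
  have h2 := h.s_sq i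
  linear_combination (-g i) * h2 + (-s i) * h1

/-- projection to the complement -/
def prj (B : V →ₗ[ℂ] V →ₗ[ℂ] ℂ) [Fintype ι] (v : ι → V) (τ : ι → ι) (s : ι → ℂ) (z : V) : V :=
  z - ∑ i, (B z (v (τ i)) * s i) • v i

lemma Adp.prj_orth [Fintype ι] (h : Adp o B v τ s) (z : V) (j : ι) :
    B (prj B v τ s z) (v j) = 0 := by
  unfold prj
  rw [map_sub, LinearMap.sub_apply, map_sum, LinearMap.sum_apply, Finset.sum_eq_single (τ j)]
  · rw [map_smul, LinearMap.smul_apply, h.gram, h.τ_τ, if_pos rfl, smul_eq_mul]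
    linear_combination (-(B z (v j))) * h.s_sq (τ j)
  · intro i _ hi
    rw [map_smul, LinearMap.smul_apply, h.gram, if_neg, smul_zero]
    intro h2
    apply hi
    rw [h2, h.τ_τ]
  · intro h2; exact absurd (Finset.mem_univ _) h2

/-- sum of two orthogonal adapted families -/
lemma Adp.sum {κ : Type} [DecidableEq κ] {v' : κ → V} {τ' : κ → κ} {s' : κ → ℂ}
    (h : Adp o B v τ s) (h' : Adp o B v' τ' s') (h12 : ∀ i j, B (v i) (v' j) = 0)
    (h21 : ∀ i j, B (v' j) (v i) = 0) :
    Adp o B (Sum.elim v v') (Sum.map τ τ') (Sum.elim s s') where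
  τ_τ i := by rcases i with i | i <;> simp [h.τ_τ, h'.τ_τ]
  s_val i := by rcases i with i | i <;> simp [h.s_val, h'.s_val]
  even_τ ho i := by
    rcases i with i | i
    · simp [h.even_τ ho i]
    · simp [h'.even_τ ho i]
  odd_τ ho i := by
    rcases i with i | i
    · simp [h.odd_τ ho i]
    · simp [h'.odd_τ ho i]
  gram i j := by
    rcases i with i | i <;> rcases j with j | j
    · simp [h.gram]
    · simp [h12]
    · simp [h21]
    · simp [h'.gram]

variable (hs : ∀ x y, o → B x y = -B y x) (hs' : ∀ x y, ¬ o → B x y = B y x)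
  (hn : ∀ x, (∀ y, B x y = 0) → x = 0)

include hs hs' hn in
/-- an adapted family which does not span can be extended -/
lemma Adp.extend [Fintype ι] (h : Adp o B v τ s) (z : V) (hz : prj B v τ s z ≠ 0) :
    ∃ (κ : Type) (_ : DecidableEq κ) (_ : Fintype κ) (v' : κ → V) (τ' : κ → κ) (s' : κ → ℂ),
      Adp o B v' τ' s' ∧ Fintype.card ι < Fintype.card κ := by
  have hsw : ∀ x y, B x y = 0 → B y x = 0 := by
    intro x y hxy
    by_cases ho : o
    · rw [hs y x ho, hxy, neg_zero]
    · rw [hs' y x ho, hxy]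
  set x := prj B v τ s z with hx
  have hxo : ∀ j, B x (v j) = 0 := h.prj_orth z
  obtain ⟨y, hy⟩ : ∃ y, B x y ≠ 0 := by
    by_contra h1
    apply hz
    apply hn
    intro y
    by_contra h2
    exact h1 ⟨y, h2⟩
  set y' := prj B v τ s y with hy'
  have hyo : ∀ j, B y' (v j) = 0 := h.prj_orth y
  have hxy : B x y' = B x y := by
    rw [hy']
    unfold prj
    rw [map_sub, map_sum, Finset.sum_eq_zero, sub_zero]
    intro i _
    rw [map_smul, hxo, smul_zero]
  rw [← hxy] at hy
  by_cases ho : o
  · -- alternating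
    have ha : ∀ u, B u u = 0 := by
      intro u
      have := hs u u ho
      linear_combination (1 / 2 : ℂ) * this
    let y'' := (B x y')⁻¹ • y'
    have e1 : B x y'' = 1 := by
      show B x ((B x y')⁻¹ • y') = 1
      rw [map_smul, smul_eq_mul, inv_mul_cancel₀ hy]
    have e2 : B y'' x = -1 := by rw [hs _ _ ho, e1]
    have hyo' : ∀ j, B y'' (v j) = 0 := by
      intro j
      show B ((B x y')⁻¹ • y') (v j) = 0
      rw [map_smul, LinearMap.smul_apply, hyo, smul_zero]
    let v' : Bool → V := fun b => if b then y'' else x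
    have hv' : ∀ b j, B (v' b) (v j) = 0 := by
      intro b j
      cases b
      · exact hxo j
      · exact hyo' j
    have hA : Adp o B v' (fun b => !b) (fun b => if b then -1 else 1) :=
      { τ_τ := fun b => by simp
        s_val := fun b => by cases b <;> simp
        even_τ := fun h1 => absurd ho h1
        odd_τ := fun _ b => by cases b <;> simp
        gram := fun b b' => by
          cases b <;> cases b'
          · simpa [v'] using ha x
          · simpa [v'] using e1
          · simpa [v'] using e2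
          · simpa [v'] using ha y'' }
    refine ⟨ι ⊕ Bool, inferInstance, inferInstance, _, _, _,
      h.sum hA (fun i j => hsw _ _ (hv' j i)) (fun i j => hv' j i), ?_⟩
    rw [Fintype.card_sum, Fintype.card_bool]
    omega
  · -- symmetric
    obtain ⟨u, hu, huo⟩ : ∃ u, B u u ≠ 0 ∧ ∀ j, B u (v j) = 0 := by
      by_contra h1
      have h2 : ∀ u, (∀ j, B u (v j) = 0) → B u u = 0 := by
        intro u hu
        by_contra h3
        exact h1 ⟨u, h3, hu⟩
      have h3 := h2 x hxo
      have h4 := h2 y' hyo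
      have h5 := h2 (x + y') (fun j => by rw [map_add, LinearMap.add_apply, hxo, hyo, add_zero])
      rw [map_add, map_add, LinearMap.add_apply, LinearMap.add_apply, h3, h4,
        hs' y' x ho] at h5
      apply hy
      linear_combination (1 / 2 : ℂ) * h5
    obtain ⟨r, hr⟩ := IsAlgClosed.exists_pow_nat_eq (B u u) (n := 2) (by norm_num)
    have hr0 : r ≠ 0 := by
      rintro rfl
      apply hu
      rw [← hr]; norm_num
    let v' : Unit → V := fun _ => r⁻¹ • u
    have hv' : ∀ b j, B (v' b) (v j) = 0 := by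
      intro b j
      show B (r⁻¹ • u) (v j) = 0
      rw [map_smul, LinearMap.smul_apply, huo, smul_zero]
    have hA : Adp o B v' (fun b => b) (fun _ => 1) :=
      { τ_τ := fun b => rfl
        s_val := fun b => Or.inl rfl
        even_τ := fun _ _ => ⟨rfl, rfl⟩
        odd_τ := fun h1 => absurd h1 ho
        gram := fun b b' => by
          rw [if_pos rfl]
          show B (r⁻¹ • u) (r⁻¹ • u) = 1
          rw [map_smul, map_smul, LinearMap.smul_apply, smul_eq_mul, smul_eq_mul, ← hr]
          field_simp }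
    refine ⟨ι ⊕ Unit, inferInstance, inferInstance, _, _, _,
      h.sum hA (fun i j => hsw _ _ (hv' j i)) (fun i j => hv' j i), ?_⟩
    rw [Fintype.card_sum, Fintype.card_unit]
    omega

include hs hs' hn in
/-- existence of an adapted basis -/
theorem exists_adapted [FiniteDimensional ℂ V] :
    ∃ (n : ℕ) (b : Module.Basis (Fin n) ℂ V) (τ : Fin n → Fin n) (s : Fin n → ℂ),
      Adp o B b τ s := by
  have key : ∀ (d : ℕ) (ι : Type) [DecidableEq ι] [Fintype ι] (v : ι → V) (τ : ι → ι)
      (s : ι → ℂ), Adp o B v τ s → Module.finrank ℂ V - Fintype.card ι = d →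
      ∃ (κ : Type) (_ : DecidableEq κ) (_ : Fintype κ) (v' : κ → V) (τ' : κ → κ) (s' : κ → ℂ),
      Adp o B v' τ' s' ∧ ∀ z, prj B v' τ' s' z = 0 := by
    intro d
    induction d using Nat.strong_induction_on with
    | _ d ih =>
      intro ι _ _ v τ s h hd
      by_cases h1 : ∀ z, prj B v τ s z = 0
      · exact ⟨ι, inferInstance, inferInstance, v, τ, s, h, h1⟩
      · obtain ⟨z, hz⟩ := not_forall.1 h1
        obtain ⟨κ, iκ, fκ, v', τ', s', h', hc⟩ := h.extend hs hs' hn z hz
        have h2 : Fintype.card κ ≤ Module.finrank ℂ V :=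
          h'.linearIndependent.fintype_card_le_finrank
        exact ih (Module.finrank ℂ V - Fintype.card κ) (by omega) κ v' τ' s' h' rfl
  have h0 : Adp o B (fun i : Empty => (i.elim : V)) (fun i => i) (fun i => i.elim) :=
    { τ_τ := fun i => i.elim
      s_val := fun i => i.elim
      even_τ := fun _ i => i.elim
      odd_τ := fun _ i => i.elim
      gram := fun i => i.elim }
  obtain ⟨κ, iκ, fκ, v, τ, s, h, hp⟩ := key _ Empty _ _ _ h0 rfl
  have hsp : ⊤ ≤ Submodule.span ℂ (Set.range v) := by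
    intro z _
    have h1 := hp z
    unfold prj at h1
    rw [sub_eq_zero] at h1
    rw [h1]
    exact Submodule.sum_mem _ fun i _ => Submodule.smul_mem _ _ (Submodule.subset_span ⟨i, rfl⟩)
  let b := Module.Basis.mk h.linearIndependent hsp
  let e : κ ≃ Fin (Fintype.card κ) := Fintype.equivFin κ
  refine ⟨Fintype.card κ, b.reindex e, fun i => e (τ (e.symm i)), fun i => s (e.symm i), ?_⟩
  exact
    { τ_τ := fun i => by simp [h.τ_τ]
      s_val := fun i => h.s_val _
      even_τ := fun ho i => by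
        have := h.even_τ ho (e.symm i)
        exact ⟨by rw [this.1]; simp, this.2⟩
      odd_τ := fun ho i => by
        have := h.odd_τ ho (e.symm i)
        refine ⟨fun h1 => this.1 ?_, ?_⟩
        · apply e.injective
          rw [h1]; simp
        · simpa using this.2
      gram := fun i j => by
        have h1 : ∀ i, (b.reindex e) i = v (e.symm i) := by
          intro i
          rw [Module.Basis.reindex_apply, Module.Basis.mk_apply]
        rw [h1, h1, h.gram]
        refine if_congr ?_ rfl rfl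
        rw [Equiv.symm_apply_eq] }

end

/-- Row BAS: a finite family of spaces with nondegenerate (anti)symmetric forms has coordinates
`Dat` on the disjoint union of the index sets of bases. -/
theorem exists_dat.{w} {Λ : Type} (V : Λ → Type w) [∀ α, AddCommGroup (V α)] [∀ α, Module ℂ (V α)]
    [∀ α, FiniteDimensional ℂ (V α)] (o : Λ → Prop) (B : ∀ α, V α →ₗ[ℂ] V α →ₗ[ℂ] ℂ)
    (hs : ∀ α x y, o α → B α x y = -B α y x) (hs' : ∀ α x y, ¬ o α → B α x y = B α y x)
    (hn : ∀ α x, (∀ y, B α x y = 0) → x = 0) :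
    ∃ (n : Λ → ℕ) (b : ∀ α, Module.Basis (Fin (n α)) ℂ (V α)) (t : ∀ α, Fin (n α) → Fin (n α))
      (D : Dat (Σ α, Fin (n α)) Λ), (∀ i, D.typ i = i.1) ∧ D.odd = o ∧
      (∀ i, D.τ i = ⟨i.1, t i.1 i.2⟩) ∧
      ∀ α i j, B α (b α i) (b α j) = if j = t α i then D.s ⟨α, i⟩ else 0 := by
  choose n b t s h using fun α => exists_adapted (hs α) (hs' α) (hn α)
  refine ⟨n, b, t, ⟨fun i => i.1, o, fun i => ⟨i.1, t i.1 i.2⟩, fun i => s i.1 i.2, ?_, ?_, ?_, ?_,
    ?_⟩, fun _ => rfl, rfl, fun _ => rfl, fun α i j => (h α).gram i j⟩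
  · rintro ⟨α, i⟩
    show (⟨α, t α (t α i)⟩ : Σ α, Fin (n α)) = ⟨α, i⟩
    rw [(h α).τ_τ]
  · intro i; rfl
  · intro i; exact (h i.1).s_val i.2
  · rintro ⟨α, i⟩ ho
    have := (h α).even_τ ho i
    refine ⟨?_, this.2⟩
    show (⟨α, t α i⟩ : Σ α, Fin (n α)) = ⟨α, i⟩
    rw [this.1]
  · rintro ⟨α, i⟩ ho
    have := (h α).odd_τ ho i
    refine ⟨?_, this.2⟩
    show (⟨α, t α i⟩ : Σ α, Fin (n α)) ≠ ⟨α, i⟩
    intro h1
    apply this.1
    simpa using h1

end Pool.Agent.Lib.MP_361a6f_ag.FL
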