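import Pool.Agent.Lib.MP_361a6f_ag.FL.GeoDefs
import Pool.Agent.Lib.MP_361a6f_ag.FL.Bas
import Pool.Agent.Lib.MP_361a6f_ag.PP.Blk1
import Pool.Agent.Lib.MP_361a6f_ag.PP.LAM
import Pool.Agent.Lib.MP_361a6f_ag.PP.StaB

/-!
# Row GB: adapted bases of the cohomology of the factors
-/

open CategoryTheory AlgebraicGeometry MonoidalCategory CartesianMonoidalCategory

universe u v w

set_option linter.unusedSectionVars false

namespace Pool.Agent.Lib.MP_361a6f_ag.FL

open Pool.Agent.Lib.MP_361a6f_ag.H3 Pool.Agent.Lib.MP_361a6f_ag.SQ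
  Pool.Agent.Lib.MP_361a6f_ag.IP2 Pool.Agent.Lib.MP_361a6f_ag.PP

namespace GB

variable {k : Type u} [Field k] {W : CohomologyData.{u, 0, w} k ℂ} {𝒱 : VarietyClass k}

section one

variable (hW : IsWeilCohomology W 𝒱) (hSta : StaStatement.{w}) {X : Sch k} {n : ℕ}
  (hX : 𝒱.mem X n) {ξ : W.coh X} (hξ : ξ ∈ W.alg X 1) {Lam : Module.End ℂ (W.coh X)}
  (D : LamData W X n ξ Lam)

include hW hSta hX hξ D in
/-- different degrees are orthogonal -/
theorem psi_gr_ne {i j : ℕ} {x y : W.coh X} (hx : x ∈ W.gr X i) (hy : y ∈ W.gr X j)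
    (hij : i ≠ j) : psi W X ξ Lam D.slm.internal x y = 0 := by
  by_cases hj : j ≤ 2 * n
  · have h1 := (hSta D.slm).1 j y hj hy
    exact hW.tr_gr hX (hW.mul_gr hX hx h1) (by omega)
  · rw [D.slm.top j y hy (by omega), psi, map_zero, mul_zero, map_zero]

include hW hSta hX hξ D in
/-- the symmetry of the form in the degree `i` -/
theorem psi_symm_gr {i : ℕ} {x : W.coh X} (y : W.coh X) (hx : x ∈ W.gr X i) :
    psi W X ξ Lam D.slm.internal y x = (-1 : ℂ) ^ i * psi W X ξ Lam D.slm.internal x y := by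
  rw [BLK.psi_symm hW hSta hX hξ D, epsOp, gop_apply _ _ hx, psi, psi, smul_mul_assoc, map_smul,
    smul_eq_mul]

/-- the form on the degree `i` -/
noncomputable def psiG (D : LamData W X n ξ Lam) (i : ℕ) : W.gr X i →ₗ[ℂ] W.gr X i →ₗ[ℂ] ℂ :=
  LinearMap.mk₂ ℂ (fun x y => psi W X ξ Lam D.slm.internal (x : W.coh X) (y : W.coh X))
    (fun x x' y => by rw [psi, psi, psi, Submodule.coe_add, add_mul, map_add])
    (fun c x y => by rw [psi, psi, Submodule.coe_smul, smul_mul_assoc, map_smul])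
    (fun x y y' => by rw [psi, psi, psi, Submodule.coe_add, map_add, mul_add, map_add])
    (fun c x y => by rw [psi, psi, Submodule.coe_smul, map_smul, mul_smul_comm, map_smul])

theorem psiG_apply (D : LamData W X n ξ Lam) (i : ℕ) (x y : W.gr X i) :
    psiG D i x y = psi W X ξ Lam D.slm.internal (x : W.coh X) (y : W.coh X) := rfl

include hW hSta hX hξ in
theorem psiG_nondeg (i : ℕ) (x : W.gr X i) (h : ∀ y, psiG D i x y = 0) : x = 0 := by
  apply Subtype.ext
  refine BLK.psi_nondeg hW hSta hX hξ D (x : W.coh X) (fun y => ?_)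
  refine hW.hom_induction hX (P := fun y => psi W X ξ Lam D.slm.internal y (x : W.coh X) = 0) y
    ?_ ?_ ?_
  · intro j y hy
    by_cases hij : j = i
    · subst hij
      rw [psi_symm_gr hW hSta hX hξ D y x.2]
      have := h ⟨y, hy⟩
      rw [psiG_apply] at this
      rw [this, mul_zero]
    · exact psi_gr_ne hW hSta hX hξ D hy x.2 hij
  · rw [psi, zero_mul, map_zero]
  · intro a b ha hb
    rw [psi] at ha hb ⊢
    rw [add_mul, map_add, ha, hb, add_zero]

end one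

/-- the class of `H(X_a)` that belongs to a homogeneous class of `H(X_b)`, zero if `b ≠ a` -/
noncomputable def ins {m : ℕ} (X : Fin m → Sch k) (a b : Fin m) (x : W.coh (X b)) : W.coh (X a) :=
  if h : b = a then h ▸ x else 0

theorem ins_self {m : ℕ} (X : Fin m → Sch k) (a : Fin m) (x : W.coh (X a)) :
    ins X a a x = x := by rw [ins, dif_pos rfl]

theorem ins_ne {m : ℕ} (X : Fin m → Sch k) {a b : Fin m} (h : b ≠ a) (x : W.coh (X b)) :
    ins X a b x = 0 := by rw [ins, dif_neg h]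

theorem exists_host (hSta : StaStatement.{w}) (hW : IsWeilCohomology W 𝒱) {m : ℕ}
    {X : Fin m → Sch k} {n : Fin m → ℕ} (hX : ∀ a, 𝒱.mem (X a) (n a)) {ξ : ∀ a, W.coh (X a)}
    (hξ : ∀ a, ξ a ∈ W.alg (X a) 1) (Lam : ∀ a, Module.End ℂ (W.coh (X a)))
    (D : ∀ a, LamData W (X a) (n a) (ξ a) (Lam a)) :
    ∃ H : Host W 𝒱 m, H.X = X ∧ H.n = n ∧ HEq H.ξ ξ := by
  classical
  have : ∀ a, Module.Finite ℂ (W.coh (X a)) := fun a => hW.graded.finite (hX a)
  let A : Type := Σ a : Fin m, Fin (2 * n a + 1)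
  obtain ⟨N, b, t, D0, h1, h2, h3, h4⟩ := exists_dat.{w} (Λ := A)
    (fun α => W.gr (X α.1) (α.2 : ℕ)) (fun α => Odd (α.2 : ℕ))
    (fun α => psiG (D α.1) (α.2 : ℕ))
    (by
      intro α x y hα
      rw [psiG_apply, psiG_apply, psi_symm_gr hW hSta (hX α.1) (hξ α.1) (D α.1) _ y.2,
        hα.neg_one_pow, neg_one_mul])
    (by
      intro α x y hα
      rw [psiG_apply, psiG_apply, psi_symm_gr hW hSta (hX α.1) (hξ α.1) (D α.1) _ y.2,
        (Nat.not_odd_iff_even.1 hα).neg_one_pow, one_mul])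
    (by
      intro α x hx
      exact psiG_nondeg hW hSta (hX α.1) (hξ α.1) (D α.1) (α.2 : ℕ) x hx)
  let D1 : Dat (Σ α : A, Fin (N α)) (Fin m × ℕ) :=
    { typ := fun i => (i.1.1, (i.1.2 : ℕ))
      odd := fun l => Odd l.2
      τ := D0.τ
      s := D0.s
      τ_τ := D0.τ_τ
      typ_τ := fun i => by rw [h3 i]
      s_val := D0.s_val
      even_τ := fun i hi => D0.even_τ i (by rw [h2, h1]; exact hi)
      odd_τ := fun i hi => D0.odd_τ i (by rw [h2, h1]; exact hi) }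
  let e : ∀ a, (Σ α : A, Fin (N α)) → W.coh (X a) := fun a i =>
    ins X a i.1.1 ((b i.1 i.2 : W.gr (X i.1.1) (i.1.2 : ℕ)) : W.coh (X i.1.1))
  have he : ∀ (a : Fin m) (i : Fin (2 * n a + 1)) (j : Fin (N ⟨a, i⟩)),
      e a ⟨⟨a, i⟩, j⟩ = ((b ⟨a, i⟩ j : W.gr (X a) (i : ℕ)) : W.coh (X a)) := fun a i j =>
    ins_self X a _
  refine ⟨{ hW := hW, X := X, n := n, mem := hX, ξ := ξ, ξ_alg := hξ, Lam := Lam, lam := D,
            I := Σ α : A, Fin (N α), D := D1, odd_iff := fun l => Iff.rfl, e := e,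
            e_ne := ?_, e_gr := ?_, e_psi := ?_, e_span := ?_ }, rfl, rfl, HEq.rfl⟩
  · intro a x hx
    exact ins_ne X hx _
  · rintro a ⟨⟨c, i⟩, j⟩
    by_cases hc : c = a
    · subst hc
      rw [he]
      exact (b ⟨c, i⟩ j).2
    · have : e a ⟨⟨c, i⟩, j⟩ = 0 := ins_ne X hc _
      rw [this]
      exact zero_mem _
  · rintro a ⟨⟨c, i⟩, j⟩ ⟨⟨c', i'⟩, j'⟩ hc hc'
    change c = a at hc
    change c' = a at hc'
    subst hc
    subst hc'
    rw [he, he]
    by_cases hi : i = i'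
    · subst hi
      have h5 := h4 ⟨c', i⟩ j j'
      rw [psiG_apply] at h5
      rw [h5]
      refine if_congr ?_ rfl rfl
      show j' = t ⟨c', i⟩ j ↔ (⟨⟨c', i⟩, j'⟩ : Σ α : A, Fin (N α)) = D0.τ ⟨⟨c', i⟩, j⟩
      rw [h3]
      constructor
      · intro h; rw [h]
      · intro h; simpa using h
    · have h5 : (i : ℕ) ≠ (i' : ℕ) := fun h => hi (Fin.ext h)
      rw [psi_gr_ne hW hSta (hX c') (hξ c') (D c') (b ⟨c', i⟩ j).2 (b ⟨c', i'⟩ j').2 h5, if_neg]
      show ¬ (⟨⟨c', i'⟩, j'⟩ : Σ α : A, Fin (N α)) = D0.τ ⟨⟨c', i⟩, j⟩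
      rw [h3]
      intro h
      apply hi
      have h6 := congrArg Sigma.fst h
      have h7 : (⟨c', i'⟩ : A) = ⟨c', i⟩ := h6
      simpa using h7.symm
  · intro a
    rw [eq_top_iff, ← (D a).slm.internal.submodule_iSup_eq_top, iSup_le_iff]
    intro i x hx
    by_cases hi : i < 2 * n a + 1
    · have h5 := (b ⟨a, ⟨i, hi⟩⟩).sum_repr ⟨x, hx⟩
      have h6 : x = ∑ j, (b ⟨a, ⟨i, hi⟩⟩).repr ⟨x, hx⟩ j •
          ((b ⟨a, ⟨i, hi⟩⟩ j : W.gr (X a) i) : W.coh (X a)) := by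
        have := congrArg (Subtype.val) h5
        rw [AddSubmonoidClass.coe_finsetSum] at this
        exact this.symm
      rw [h6]
      refine Submodule.sum_mem _ fun j _ => Submodule.smul_mem _ _ (Submodule.subset_span ?_)
      exact ⟨⟨⟨a, ⟨i, hi⟩⟩, j⟩, he a ⟨i, hi⟩ j⟩
    · rw [(D a).slm.top i x hx (by omega)]
      exact zero_mem _

end GB

/-- Row GB. -/
theorem gb : GbStatement.{u, w} := by
  intro k _ W 𝒱 hW m X n hX ξ hξ hHL hAL
  choose Lam D using fun a => lam hW (hX a) (hξ a) (hHL a) (hAL a)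
  exact GB.exists_host staB hW hX hξ Lam D

end Pool.Agent.Lib.MP_361a6f_ag.FL
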