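import Pool.Agent.Lib.MP_361a6f_ag.FL.GeoDefs

/-!
# Row GQ: positivity on everything that is generated
-/

open CategoryTheory AlgebraicGeometry MonoidalCategory CartesianMonoidalCategory

universe u v w

namespace Pool.Agent.Lib.MP_361a6f_ag.FL

open Pool.Agent.Lib.MP_361a6f_ag.H3 Pool.Agent.Lib.MP_361a6f_ag.SQ
  Pool.Agent.Lib.MP_361a6f_ag.PP

namespace GQ

variable {k : Type u} [Field k] {m : ℕ} {W : CohomologyData.{u, 0, w} k ℂ} {𝒱 : VarietyClass k}

/-- generated classes are sums of algebraic classes -/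
theorem gen_tot (H : Host W 𝒱 m) {N : ℕ} {P : Prd m} {z : W.coh (P.obj H.X)}
    (hz : Gen W H.X N P z) : z ∈ tot W (P.obj H.X) := by
  induction hz with
  | alg P l z _ hz => exact alg_le_tot H.hW _ _ hz
  | ext P Q z z' _ _ h h' =>
    have hp := 𝒱.prod (H.memP P) (H.memP Q)
    exact tot_mul H.hW hp (tot_pull H.hW hp (H.memP P) _ h) (tot_pull H.hW hp (H.memP Q) _ h')
  | cup P z z' _ _ _ h h' => exact tot_mul H.hW (H.memP P) h h'
  | pb P Q f z _ _ h => exact tot_pull H.hW (H.memP P) (H.memP Q) f h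
  | pf P Q f z _ _ h => exact tot_push H.hW (H.memP P) (H.memP Q) f h

/-- the classes `Σ c_i pr_i^* ξ_i` are algebraic -/
theorem pol_alg (H : Host W 𝒱 m) {P : Prd m} {η : W.coh (P.obj H.X)}
    (hη : IsPol W H.ξ P η) : η ∈ W.alg (P.obj H.X) 1 := by
  induction hη with
  | leaf a c _ => exact W.alg_smul _ (H.ξ_alg a)
  | prod P Q η θ _ _ h h' =>
    have hp := 𝒱.prod (H.memP P) (H.memP Q)
    exact add_mem (H.hW.pull_alg hp (H.memP P) _ h) (H.hW.pull_alg hp (H.memP Q) _ h')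

/-- antilinear maps that agree on exterior products agree -/
theorem ext_anti (hW : IsWeilCohomology W 𝒱) {Y X : Sch k} {d n : ℕ} (hY : 𝒱.mem Y d)
    (hX : 𝒱.mem X n) (j j' : W.coh (Y ⊗ X) →ₛₗ[starRingEnd ℂ] W.coh (Y ⊗ X))
    (h : ∀ y x, j (W.pull (fst Y X) y * W.pull (snd Y X) x)
      = j' (W.pull (fst Y X) y * W.pull (snd Y X) x)) : j = j' := by
  refine LinearMap.ext fun z => ?_
  have hz : z ∈ Submodule.span ℂ {z | ∃ (y : W.coh Y) (x : W.coh X), z = W.ext y x} := by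
    rw [hW.kunneth.span hY hX]
    exact Submodule.mem_top
  induction hz using Submodule.span_induction with
  | mem z hz =>
    obtain ⟨y, x, rfl⟩ := hz
    exact h y x
  | zero => rw [map_zero, map_zero]
  | add a b _ _ ha hb => rw [map_add, map_add, ha, hb]
  | smul c a _ ha => rw [LinearMap.map_smulₛₗ, LinearMap.map_smulₛₗ, ha]

/-- the real structures for all polarisations -/
theorem pol_rs (hRsp : RspStatement.{u, w}) (hRsc : RscStatement.{u, w}) (H : Host W 𝒱 m)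
    {N : ℕ} {g : Matrix H.I H.I ℂ}
    {J : ∀ P : Prd m, W.coh (P.obj H.X) →ₛₗ[starRingEnd ℂ] W.coh (P.obj H.X)}
    (hJ : H.JFacts N g J) {P : Prd m} {η : W.coh (P.obj H.X)} (hη : IsPol W H.ξ P η) :
    ∃ L : Module.End ℂ (W.coh (P.obj H.X)), IsRS W (P.obj H.X) (P.dim H.n) η L (J P) := by
  induction hη with
  | leaf a c hc =>
    have h1 := hRsc H.hW (H.memP (.leaf a)) ((c : ℚ) : ℝ) (by exact_mod_cast hc)
      (hJ.rs (.leaf a))
    have e1 : ((((c : ℚ) : ℝ)) : ℂ) = ((c : ℚ) : ℂ) := by push_cast; rfl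
    rw [e1] at h1
    exact ⟨_, h1⟩
  | prod P Q η θ hη hθ h h' =>
    obtain ⟨L, hL⟩ := h
    obtain ⟨L', hL'⟩ := h'
    obtain ⟨j, hj, hjp⟩ := hRsp H.hW (H.memP P) (H.memP Q)
      (H.hW.alg_gr (H.memP P) (j := 1) (pol_alg H hη))
      (H.hW.alg_gr (H.memP Q) (j := 1) (pol_alg H hθ)) hL hL'
    have e : j = J (.prod P Q) := by
      refine ext_anti H.hW (H.memP P) (H.memP Q) _ _ fun y x => ?_
      rw [hjp]
      exact (hJ.prod P Q y x).symm
    subst e
    exact ⟨_, hj⟩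

end GQ

open GQ in
/-- Row GQ. -/
theorem gq (hRsp : RspStatement.{u, w}) (hRsc : RscStatement.{u, w})
    (hRsq : RsqStatement.{u, w}) (hSpn : SpnStatement.{u, w}) : GqStatement.{u, w} := by
  intro k _ W 𝒱 m H N g J hJ hfx P η hη l hl x hx hxR hx1 hx0
  have hM := H.memP P
  have hηa := pol_alg H hη
  obtain ⟨L, hL⟩ := pol_rs hRsp hRsc H hJ hη
  have hjx : J P x = x := by
    refine hSpn H.hW hM (H.lamP P).2 (H.lamP P).1 (hJ.rs P) {z | Gen W H.X N P z}
      (fun z hz => gen_tot H hz) (fun z hz => hfx P z hz) x (alg_le_tot H.hW _ _ hx) hxR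
  obtain ⟨ρ, hρ, h⟩ := hRsq H.hW hM (H.hW.alg_gr hM (j := 1) hηa) hL l x hl
    (H.hW.alg_gr hM hx) hx1 hx0 hjx
  have h2 : η ^ (P.dim H.n - 2 * l) * (x * x) ∈ W.alg (P.obj H.X) (P.dim H.n) := by
    have h3 := H.hW.mul_alg hM (H.hW.pow_alg hM hηa (P.dim H.n - 2 * l))
      (H.hW.mul_alg hM hx hx)
    rwa [show P.dim H.n - 2 * l + (l + l) = P.dim H.n by omega] at h3
  obtain ⟨q, hq⟩ := H.hW.tr_alg hM h2
  refine ⟨(-1) ^ l * q, ?_, ?_⟩
  · rw [hq] at h
    have h4 : (((-1) ^ l * q : ℚ) : ℝ) = ρ := by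
      have : (((((-1) ^ l * q : ℚ) : ℝ)) : ℂ) = (ρ : ℂ) := by
        rw [← h]
        push_cast
        ring
      exact_mod_cast this
    have h5 : (0 : ℝ) < (((-1) ^ l * q : ℚ) : ℝ) := by rw [h4]; exact hρ
    exact_mod_cast h5
  · change (-1 : ℂ) ^ l * W.tr (P.obj H.X) (η ^ (P.dim H.n - 2 * l) * (x * x)) = _
    rw [hq]
    push_cast
    ring

end Pool.Agent.Lib.MP_361a6f_ag.FL
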