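import Pool.Agent.Lib.MP_361a6f_ag.FL.GMpre
import Pool.Agent.Lib.MP_361a6f_ag.FL.Stat

/-!
# Antilinear operators on all products: multiplicativity, coordinate morphisms, generated classes
-/

open CategoryTheory AlgebraicGeometry MonoidalCategory CartesianMonoidalCategory

universe u v w

set_option autoImplicit false
set_option linter.unusedSectionVars false

namespace Pool.Agent.Lib.MP_361a6f_ag.FL

open Pool.Agent.Lib.MP_361a6f_ag.H3 Pool.Agent.Lib.MP_361a6f_ag.SQ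
  Pool.Agent.Lib.MP_361a6f_ag.IP2 Pool.Agent.Lib.MP_361a6f_ag.PP

namespace GM

/-- a compatible system of antilinear operators on the cohomology of all products: they preserve
the degree, the unit and (up to conjugation) the trace form, they are surjective and compatible
with exterior products -/
structure JSys {k : Type u} [Field k] (W : CohomologyData.{u, 0, w} k ℂ) {m : ℕ}
    (X : Fin m → Sch k)
    (J : ∀ P : Prd m, W.coh (P.obj X) →ₛₗ[starRingEnd ℂ] W.coh (P.obj X)) : Prop where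
  gr : ∀ (P : Prd m) (i : ℕ) (x : W.coh (P.obj X)), x ∈ W.gr (P.obj X) i →
    J P x ∈ W.gr (P.obj X) i
  one : ∀ P : Prd m, J P 1 = 1
  tr : ∀ (P : Prd m) (x y : W.coh (P.obj X)),
    W.tr (P.obj X) (J P x * J P y) = starRingEnd ℂ (W.tr (P.obj X) (x * y))
  surj : ∀ P : Prd m, Function.Surjective (J P)
  prod : ∀ (P Q : Prd m) (y : W.coh (P.obj X)) (x : W.coh (Q.obj X)),
    J (.prod P Q) (W.pull (fst (P.obj X) (Q.obj X)) y * W.pull (snd (P.obj X) (Q.obj X)) x)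
      = W.pull (fst (P.obj X) (Q.obj X)) (J P y) * W.pull (snd (P.obj X) (Q.obj X)) (J Q x)

/-- Row GM: the compatible systems that fix the algebraic classes on the products of at most `N`
factors commute with the coordinate morphisms and fix the generated classes -/
def Statement : Prop :=
  ∀ {k : Type u} [Field k] {W : CohomologyData.{u, 0, w} k ℂ} {𝒱 : VarietyClass k}
    (_ : IsWeilCohomology W 𝒱) {m : ℕ} {X : Fin m → Sch k} {n : Fin m → ℕ}
    (_ : ∀ a, 𝒱.mem (X a) (n a))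
    {J : ∀ P : Prd m, W.coh (P.obj X) →ₛₗ[starRingEnd ℂ] W.coh (P.obj X)}
    (_ : JSys W X J) {N : ℕ}
    (_ : ∀ (P : Prd m) (l : ℕ) (z : W.coh (P.obj X)), P.size ≤ N → W.IsAlg (P.obj X) l z →
      J P z = z),
    (3 ≤ N → ∀ (P : Prd m) (x y : W.coh (P.obj X)), J P (x * y) = J P x * J P y) ∧
    (∀ (P Q : Prd m) (f : Sch.Mor (P.obj X) (Q.obj X)), CoordMor X N P Q f →
      (∀ z, J P (W.pb f z) = W.pb f (J Q z)) ∧ (∀ z, J Q (W.pf f z) = W.pf f (J P z))) ∧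
    (∀ (P : Prd m) (z : W.coh (P.obj X)), Gen W X N P z → J P z = z)

variable {k : Type u} [Field k] {W : CohomologyData.{u, 0, w} k ℂ} {𝒱 : VarietyClass k}
  {m : ℕ} {X : Fin m → Sch k} {n : Fin m → ℕ}
  {J : ∀ P : Prd m, W.coh (P.obj X) →ₛₗ[starRingEnd ℂ] W.coh (P.obj X)}

theorem mem_obj (hX : ∀ a, 𝒱.mem (X a) (n a)) (P : Prd m) : 𝒱.mem (P.obj X) (P.dim n) := by
  induction P with
  | leaf a => exact hX a
  | prod P Q hP hQ => exact 𝒱.prod hP hQ

/-- the cube of a factor -/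
def cube (a : Fin m) : Prd m := .prod (.prod (.leaf a) (.leaf a)) (.leaf a)

/-- multiplicativity on a factor from the class of the small diagonal of its cube -/
theorem mul_cube (hW : IsWeilCohomology W 𝒱) {L : Sch k} {d : ℕ} (h1 : 𝒱.mem L d)
    (j : W.coh L →ₛₗ[starRingEnd ℂ] W.coh L) (J₂ : W.coh (L ⊗ L) →ₛₗ[starRingEnd ℂ] W.coh (L ⊗ L))
    (J₃ : W.coh ((L ⊗ L) ⊗ L) →ₛₗ[starRingEnd ℂ] W.coh ((L ⊗ L) ⊗ L))
    (hjt : ∀ x y, W.tr L (j x * j y) = starRingEnd ℂ (W.tr L (x * y)))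
    (hjs : Function.Surjective j)
    (hJt : ∀ x y, W.tr ((L ⊗ L) ⊗ L) (J₃ x * J₃ y) = starRingEnd ℂ (W.tr ((L ⊗ L) ⊗ L) (x * y)))
    (h₂ : ∀ x y, J₂ (W.pull (fst L L) x * W.pull (snd L L) y)
      = W.pull (fst L L) (j x) * W.pull (snd L L) (j y))
    (h₃ : ∀ x y, J₃ (W.pull (fst (L ⊗ L) L) x * W.pull (snd (L ⊗ L) L) y)
      = W.pull (fst (L ⊗ L) L) (J₂ x) * W.pull (snd (L ⊗ L) L) (j y))
    (hfix : ∀ l, ∀ z ∈ W.alg ((L ⊗ L) ⊗ L) l, J₃ z = z) (x y : W.coh L) :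
    j (x * y) = j x * j y := by
  have h3 : 𝒱.mem ((L ⊗ L) ⊗ L) (d + d + d) := 𝒱.prod (𝒱.prod h1 h1) h1
  have hδ : J₃ (W.push (lift (lift (𝟙 L) (𝟙 L)) (𝟙 L)) 1)
      = W.push (lift (lift (𝟙 L) (𝟙 L)) (𝟙 L)) 1 := by
    refine hfix (2 * d) _ ?_
    refine hW.push_alg h1 h3 _ (hW.one_alg h1) ?_
    omega
  refine GMpre.mul_of_diag hW h1 h3 (lift (lift (𝟙 L) (𝟙 L)) (𝟙 L))
    (fst (L ⊗ L) L ≫ fst L L) (fst (L ⊗ L) L ≫ snd L L)
    (snd (L ⊗ L) L) ?_ ?_ ?_ j J₃ hjt hjs hJt ?_ hδ x y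
  · rw [← Category.assoc, lift_fst, lift_fst]
  · rw [← Category.assoc, lift_fst, lift_snd]
  · rw [lift_snd]
  · intro x y z
    have e : ∀ x y z : W.coh L, W.pull (fst (L ⊗ L) L ≫ fst L L) x
        * W.pull (fst (L ⊗ L) L ≫ snd L L) y * W.pull (snd (L ⊗ L) L) z
        = W.pull (fst (L ⊗ L) L) (W.pull (fst L L) x * W.pull (snd L L) y)
          * W.pull (snd (L ⊗ L) L) z := by
      intro x y z
      rw [W.pull_comp, W.pull_comp, map_mul (W.pull (fst (L ⊗ L) L))]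
    rw [e, e, h₃, h₂]

theorem mul_leaf (hW : IsWeilCohomology W 𝒱) (hX : ∀ a, 𝒱.mem (X a) (n a)) (hJ : JSys W X J)
    (hfix : ∀ (a : Fin m) (l : ℕ) (z : W.coh ((cube a).obj X)), W.IsAlg ((cube a).obj X) l z →
      J (cube a) z = z) (a : Fin m) : ∀ (x y : W.coh ((Prd.leaf a).obj X)),
    J (.leaf a) (x * y) = J (.leaf a) x * J (.leaf a) y :=
  mul_cube hW (L := (Prd.leaf a).obj X) (hX a) (J (.leaf a)) (J (.prod (.leaf a) (.leaf a)))
    (J (cube a)) (hJ.tr (.leaf a)) (hJ.surj (.leaf a)) (hJ.tr (cube a))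
    (hJ.prod (.leaf a) (.leaf a)) (hJ.prod (.prod (.leaf a) (.leaf a)) (.leaf a)) (hfix a)

theorem mul_all (hW : IsWeilCohomology W 𝒱) (hX : ∀ a, 𝒱.mem (X a) (n a)) (hJ : JSys W X J)
    (hfix : ∀ (a : Fin m) (l : ℕ) (z : W.coh ((cube a).obj X)), W.IsAlg ((cube a).obj X) l z →
      J (cube a) z = z) (P : Prd m) :
    ∀ (x y : W.coh (P.obj X)), J P (x * y) = J P x * J P y := by
  induction P with
  | leaf a => exact mul_leaf hW hX hJ hfix a
  | prod P Q hP hQ =>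
    exact GMpre.mul_prod hW (mem_obj hX P) (mem_obj hX Q) (J P) (J Q) (J (.prod P Q))
      (hJ.prod P Q) (hJ.gr P) (hJ.gr Q) hP hQ

/-- compatibility with a pull-back from a product, checked on exterior products -/
theorem comm_of_ext (hW : IsWeilCohomology W 𝒱) {Q A B : Sch k} {d e : ℕ} (hA : 𝒱.mem A d)
    (hB : 𝒱.mem B e) (J : W.coh (A ⊗ B) →ₛₗ[starRingEnd ℂ] W.coh (A ⊗ B))
    (JQ : W.coh Q →ₛₗ[starRingEnd ℂ] W.coh Q) (c : Q ⟶ A ⊗ B)
    (h : ∀ y x, JQ (W.pull c (W.pull (fst A B) y * W.pull (snd A B) x))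
      = W.pull c (J (W.pull (fst A B) y * W.pull (snd A B) x)))
    (z : W.coh (A ⊗ B)) : JQ (W.pull c z) = W.pull c (J z) := by
  have hz : z ∈ Submodule.span ℂ {z | ∃ (x : W.coh A) (y : W.coh B),
      z = W.pull (fst A B) x * W.pull (snd A B) y} := by
    rw [hW.kunneth_span hA hB]; trivial
  induction hz using Submodule.span_induction with
  | mem z hz =>
    obtain ⟨y, x, rfl⟩ := hz
    exact h y x
  | zero => simp only [map_zero]
  | add a b _ _ ha hb => rw [map_add, map_add, ha, hb, map_add, map_add]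
  | smul r a _ ha => rw [map_smul, map_smulₛₗ, ha, map_smulₛₗ, map_smul]

/-- the swap of the factors -/
theorem swap_comm (hW : IsWeilCohomology W 𝒱) {A B : Sch k} {d e : ℕ} (hA : 𝒱.mem A d)
    (hB : 𝒱.mem B e) (jA : W.coh A →ₛₗ[starRingEnd ℂ] W.coh A)
    (jB : W.coh B →ₛₗ[starRingEnd ℂ] W.coh B)
    (J : W.coh (A ⊗ B) →ₛₗ[starRingEnd ℂ] W.coh (A ⊗ B))
    (J' : W.coh (B ⊗ A) →ₛₗ[starRingEnd ℂ] W.coh (B ⊗ A))
    (hJ : ∀ y x, J (W.pull (fst A B) y * W.pull (snd A B) x)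
      = W.pull (fst A B) (jA y) * W.pull (snd A B) (jB x))
    (hJ' : ∀ y x, J' (W.pull (fst B A) y * W.pull (snd B A) x)
      = W.pull (fst B A) (jB y) * W.pull (snd B A) (jA x))
    (gA : ∀ i y, y ∈ W.gr A i → jA y ∈ W.gr A i) (gB : ∀ i x, x ∈ W.gr B i → jB x ∈ W.gr B i)
    (z : W.coh (B ⊗ A)) :
    J (W.pull (lift (snd A B) (fst A B)) z) = W.pull (lift (snd A B) (fst A B)) (J' z) := by
  have hAB := 𝒱.prod hA hB
  have e1 : ∀ (y : W.coh B) (x : W.coh A),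
      W.pull (lift (snd A B) (fst A B)) (W.pull (fst B A) y * W.pull (snd B A) x)
        = W.pull (snd A B) y * W.pull (fst A B) x := by
    intro y x
    rw [map_mul (W.pull (lift (snd A B) (fst A B))), ← W.pull_comp, ← W.pull_comp, lift_fst,
      lift_snd]
  refine comm_of_ext hW hB hA J' J _ (fun y x => ?_) z
  rw [hJ', e1, e1]
  refine hW.hom_induction hB (P := fun y => J (W.pull (snd A B) y * W.pull (fst A B) x)
    = W.pull (snd A B) (jB y) * W.pull (fst A B) (jA x)) y ?_ ?_ ?_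
  · intro i y hy
    refine hW.hom_induction hA (P := fun x => J (W.pull (snd A B) y * W.pull (fst A B) x)
      = W.pull (snd A B) (jB y) * W.pull (fst A B) (jA x)) x ?_ ?_ ?_
    · intro l x hx
      have e2 : ∀ (y : W.coh B) (x : W.coh A), y ∈ W.gr B i → x ∈ W.gr A l →
          W.pull (snd A B) y * W.pull (fst A B) x
            = ((-1 : ℂ) ^ (i * l)) • (W.pull (fst A B) x * W.pull (snd A B) y) :=
        fun y x hy hx => hW.comm_gr hAB (hW.pull_gr hAB hB _ hy) (hW.pull_gr hAB hA _ hx)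
      rw [e2 y x hy hx, map_smulₛₗ, hJ, e2 _ _ (gB i y hy) (gA l x hx)]
      congr 1
      rw [map_pow, map_neg, map_one]
    · simp only [map_zero, mul_zero]
    · intro a b ha hb
      rw [map_add, mul_add, map_add, ha, hb, map_add, map_add, mul_add]
  · simp only [map_zero, zero_mul]
  · intro a b ha hb
    rw [map_add, add_mul, map_add, ha, hb, map_add, map_add, add_mul]

/-- the associativity isomorphism -/
theorem assoc_comm (hW : IsWeilCohomology W 𝒱) {A B C : Sch k} {d e f : ℕ} (hA : 𝒱.mem A d)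
    (hB : 𝒱.mem B e) (hC : 𝒱.mem C f) (jA : W.coh A →ₛₗ[starRingEnd ℂ] W.coh A)
    (jB : W.coh B →ₛₗ[starRingEnd ℂ] W.coh B) (jC : W.coh C →ₛₗ[starRingEnd ℂ] W.coh C)
    (JAB : W.coh (A ⊗ B) →ₛₗ[starRingEnd ℂ] W.coh (A ⊗ B))
    (JBC : W.coh (B ⊗ C) →ₛₗ[starRingEnd ℂ] W.coh (B ⊗ C))
    (JL : W.coh ((A ⊗ B) ⊗ C) →ₛₗ[starRingEnd ℂ] W.coh ((A ⊗ B) ⊗ C))
    (JR : W.coh (A ⊗ (B ⊗ C)) →ₛₗ[starRingEnd ℂ] W.coh (A ⊗ (B ⊗ C)))
    (h1 : ∀ y x, JAB (W.pull (fst A B) y * W.pull (snd A B) x)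
      = W.pull (fst A B) (jA y) * W.pull (snd A B) (jB x))
    (h2 : ∀ y x, JBC (W.pull (fst B C) y * W.pull (snd B C) x)
      = W.pull (fst B C) (jB y) * W.pull (snd B C) (jC x))
    (h3 : ∀ y x, JL (W.pull (fst (A ⊗ B) C) y * W.pull (snd (A ⊗ B) C) x)
      = W.pull (fst (A ⊗ B) C) (JAB y) * W.pull (snd (A ⊗ B) C) (jC x))
    (h4 : ∀ y x, JR (W.pull (fst A (B ⊗ C)) y * W.pull (snd A (B ⊗ C)) x)
      = W.pull (fst A (B ⊗ C)) (jA y) * W.pull (snd A (B ⊗ C)) (JBC x))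
    (z : W.coh (A ⊗ (B ⊗ C))) :
    JL (W.pull (lift (fst (A ⊗ B) C ≫ fst A B) (lift (fst (A ⊗ B) C ≫ snd A B)
        (snd (A ⊗ B) C))) z)
      = W.pull (lift (fst (A ⊗ B) C ≫ fst A B) (lift (fst (A ⊗ B) C ≫ snd A B)
        (snd (A ⊗ B) C))) (JR z) := by
  set c : (A ⊗ B) ⊗ C ⟶ A ⊗ (B ⊗ C) := lift (fst (A ⊗ B) C ≫ fst A B)
    (lift (fst (A ⊗ B) C ≫ snd A B) (snd (A ⊗ B) C)) with hc
  have e0 : ∀ (x : W.coh A) (u : W.coh (B ⊗ C)),
      W.pull c (W.pull (fst A (B ⊗ C)) x * W.pull (snd A (B ⊗ C)) u)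
        = W.pull (fst (A ⊗ B) C) (W.pull (fst A B) x)
          * W.pull (lift (fst (A ⊗ B) C ≫ snd A B) (snd (A ⊗ B) C)) u := by
    intro x u
    rw [map_mul (W.pull c), ← W.pull_comp, ← W.pull_comp, hc, lift_fst, lift_snd, W.pull_comp]
  have e1 : ∀ (x : W.coh A) (y : W.coh B) (z : W.coh C),
      W.pull (fst (A ⊗ B) C) (W.pull (fst A B) x)
          * W.pull (lift (fst (A ⊗ B) C ≫ snd A B) (snd (A ⊗ B) C))
            (W.pull (fst B C) y * W.pull (snd B C) z)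
        = W.pull (fst (A ⊗ B) C) (W.pull (fst A B) x * W.pull (snd A B) y)
          * W.pull (snd (A ⊗ B) C) z := by
    intro x y z
    rw [map_mul (W.pull (lift (fst (A ⊗ B) C ≫ snd A B) (snd (A ⊗ B) C))),
      ← W.pull_comp _ (fst B C), ← W.pull_comp _ (snd B C), lift_fst, lift_snd,
      W.pull_comp _ (snd A B), map_mul (W.pull (fst (A ⊗ B) C)), mul_assoc]
  refine comm_of_ext hW hA (𝒱.prod hB hC) JR JL c (fun x u => ?_) z
  rw [h4, e0, e0]
  have hu : u ∈ Submodule.span ℂ {z | ∃ (x : W.coh B) (y : W.coh C),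
      z = W.pull (fst B C) x * W.pull (snd B C) y} := by
    rw [hW.kunneth_span hB hC]; trivial
  induction hu using Submodule.span_induction with
  | mem u hu =>
    obtain ⟨y, z, rfl⟩ := hu
    rw [h2, e1, e1, h3, h1]
  | zero => simp only [map_zero, mul_zero]
  | add a b _ _ ha hb => rw [map_add, mul_add, map_add, ha, hb, map_add, map_add, mul_add]
  | smul r a _ ha =>
    rw [map_smul, mul_smul_comm, map_smulₛₗ, ha, map_smulₛₗ, map_smul, mul_smul_comm]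

/-- products of morphisms -/
theorem prod_comm (hW : IsWeilCohomology W 𝒱) {A B A' B' : Sch k} {d e : ℕ} (hA : 𝒱.mem A' d)
    (hB : 𝒱.mem B' e) (jA : W.coh A →ₛₗ[starRingEnd ℂ] W.coh A)
    (jB : W.coh B →ₛₗ[starRingEnd ℂ] W.coh B) (jA' : W.coh A' →ₛₗ[starRingEnd ℂ] W.coh A')
    (jB' : W.coh B' →ₛₗ[starRingEnd ℂ] W.coh B')
    (J : W.coh (A ⊗ B) →ₛₗ[starRingEnd ℂ] W.coh (A ⊗ B))
    (J' : W.coh (A' ⊗ B') →ₛₗ[starRingEnd ℂ] W.coh (A' ⊗ B'))
    (hJ : ∀ y x, J (W.pull (fst A B) y * W.pull (snd A B) x)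
      = W.pull (fst A B) (jA y) * W.pull (snd A B) (jB x))
    (hJ' : ∀ y x, J' (W.pull (fst A' B') y * W.pull (snd A' B') x)
      = W.pull (fst A' B') (jA' y) * W.pull (snd A' B') (jB' x))
    (f : A ⟶ A') (g : B ⟶ B') (hf : ∀ z, jA (W.pull f z) = W.pull f (jA' z))
    (hg : ∀ z, jB (W.pull g z) = W.pull g (jB' z)) (z : W.coh (A' ⊗ B')) :
    J (W.pull (lift (fst A B ≫ f) (snd A B ≫ g)) z)
      = W.pull (lift (fst A B ≫ f) (snd A B ≫ g)) (J' z) := by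
  have e1 : ∀ (x : W.coh A') (y : W.coh B'),
      W.pull (lift (fst A B ≫ f) (snd A B ≫ g)) (W.pull (fst A' B') x * W.pull (snd A' B') y)
        = W.pull (fst A B) (W.pull f x) * W.pull (snd A B) (W.pull g y) := by
    intro x y
    rw [map_mul (W.pull (lift (fst A B ≫ f) (snd A B ≫ g))), ← W.pull_comp, ← W.pull_comp,
      lift_fst, lift_snd, W.pull_comp, W.pull_comp]
  refine comm_of_ext hW hA hB J' J _ (fun x y => ?_) z
  rw [hJ', e1, e1, hJ, hf, hg]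

theorem pull_coord (hW : IsWeilCohomology W 𝒱) (hX : ∀ a, 𝒱.mem (X a) (n a)) (hJ : JSys W X J)
    {N : ℕ} (hm : 3 ≤ N → ∀ (P : Prd m) (x y : W.coh (P.obj X)), J P (x * y) = J P x * J P y)
    (P Q : Prd m) (f : Sch.Mor (P.obj X) (Q.obj X)) (hf : CoordMor X N P Q f) :
    ∀ z, J P (W.pull f z) = W.pull f (J Q z) := by
  induction hf with
  | id P =>
    intro z
    rw [W.pull_id, W.pull_id]
  | comp P Q R f g _ _ hf hg =>
    intro z
    rw [W.pull_comp, W.pull_comp, hf, hg]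
  | pr₁ P Q =>
    intro z
    exact GMpre.fst_prod (J P) (J Q) (J (.prod P Q)) (hJ.prod P Q) z (hJ.one Q)
  | pr₂ P Q =>
    intro z
    exact GMpre.snd_prod (J P) (J Q) (J (.prod P Q)) (hJ.prod P Q) z (hJ.one P)
  | swap P Q =>
    exact swap_comm hW (mem_obj hX P) (mem_obj hX Q) (J P) (J Q) (J (.prod P Q)) (J (.prod Q P))
      (hJ.prod P Q) (hJ.prod Q P) (hJ.gr P) (hJ.gr Q)
  | assoc P Q R =>
    exact assoc_comm hW (mem_obj hX P) (mem_obj hX Q) (mem_obj hX R) (J P) (J Q) (J R)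
      (J (.prod P Q)) (J (.prod Q R)) (J (.prod (.prod P Q) R)) (J (.prod P (.prod Q R)))
      (hJ.prod P Q) (hJ.prod Q R) (hJ.prod (.prod P Q) R) (hJ.prod P (.prod Q R))
  | prod P P' Q Q' f g _ _ hf hg =>
    exact prod_comm hW (mem_obj hX P') (mem_obj hX Q') (J P) (J Q) (J P') (J Q')
      (J (.prod P Q)) (J (.prod P' Q')) (hJ.prod P Q) (hJ.prod P' Q') f g hf hg
  | diag P hN =>
    intro z
    refine GMpre.pull_comm hW (mem_obj hX P) (mem_obj hX P) (J P) (J P) (J (.prod P P)) (J P)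
      (hJ.prod P P) (hm hN P) (lift (𝟙 _) (𝟙 _)) ?_ ?_ z
    · intro y
      rw [lift_fst, W.pull_id, W.pull_id]
    · intro x
      rw [lift_snd, W.pull_id, W.pull_id]

/-- Row GM. -/
theorem main : Statement.{u, w} := by
  intro k _ W 𝒱 hW m X n hX J hJ N hfix
  have hm : 3 ≤ N → ∀ (P : Prd m) (x y : W.coh (P.obj X)), J P (x * y) = J P x * J P y :=
    fun hN => mul_all hW hX hJ (fun a l z hz => hfix (cube a) l z hN hz)
  have hpb := fun (P Q : Prd m) (f : Sch.Mor (P.obj X) (Q.obj X)) (hf : CoordMor X N P Q f) =>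
    pull_coord hW hX hJ hm P Q f hf
  have hpf := fun (P Q : Prd m) (f : Sch.Mor (P.obj X) (Q.obj X)) (hf : CoordMor X N P Q f) =>
    GMpre.push_comm hW (mem_obj hX P) (mem_obj hX Q) (J P) (J Q) (hJ.tr P) (hJ.tr Q) (hJ.surj Q) f
      (hpb P Q f hf)
  refine ⟨hm, fun P Q f hf => ⟨hpb P Q f hf, hpf P Q f hf⟩, fun P z hz => ?_⟩
  induction hz with
  | alg P l z hP hz => exact hfix P l z hP hz
  | ext P Q z z' _ _ h h' =>
    exact (hJ.prod P Q z z').trans (by rw [h, h'])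
  | pb P Q f z hf _ h =>
    exact (hpb P Q f hf z).trans (congrArg _ h)
  | pf P Q f z hf _ h =>
    exact (hpf P Q f hf z).trans (congrArg _ h)
  | cup P z z' hN _ _ h h' =>
    exact (hm hN P z z').trans (by rw [h, h'])

end GM

end Pool.Agent.Lib.MP_361a6f_ag.FL
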