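import Pool.Agent.Lib.MP_361a6f_ag.FL.AlgDefs
import Pool.Agent.Lib.MP_361a6f_ag.RR.Lap

/-!
# Rows L1 and L2
-/

open Filter Topology MeasureTheory

set_option autoImplicit false
set_option linter.unusedSectionVars false

namespace Pool.Agent.Lib.MP_361a6f_ag.FL

namespace L12

open Pool.Agent.Lib.MP_361a6f_ag.RR

section emb

variable {I Λ ι : Type} [Fintype I] [DecidableEq I] [DecidableEq Λ] [Fintype ι] {len : ι → ℕ}

/-- Tuples as vectors of a euclidean space. -/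
noncomputable def emb (s : Tup I len) : EuclideanSpace ℂ (Σ i, (Fin (len i) → I)) :=
  WithLp.toLp 2 fun x => s x.1 x.2

theorem emb_sub (s s' : Tup I len) : emb (s - s') = emb s - emb s' := by
  ext x
  simp [emb]

theorem emb_inj {s s' : Tup I len} (h : emb s = emb s') : s = s' := by
  funext i w
  have := congrArg (fun v : EuclideanSpace ℂ (Σ i, (Fin (len i) → I)) => v ⟨i, w⟩) h
  simpa [emb] using this

theorem hS_eq (s s' : Tup I len) : hS s s' = inner ℂ (emb s') (emb s) := by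
  rw [hS, PiLp.inner_apply, Fintype.sum_sigma]
  refine Finset.sum_congr rfl fun i _ => ?_
  rw [hT]
  refine Finset.sum_congr rfl fun w _ => ?_
  simp [emb]

theorem hS_self (s : Tup I len) : hS s s = ((‖emb s‖ ^ 2 : ℝ) : ℂ) := by
  rw [hS_eq, inner_self_eq_norm_sq_to_K]
  push_cast
  rfl

theorem dl_eq {D : Dat I Λ} (H : HM D) (s : Tup I len) (k : H.K) :
    dl H s k = ‖emb (gS (H.mat k) s) - emb s‖ := by
  rw [dl, hS_self, Complex.ofReal_re, emb_sub, Real.sqrt_sq (norm_nonneg _)]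

end emb

section main

variable {I Λ ι : Type} [Fintype I] [DecidableEq I] [DecidableEq Λ] [Fintype ι] {len : ι → ℕ}
  {D : Dat I Λ} (H : HM D) (a1 : Alg1)

include a1

theorem gS_mul (g h : Matrix I I ℂ) (s : Tup I len) : gS (g * h) s = gS g (gS h s) := by
  funext i
  exact a1.gT_mul g h (s i)

theorem gS_one (s : Tup I len) : gS (1 : Matrix I I ℂ) s = s := by
  funext i
  exact a1.gT_one (s i)

theorem gT_sub {L : ℕ} (g : Matrix I I ℂ) (u v : Ten I L) : gT g (u - v) = gT g u - gT g v := by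
  have h1 : u - v = u + (-1 : ℂ) • v := by
    rw [neg_one_smul]
    abel
  rw [h1, a1.gT_add, a1.gT_smul, neg_one_smul]
  abel

theorem gS_sub (g : Matrix I I ℂ) (s s' : Tup I len) : gS g (s - s') = gS g s - gS g s' := by
  funext i
  exact gT_sub a1 g (s i) (s' i)

theorem inv_gS (k : H.K) (s : Tup I len) : gS (H.mat k⁻¹) (gS (H.mat k) s) = s := by
  rw [← gS_mul a1, ← map_mul, inv_mul_cancel, map_one, gS_one a1]

theorem gS_inv (k : H.K) (s : Tup I len) : gS (H.mat k) (gS (H.mat k⁻¹) s) = s := by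
  rw [← gS_mul a1, ← map_mul, mul_inv_cancel, map_one, gS_one a1]

theorem hS_gS (k : H.K) (s s' : Tup I len) :
    hS (gS (H.mat k) s) (gS (H.mat k) s') = hS s s' := by
  unfold hS gS
  refine Finset.sum_congr rfl fun i _ => ?_
  rw [a1.hT_gT, ← a1.gT_mul, (H.mem k).2, a1.gT_one]

theorem norm_gS (k : H.K) (s : Tup I len) : ‖emb (gS (H.mat k) s)‖ = ‖emb s‖ := by
  have h := hS_gS H a1 k s s
  rw [hS_self, hS_self] at h
  have h2 : ‖emb (gS (H.mat k) s)‖ ^ 2 = ‖emb s‖ ^ 2 := by exact_mod_cast h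
  exact (pow_left_inj₀ (norm_nonneg _) (norm_nonneg _) two_ne_zero).mp h2

theorem dl_inv (s : Tup I len) (k : H.K) : dl H s k⁻¹ = dl H s k := by
  rw [dl_eq, dl_eq, ← emb_sub, ← emb_sub, ← norm_gS H a1 k, gS_sub a1, gS_inv H a1, emb_sub,
    emb_sub, norm_sub_rev]

theorem cont_gT {c : ℕ} (v : Ten I c) : Continuous fun k : H.K => gT (H.mat k) v :=
  a1.gT_cont.comp (H.cont_mat.prodMk continuous_const)

theorem cont_gS (s : Tup I len) : Continuous fun k : H.K => gS (H.mat k) s :=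
  continuous_pi fun i => cont_gT H a1 (s i)

omit a1 in
theorem cont_hS (s' : Tup I len) : Continuous fun s : Tup I len => hS s s' := by
  unfold hS hT
  fun_prop

/-- The function `ψ k = h(k⁻¹ s', s) / h(s, s)`. -/
noncomputable def ph (s' s : Tup I len) (k : H.K) : ℂ :=
  hS (gS (H.mat k⁻¹) s') s / ((‖emb s‖ ^ 2 : ℝ) : ℂ)

theorem ph_cont (s' s : Tup I len) : Continuous (ph H s' s) := by
  unfold ph
  exact ((cont_hS s).comp ((cont_gS H a1 s').comp continuous_inv)).div_const _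

theorem ph_le {s' s : Tup I len} (hs : ‖emb s‖ ≠ 0) (h : ‖emb s'‖ = ‖emb s‖) (k : H.K) :
    ‖ph H s' s k‖ ≤ 1 := by
  have hs0 : 0 < ‖emb s‖ ^ 2 := by positivity
  unfold ph
  rw [norm_div, Complex.norm_real, Real.norm_eq_abs, abs_of_pos hs0, div_le_one hs0, hS_eq]
  refine (norm_inner_le_norm _ _).trans ?_
  rw [norm_gS H a1, h, sq]

theorem one_sub_ph {s' s : Tup I len} (hs : ‖emb s‖ ≠ 0) (h : ‖emb s'‖ = ‖emb s‖) (k : H.K) :
    1 - (ph H s' s k).re = ‖emb (gS (H.mat k⁻¹) s') - emb s‖ ^ 2 / (2 * ‖emb s‖ ^ 2) := by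
  have hs0 : 0 < ‖emb s‖ ^ 2 := by positivity
  have h1 : ‖emb (gS (H.mat k⁻¹) s') - emb s‖ ^ 2 =
      ‖emb (gS (H.mat k⁻¹) s')‖ ^ 2 - 2 * (hS (gS (H.mat k⁻¹) s') s).re + ‖emb s‖ ^ 2 := by
    have h2 := @norm_sub_sq ℂ _ _ _ _ (emb (gS (H.mat k⁻¹) s')) (emb s)
    have h3 : (hS (gS (H.mat k⁻¹) s') s).re =
        RCLike.re (inner ℂ (emb (gS (H.mat k⁻¹) s')) (emb s)) := by
      rw [hS_eq]
      exact inner_re_symm (𝕜 := ℂ) _ _
    rw [h2, h3]
  rw [norm_gS H a1, h] at h1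
  unfold ph
  rw [Complex.div_ofReal_re, h1]
  field_simp
  ring

theorem ph_eq_one {s' s : Tup I len} (hs : ‖emb s‖ ≠ 0) (h : ‖emb s'‖ = ‖emb s‖) {k : H.K}
    (hk : ph H s' s k = 1) : gS (H.mat k) s = s' := by
  have h1 := one_sub_ph H a1 hs h k
  rw [hk, Complex.one_re, sub_self] at h1
  have hs0 : 0 < 2 * ‖emb s‖ ^ 2 := by positivity
  have h2 : ‖emb (gS (H.mat k⁻¹) s') - emb s‖ ^ 2 = 0 := by
    rcases div_eq_zero_iff.mp h1.symm with h3 | h3
    · exact h3
    · exact absurd h3 hs0.ne'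
  have h3 : gS (H.mat k⁻¹) s' = s := by
    apply emb_inj
    rw [← sub_eq_zero, ← norm_eq_zero]
    exact pow_eq_zero_iff two_ne_zero |>.mp h2
  rw [← h3, gS_inv H a1]

/-- The peak condition. -/
theorem peak (hvol : VolStatement) (hpha : PhaStatement) {s : Tup I len} (hmin : Minimal D s)
    (hs : ‖emb s‖ ≠ 0) : ∃ p : ℕ, Peak H.μ (ph H s s) p := by
  have hs0 : 0 < ‖emb s‖ ^ 2 := by positivity
  have hre : ∀ k, 1 - (ph H s s k).re = dl H s k ^ 2 / (2 * ‖emb s‖ ^ 2) := by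
    intro k
    rw [one_sub_ph H a1 hs rfl, ← dl_eq, dl_inv H a1]
  have hdl : ∀ k, 0 ≤ dl H s k := fun k => by
    rw [dl_eq]
    exact norm_nonneg _
  obtain ⟨c, m, hc, hv⟩ := hvol H s
  refine ⟨m, ph_cont H a1 s s, ph_le H a1 hs rfl, ?_, ?_⟩
  · intro e he
    obtain ⟨η, hη, h1⟩ := (hpha H s).1 hmin (e / 2) (by positivity)
    refine ⟨η ^ 2 / (2 * ‖emb s‖ ^ 2), by positivity, ?_⟩
    intro k hk
    rw [hre, div_lt_div_iff_of_pos_right (by positivity)] at hk
    have h2 : dl H s k < η := lt_of_pow_lt_pow_left₀ 2 hη.le hk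
    have h3 := h1 k⁻¹ (by rw [dl_inv H a1]; exact h2)
    rw [dl_inv H a1] at h3
    rw [hre]
    unfold ph
    rw [Complex.div_ofReal_im, abs_div, abs_of_pos hs0, div_le_iff₀ hs0]
    calc |(hS (gS (H.mat k⁻¹) s) s).im| ≤ e / 2 * dl H s k ^ 2 := h3
      _ = e * (dl H s k ^ 2 / (2 * ‖emb s‖ ^ 2)) * ‖emb s‖ ^ 2 := by
          field_simp
  · set κ := min 1 (2 * ‖emb s‖ ^ 2) with hκ
    have hκ0 : 0 < κ := by positivity
    have hκ1 : κ ≤ 1 := min_le_left _ _
    have hκ2 : κ ≤ 2 * ‖emb s‖ ^ 2 := min_le_right _ _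
    refine ⟨c * κ ^ m, by positivity, ?_⟩
    intro r hr hr1
    have h1 := hv (κ * r) (by positivity) (mul_le_one₀ hκ1 hr.le hr1)
    rw [mul_pow, ← mul_assoc] at h1
    refine h1.trans ?_
    rw [← measureReal_def]
    refine measureReal_mono ?_ 
    intro k hk
    have hk' : dl H s k < κ * r := hk
    show 1 - (ph H s s k).re < r
    rw [hre, div_lt_iff₀ (by positivity)]
    have h2 := hdl k
    calc dl H s k ^ 2 < (κ * r) ^ 2 := by gcongr
      _ = (κ * κ) * (r * r) := by ring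
      _ ≤ (1 * (2 * ‖emb s‖ ^ 2)) * (1 * r) := by gcongr
      _ = r * (2 * ‖emb s‖ ^ 2) := by ring

/-- The averages of the polynomial maps `s' ↦ h(s', s) ^ d v`. -/
theorem avg_mem (havg : AvgStatement) (s : Tup I len) {c : ℕ} (v : Ten I c) (d : ℕ) :
    (fun s' : Tup I len => ∫ k, gT (H.mat k) ((hS (gS (H.mat k⁻¹) s') s ^ d) • v) ∂H.μ) ∈
      DM D len c := by
  refine havg H c (fun s' => (hS s' s ^ d) • v) ?_
  refine ⟨fun w => (∑ i, ∑ w' : Fin (len i) → I, MvPolynomial.X ⟨i, w'⟩ *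
    MvPolynomial.C ((starRingEnd ℂ) (s i w'))) ^ d * MvPolynomial.C (v w), ?_⟩
  intro s' w
  simp [hS, hT]

omit a1 in
/-- Values of combinations of diagram maps. -/
theorem DM_val {c : ℕ} {f : Tup I len → Ten I c} (hf : f ∈ DM D len c) (s : Tup I len) :
    f s ∈ MT D s c := by
  unfold DM at hf
  induction hf using Submodule.span_induction with
  | mem x hx =>
    obtain ⟨l, m, hm, rfl⟩ := hx
    exact Submodule.subset_span ⟨l, m, hm, rfl⟩
  | zero => exact Submodule.zero_mem _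
  | add x y _ _ hx hy => exact Submodule.add_mem _ hx hy
  | smul a x _ hx => exact Submodule.smul_mem _ a hx

omit a1 in
theorem gT_zero_len (g : Matrix I I ℂ) (u : Ten I 0) : gT g u = u := by
  funext w
  rw [gT, Fintype.sum_eq_single w]
  · simp
  · intro w' hw'
    exact absurd (Subsingleton.elim w' w) hw'

end main

end L12

open L12 Pool.Agent.Lib.MP_361a6f_ag.RR in
/-- Row L1. -/
theorem l1 (a1 : Alg1) (hvol : VolStatement) (hpha : PhaStatement) (havg : AvgStatement) :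
    L1Statement := by
  intro I Λ ι _ _ _ _ len D H s s' hmin hs hss' hinv
  have hs1 : ‖emb s‖ ≠ 0 := by
    intro h0
    rw [hS_self, h0] at hs
    simp at hs
  have hn : ‖emb s'‖ = ‖emb s‖ := by
    rw [hS_self, hS_self] at hss'
    have h2 : ‖emb s'‖ ^ 2 = ‖emb s‖ ^ 2 := by exact_mod_cast hss'
    exact (pow_left_inj₀ (norm_nonneg _) (norm_nonneg _) two_ne_zero).mp h2
  obtain ⟨p, hp⟩ := peak H a1 hvol hpha hmin hs1
  obtain ⟨k, hk⟩ := hp.exists_eq_one (ψ := ph H s' s) (ph_cont H a1 s' s) (ph_le H a1 hs1 hn) (by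
    intro d
    have h1 := avg_mem H a1 havg s (fun _ => (1 : ℂ) : Ten I 0) d
    -- invariants agree
    have h2 : ∀ f ∈ DM D len 0, f s' = f s := by
      intro f hf
      unfold DM at hf
      induction hf using Submodule.span_induction with
      | mem x hx =>
        obtain ⟨l, m, hm, rfl⟩ := hx
        exact hinv l m hm
      | zero => rfl
      | add x y _ _ hx hy => rw [Pi.add_apply, Pi.add_apply, hx, hy]
      | smul a x _ hx => rw [Pi.smul_apply, Pi.smul_apply, hx]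
    have h3 := h2 _ h1
    simp only [gT_zero_len] at h3
    have h4 := congrArg (fun u : Ten I 0 => u Fin.elim0) h3
    have hc : ∀ s'' : Tup I len, (∫ k, (hS (gS (H.mat k⁻¹) s'') s ^ d) •
        ((fun _ => (1 : ℂ)) : Ten I 0) ∂H.μ) Fin.elim0 =
        ∫ k, hS (gS (H.mat k⁻¹) s'') s ^ d ∂H.μ := by
      intro s''
      rw [integral_smul_const]
      simp
    simp only [hc] at h4
    unfold ph
    simp only [div_pow, integral_div, h4])
  exact ⟨k, ph_eq_one H a1 hs1 hn hk⟩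

open L12 Pool.Agent.Lib.MP_361a6f_ag.RR in
/-- Row L2. -/
theorem l2 (a1 : Alg1) (hvol : VolStatement) (hpha : PhaStatement) (havg : AvgStatement) :
    L2Statement := by
  intro I Λ ι _ _ _ _ len D H s hmin hs c v hfix
  have hs1 : ‖emb s‖ ≠ 0 := by
    intro h0
    rw [hS_self, h0] at hs
    simp at hs
  obtain ⟨p, hp⟩ := peak H a1 hvol hpha hmin hs1
  have h1 := hp.mem_span (F := fun k => gT (H.mat k) v) (cont_gT H a1 v) (w := v) (by
    intro k hk
    exact hfix k (ph_eq_one H a1 hs1 rfl hk))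
  refine (Submodule.span_le.mpr ?_) h1
  rintro _ ⟨d, rfl⟩
  have h2 := DM_val (avg_mem H a1 havg s v d) s
  have h3 : (∫ k, ph H s s k ^ d • gT (H.mat k) v ∂H.μ) =
      ((((‖emb s‖ ^ 2 : ℝ) : ℂ)) ^ d)⁻¹ •
        ∫ k, gT (H.mat k) ((hS (gS (H.mat k⁻¹) s) s ^ d) • v) ∂H.μ := by
    rw [← integral_smul]
    congr 1
    funext k
    rw [a1.gT_smul, smul_smul]
    unfold ph
    rw [div_pow, div_eq_mul_inv, mul_comm]
  simp only [SetLike.mem_coe]
  rw [h3]
  exact Submodule.smul_mem _ _ h2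

end Pool.Agent.Lib.MP_361a6f_ag.FL
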