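import Mathlib
import Pool.Agent.Lib.MP_361a6f_ag.FL.AlgDefs

/-!
# Row MIN: a minimal point in the closure of the orbit

The closure of the orbit `G t` contains a vector `s` whose norm is minimal; then `|exp(z A) s|` is
minimal at `z = 0`, whence `hS (aS A s) s = 0`.
-/

set_option autoImplicit false
set_option linter.unusedSectionVars false

open Filter Topology

namespace Pool.Agent.Lib.MP_361a6f_ag.FL

namespace MinT

section expo

variable {I : Type} [Fintype I] [DecidableEq I]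

/-- the derivation `aT A` as a continuous linear map -/
noncomputable def aCL (h : Alg1) (A : Matrix I I ℂ) (L : ℕ) : Ten I L →L[ℂ] Ten I L :=
  LinearMap.toContinuousLinearMap
    { toFun := fun u => aT A u
      map_add' := fun u v => h.aT_add A u v
      map_smul' := fun c u => h.aT_smul A c u }

theorem aCL_apply (h : Alg1) (A : Matrix I I ℂ) (L : ℕ) (u : Ten I L) :
    aCL h A L u = aT A u := rfl

theorem aCL_pow (h : Alg1) (A : Matrix I I ℂ) (L : ℕ) (n : ℕ) (u : Ten I L) :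
    ((aCL h A L) ^ n) u = (aT A)^[n] u := by
  induction n generalizing u with
  | zero => rfl
  | succ n ih =>
    rw [pow_succ, Function.iterate_succ_apply, ← ih]
    rfl

theorem aCL_smul (h : Alg1) (c : ℂ) (A : Matrix I I ℂ) (L : ℕ) :
    aCL h (c • A) L = c • aCL h A L := by
  ext u w
  have := congrFun (h.smul_aT c A u) w
  simpa [aCL_apply] using this

theorem gT_exp_eq (h : Alg1) (A : Matrix I I ℂ) {L : ℕ} (u : Ten I L) :
    gT (NormedSpace.exp A) u = NormedSpace.exp (aCL h A L) u := by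
  have h1 := h.gT_exp A u
  have h2 := NormedSpace.exp_series_hasSum_exp' (𝕂 := ℂ) (aCL h A L)
  have h3 := (ContinuousLinearMap.apply ℂ (Ten I L) u).hasSum h2
  have h4 : (fun n : ℕ => (ContinuousLinearMap.apply ℂ (Ten I L) u)
      (((n.factorial : ℂ)⁻¹) • aCL h A L ^ n)) =
      fun n : ℕ => ((n.factorial : ℂ)⁻¹) • (aT A)^[n] u := by
    funext n
    rw [ContinuousLinearMap.apply_apply, ContinuousLinearMap.smul_apply, aCL_pow]
  rw [h4] at h3
  exact h1.unique h3

/-- the derivative of `τ ↦ exp(τ A) u` at `0` -/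
theorem hasDerivAt_gT_exp (h : Alg1) (A : Matrix I I ℂ) {L : ℕ} (u : Ten I L) (w : Fin L → I) :
    HasDerivAt (fun τ : ℝ => gT (NormedSpace.exp ((τ : ℂ) • A)) u w) (aT A u w) 0 := by
  have h1 : HasDerivAt (fun τ : ℝ => NormedSpace.exp (τ • aCL h A L)) (aCL h A L) 0 := by
    have h2 := hasDerivAt_exp_smul_const (𝕂 := ℝ) (𝔸 := Ten I L →L[ℂ] Ten I L) (aCL h A L) (0 : ℝ)
    simpa using h2
  let e : (Ten I L →L[ℂ] Ten I L) →L[ℝ] ℂ :=
    ((ContinuousLinearMap.proj (R := ℂ) (φ := fun _ : (Fin L → I) => ℂ) w).comp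
      (ContinuousLinearMap.apply ℂ (Ten I L) u)).restrictScalars ℝ
  have h4 : HasDerivAt (fun τ : ℝ => e (NormedSpace.exp (τ • aCL h A L))) (e (aCL h A L)) 0 :=
    e.hasFDerivAt.comp_hasDerivAt 0 h1
  have h5 : (fun τ : ℝ => gT (NormedSpace.exp ((τ : ℂ) • A)) u w) =
      fun τ : ℝ => e (NormedSpace.exp (τ • aCL h A L)) := by
    funext τ
    rw [gT_exp_eq h, aCL_smul]
    have h8 : ((τ : ℂ) • aCL h A L) = τ • aCL h A L := by
      ext x; simp
    rw [h8]
    rfl
  rw [h5]
  exact h4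

end expo

section row

variable {I Λ ι : Type} [Fintype I] [DecidableEq I] [DecidableEq Λ] [Fintype ι] {len : ι → ℕ}

/-- the square of the norm -/
noncomputable def nS (s : Tup I len) : ℝ := ∑ i, ∑ w, ‖s i w‖ ^ 2

theorem nS_nonneg (s : Tup I len) : 0 ≤ nS s :=
  Finset.sum_nonneg fun i _ => Finset.sum_nonneg fun w _ => by positivity

theorem continuous_nS : Continuous (nS : Tup I len → ℝ) := by
  unfold nS
  fun_prop

theorem sq_le_nS (s : Tup I len) (i : ι) (w : Fin (len i) → I) : ‖s i w‖ ^ 2 ≤ nS s := by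
  have h1 : ‖s i w‖ ^ 2 ≤ ∑ w, ‖s i w‖ ^ 2 :=
    Finset.single_le_sum (f := fun w => ‖s i w‖ ^ 2) (fun w _ => by positivity) (Finset.mem_univ w)
  have h2 : (∑ w, ‖s i w‖ ^ 2) ≤ nS s :=
    Finset.single_le_sum (f := fun i => ∑ w, ‖s i w‖ ^ 2)
      (fun i _ => Finset.sum_nonneg fun w _ => by positivity) (Finset.mem_univ i)
  exact h1.trans h2

theorem norm_le_of_nS (s : Tup I len) {R : ℝ} (hR : 0 ≤ R) (h : nS s ≤ R ^ 2) : ‖s‖ ≤ R := by
  rw [pi_norm_le_iff_of_nonneg hR]
  intro i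
  rw [pi_norm_le_iff_of_nonneg hR]
  intro w
  exact le_of_sq_le_sq ((sq_le_nS s i w).trans h) hR

theorem gS_mul (h : Alg1) (x y : Matrix I I ℂ) (s : Tup I len) : gS (x * y) s = gS x (gS y s) := by
  funext i
  exact h.gT_mul x y (s i)

theorem continuous_gS (h : Alg1) (x : Matrix I I ℂ) : Continuous fun s : Tup I len => gS x s := by
  refine continuous_pi fun i => ?_
  have h1 := h.gT_cont (I := I) (L := len i)
  exact h1.comp (continuous_const.prodMk (continuous_apply i))

/-- the derivative of the square of the norm -/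
theorem re_crit (h : Alg1) (A : Matrix I I ℂ) (s : Tup I len)
    (hm : ∀ τ : ℝ, nS s ≤ nS (gS (NormedSpace.exp ((τ : ℂ) • A)) s)) : (hS (aS A s) s).re = 0 := by
  have h1 : ∀ i (w : Fin (len i) → I),
      HasDerivAt (fun τ : ℝ => ‖gS (NormedSpace.exp ((τ : ℂ) • A)) s i w‖ ^ 2)
        (2 * ((starRingEnd ℂ) (s i w) * aT A (s i) w).re) 0 := by
    intro i w
    have h2 := (hasDerivAt_gT_exp h A (s i) w).norm_sq
    have h3 : gT (NormedSpace.exp (((0 : ℝ) : ℂ) • A)) (s i) w = s i w := by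
      simp [h.gT_one]
    rw [h3, Complex.inner, mul_comm (aT A (s i) w)] at h2
    exact h2
  have h4 : HasDerivAt (fun τ : ℝ => nS (gS (NormedSpace.exp ((τ : ℂ) • A)) s))
      (∑ i, ∑ w, 2 * ((starRingEnd ℂ) (s i w) * aT A (s i) w).re) 0 := by
    unfold nS
    refine HasDerivAt.fun_sum fun i _ => ?_
    exact HasDerivAt.fun_sum fun w _ => h1 i w
  have h6 : IsLocalMin (fun τ : ℝ => nS (gS (NormedSpace.exp ((τ : ℂ) • A)) s)) 0 := by
    refine Filter.Eventually.of_forall fun τ => ?_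
    have h7 := hm τ
    have h8 : gS (NormedSpace.exp (((0 : ℝ) : ℂ) • A)) s = s := by
      funext i
      show gT _ (s i) = s i
      simp [h.gT_one]
    simp only [h8]
    exact h7
  have h9 := h6.hasDerivAt_eq_zero h4
  have h10 : (hS (aS A s) s).re = ∑ i, ∑ w, ((starRingEnd ℂ) (s i w) * aT A (s i) w).re := by
    simp only [hS, hT, aS, Complex.re_sum]
    refine Finset.sum_congr rfl fun i _ => Finset.sum_congr rfl fun w _ => ?_
    rw [mul_comm]
  rw [h10]
  have h11 : (∑ i, ∑ w, 2 * ((starRingEnd ℂ) (s i w) * aT A (s i) w).re) =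
      2 * ∑ i, ∑ w, ((starRingEnd ℂ) (s i w) * aT A (s i) w).re := by
    simp only [Finset.mul_sum]
  rw [h11] at h9
  linarith

theorem hS_smul_left (c : ℂ) (u v : Tup I len) : hS (c • u) v = c * hS u v := by
  simp only [hS, hT, Finset.mul_sum]
  refine Finset.sum_congr rfl fun i _ => Finset.sum_congr rfl fun w _ => ?_
  simp [mul_assoc]

theorem aS_smul (h : Alg1) (c : ℂ) (A : Matrix I I ℂ) (s : Tup I len) :
    aS (c • A) s = c • aS A s := by
  funext i
  exact h.smul_aT c A (s i)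

/-- a vector of minimal norm in its orbit is a critical point -/
theorem minimal_of_le (h : Alg1) (D : Dat I Λ) (s : Tup I len)
    (hm : ∀ g, IsG D g → nS s ≤ nS (gS g s)) : Minimal D s := by
  intro A hA
  have h1 : (hS (aS A s) s).re = 0 :=
    re_crit h A s fun τ => hm _ (h.G_exp D _ (h.Lie_smul D _ _ hA))
  have h2 : (hS (aS (Complex.I • A) s) s).re = 0 := by
    refine re_crit h (Complex.I • A) s fun τ => hm _ (h.G_exp D _ ?_)
    exact h.Lie_smul D _ _ (h.Lie_smul D _ _ hA)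
  rw [aS_smul h, hS_smul_left] at h2
  refine Complex.ext h1 ?_
  simpa using h2

/-- Row MIN. -/
theorem main (h : Alg1) : MinStatement := by
  intro I Λ ι _ _ _ _ len D t
  let S : Set ℝ := {r | ∃ g, IsG D g ∧ nS (gS g t) = r}
  have hSne : S.Nonempty := ⟨_, 1, h.G_one D, rfl⟩
  have hSbd : BddBelow S := ⟨0, by rintro _ ⟨g, -, rfl⟩; exact nS_nonneg _⟩
  obtain ⟨u, -, hu, huS⟩ := exists_seq_tendsto_sInf hSne hSbd
  choose g hgG hgu using huS
  obtain ⟨R, hR⟩ := hu.bddAbove_range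
  have hb : ∀ j, gS (g j) t ∈ Metric.closedBall (0 : Tup I len) (|R| + 1) := by
    intro j
    rw [mem_closedBall_zero_iff]
    refine norm_le_of_nS _ (by positivity) ?_
    have h1 : u j ≤ R := hR ⟨j, rfl⟩
    rw [hgu j]
    have h2 := le_abs_self R
    have h3 := abs_nonneg R
    nlinarith
  obtain ⟨s, -, ψ, hψ, hlim⟩ := (isCompact_closedBall (0 : Tup I len) (|R| + 1)).tendsto_subseq hb
  have hs : nS s = sInf S := by
    have h1 : Tendsto (fun j => nS (gS (g (ψ j)) t)) atTop (𝓝 (nS s)) :=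
      (continuous_nS.tendsto s).comp hlim
    have h2 : Tendsto (fun j => nS (gS (g (ψ j)) t)) atTop (𝓝 (sInf S)) := by
      have h3 : (fun j => nS (gS (g (ψ j)) t)) = u ∘ ψ := by
        funext j; exact hgu (ψ j)
      rw [h3]
      exact hu.comp hψ.tendsto_atTop
    exact tendsto_nhds_unique h1 h2
  refine ⟨s, fun j => g (ψ j), fun j => hgG _, hlim, minimal_of_le h D s ?_⟩
  intro x hx
  have h1 : Tendsto (fun j => nS (gS (x * g (ψ j)) t)) atTop (𝓝 (nS (gS x s))) := by
    have h2 : Tendsto (fun j => gS x (gS (g (ψ j)) t)) atTop (𝓝 (gS x s)) :=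
      ((continuous_gS h x).tendsto s).comp hlim
    have h3 : (fun j => nS (gS (x * g (ψ j)) t)) = fun j => nS (gS x (gS (g (ψ j)) t)) := by
      funext j; rw [gS_mul h]
    rw [h3]
    exact (continuous_nS.tendsto _).comp h2
  rw [hs]
  exact ge_of_tendsto' h1 fun j => csInf_le hSbd ⟨_, h.G_mul D _ _ hx (hgG _), rfl⟩

end row

end MinT

/-- Row MIN. -/
protected theorem min : Alg1 → MinStatement := MinT.main

end Pool.Agent.Lib.MP_361a6f_ag.FL
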