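import Pool.Agent.Lib.MP_361a6f_ag.FL.L12
import Pool.Agent.Lib.MP_361a6f_ag.RR73.Pha

/-!
# Row PHA: phase and normal component near the stabiliser
-/

open Filter Topology MeasureTheory

set_option autoImplicit false
set_option linter.unusedSectionVars false

namespace Pool.Agent.Lib.MP_361a6f_ag.FL

/-- Row TAN: the elements of the compact group near `1` are exponentials of small elements of the
Lie algebra. -/
def TanStatement : Prop :=
  ∀ {I Λ : Type} [Fintype I] [DecidableEq I] [DecidableEq Λ] {D : Dat I Λ} (H : HM D) (e : ℝ),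
    0 < e → ∀ᶠ k in 𝓝 (1 : H.K), ∃ A : Matrix I I ℂ, IsLie D A ∧ A.conjTranspose = -A ∧
      (∀ i j, ‖A i j‖ ≤ e) ∧ H.mat k = NormedSpace.exp A

namespace PH

open L12

variable {I Λ ι : Type} [Fintype I] [DecidableEq I] [DecidableEq Λ] [Fintype ι] {len : ι → ℕ}

/-- The euclidean space of tuples. -/
abbrev E (I : Type) [Fintype I] {ι : Type} [Fintype ι] (len : ι → ℕ) : Type :=
  EuclideanSpace ℂ (Σ i, (Fin (len i) → I))

/-- The tuple of a vector. -/
noncomputable def un (x : E I len) : Tup I len := fun i w => x ⟨i, w⟩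

theorem emb_un (x : E I len) : emb (un x) = x := by
  ext x
  rfl

theorem un_emb (s : Tup I len) : un (emb s) = s := rfl

theorem emb_add (s s' : Tup I len) : emb (s + s') = emb s + emb s' := by
  ext x
  simp [emb]

theorem emb_smul (c : ℂ) (s : Tup I len) : emb (c • s) = c • emb s := by
  ext x
  simp [emb]

/-- `emb` as a linear map. -/
noncomputable def embL : Tup I len →ₗ[ℂ] E I len where
  toFun := emb
  map_add' := emb_add
  map_smul' := emb_smul

theorem emb_cont : Continuous (emb : Tup I len → E I len) :=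
  (embL : Tup I len →ₗ[ℂ] E I len).continuous_of_finiteDimensional

/-- The operator of a linear map of tuples. -/
noncomputable def opL (f : Tup I len →ₗ[ℂ] Tup I len) : E I len →L[ℂ] E I len :=
  LinearMap.toContinuousLinearMap
    { toFun := fun x => emb (f (un x))
      map_add' := fun x y => by
        have h : un (x + y) = un x + un y := rfl
        rw [h, map_add, emb_add]
      map_smul' := fun c x => by
        have h : un (c • x) = c • un x := rfl
        rw [h, map_smul, emb_smul]
        rfl }

theorem opL_apply (f : Tup I len →ₗ[ℂ] Tup I len) (x : E I len) :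
    opL f x = emb (f (un x)) := rfl

section alg

variable (a1 : Alg1)

/-- The action of a matrix on tuples as a linear map. -/
noncomputable def gL (len : ι → ℕ) (a1 : Alg1) (g : Matrix I I ℂ) : Tup I len →ₗ[ℂ] Tup I len where
  toFun := gS g
  map_add' s s' := by
    funext i
    exact a1.gT_add g (s i) (s' i)
  map_smul' c s := by
    funext i
    exact a1.gT_smul g c (s i)

/-- The derivation of a matrix on tuples as a linear map. -/
noncomputable def aL (len : ι → ℕ) (a1 : Alg1) (A : Matrix I I ℂ) : Tup I len →ₗ[ℂ] Tup I len where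
  toFun := aS A
  map_add' s s' := by
    funext i
    exact a1.aT_add A (s i) (s' i)
  map_smul' c s := by
    funext i
    exact a1.aT_smul A c (s i)

/-- The operators of the derivations, linear in the matrix. -/
noncomputable def XL (len : ι → ℕ) (a1 : Alg1) : Matrix I I ℂ →ₗ[ℂ] (E I len →L[ℂ] E I len) where
  toFun A := opL (aL len a1 A)
  map_add' A B := by
    ext1 x
    rw [add_apply, opL_apply, opL_apply, opL_apply, ← emb_add]
    congr 1
    funext i
    exact a1.add_aT A B (un x i)
  map_smul' c A := by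
    ext1 x
    rw [smul_apply, opL_apply, opL_apply, RingHom.id_apply, ← emb_smul]
    congr 1
    funext i
    exact a1.smul_aT c A (un x i)

theorem XL_apply (A : Matrix I I ℂ) (s : Tup I len) : XL len a1 A (emb s) = emb (aS A s) := rfl

theorem XL_bound : ∃ C : ℝ, 0 ≤ C ∧ ∀ (A : Matrix I I ℂ) (e : ℝ), 0 ≤ e → (∀ i j, ‖A i j‖ ≤ e) →
    ‖XL len a1 A‖ ≤ C * e := by
  refine ⟨∑ i : I, ∑ j : I, ‖XL len a1 (Matrix.single i j (1 : ℂ))‖, by positivity, ?_⟩
  intro A e he hA
  have h1 : A = ∑ i, ∑ j, A i j • Matrix.single i j (1 : ℂ) := by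
    conv_lhs => rw [Matrix.matrix_eq_sum_single A]
    refine Finset.sum_congr rfl fun i _ => Finset.sum_congr rfl fun j _ => ?_
    rw [Matrix.smul_single, smul_eq_mul, mul_one]
  conv_lhs => rw [h1]
  simp only [map_sum, map_smul]
  refine (norm_sum_le _ _).trans ?_
  rw [Finset.sum_mul]
  refine Finset.sum_le_sum fun i _ => ?_
  refine (norm_sum_le _ _).trans ?_
  rw [Finset.sum_mul]
  refine Finset.sum_le_sum fun j _ => ?_
  rw [norm_smul, mul_comm]
  exact mul_le_mul_of_nonneg_left (hA i j) (norm_nonneg _)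

theorem XL_skew (A : Matrix I I ℂ) (hA : A.conjTranspose = -A) (x y : E I len) :
    inner ℂ (XL len a1 A x) y = -inner ℂ x (XL len a1 A y) := by
  have h1 : ∀ s s' : Tup I len, hS (aS A s) s' = -hS s (aS A s') := by
    intro s s'
    unfold hS aS
    rw [← Finset.sum_neg_distrib]
    refine Finset.sum_congr rfl fun i _ => ?_
    rw [a1.hT_aT, hA]
    have h2 : aT (-A) (s' i) = -aT A (s' i) := by
      have h3 : (-A) = (-1 : ℂ) • A := by rw [neg_one_smul]
      rw [h3, a1.smul_aT, neg_one_smul]
    rw [h2]
    simp [hT]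
  have h2 := h1 (un y) (un x)
  rw [hS_eq, hS_eq] at h2
  have h3 : inner ℂ x (XL len a1 A y) = -inner ℂ (XL len a1 A x) y := by
    calc inner ℂ x (XL len a1 A y) = inner ℂ (emb (un x)) (emb (aS A (un y))) := rfl
      _ = -inner ℂ (emb (aS A (un x))) (emb (un y)) := h2
      _ = _ := rfl
  rw [h3, neg_neg]

theorem exp_eq (A : Matrix I I ℂ) (s : Tup I len) :
    NormedSpace.exp (XL len a1 A) (emb s) = emb (gS (NormedSpace.exp A) s) := by
  have h1 := NormedSpace.exp_series_hasSum_exp' (𝕂 := ℂ) (XL len a1 A)
  have h2 : HasSum (fun n : ℕ => ((n.factorial : ℂ)⁻¹ • (XL len a1 A) ^ n) (emb s))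
      (NormedSpace.exp (XL len a1 A) (emb s)) :=
    h1.mapL (ContinuousLinearMap.apply ℂ (E I len) (emb s))
  have hpow : ∀ n : ℕ, ((XL len a1 A) ^ n) (emb s) = emb (fun i => (aT A)^[n] (s i)) := by
    intro n
    induction n with
    | zero => rfl
    | succ n ih =>
      rw [pow_succ', mul_apply_eq_comp, ih, XL_apply]
      congr 1
      funext i
      rw [Function.iterate_succ_apply']
      rfl
  have h3 : HasSum (fun n : ℕ => fun i => ((n.factorial : ℂ)⁻¹) • (aT A)^[n] (s i))
      (gS (NormedSpace.exp A) s) := by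
    rw [Pi.hasSum]
    exact fun i => a1.gT_exp A (s i)
  have h4 : HasSum (fun n : ℕ => embL (fun i => ((n.factorial : ℂ)⁻¹) • (aT A)^[n] (s i)))
      (embL (gS (NormedSpace.exp A) s)) := h3.map (embL : Tup I len →ₗ[ℂ] E I len) emb_cont
  refine h2.unique ?_
  have h5 : (fun n : ℕ => ((n.factorial : ℂ)⁻¹ • (XL len a1 A) ^ n) (emb s)) =
      fun n : ℕ => embL (fun i => ((n.factorial : ℂ)⁻¹) • (aT A)^[n] (s i)) := by
    funext n
    rw [smul_apply, hpow, ← emb_smul]
    rfl
  rw [h5]
  exact h4

variable {D : Dat I Λ} (H : HM D)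

/-- The unitary action. -/
noncomputable def UU (len : ι → ℕ) : H.K →* (E I len →L[ℂ] E I len) where
  toFun k := opL (gL len a1 (H.mat k))
  map_one' := by
    ext1 x
    rw [opL_apply, map_one]
    show emb (gS 1 (un x)) = x
    rw [gS_one a1, emb_un]
  map_mul' k k' := by
    ext1 x
    rw [mul_apply_eq_comp, opL_apply, opL_apply, opL_apply, map_mul]
    show emb (gS (H.mat k * H.mat k') (un x)) = emb (gS (H.mat k) (gS (H.mat k') (un x)))
    rw [gS_mul a1]

theorem UU_apply (k : H.K) (s : Tup I len) : UU a1 H len k (emb s) = emb (gS (H.mat k) s) := rfl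

theorem uni : RLap.Uni (UU a1 H len) where
  ip k x y := by
    show inner ℂ (emb (gS (H.mat k) (un x))) (emb (gS (H.mat k) (un y))) = inner ℂ x y
    rw [← hS_eq, hS_gS H a1, hS_eq, emb_un, emb_un]
  cont := by
    rw [continuous_clm_apply]
    intro x
    exact emb_cont.comp (cont_gS H a1 (un x))

/-- The tangent space. -/
noncomputable def gs (D : Dat I Λ) (s : Tup I len) : Submodule ℂ (E I len) :=
  Submodule.span ℂ {x | ∃ A, IsLie D A ∧ x = emb (aS A s)}

theorem tan (htan : TanStatement) {s : Tup I len} (hs : emb s ≠ 0) :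
    RLap.Tan (UU a1 H len) (emb s) (gs D s) where
  ne := hs
  exp ε hε := by
    obtain ⟨C, hC, hb⟩ := XL_bound (I := I) (len := len) a1
    set e := min 1 (min ε 1 / (C + 1)) with he
    have he0 : 0 < e := by positivity
    filter_upwards [htan H e he0] with k hk
    obtain ⟨A, h1, h2, h3, h4⟩ := hk
    have h5 : ‖XL len a1 A‖ ≤ min ε 1 := by
      refine (hb A e he0.le h3).trans ?_
      calc C * e ≤ (C + 1) * (min ε 1 / (C + 1)) := by
            gcongr
            · linarith
            · exact min_le_right _ _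
        _ = min ε 1 := by field_simp
    have hE : NormOneClass (E I len →L[ℂ] E I len) := by
      have : Nontrivial (E I len) := ⟨⟨emb s, 0, hs⟩⟩
      infer_instance
    obtain ⟨g, h6, h7⟩ := RLap.exp_split (XL len a1 A) (h5.trans (min_le_right _ _))
    refine ⟨XL len a1 A, g, XL_skew a1 A h2, h5.trans (min_le_left _ _),
      h6.trans (h5.trans (min_le_left _ _)), ?_, Submodule.subset_span ⟨A, h1, rfl⟩⟩
    rw [← h7]
    ext1 x
    rw [← emb_un x, exp_eq, UU_apply, h4]

end alg

end PH

open PH L12 in
/-- Row PHA. -/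
theorem pha (a1 : Alg1) (htan : TanStatement) : PhaStatement := by
  intro I Λ ι _ _ _ _ len D H s
  -- translation of the distances
  have key : ∀ P : H.K → Prop, emb s ≠ 0 →
      (∃ r : ℝ, 0 < r ∧ ∀ k, 1 - (RLap.phi (UU a1 H len) (emb s) k).re < r → P k) →
      ∃ η : ℝ, 0 < η ∧ ∀ k, dl H s k < η → P k := by
    rintro P hs ⟨r, hr, hP⟩
    have hs0 : 0 < ‖emb s‖ ^ 2 := by positivity
    refine ⟨min 1 (r * (2 * ‖emb s‖ ^ 2)), by positivity, ?_⟩
    intro k hk
    apply hP
    rw [RLap.one_sub_re (uni a1 H) hs, div_lt_iff₀ (by positivity), UU_apply, ← dl_eq]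
    have h0 : 0 ≤ dl H s k := by
      rw [dl_eq]
      exact norm_nonneg _
    have h1 : dl H s k < 1 := hk.trans_le (min_le_left _ _)
    have h2 : dl H s k < r * (2 * ‖emb s‖ ^ 2) := hk.trans_le (min_le_right _ _)
    calc dl H s k ^ 2 = dl H s k * dl H s k := sq _
      _ ≤ dl H s k * 1 := by gcongr
      _ < r * (2 * ‖emb s‖ ^ 2) := by linarith
  by_cases hs : emb s = 0
  · have hs' : s = 0 := by
      apply emb_inj
      rw [hs]
      ext x
      rfl
    have h0 : ∀ k, gS (H.mat k) s = s := by
      intro k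
      have h1 := (gL len a1 (H.mat k)).map_zero
      rw [hs']
      exact h1
    constructor
    · intro _ ε hε
      refine ⟨1, one_pos, fun k _ => ?_⟩
      rw [h0, hs']
      have h1 : hS (0 : Tup I len) 0 = 0 := by simp [hS, hT]
      rw [h1]
      simp only [Complex.zero_im, abs_zero]
      positivity
    · intro ε hε
      refine ⟨1, one_pos, fun k _ ν _ => ?_⟩
      rw [h0, sub_self]
      have h1 : hS ν (0 : Tup I len) = 0 := by simp [hS, hT]
      rw [h1, norm_zero]
      have h2 : 0 ≤ dl H s k := by
        rw [dl_eq]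
        exact norm_nonneg _
      positivity
  · have hT := tan a1 H htan hs
    have hs0 : 0 < ‖emb s‖ ^ 2 := by positivity
    constructor
    · intro hmin ε hε
      refine key _ hs ?_
      have horth : ∀ x ∈ gs D s, inner ℂ (emb s) x = 0 := by
        intro x hx
        unfold gs at hx
        induction hx using Submodule.span_induction with
        | mem x hx =>
          obtain ⟨A, hA, rfl⟩ := hx
          rw [← hS_eq]
          exact hmin A hA
        | zero => exact inner_zero_right _
        | add x y _ _ hx hy => rw [inner_add_right, hx, hy, add_zero]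
        | smul a x _ hx => rw [inner_smul_right, hx, mul_zero]
      obtain ⟨r, hr, h1⟩ := RLap.phase (uni a1 H) hT horth (2 * ε) (by positivity)
      refine ⟨r, hr, fun k hk => ?_⟩
      have h2 := h1 k hk
      rw [RLap.one_sub_re (uni a1 H) hs] at h2
      unfold RLap.phi at h2
      rw [Complex.div_ofReal_im, abs_div, abs_of_pos hs0, div_le_iff₀ hs0, UU_apply, ← dl_eq] at h2
      have h3 : (hS (gS (H.mat k) s) s).im = -(inner ℂ (emb (gS (H.mat k) s)) (emb s)).im := by
        rw [hS_eq, ← inner_conj_symm, Complex.conj_im]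
      rw [h3, abs_neg]
      refine h2.trans (le_of_eq ?_)
      field_simp
    · intro ε hε
      refine key _ hs ?_
      obtain ⟨r, hr, h1⟩ := RLap.normal (uni a1 H) hT ε hε
      refine ⟨r, hr, fun k hk ν hν => ?_⟩
      have h2 := h1 k hk (emb ν) (by
        intro x hx
        unfold gs at hx
        induction hx using Submodule.span_induction with
        | mem x hx =>
          obtain ⟨A, hA, rfl⟩ := hx
          rw [← hS_eq]
          exact hν A hA
        | zero => exact inner_zero_left _
        | add x y _ _ hx hy => rw [inner_add_left, hx, hy, add_zero]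
        | smul a x _ hx => rw [inner_smul_left, hx, mul_zero])
      rw [UU_apply, ← dl_eq, ← emb_sub, ← hS_eq] at h2
      rw [hS_self ν, Complex.ofReal_re, Real.sqrt_sq (norm_nonneg _)]
      exact h2

end Pool.Agent.Lib.MP_361a6f_ag.FL
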