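import Pool.Agent.Lib.MP_361a6f_ag.FL.Noe

/-!
# Finitely many tensors cut out the stabiliser of a set of tensors
-/

set_option autoImplicit false

namespace Pool.Agent.Lib.MP_361a6f_ag.FL

variable {I : Type} [Fintype I] [DecidableEq I]

namespace NoeT

/-- the polynomial `(x u)(w) - u(w)` in the entries of the matrix `x` -/
noncomputable def poly {L : ℕ} (u : Ten I L) (w : Fin L → I) : MvPolynomial (I × I) ℂ :=
  ∑ w' : Fin L → I, (∏ i, MvPolynomial.X (w i, w' i)) * MvPolynomial.C (u w')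
    - MvPolynomial.C (u w)

theorem eval_poly {L : ℕ} (u : Ten I L) (w : Fin L → I) (x : Matrix I I ℂ) :
    MvPolynomial.eval (fun p : I × I => x p.1 p.2) (poly u w) = gT x u w - u w := by
  rw [poly, map_sub, map_sum, MvPolynomial.eval_C, gT]
  congr 1
  refine Finset.sum_congr rfl fun w' _ => ?_
  rw [map_mul, map_prod, MvPolynomial.eval_C]
  congr 1
  exact Finset.prod_congr rfl fun i _ => by rw [MvPolynomial.eval_X]

end NoeT

open NoeT in
/-- **Finitely many members** of a set of tensors have the same stabiliser (in the monoid of all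
matrices) as the whole set. -/
theorem noeT (S : ∀ L : ℕ, Set (Ten I L)) : ∃ (ι : Type) (_ : Fintype ι) (len : ι → ℕ)
    (t : Tup I len), (∀ i, t i ∈ S (len i)) ∧
      ∀ x : Matrix I I ℂ, (∀ i, gT x (t i) = t i) → ∀ L, ∀ u ∈ S L, gT x u = u := by
  classical
  let E : Set (MvPolynomial (I × I) ℂ) := {p | ∃ (L : ℕ) (u : Ten I L) (w : Fin L → I),
    u ∈ S L ∧ p = poly u w}
  obtain ⟨E', hE', hz⟩ := exists_finset_zeros E
  choose L u w hu hp using fun p : E' => hE' p.2
  obtain ⟨r, ⟨e⟩⟩ : ∃ r, Nonempty (Fin r ≃ E') := ⟨_, ⟨E'.equivFin.symm⟩⟩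
  refine ⟨Fin r, inferInstance, fun i => L (e i), fun i => u (e i), fun i => hu (e i),
    fun x hx M v hv => ?_⟩
  have h0 : ∀ p ∈ E', MvPolynomial.eval (fun q : I × I => x q.1 q.2) p = 0 := by
    intro p hpE
    obtain ⟨i, hi⟩ := e.surjective ⟨p, hpE⟩
    have h1 : p = poly (u (e i)) (w (e i)) := by
      have := hp (e i)
      rwa [hi] at this ⊢
    rw [h1, eval_poly, hx i, sub_self]
  funext w'
  have h2 := hz _ h0 (poly v w') ⟨M, v, w', hv, rfl⟩
  rw [eval_poly, sub_eq_zero] at h2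
  exact h2

end Pool.Agent.Lib.MP_361a6f_ag.FL
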