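import Pool.Agent.Lib.MP_361a6f_ag.FL.Qps

/-!
# Rational systems of tensors whose group is cut out by a tuple

If the stabiliser of a tuple `t` of the system fixes the whole system, and `ψ` is positive in the
lengths of the members of `t`, then a real structure fixes the whole system, in all lengths.
-/

open Filter Topology MeasureTheory

set_option linter.unusedSectionVars false

namespace Pool.Agent.Lib.MP_361a6f_ag.FL

variable {I Λ : Type} [Fintype I] [DecidableEq I] [DecidableEq Λ]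

namespace QpsI

open Qps

variable {D : Dat I Λ} {At : (L : ℕ) → Ten I L → Prop}

theorem psi_jG (a1 : Alg1) {g : Matrix I I ℂ} (hg : IsG D g) {L : ℕ} (u : Ten I L) :
    psiT D u (jG D g u) = hT (gT g⁻¹ u) (gT g⁻¹ u) := by
  have hi := a1.G_inv D g hg
  have h1 := a1.psiT_gT D g⁻¹ u (jG D g u) hi.1
  rw [← h1]
  have h2 : gT g⁻¹ (jG D g u) = jT D (gT g⁻¹ u) := by
    rw [jG, ← a1.gT_mul, hi.2.2, a1.gT_one]
  rw [h2, a1.psiT_jT]

/-- `ψ(u, J u) = 0` only for `u = 0` -/
theorem eq_zero (a1 : Alg1) {g : Matrix I I ℂ} (hg : IsG D g) {L : ℕ} (u : Ten I L)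
    (h : psiT D u (jG D g u) = 0) : u = 0 := by
  have hi := a1.G_inv D g hg
  rw [psi_jG a1 hg, a1.hT_self] at h
  have h0 : (∑ w, ‖gT g⁻¹ u w‖ ^ 2 : ℝ) = 0 := by exact_mod_cast h
  have h1 : gT g⁻¹ u = 0 := by
    funext w
    have h2 := (Finset.sum_eq_zero_iff_of_nonneg (fun w _ => by positivity)).1 h0 w
      (Finset.mem_univ w)
    have h3 : ‖gT g⁻¹ u w‖ = 0 := by
      rcases pow_eq_zero_iff (two_ne_zero) |>.1 h2 with h3
      exact h3
    exact norm_eq_zero.1 h3
  have h4 : gT g (gT g⁻¹ u) = u := by rw [← a1.gT_mul, hi.2.1, a1.gT_one]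
  rw [← h4, h1]
  have h5 := a1.gT_smul g 0 (0 : Ten I L)
  rwa [zero_smul, zero_smul] at h5

/-- members of the system in the complex span of fixed members are fixed, without positivity -/
theorem fixed_of_span (S : ASys D At) (a1 : Alg1) {g : Matrix I I ℂ} (hg : IsG D g) {L : ℕ}
    {B : Set (Ten I L)} (hBAt : ∀ b ∈ B, At L b) (hB : ∀ b ∈ B, jG D g b = b)
    {z : Ten I L} (hz : At L z) (hzB : z ∈ Submodule.span ℂ B) : jG D g z = z := by
  obtain ⟨x, hx, y, hy, hxy⟩ := re_im B hzB
  have hle : Submodule.span ℝ B ≤ Submodule.span ℝ {u : Ten I L | At L u} :=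
    Submodule.span_mono (fun b hb => hBAt b hb)
  have h1 : ∀ b ∈ B, psiT D y b = 0 := by
    intro b hb
    have e1 := psi_real S (hBAt b hb) (hle hx)
    have e2 := psi_real S (hBAt b hb) (hle hy)
    have e3 := psi_real S (hBAt b hb)
      (Submodule.subset_span (R := ℝ) (show z ∈ {u : Ten I L | At L u} from hz))
    rw [hxy, ← psiL_apply, map_add, LinearMap.add_apply, map_smul, LinearMap.smul_apply,
      psiL_apply, psiL_apply, Complex.add_im, e1, zero_add, smul_eq_mul, Complex.I_mul_im] at e3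
    exact Complex.ext e3 e2
  have h2 : ∀ v ∈ Submodule.span ℝ B, psiT D y v = 0 := by
    intro v hv
    induction hv using Submodule.span_induction with
    | mem u hu => exact h1 u hu
    | zero => rw [← psiL_apply, map_zero]
    | add a b _ _ ha hb => rw [← psiL_apply, map_add, psiL_apply, psiL_apply, ha, hb, add_zero]
    | smul c a _ ha => rw [real_smul, ← psiL_apply, map_smul, psiL_apply, ha, smul_zero]
  have h3 : y = 0 := by
    refine eq_zero a1 hg y ?_
    rw [jG_real a1 g hB hy]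
    exact h2 y hy
  rw [hxy, h3, smul_zero, add_zero]
  exact jG_real a1 g hB hx

variable {ι : Type} [Fintype ι] {len : ι → ℕ}

/-- a real structure that fixes a tuple fixes the values of the diagram maps -/
theorem dm_jG (a2 : Alg2) {g : Matrix I I ℂ} (hg : IsG D g) (hg' : IsG D g⁻¹)
    {t : Tup I len} (ht : ∀ i, jG D g (t i) = t i) (c : ℕ) (l : List ι)
    {m : Ten I ((l.map len).sum + c)} (hm : IsMatch D _ m) :
    jG D g (dm D c l m t) = dm D c l m t := by
  rw [jG, ← a2.dm_gS D c l m g⁻¹ t hm hg', ← a2.dm_jS D c l m _ hm, ← a2.dm_gS D c l m g _ hm hg]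
  congr 1
  funext i
  exact ht i

end QpsI

open Qps QpsI

/-- **The real structure, all lengths**: if the stabiliser of a tuple of a rational system fixes
the system, and `ψ` is positive in the lengths of the tuple, then some `g J₀ g⁻¹` fixes the
system. -/
theorem qpsI (hY : YStatement) (a1 : Alg1) (a2 : Alg2) {D : Dat I Λ}
    {At : (L : ℕ) → Ten I L → Prop} (S : ASys D At) {ι : Type} [Fintype ι] {len : ι → ℕ}
    (t : Tup I len) (ht : ∀ i, At (len i) (t i)) (h1 : ∃ i, len i = 0 ∧ ∀ w, t i w = 1)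
    (hpos : ∀ i u, At (len i) u → u ≠ 0 → ∃ q : ℚ, 0 < q ∧ psiT D u u = (q : ℂ))
    (hstab : ∀ x, IsG D x → gS x t = t → ∀ L u, At L u → gT x u = u) :
    ∃ g : Matrix I I ℂ, IsG D g ∧ ∀ L u, At L u → gT g (jT D (gT g⁻¹ u)) = u := by
  obtain ⟨g, hg, hgt, hfix⟩ := hY D t (fun i => posAt S a1 (hpos i) ht) h1 (by
      funext i
      exact S.even _ _ (ht i))
  refine ⟨g, hg, fun L u hu => ?_⟩
  have hu2 : u ∈ MT D t L := hfix L u (fun x hx hxt => hstab x hx hxt L u hu)
  refine QpsI.fixed_of_span S a1 hg ?_ ?_ hu hu2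
  · rintro b ⟨l, m, hm, rfl⟩
    exact dm_mem S ht L l hm
  · rintro b ⟨l, m, hm, rfl⟩
    exact dm_jG a2 hg (a1.G_inv D g hg).1 hgt L l hm

end Pool.Agent.Lib.MP_361a6f_ag.FL
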