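import Pool.Agent.Lib.MP_361a6f_ag.FL.Np
import Pool.Agent.Lib.MP_361a6f_ag.FL.Pha

/-!
# Row TAN: the elements of the compact group near `1` are exponentials of small elements of the
Lie algebra
-/

open Filter Topology MeasureTheory NormedSpace

set_option autoImplicit false
set_option linter.unusedSectionVars false

namespace Pool.Agent.Lib.MP_361a6f_ag.FL

namespace Tan

variable {I Λ : Type} [Fintype I] [DecidableEq I] [DecidableEq Λ] (D : Dat I Λ)

/-- the matrix of `ψ` is orthogonal -/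
theorem Psi_mul_transpose : Psi D * (Psi D).transpose = 1 := by
  ext i k
  rw [Matrix.mul_apply]
  simp only [Psi, Matrix.transpose_apply, Matrix.of_apply]
  by_cases h : i = k
  · subst h
    rw [Finset.sum_eq_single (D.τ i)]
    · rcases D.s_val i with h | h <;> simp [h]
    · intro j _ hj; simp [hj]
    · simp
  · rw [Matrix.one_apply_ne h]
    apply Finset.sum_eq_zero
    intro j _
    by_cases h1 : j = D.τ i
    · have h2 : j ≠ D.τ k := by
        intro h3
        apply h
        have := congrArg D.τ (h1.symm.trans h3)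
        rwa [D.τ_τ, D.τ_τ] at this
      simp [h2]
    · simp [h1]

theorem Psi_transpose_mul : (Psi D).transpose * Psi D = 1 :=
  mul_eq_one_comm.1 (Psi_mul_transpose D)

/-- reflection in the letter of `i` -/
noncomputable def rf (i : I) : Matrix I I ℂ :=
  Matrix.diagonal fun j => if D.typ j = D.typ i then -1 else 1

theorem rf_mul_rf (i : I) : rf D i * rf D i = 1 := by
  rw [rf, Matrix.diagonal_mul_diagonal]
  rw [← Matrix.diagonal_one]
  congr 1
  funext j
  by_cases h : D.typ j = D.typ i <;> simp [h]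

theorem rf_comm {g : Matrix I I ℂ} (hg : ∀ i j, D.typ i ≠ D.typ j → g i j = 0) (i : I) :
    rf D i * g * rf D i = g := by
  ext a b
  rw [rf, Matrix.mul_diagonal, Matrix.diagonal_mul]
  by_cases h : D.typ a = D.typ b
  · rw [h]
    by_cases h2 : D.typ b = D.typ i <;> simp [h2]
  · rw [hg a b h]; simp

theorem of_rf_comm {x : Matrix I I ℂ} (hx : ∀ i, rf D i * x * rf D i = x) (i j : I)
    (h : D.typ i ≠ D.typ j) : x i j = 0 := by
  have h1 := congrFun (congrFun (hx i) i) j
  rw [rf, Matrix.mul_diagonal, Matrix.diagonal_mul] at h1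
  simp only [if_true, if_neg (Ne.symm h)] at h1
  have h2 : -x i j = x i j := by simpa using h1
  exact self_eq_neg.1 h2.symm

end Tan

open Tan

set_option backward.isDefEq.respectTransparency false in
open scoped Matrix.Norms.Operator in
theorem Tan.facts (I : Type) [Fintype I] [DecidableEq I] :
    (∃ r : ℝ, 0 < r ∧ ∀ x y : Matrix I I ℂ, ‖x‖ < r → ‖y‖ < r → exp y = exp x → y = x) ∧
    (∀ r' : ℝ, 0 < r' → ∃ e' : ℝ, 0 < e' ∧ ∀ g : Matrix I I ℂ, ‖g - 1‖ < e' →
      ∃ x : Matrix I I ℂ, ‖x‖ < r' ∧ exp x = g) := by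
  constructor
  · obtain ⟨r, hr, hb⟩ := FLNp.exp_bilip (A := Matrix I I ℂ)
    refine ⟨r, hr, fun x y hx hy hyx => ?_⟩
    have h0 : ‖y - x‖ ≤ 2 * ‖exp y - exp x‖ := (hb y x hy hx).1
    rw [hyx, sub_self, norm_zero, mul_zero] at h0
    exact sub_eq_zero.1 (norm_le_zero_iff.1 h0)
  · intro r' hr'
    obtain ⟨e', he', h⟩ := FLNp.exists_small_log (A := Matrix I I ℂ) hr'
    refine ⟨e', he', fun g hg => ?_⟩
    obtain ⟨x, h1, h2, -⟩ := h g hg
    exact ⟨x, h1, h2⟩

open scoped Matrix.Norms.Operator in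
/-- Row TAN. -/
theorem tan : TanStatement := by
  intro I Λ _ _ _ D H e he
  obtain ⟨⟨r, hr, inj0⟩, hlog0⟩ := Tan.facts I
  have hc1 : Continuous fun x : Matrix I I ℂ => -x.conjTranspose := by fun_prop
  have hc2 : Continuous fun x : Matrix I I ℂ => -((Psi D).transpose * x.transpose * Psi D) := by
    fun_prop
  have hc3 : ∀ i, Continuous fun x : Matrix I I ℂ => rf D i * x * rf D i := by
    intro i; fun_prop
  have hc4 : ∀ i j, Continuous fun x : Matrix I I ℂ => x i j := by
    intro i j; fun_prop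
  have hnb : ∀ σ : Matrix I I ℂ → Matrix I I ℂ, Continuous σ → σ 0 = 0 →
      ∀ᶠ x in 𝓝 (0 : Matrix I I ℂ), ‖σ x‖ < r := by
    intro σ hσ h0
    have h1 : Tendsto (fun x => ‖σ x‖) (𝓝 0) (𝓝 0) := by
      have := (hσ.norm).tendsto 0
      simpa [h0] using this
    exact h1.eventually (gt_mem_nhds hr)
  have hall : ∀ᶠ x in 𝓝 (0 : Matrix I I ℂ), ‖x‖ < r ∧ ‖-x.conjTranspose‖ < r ∧
      ‖-((Psi D).transpose * x.transpose * Psi D)‖ < r ∧ (∀ i, ‖rf D i * x * rf D i‖ < r) ∧
      (∀ i j, ‖x i j‖ ≤ e) := by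
    refine (hnb _ continuous_id (by simp)).and ((hnb _ hc1 (by simp)).and
      ((hnb _ hc2 (by simp)).and ((eventually_all.2 fun i => hnb _ (hc3 i) (by simp)).and ?_)))
    refine eventually_all.2 fun i => eventually_all.2 fun j => ?_
    have h1 : Tendsto (fun x : Matrix I I ℂ => ‖x i j‖) (𝓝 0) (𝓝 0) := by
      have := ((hc4 i j).norm).tendsto 0
      simpa using this
    exact (h1.eventually (gt_mem_nhds he)).mono fun x hx => hx.le
  obtain ⟨r', hr', hball⟩ := Metric.eventually_nhds_iff.1 hall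
  obtain ⟨e', he', hlog⟩ := hlog0 r' hr'
  have hk : ∀ᶠ k in 𝓝 (1 : H.K), ‖H.mat k - 1‖ < e' := by
    have h1 : Tendsto (fun k => ‖H.mat k - 1‖) (𝓝 (1 : H.K)) (𝓝 0) := by
      have h2 : Continuous fun k : H.K => H.mat k - 1 := H.cont_mat.sub continuous_const
      have h3 := h2.norm.tendsto (1 : H.K)
      simpa using h3
    exact h1.eventually (gt_mem_nhds he')
  filter_upwards [hk] with k hk
  obtain ⟨x, hx1, hx2⟩ := hlog _ hk
  obtain ⟨h1, h2, h3, h4, h5⟩ := hball (y := x) (by simpa [dist_eq_norm] using hx1)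
  obtain ⟨⟨hg1, hg2⟩, hg3⟩ := H.mem k
  rw [← hx2] at hg1 hg2 hg3
  have inj : ∀ y : Matrix I I ℂ, ‖y‖ < r → exp y = exp x → y = x := fun y hy hyx =>
    inj0 x y h1 hy hyx
  have hP1 := Psi_mul_transpose D
  have hP2 := Psi_transpose_mul D
  have hPu : IsUnit (Psi D) := IsUnit.of_mul_eq_one _ hP1
  have hPinv : (Psi D)⁻¹ = (Psi D).transpose := Matrix.inv_eq_right_inv hP1
  -- unitary
  have e1 : -x.conjTranspose = x := by
    apply inj _ h2
    rw [Matrix.exp_neg, Matrix.exp_conjTranspose]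
    exact Matrix.inv_eq_right_inv hg3
  -- the form
  have e2 : -((Psi D).transpose * x.transpose * Psi D) = x := by
    apply inj _ h3
    rw [Matrix.exp_neg, ← hPinv, Matrix.exp_conj' _ _ hPu, Matrix.exp_transpose]
    apply Matrix.inv_eq_right_inv
    rw [mul_assoc, mul_assoc, ← mul_assoc (exp x).transpose, hg2, hPinv, hP2]
  -- the letters
  have e3 : ∀ i, rf D i * x * rf D i = x := by
    intro i
    apply inj _ (h4 i)
    have hri : (rf D i)⁻¹ = rf D i := Matrix.inv_eq_right_inv (rf_mul_rf D i)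
    have hru : IsUnit (rf D i) := IsUnit.of_mul_eq_one _ (rf_mul_rf D i)
    have h6 : exp (rf D i * x * (rf D i)⁻¹) = rf D i * exp x * (rf D i)⁻¹ :=
      Matrix.exp_conj _ _ hru
    rw [hri] at h6
    rw [h6]
    exact rf_comm D hg1 i
  refine ⟨x, ⟨of_rf_comm D e3, ?_⟩, ?_, h5, hx2.symm⟩
  · have h7 : Psi D * x = -(x.transpose * Psi D) := by
      nth_rewrite 1 [← e2]
      rw [mul_neg, ← mul_assoc, ← mul_assoc, hP1, one_mul]
    rw [h7, add_neg_cancel]
  · nth_rewrite 2 [← e1]
    rw [neg_neg]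

end Pool.Agent.Lib.MP_361a6f_ag.FL
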