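import Pool.Agent.Lib.MP_361a6f_ag.FL.CloAux
import Pool.Agent.Lib.MP_361a6f_ag.FL.L12
import Pool.Agent.Lib.MP_361a6f_ag.FL.MinT

/-!
# Row CLO: the orbit is closed
-/

open Filter Topology MeasureTheory

set_option autoImplicit false
set_option linter.unusedSectionVars false

namespace Pool.Agent.Lib.MP_361a6f_ag.FL

namespace CloT

open L12 Pool.Agent.Lib.MP_361a6f_ag.RR

variable {I Λ ι : Type} [Fintype I] [DecidableEq I] [DecidableEq Λ] [Fintype ι] {len : ι → ℕ}

/-! ### Polynomial functions -/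

/-- scalar polynomial functions -/
def PolyFun (f : Tup I len → ℂ) : Prop :=
  ∃ p : MvPolynomial (Σ i, (Fin (len i) → I)) ℂ,
    ∀ s, f s = MvPolynomial.eval (fun x => s x.1 x.2) p

theorem PolyFun.add {f g : Tup I len → ℂ} (hf : PolyFun f) (hg : PolyFun g) :
    PolyFun (fun s => f s + g s) := by
  obtain ⟨p, hp⟩ := hf
  obtain ⟨q, hq⟩ := hg
  exact ⟨p + q, fun s => by
    show f s + g s = _
    rw [map_add, hp, hq]⟩

theorem PolyFun.mul {f g : Tup I len → ℂ} (hf : PolyFun f) (hg : PolyFun g) :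
    PolyFun (fun s => f s * g s) := by
  obtain ⟨p, hp⟩ := hf
  obtain ⟨q, hq⟩ := hg
  exact ⟨p * q, fun s => by
    show f s * g s = _
    rw [map_mul, hp, hq]⟩

theorem PolyFun.const (c : ℂ) : PolyFun (fun _ : Tup I len => c) :=
  ⟨MvPolynomial.C c, fun s => by rw [MvPolynomial.eval_C]⟩

theorem PolyFun.coord (i : ι) (w : Fin (len i) → I) : PolyFun (fun s : Tup I len => s i w) :=
  ⟨MvPolynomial.X ⟨i, w⟩, fun s => by rw [MvPolynomial.eval_X]⟩

theorem PolyFun.pow {f : Tup I len → ℂ} (hf : PolyFun f) (d : ℕ) : PolyFun (fun s => f s ^ d) := by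
  obtain ⟨p, hp⟩ := hf
  exact ⟨p ^ d, fun s => by
    show f s ^ d = _
    rw [map_pow, hp]⟩

theorem PolyFun.sum {α : Type} (S : Finset α) {f : α → Tup I len → ℂ}
    (hf : ∀ a ∈ S, PolyFun (f a)) : PolyFun (fun s => ∑ a ∈ S, f a s) := by
  classical
  induction S using Finset.induction_on with
  | empty => simpa using PolyFun.const (I := I) (len := len) 0
  | insert a S ha ih =>
    have h1 := (hf a (Finset.mem_insert_self a S)).add
      (ih fun b hb => hf b (Finset.mem_insert_of_mem hb))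
    simpa [Finset.sum_insert ha] using h1

theorem differentiable_of_poly {f : Tup I len → ℂ} (hf : PolyFun f) : Differentiable ℂ f := by
  obtain ⟨p, hp⟩ := hf
  have e : f = fun s => MvPolynomial.eval (fun x => s x.1 x.2) p := funext hp
  rw [e]
  clear hp e
  induction p using MvPolynomial.induction_on with
  | C a => simp
  | add p q hp hq =>
    simp only [map_add]
    exact hp.add hq
  | mul_X p x hp =>
    simp only [map_mul, MvPolynomial.eval_X]
    refine hp.mul ?_
    fun_prop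

theorem PolyMap.differentiable {c : ℕ} {P : Tup I len → Ten I c} (hP : PolyMap P) :
    Differentiable ℂ P := by
  obtain ⟨p, hp⟩ := hP
  rw [differentiable_pi]
  intro w
  exact differentiable_of_poly ⟨p w, fun s => hp s w⟩

theorem polyMap_of {c : ℕ} {P : Tup I len → Ten I c} (h : ∀ w, PolyFun fun s => P s w) :
    PolyMap P := by
  choose p hp using h
  exact ⟨p, fun s w => hp w s⟩

theorem PolyFun.hS (s₀ : Tup I len) : PolyFun (fun s : Tup I len => hS s s₀) := by
  unfold FL.hS hT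
  refine PolyFun.sum _ fun i _ => PolyFun.sum _ fun w _ => ?_
  exact (PolyFun.coord i w).mul (PolyFun.const _)

/-! ### The vector space of tuples -/

/-- tuples as vectors of a euclidean space, linear form -/
noncomputable def embE : Tup I len ≃ₗ[ℂ] EuclideanSpace ℂ (Σ i, (Fin (len i) → I)) :=
  (LinearEquiv.piCurry ℂ (fun (i : ι) (_ : Fin (len i) → I) => ℂ)).symm ≪≫ₗ
    (WithLp.linearEquiv 2 ℂ ((Σ i, (Fin (len i) → I)) → ℂ)).symm

theorem embE_apply (s : Tup I len) : embE s = emb s := rfl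

/-- a linear functional is polynomial -/
theorem PolyFun.linear (f : Tup I len →ₗ[ℂ] ℂ) : PolyFun (fun s : Tup I len => f s) := by
  classical
  set e := LinearEquiv.piCurry ℂ (fun (i : ι) (_ : Fin (len i) → I) => ℂ) with he
  have h : ∀ s : Tup I len, f s = ∑ x : (Σ i, (Fin (len i) → I)),
      s x.1 x.2 * f (e (fun j => if x = j then 1 else 0)) := by
    intro s
    have h1 := LinearMap.pi_apply_eq_sum_univ (f.comp e.toLinearMap) (e.symm s)
    rw [LinearMap.comp_apply, LinearEquiv.coe_coe, LinearEquiv.apply_symm_apply] at h1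
    rw [h1]
    exact Finset.sum_congr rfl fun x _ => rfl
  have h2 : PolyFun (fun s : Tup I len => ∑ x : (Σ i, (Fin (len i) → I)),
      s x.1 x.2 * f (e (fun j => if x = j then 1 else 0))) :=
    PolyFun.sum _ fun x _ => (PolyFun.coord x.1 x.2).mul (PolyFun.const _)
  obtain ⟨p, hp⟩ := h2
  exact ⟨p, fun s => (h s).trans (hp s)⟩

theorem emb_add (s s' : Tup I len) : emb (s + s') = emb s + emb s' := rfl

theorem emb_smul (c : ℂ) (s : Tup I len) : emb (c • s) = c • emb s := rfl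

theorem norm_le_emb (s : Tup I len) : ‖s‖ ≤ ‖emb s‖ := by
  rw [pi_norm_le_iff_of_nonneg (norm_nonneg _)]
  intro i
  rw [pi_norm_le_iff_of_nonneg (norm_nonneg _)]
  intro w
  exact PiLp.norm_apply_le (emb s) ⟨i, w⟩

theorem hS_add_left (u v s : Tup I len) : hS (u + v) s = hS u s + hS v s := by
  rw [hS_eq, hS_eq, hS_eq, emb_add, inner_add_right]

theorem hS_add_right (s u v : Tup I len) : hS s (u + v) = hS s u + hS s v := by
  rw [hS_eq, hS_eq, hS_eq, emb_add, inner_add_left]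

theorem hS_sub_right (s u v : Tup I len) : hS s (u - v) = hS s u - hS s v := by
  rw [hS_eq, hS_eq, hS_eq, emb_sub, inner_sub_left]

theorem hS_smul_left (c : ℂ) (u s : Tup I len) : hS (c • u) s = c * hS u s := by
  rw [hS_eq, hS_eq, emb_smul, inner_smul_right]

theorem norm_hS_le (u v : Tup I len) : ‖hS u v‖ ≤ ‖emb u‖ * ‖emb v‖ := by
  rw [hS_eq, mul_comm]
  exact norm_inner_le_norm _ _

/-! ### The tangent space of the orbit and the slice -/

section lin

variable (a1 : Alg1)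

/-- the derivation as a linear map -/
noncomputable def aL (A : Matrix I I ℂ) : Tup I len →ₗ[ℂ] Tup I len where
  toFun s := aS A s
  map_add' u v := by
    funext i
    exact a1.aT_add A (u i) (v i)
  map_smul' c u := by
    funext i
    exact a1.aT_smul A c (u i)

/-- the derivation as a continuous linear map -/
noncomputable def aC (A : Matrix I I ℂ) : Tup I len →L[ℂ] Tup I len :=
  LinearMap.toContinuousLinearMap (aL a1 A)

theorem aC_apply (A : Matrix I I ℂ) (s : Tup I len) : aC a1 A s = aS A s := rfl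

theorem aC_pow (A : Matrix I I ℂ) (n : ℕ) (s : Tup I len) (i : ι) :
    ((aC a1 A ^ n) s) i = (aT A)^[n] (s i) := by
  induction n generalizing s with
  | zero => rfl
  | succ n ih =>
    rw [pow_succ, Function.iterate_succ_apply]
    exact ih (aS A s)

theorem exp_aC (A : Matrix I I ℂ) (s : Tup I len) :
    NormedSpace.exp (aC a1 A) s = gS (NormedSpace.exp A) s := by
  funext i
  have h1 := a1.gT_exp A (s i)
  have h2 := NormedSpace.exp_series_hasSum_exp' (𝕂 := ℂ) (aC (len := len) a1 A)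
  have h3 := (ContinuousLinearMap.apply ℂ (Tup I len) s).hasSum h2
  have h3' := (ContinuousLinearMap.proj (R := ℂ) (φ := fun i => Ten I (len i)) i).hasSum h3
  have h4 : (fun n : ℕ => (ContinuousLinearMap.proj (R := ℂ) (φ := fun i => Ten I (len i)) i)
      ((ContinuousLinearMap.apply ℂ (Tup I len) s) (((n.factorial : ℂ)⁻¹) • aC a1 A ^ n))) =
      fun n : ℕ => ((n.factorial : ℂ)⁻¹) • (aT A)^[n] (s i) := by
    funext n
    rw [ContinuousLinearMap.apply_apply, _root_.smul_apply,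
      ContinuousLinearMap.proj_apply, Pi.smul_apply, aC_pow]
  rw [h4] at h3'
  exact h3'.unique h1

theorem Lie_zero (D : Dat I Λ) : IsLie D (0 : Matrix I I ℂ) := by
  refine ⟨fun i j _ => rfl, ?_⟩
  simp

theorem aC_add (A B : Matrix I I ℂ) : aC (len := len) a1 (A + B) = aC a1 A + aC a1 B := by
  ext1 s
  funext i
  exact a1.add_aT A B (s i)

theorem aC_smul (c : ℂ) (A : Matrix I I ℂ) : aC (len := len) a1 (c • A) = c • aC a1 A := by
  ext1 s
  funext i
  exact a1.smul_aT c A (s i)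

/-- the Lie algebra as operators -/
noncomputable def lie (D : Dat I Λ) : Submodule ℂ (Tup I len →L[ℂ] Tup I len) where
  carrier := {x | ∃ A, IsLie D A ∧ x = aC a1 A}
  zero_mem' := ⟨0, Lie_zero D, by
    have := aC_smul (len := len) a1 0 (0 : Matrix I I ℂ)
    rw [smul_zero, zero_smul ℂ (aC (len := len) a1 0)] at this
    exact this.symm⟩
  add_mem' := by
    rintro _ _ ⟨A, hA, rfl⟩ ⟨B, hB, rfl⟩
    exact ⟨A + B, a1.Lie_add D A B hA hB, (aC_add a1 A B).symm⟩
  smul_mem' := by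
    rintro c _ ⟨A, hA, rfl⟩
    exact ⟨c • A, a1.Lie_smul D c A hA, (aC_smul a1 c A).symm⟩

/-- the tangent space of the orbit -/
noncomputable def tan (D : Dat I Λ) (s : Tup I len) :
    Submodule ℂ (EuclideanSpace ℂ (Σ i, (Fin (len i) → I))) :=
  ((lie a1 D).map (ContinuousLinearMap.apply ℂ (Tup I len) s).toLinearMap).map
    (embE (I := I) (len := len)).toLinearMap

theorem mem_tan (D : Dat I Λ) (s : Tup I len) {v} (hv : v ∈ tan a1 D s) :
    ∃ A, IsLie D A ∧ v = emb (aS A s) := by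
  obtain ⟨_, ⟨_, ⟨A, hA, rfl⟩, rfl⟩, rfl⟩ := hv
  exact ⟨A, hA, rfl⟩

theorem tan_mem (D : Dat I Λ) (s : Tup I len) {A} (hA : IsLie D A) :
    emb (aS A s) ∈ tan a1 D s :=
  ⟨_, ⟨_, ⟨A, hA, rfl⟩, rfl⟩, rfl⟩

/-- the slice: the orthogonal complement of the tangent space -/
noncomputable def sli (D : Dat I Λ) (s : Tup I len) : Submodule ℂ (Tup I len) :=
  ((tan a1 D s)ᗮ).comap (embE (I := I) (len := len)).toLinearMap

theorem mem_sli (D : Dat I Λ) (s : Tup I len) {ν : Tup I len} :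
    ν ∈ sli a1 D s ↔ ∀ A, IsLie D A → hS ν (aS A s) = 0 := by
  unfold sli
  rw [Submodule.mem_comap, Submodule.mem_orthogonal]
  constructor
  · intro h A hA
    rw [hS_eq]
    exact h _ (tan_mem a1 D s hA)
  · intro h v hv
    obtain ⟨A, hA, rfl⟩ := mem_tan a1 D s hv
    have := h A hA
    rw [hS_eq] at this
    exact this

/-- the projection to the slice along the tangent space -/
noncomputable def pr (D : Dat I Λ) (s : Tup I len) : Tup I len →ₗ[ℂ] Tup I len :=
  ((embE (I := I) (len := len)).symm.toLinearMap.comp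
    (((tan a1 D s)ᗮ).starProjection : EuclideanSpace ℂ (Σ i, (Fin (len i) → I)) →ₗ[ℂ]
      EuclideanSpace ℂ (Σ i, (Fin (len i) → I)))).comp (embE (I := I) (len := len)).toLinearMap

theorem emb_pr (D : Dat I Λ) (s x : Tup I len) :
    emb (pr a1 D s x) = ((tan a1 D s)ᗮ).starProjection (emb x) :=
  LinearEquiv.apply_symm_apply (embE (I := I) (len := len)) _

theorem pr_mem (D : Dat I Λ) (s x : Tup I len) : pr a1 D s x ∈ sli a1 D s := by
  unfold sli
  rw [Submodule.mem_comap]
  show emb (pr a1 D s x) ∈ _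
  rw [emb_pr]
  exact Submodule.starProjection_apply_mem _ _

theorem exists_lie (D : Dat I Λ) (s x : Tup I len) :
    ∃ A, IsLie D A ∧ x = aS A s + pr a1 D s x := by
  have h := Submodule.starProjection_add_starProjection_orthogonal (K := tan a1 D s) (emb x)
  obtain ⟨A, hA, e⟩ := mem_tan a1 D s (Submodule.starProjection_apply_mem (tan a1 D s) (emb x))
  refine ⟨A, hA, emb_inj ?_⟩
  rw [emb_add, emb_pr, ← e]
  exact h.symm

theorem pr_eq_self (D : Dat I Λ) (s x : Tup I len) (hx : x ∈ sli a1 D s) : pr a1 D s x = x := by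
  apply emb_inj
  rw [emb_pr]
  exact Submodule.starProjection_eq_self_iff.2 hx

theorem hS_pr (D : Dat I Λ) (s x : Tup I len) :
    hS (pr a1 D s x) x = hS (pr a1 D s x) (pr a1 D s x) := by
  obtain ⟨A, hA, e⟩ := exists_lie a1 D s x
  have h := (mem_sli a1 D s).1 (pr_mem a1 D s x) A hA
  calc hS (pr a1 D s x) x = hS (pr a1 D s x) (aS A s + pr a1 D s x) := by rw [← e]
    _ = _ := by rw [hS_add_right, h, zero_add]

end lin

/-! ### The group and the diagram maps -/

section alg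

variable (a1 : Alg1) (a2 : Alg2) {D : Dat I Λ}

include a1 in
/-- conjugation of the Lie algebra -/
theorem Lie_conj (g A : Matrix I I ℂ) (hg : IsG D g) (hA : IsLie D A) :
    IsLie D (g * A * g⁻¹) := by
  obtain ⟨hgi, h1, h2⟩ := a1.G_inv D g hg
  have hblock : ∀ X Y : Matrix I I ℂ, (∀ i j, D.typ i ≠ D.typ j → X i j = 0) →
      (∀ i j, D.typ i ≠ D.typ j → Y i j = 0) → ∀ i j, D.typ i ≠ D.typ j → (X * Y) i j = 0 := by
    intro X Y hX hY i j hij
    rw [Matrix.mul_apply]
    refine Finset.sum_eq_zero fun k _ => ?_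
    by_cases hk : D.typ i = D.typ k
    · rw [hY k j (fun h => hij (hk.trans h)), mul_zero]
    · rw [hX i k hk, zero_mul]
  refine ⟨hblock _ _ (hblock _ _ hg.1 hA.1) hgi.1, ?_⟩
  have e1 : g.transpose * Psi D = Psi D * g⁻¹ := by
    calc g.transpose * Psi D = g.transpose * Psi D * (g * g⁻¹) := by rw [h1, Matrix.mul_one]
      _ = (g.transpose * Psi D * g) * g⁻¹ := by simp only [Matrix.mul_assoc]
      _ = Psi D * g⁻¹ := by rw [hg.2]
  have e2 : Psi D * g = (g⁻¹).transpose * Psi D := by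
    have e3 : (g⁻¹).transpose * g.transpose = 1 := by
      rw [← Matrix.transpose_mul, h1, Matrix.transpose_one]
    calc Psi D * g = ((g⁻¹).transpose * g.transpose) * (Psi D * g) := by rw [e3, Matrix.one_mul]
      _ = (g⁻¹).transpose * (g.transpose * Psi D * g) := by simp only [Matrix.mul_assoc]
      _ = (g⁻¹).transpose * Psi D := by rw [hg.2]
  calc (g * A * g⁻¹).transpose * Psi D + Psi D * (g * A * g⁻¹)
      = (g⁻¹).transpose * A.transpose * (g.transpose * Psi D) + (Psi D * g) * (A * g⁻¹) := by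
        simp only [Matrix.transpose_mul, Matrix.mul_assoc]
    _ = (g⁻¹).transpose * (A.transpose * Psi D + Psi D * A) * g⁻¹ := by
        rw [e1, e2]
        simp only [Matrix.mul_add, Matrix.add_mul, Matrix.mul_assoc]
    _ = 0 := by rw [hA.2, Matrix.mul_zero, Matrix.zero_mul]

include a2 in
theorem DM_gS {c : ℕ} {f : Tup I len → Ten I c} (a1 : Alg1) (hf : f ∈ DM D len c)
    (g : Matrix I I ℂ) (s : Tup I len) (hg : IsG D g) : f (gS g s) = gT g (f s) := by
  unfold DM at hf
  induction hf using Submodule.span_induction with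
  | mem x hx =>
    obtain ⟨l, m, hm, rfl⟩ := hx
    exact a2.dm_gS D c l m g s hm hg
  | zero =>
    have h := a1.gT_smul g 0 (0 : Ten I c)
    rw [zero_smul, zero_smul] at h
    exact h.symm
  | add x y _ _ hx hy =>
    rw [Pi.add_apply, Pi.add_apply, hx, hy, a1.gT_add]
  | smul a x _ hx =>
    rw [Pi.smul_apply, Pi.smul_apply, hx, a1.gT_smul]

include a2 in
theorem DM_diff {c : ℕ} {f : Tup I len → Ten I c} (hf : f ∈ DM D len c) :
    Differentiable ℂ f := by
  unfold DM at hf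
  induction hf using Submodule.span_induction with
  | mem x hx =>
    obtain ⟨l, m, hm, rfl⟩ := hx
    exact PolyMap.differentiable (a2.dm_poly D c l m)
  | zero => exact differentiable_const _
  | add x y _ _ hx hy => exact hx.add hy
  | smul a x _ hx => exact hx.const_smul a

theorem exists_DM {c : ℕ} {t : Tup I len} {v : Ten I c} (hv : v ∈ MT D t c) :
    ∃ f ∈ DM D len c, f t = v := by
  unfold MT at hv
  induction hv using Submodule.span_induction with
  | mem x hx =>
    obtain ⟨l, m, hm, rfl⟩ := hx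
    exact ⟨dm D c l m, Submodule.subset_span ⟨l, m, hm, rfl⟩, rfl⟩
  | zero => exact ⟨0, Submodule.zero_mem _, rfl⟩
  | add x y _ _ hx hy =>
    obtain ⟨f, hf, rfl⟩ := hx
    obtain ⟨f', hf', rfl⟩ := hy
    exact ⟨f + f', Submodule.add_mem _ hf hf', rfl⟩
  | smul a x _ hx =>
    obtain ⟨f, hf, rfl⟩ := hx
    exact ⟨a • f, Submodule.smul_mem _ a hf, rfl⟩

theorem psiT_cont {c : ℕ} : Continuous fun p : Ten I c × Ten I c => psiT D p.1 p.2 := by
  unfold psiT
  fun_prop

include a1 a2 in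
/-- an equivariant map that vanishes at the limit `s` vanishes at `t` -/
theorem DM_zero {c : ℕ} {t s : Tup I len} (hnd : NdAt D t c) {g : ℕ → Matrix I I ℂ}
    (hg : ∀ j, IsG D (g j)) (hlim : Tendsto (fun j => gS (g j) t) atTop (𝓝 s))
    {f : Tup I len → Ten I c} (hf : f ∈ DM D len c) (h0 : f s = 0) : f t = 0 := by
  by_contra hne
  obtain ⟨v, hv, h1⟩ := hnd (f t) (DM_val hf t) hne
  obtain ⟨f', hf', rfl⟩ := exists_DM hv
  have h2 : ∀ j, psiT D (f (gS (g j) t)) (f' (gS (g j) t)) = psiT D (f t) (f' t) := by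
    intro j
    rw [DM_gS a2 a1 hf _ _ (hg j), DM_gS a2 a1 hf' _ _ (hg j), a1.psiT_gT D _ _ _ (hg j)]
  have h3 : Tendsto (fun j => psiT D (f (gS (g j) t)) (f' (gS (g j) t))) atTop
      (𝓝 (psiT D (f s) (f' s))) := by
    have h4 : Continuous fun x : Tup I len => psiT D (f x) (f' x) :=
      (psiT_cont (D := D)).comp ((DM_diff a2 hf).continuous.prodMk (DM_diff a2 hf').continuous)
    exact (h4.tendsto s).comp hlim
  simp only [h2] at h3
  have h5 := tendsto_nhds_unique h3 tendsto_const_nhds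
  rw [h0] at h5
  have h6 : psiT D (0 : Ten I c) (f' s) = 0 := by
    unfold psiT
    simp
  rw [h6] at h5
  exact h1 h5.symm

include a1 a2 in
/-- an equivariant map that vanishes at the limit vanishes on the orbit -/
theorem DM_zero_orb {c : ℕ} {t s : Tup I len} (hnd : NdAt D t c) {g : ℕ → Matrix I I ℂ}
    (hg : ∀ j, IsG D (g j)) (hlim : Tendsto (fun j => gS (g j) t) atTop (𝓝 s))
    {f : Tup I len → Ten I c} (hf : f ∈ DM D len c) (h0 : f s = 0) {x : Tup I len}
    {y : Matrix I I ℂ} (hy : IsG D y) (hx : gS y x = t) : f x = 0 := by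
  have h1 := DM_zero a1 a2 hnd hg hlim hf h0
  rw [← hx, DM_gS a2 a1 hf _ _ hy] at h1
  obtain ⟨-, -, h2⟩ := a1.G_inv D y hy
  have h3 := congrArg (gT y⁻¹) h1
  rw [← a1.gT_mul, h2, a1.gT_one] at h3
  rw [h3]
  have h := a1.gT_smul y⁻¹ 0 (0 : Ten I c)
  rw [zero_smul, zero_smul] at h
  exact h

end alg

/-! ### The averages and their derivatives -/

section main

variable {D : Dat I Λ} (H : HM D) (a1 : Alg1)

include a1

theorem gS_add (g : Matrix I I ℂ) (u v : Tup I len) : gS g (u + v) = gS g u + gS g v := by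
  funext i
  exact a1.gT_add g (u i) (v i)

theorem gS_smul (g : Matrix I I ℂ) (c : ℂ) (u : Tup I len) : gS g (c • u) = c • gS g u := by
  funext i
  exact a1.gT_smul g c (u i)

theorem ph_line (s' ν s : Tup I len) (z : ℂ) (k : H.K) :
    ph H (s' + z • ν) s k = ph H s' s k + z * ph H ν s k := by
  unfold ph
  rw [gS_add a1, gS_smul a1, hS_add_left, hS_smul_left, add_div, mul_div_assoc]

/-- the averages -/
noncomputable def av (H : HM D) (s : Tup I len) {c : ℕ} (q₀ : Ten I c)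
    (R : Tup I len →ₗ[ℂ] Ten I c) (d : ℕ) (s' : Tup I len) : Ten I c :=
  ∫ k, gT (H.mat k) ((ph H s' s k) ^ d • (q₀ + R (gS (H.mat k⁻¹) s'))) ∂H.μ

omit a1 in
theorem av_mem (havg : AvgStatement) (s : Tup I len) {c : ℕ} (q₀ : Ten I c)
    (R : Tup I len →ₗ[ℂ] Ten I c) (d : ℕ) : av H s q₀ R d ∈ DM D len c := by
  refine havg H c (fun x => (hS x s / ((‖emb s‖ ^ 2 : ℝ) : ℂ)) ^ d • (q₀ + R x))
    (polyMap_of fun w => ?_)
  have h1 : PolyFun (fun x : Tup I len => (hS x s * ((((‖emb s‖ ^ 2 : ℝ) : ℂ)))⁻¹) ^ d) :=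
    ((PolyFun.hS s).mul (PolyFun.const _)).pow d
  have h2 : PolyFun (fun x : Tup I len =>
      ((LinearMap.proj (R := ℂ) (φ := fun _ : (Fin c → I) => ℂ) w).comp R) x) :=
    PolyFun.linear _
  exact h1.mul ((PolyFun.const (q₀ w)).add h2)

theorem cont_one (s : Tup I len) {c : ℕ} (q₀ : Ten I c) (R : Tup I len →ₗ[ℂ] Ten I c) :
    Continuous fun k : H.K => gT (H.mat k) (q₀ + R (gS (H.mat k⁻¹) s)) := by
  have hR : Continuous R := LinearMap.continuous_of_finiteDimensional R
  exact a1.gT_cont.comp (H.cont_mat.prodMk (continuous_const.add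
    (hR.comp ((cont_gS H a1 s).comp continuous_inv))))

theorem av_val (s : Tup I len) {c : ℕ} (q₀ : Ten I c) (R : Tup I len →ₗ[ℂ] Ten I c) (d : ℕ) :
    av H s q₀ R d s = ∫ k, ph H s s k ^ d • gT (H.mat k) (q₀ + R (gS (H.mat k⁻¹) s)) ∂H.μ := by
  unfold av
  refine integral_congr_ae (Eventually.of_forall fun k => ?_)
  exact a1.gT_smul _ _ _

theorem av_deriv (s ν : Tup I len) {c : ℕ} (q₀ : Ten I c) (R : Tup I len →ₗ[ℂ] Ten I c)
    (d : ℕ) : HasDerivAt (fun z : ℂ => av H s q₀ R d (s + z • ν))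
      (∫ k, (((d : ℂ) * ph H s s k ^ (d - 1) * ph H ν s k) •
        gT (H.mat k) (q₀ + R (gS (H.mat k⁻¹) s)) +
        ph H s s k ^ d • gT (H.mat k) (0 + R (gS (H.mat k⁻¹) ν))) ∂H.μ) 0 := by
  have h := CloAux.hasDerivAt_int (μ := H.μ) (ph_cont H a1 s s) (ph_cont H a1 ν s)
    (cont_one H a1 ν 0 R) (cont_one H a1 s q₀ R) d
  refine h.congr_of_eventuallyEq (Eventually.of_forall fun z => ?_)
  show av H s q₀ R d (s + z • ν) = _
  unfold av
  refine integral_congr_ae (Eventually.of_forall fun k => ?_)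
  show gT (H.mat k) (ph H (s + z • ν) s k ^ d • (q₀ + R (gS (H.mat k⁻¹) (s + z • ν)))) = _
  rw [ph_line H a1, a1.gT_smul, gS_add a1, gS_smul a1, map_add, map_smul, ← add_assoc,
    a1.gT_add, a1.gT_smul]
  simp only [zero_add]

omit a1 in
/-- the derivative on a line -/
theorem line_deriv {W : Type} [NormedAddCommGroup W] [NormedSpace ℂ W] {f : Tup I len → W}
    {s ν : Tup I len} (hf : DifferentiableAt ℂ f s) :
    HasDerivAt (fun z : ℂ => f (s + z • ν)) (fderiv ℂ f s ν) 0 := by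
  have h1 : HasDerivAt (fun z : ℂ => s + z • ν) ν 0 := by
    simpa using ((hasDerivAt_id (0 : ℂ)).smul_const ν).const_add s
  have h2 : HasFDerivAt f (fderiv ℂ f s) (s + (0 : ℂ) • ν) := by
    rw [zero_smul, add_zero]
    exact hf.hasFDerivAt
  exact h2.comp_hasDerivAt 0 h1

/-- the direction is orthogonal to `s` -/
theorem perp (H : HM D) (a2 : Alg2) (hvol : VolStatement) (hpha : PhaStatement) (havg : AvgStatement)
    {s : Tup I len} (hmin : Minimal D s) (hs : ‖emb s‖ ≠ 0) {ν : Tup I len}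
    (hν : ∀ f ∈ DM D len 0, fderiv ℂ f s ν = 0) : hS ν s = 0 := by
  obtain ⟨p, hp⟩ := peak H a1 hvol hpha hmin hs
  have hint : ∀ d : ℕ, ∫ k, ph H s s k ^ d • ph H ν s k ∂H.μ = 0 := by
    intro d
    have hm := av_mem H havg s (fun _ => (1 : ℂ) : Ten I 0) 0 (d + 1)
    have h1 := line_deriv (ν := ν) (DM_diff a2 hm s)
    have h2 := h1.unique (av_deriv H a1 s ν (fun _ => (1 : ℂ) : Ten I 0) 0 (d + 1))
    rw [hν _ hm] at h2
    have h3 := congrArg (fun u : Ten I 0 => u Fin.elim0) h2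
    have h4 : (∫ k, ((((d + 1 : ℕ) : ℂ) * ph H s s k ^ (d + 1 - 1) * ph H ν s k) •
        gT (H.mat k) ((fun _ => (1 : ℂ) : Ten I 0) +
          (0 : Tup I len →ₗ[ℂ] Ten I 0) (gS (H.mat k⁻¹) s)) +
        ph H s s k ^ (d + 1) • gT (H.mat k) (0 +
          (0 : Tup I len →ₗ[ℂ] Ten I 0) (gS (H.mat k⁻¹) ν))) ∂H.μ) =
        (((d + 1 : ℕ) : ℂ) * ∫ k, ph H s s k ^ d • ph H ν s k ∂H.μ) •
          (fun _ => (1 : ℂ) : Ten I 0) := by
      rw [← integral_const_mul, ← integral_smul_const]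
      refine integral_congr_ae (Eventually.of_forall fun k => ?_)
      show _ = _
      simp only [gT_zero_len, LinearMap.zero_apply, add_zero, smul_zero, Nat.add_sub_cancel,
        smul_eq_mul, mul_assoc]
    rw [h4] at h3
    simp only [Pi.zero_apply, Pi.smul_apply, smul_eq_mul, mul_one] at h3
    have h5 : ((d + 1 : ℕ) : ℂ) ≠ 0 := Nat.cast_ne_zero.2 (Nat.succ_ne_zero d)
    exact (mul_eq_zero.1 h3.symm).resolve_left h5
  have h1 := hp.mem_span (F := ph H ν s) (ph_cont H a1 ν s)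
    (w := hS ν s / ((‖emb s‖ ^ 2 : ℝ) : ℂ)) (by
      intro k hk
      have h2 := ph_eq_one H a1 hs rfl hk
      unfold ph
      congr 1
      rw [← hS_gS H a1 k, gS_inv H a1, h2])
  simp only [hint, Set.range_const, Submodule.span_zero_singleton, Submodule.mem_bot] at h1
  rcases div_eq_zero_iff.1 h1 with h2 | h2
  · exact h2
  · exfalso
    have h3 : ‖emb s‖ ^ 2 = 0 := by exact_mod_cast h2
    exact hs (pow_eq_zero_iff two_ne_zero |>.1 h3)

/-! ### Averages with values in tuples -/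

/-- tuples of averages -/
noncomputable def avS (H : HM D) (a1 : Alg1) (s : Tup I len) (d : ℕ) (s' : Tup I len) :
    Tup I len :=
  fun i => av H s (-(pr a1 D s s i)) ((LinearMap.proj i).comp (pr a1 D s)) d s'

/-- the tuples of equivariant maps -/
def FF (D : Dat I Λ) (len : ι → ℕ) : Submodule ℂ (Tup I len → Tup I len) where
  carrier := {f | ∀ i, (fun x => f x i) ∈ DM D len (len i)}
  zero_mem' := fun i => Submodule.zero_mem _
  add_mem' := fun hf hg i => Submodule.add_mem _ (hf i) (hg i)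
  smul_mem' := fun c _ hf i => Submodule.smul_mem _ c (hf i)

theorem avS_mem (havg : AvgStatement) (s : Tup I len) (d : ℕ) :
    avS H a1 s d ∈ FF D len := fun i => av_mem H havg s _ _ d

theorem comp_eq (s x : Tup I len) (k : H.K) (i : ι) :
    gT (H.mat k) (-(pr a1 D s s i) + ((LinearMap.proj i).comp (pr a1 D s)) (gS (H.mat k⁻¹) x)) =
      gS (H.mat k) (pr a1 D s (gS (H.mat k⁻¹) x - s)) i := by
  show _ = gT (H.mat k) ((pr a1 D s (gS (H.mat k⁻¹) x - s)) i)
  rw [map_sub, Pi.sub_apply, LinearMap.comp_apply, LinearMap.proj_apply]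
  congr 1
  abel

theorem comp_eq' (s ν : Tup I len) (k : H.K) (i : ι) :
    gT (H.mat k) (0 + ((LinearMap.proj i).comp (pr a1 D s)) (gS (H.mat k⁻¹) ν)) =
      gS (H.mat k) (pr a1 D s (gS (H.mat k⁻¹) ν)) i := by
  rw [zero_add]
  rfl

theorem cont_G (s : Tup I len) :
    Continuous fun k : H.K => gS (H.mat k) (pr a1 D s (gS (H.mat k⁻¹) s - s)) := by
  refine continuous_pi fun i => ?_
  have h := cont_one H a1 s (-(pr a1 D s s i)) ((LinearMap.proj i).comp (pr a1 D s))
  simp only [comp_eq H a1] at h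
  exact h

theorem cont_F (s ν : Tup I len) :
    Continuous fun k : H.K => gS (H.mat k) (pr a1 D s (gS (H.mat k⁻¹) ν)) := by
  refine continuous_pi fun i => ?_
  have h := cont_one H a1 ν (0 : Ten I (len i)) ((LinearMap.proj i).comp (pr a1 D s))
  simp only [comp_eq' H a1] at h
  exact h

omit a1 in
theorem int_cont {W : Type} [NormedAddCommGroup W] [NormedSpace ℂ W] [FiniteDimensional ℂ W]
    {f : H.K → W} (hf : Continuous f) : Integrable f H.μ := by
  have : ProperSpace W := FiniteDimensional.proper ℂ W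
  exact hf.integrable_of_hasCompactSupport (HasCompactSupport.of_compactSpace _)

omit a1 in
theorem int_comp {f : H.K → Tup I len} (hf : Continuous f) (i : ι) :
    (∫ k, f k ∂H.μ) i = ∫ k, f k i ∂H.μ :=
  MeasureTheory.eval_integral (f := f) (fun i =>
    int_cont H (W := Ten I (len i)) ((continuous_apply i).comp hf)) i

theorem avS_val (s : Tup I len) (d : ℕ) :
    avS H a1 s d s = ∫ k, ph H s s k ^ d •
      gS (H.mat k) (pr a1 D s (gS (H.mat k⁻¹) s - s)) ∂H.μ := by
  funext i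
  have hc : Continuous fun k : H.K => ph H s s k ^ d •
      gS (H.mat k) (pr a1 D s (gS (H.mat k⁻¹) s - s)) :=
    ((ph_cont H a1 s s).pow d).smul (cont_G H a1 s)
  refine Eq.trans ?_ (int_comp H hc i).symm
  unfold avS
  rw [av_val H a1]
  refine integral_congr_ae (Eventually.of_forall fun k => ?_)
  show _ = _
  simp only [Pi.smul_apply]
  rw [comp_eq H a1]

theorem avS_deriv (a2 : Alg2) (havg : AvgStatement) (s ν : Tup I len) (d : ℕ) :
    fderiv ℂ (avS H a1 s d) s ν =
      ∫ k, (((d : ℂ) * ph H s s k ^ (d - 1) * ph H ν s k) •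
        gS (H.mat k) (pr a1 D s (gS (H.mat k⁻¹) s - s)) +
        ph H s s k ^ d • gS (H.mat k) (pr a1 D s (gS (H.mat k⁻¹) ν))) ∂H.μ := by
  have hdiff : Differentiable ℂ (avS H a1 s d) := by
    rw [differentiable_pi]
    exact fun i => DM_diff a2 (avS_mem H a1 havg s d i)
  have h1 := line_deriv (ν := ν) (hdiff s)
  rw [hasDerivAt_pi] at h1
  funext i
  have h2 := (h1 i).unique (av_deriv H a1 s ν (-(pr a1 D s s i))
    ((LinearMap.proj i).comp (pr a1 D s)) d)
  have hc : Continuous fun k : H.K => ((d : ℂ) * ph H s s k ^ (d - 1) * ph H ν s k) •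
        gS (H.mat k) (pr a1 D s (gS (H.mat k⁻¹) s - s)) +
        ph H s s k ^ d • gS (H.mat k) (pr a1 D s (gS (H.mat k⁻¹) ν)) :=
    (((continuous_const.mul ((ph_cont H a1 s s).pow (d - 1))).mul
      (ph_cont H a1 ν s)).smul (cont_G H a1 s)).add
      (((ph_cont H a1 s s).pow d).smul (cont_F H a1 s ν))
  rw [h2]
  refine Eq.trans ?_ (int_comp H hc i).symm
  refine integral_congr_ae (Eventually.of_forall fun k => ?_)
  show _ = _
  simp only [Pi.smul_apply, Pi.add_apply]
  rw [comp_eq H a1, comp_eq' H a1]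

/-- on the stabiliser of `s` the slice is preserved -/
theorem F_val (s ν : Tup I len) (hν : ν ∈ sli a1 D s) (k : H.K) (hk : gS (H.mat k) s = s) :
    gS (H.mat k) (pr a1 D s (gS (H.mat k⁻¹) ν)) = ν := by
  rw [pr_eq_self a1, gS_inv H a1]
  rw [mem_sli a1]
  intro A hA
  obtain ⟨hgi, h1, h2⟩ := a1.G_inv D (H.mat k) (H.mem k).1
  have e1 : gS (H.mat k) (aS A s) = aS (H.mat k * A * (H.mat k)⁻¹) s := by
    conv_rhs => rw [← hk]
    funext i
    exact a1.gT_aT (H.mat k) A (s i) h1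
  rw [← hS_gS H a1 k, gS_inv H a1, e1]
  exact (mem_sli a1 D s).1 hν _ (Lie_conj a1 _ _ (H.mem k).1 hA)

/-- the direction is zero -/
theorem dir_zero (H : HM D) (a2 : Alg2) (hvol : VolStatement) (hpha : PhaStatement)
    (havg : AvgStatement) {s : Tup I len} (hmin : Minimal D s) (hs : ‖emb s‖ ≠ 0)
    {ν : Tup I len} (hν : ν ∈ sli a1 D s) (hνs : hS ν s = 0)
    (L : Tup I len →ₗ[ℂ] Tup I len)
    (hL : ∀ d : ℕ, L (avS H a1 s d s) = fderiv ℂ (avS H a1 s d) s ν) : ν = 0 := by
  obtain ⟨p, hp⟩ := peak H a1 hvol hpha hmin hs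
  have hs0 : 0 < ‖emb s‖ ^ 2 := by positivity
  have hre : ∀ k, 1 - (ph H s s k).re = dl H s k ^ 2 / (2 * ‖emb s‖ ^ 2) := by
    intro k
    rw [one_sub_ph H a1 hs rfl, ← dl_eq, dl_inv H a1]
  have hdl : ∀ k, 0 ≤ dl H s k := fun k => by
    rw [dl_eq]
    exact norm_nonneg _
  refine hp.eq_zero (F := fun k => gS (H.mat k) (pr a1 D s (gS (H.mat k⁻¹) ν)))
    (G := fun k => gS (H.mat k) (pr a1 D s (gS (H.mat k⁻¹) s - s))) (χ := ph H ν s)
    (cont_F H a1 s ν) (cont_G H a1 s) (ph_cont H a1 ν s) ?_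
    (C := 2 * ‖emb ν‖ ^ 2 / ‖emb s‖ ^ 2) ?_ ?_ L ?_
  · intro k hk
    exact F_val H a1 s ν hν k (ph_eq_one H a1 hs rfl hk)
  · intro k
    have h1 : ‖ph H ν s k‖ ≤ ‖emb ν‖ * dl H s k / ‖emb s‖ ^ 2 := by
      unfold ph
      rw [norm_div, Complex.norm_real, Real.norm_eq_abs, abs_of_pos hs0]
      gcongr
      have h2 : hS (gS (H.mat k⁻¹) ν) s = hS ν (gS (H.mat k) s - s) := by
        rw [hS_sub_right, hνs, sub_zero, ← hS_gS H a1 k, gS_inv H a1]
      rw [h2, dl_eq, ← emb_sub]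
      exact norm_hS_le _ _
    calc ‖ph H ν s k‖ ^ 2 ≤ (‖emb ν‖ * dl H s k / ‖emb s‖ ^ 2) ^ 2 := by gcongr
      _ = 2 * ‖emb ν‖ ^ 2 / ‖emb s‖ ^ 2 * (1 - (ph H s s k).re) := by
          rw [hre]
          field_simp
  · intro e he
    set ε : ℝ := Real.sqrt (e / (2 * ‖emb s‖ ^ 2)) with hε
    have hε0 : 0 < ε := Real.sqrt_pos.2 (by positivity)
    have hε2 : ε ^ 2 = e / (2 * ‖emb s‖ ^ 2) := Real.sq_sqrt (by positivity)
    obtain ⟨η, hη, h1⟩ := (hpha H s).2 ε hε0
    refine ⟨η ^ 2 / (2 * ‖emb s‖ ^ 2), by positivity, ?_⟩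
    intro k hk
    rw [hre, div_lt_div_iff_of_pos_right (by positivity)] at hk
    have h2 : dl H s k < η := lt_of_pow_lt_pow_left₀ 2 hη.le hk
    set y : Tup I len := gS (H.mat k⁻¹) s - s with hy
    have h3 := h1 k⁻¹ (by rw [dl_inv H a1]; exact h2) (pr a1 D s y)
      ((mem_sli a1 D s).1 (pr_mem a1 D s y))
    rw [← hy, hS_pr, dl_inv H a1, hS_self, Complex.ofReal_re, Real.sqrt_sq (norm_nonneg _),
      Complex.norm_real, Real.norm_eq_abs, abs_of_nonneg (by positivity)] at h3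
    have h4 : ‖emb (pr a1 D s y)‖ ≤ ε * dl H s k := by
      rcases (norm_nonneg (emb (pr a1 D s y))).eq_or_lt with h0 | h0
      · rw [← h0]
        exact mul_nonneg hε0.le (hdl k)
      · refine le_of_mul_le_mul_right ?_ h0
        calc ‖emb (pr a1 D s y)‖ * ‖emb (pr a1 D s y)‖ = ‖emb (pr a1 D s y)‖ ^ 2 := by ring
          _ ≤ ε * ‖emb (pr a1 D s y)‖ * dl H s k := h3
          _ = ε * dl H s k * ‖emb (pr a1 D s y)‖ := by ring
    have h5 : ‖gS (H.mat k) (pr a1 D s y)‖ ≤ ε * dl H s k :=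
      ((norm_le_emb _).trans_eq (norm_gS H a1 k _)).trans h4
    calc ‖gS (H.mat k) (pr a1 D s y)‖ ^ 2 ≤ (ε * dl H s k) ^ 2 := by gcongr
      _ = e * (1 - (ph H s s k).re) := by
          rw [hre, mul_pow, hε2]
          field_simp
  · intro d
    rw [← avS_val H a1, hL d, avS_deriv H a1 a2 havg]

end main

end CloT

open CloT L12 in
/-- Row CLO. -/
theorem clo (a1 : Alg1) (a2 : Alg2) (hvol : VolStatement) (hpha : PhaStatement)
    (havg : AvgStatement) : CloStatement := by
  intro I Λ ι _ _ _ _ len D H t s hnd hs hmin g hg hlim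
  have hs1 : ‖emb s‖ ≠ 0 := by
    intro h0
    rw [hS_self, h0] at hs
    simp at hs
  by_contra hcon
  set Orb : Set (Tup I len) := {x | ∃ y, IsG D y ∧ gS y x = t} with hOrb
  have hsO : s ∉ Orb := hcon
  have hcl : s ∈ closure Orb := by
    refine mem_closure_of_tendsto hlim (Eventually.of_forall fun j => ?_)
    obtain ⟨h1, -, h2⟩ := a1.G_inv D (g j) (hg j)
    refine ⟨(g j)⁻¹, h1, ?_⟩
    rw [← L12.gS_mul a1, h2, gS_one a1]
  have hexp : ∀ A ∈ lie (len := len) a1 D, ∀ x, NormedSpace.exp A x ∈ Orb → x ∈ Orb := by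
    rintro _ ⟨A, hA, rfl⟩ x ⟨y, hy, h1⟩
    rw [exp_aC, ← L12.gS_mul a1] at h1
    exact ⟨y * NormedSpace.exp A, a1.G_mul D _ _ hy (a1.G_exp D A hA), h1⟩
  have hN : ∀ x : Tup I len, ∃ A ∈ lie (len := len) a1 D, ∃ n ∈ sli a1 D s, x = A s + n := by
    intro x
    obtain ⟨A, hA, e⟩ := exists_lie a1 D s x
    exact ⟨aC a1 A, ⟨A, hA, rfl⟩, pr a1 D s x, pr_mem a1 D s x, e⟩
  obtain ⟨ν, hν, hν0, hder⟩ := CloAux.exists_direction (lie a1 D) (sli a1 D s) s hN Orb hexp hcl hsO
  -- invariants are constant on the orbit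
  have hinv : ∀ f ∈ DM D len 0, ∀ x ∈ Orb, f x = f s := by
    intro f hf
    have h1 : ∀ x y, IsG D y → f (gS y x) = f x := fun x y hy => by
      rw [DM_gS a2 a1 hf _ _ hy, gT_zero_len]
    have h2 : f s = f t := by
      have h3 : Tendsto (fun j => f (gS (g j) t)) atTop (𝓝 (f s)) :=
        ((DM_diff a2 hf).continuous.tendsto s).comp hlim
      simp only [h1 _ _ (hg _)] at h3
      exact tendsto_nhds_unique h3 tendsto_const_nhds
    rintro x ⟨y, hy, hx⟩
    rw [h2, ← hx, h1 x y hy]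
  have hperp : hS ν s = 0 := perp a1 H a2 hvol hpha havg hmin hs1 fun f hf =>
    hder (Ten I 0) f (DM_diff a2 hf s) (hinv f hf)
  have hdF : ∀ f ∈ FF D len, Differentiable ℂ f := by
    intro f hf
    rw [differentiable_pi]
    exact fun i => DM_diff a2 (hf i)
  obtain ⟨L, hL⟩ := CloAux.exists_linear (FF D len) (s := s) (ν := ν)
    (fun f hf => hdF f hf s) (fun f hf h0 => by
      refine hder (Tup I len) f (hdF f hf s) ?_
      rintro x ⟨y, hy, hx⟩
      rw [h0]
      funext i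
      exact DM_zero_orb a1 a2 (hnd i) hg hlim (hf i) (congrFun h0 i) hy hx)
  exact hν0 (dir_zero a1 H a2 hvol hpha havg hmin hs1 hν hperp L fun d =>
    hL _ (avS_mem H a1 havg s d))

end Pool.Agent.Lib.MP_361a6f_ag.FL
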