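import Pool.Agent.Lib.MP_361a6f_ag.FL.GeoDefs
import Pool.Agent.Lib.MP_361a6f_ag.FL.Bas
import Pool.Agent.Lib.MP_361a6f_ag.PP.LAM
import Pool.Agent.Lib.MP_361a6f_ag.PP.StaB
import Pool.Agent.Lib.MP_361a6f_ag.PP.Blk1

/-!
# Finite level, row GB: adapted bases of the cohomology of the factors
-/

open CategoryTheory AlgebraicGeometry MonoidalCategory CartesianMonoidalCategory

universe u v w

set_option linter.unusedSectionVars false

namespace Pool.Agent.Lib.MP_361a6f_ag.FL

open Pool.Agent.Lib.MP_361a6f_ag.H3 Pool.Agent.Lib.MP_361a6f_ag.SQ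
  Pool.Agent.Lib.MP_361a6f_ag.PP

namespace GB26

variable {k : Type u} [Field k]

section one

variable {W : CohomologyData.{u, 0, w} k ℂ} {𝒱 : VarietyClass k} (hW : IsWeilCohomology W 𝒱)
  {X : Sch k} {n : ℕ} (hX : 𝒱.mem X n) {ξ : W.coh X} (hξ : ξ ∈ W.alg X 1)
  {Lam : Module.End ℂ (W.coh X)} (D : LamData W X n ξ Lam)

/-- `ψ` on `H^i(X)` -/
noncomputable def ps (i : ℕ) : W.gr X i →ₗ[ℂ] W.gr X i →ₗ[ℂ] ℂ :=
  LinearMap.mk₂ ℂ (fun x y => psi W X ξ Lam D.slm.internal (x : W.coh X) (y : W.coh X))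
    (fun x x' y => by rw [psi, psi, psi, Submodule.coe_add, add_mul, map_add])
    (fun c x y => by rw [psi, psi, Submodule.coe_smul, smul_mul_assoc, map_smul])
    (fun x y y' => by rw [psi, psi, psi, Submodule.coe_add, map_add, mul_add, map_add])
    (fun c x y => by rw [psi, psi, Submodule.coe_smul, map_smul, mul_smul_comm, map_smul])

theorem ps_apply (i : ℕ) (x y : W.gr X i) :
    ps D i x y = psi W X ξ Lam D.slm.internal (x : W.coh X) (y : W.coh X) := rfl

include hW hX hξ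

theorem symm_gr {i : ℕ} {x : W.coh X} (hx : x ∈ W.gr X i) (y : W.coh X) :
    psi W X ξ Lam D.slm.internal y x = (-1 : ℂ) ^ i * psi W X ξ Lam D.slm.internal x y := by
  rw [BLK.psi_symm hW staB hX hξ D, epsOp, gop_apply _ _ hx, psi, smul_mul_assoc, map_smul,
    smul_eq_mul, psi]

theorem orth {i j : ℕ} {x y : W.coh X} (hx : x ∈ W.gr X i) (hy : y ∈ W.gr X j) (hij : i ≠ j) :
    psi W X ξ Lam D.slm.internal x y = 0 := by
  by_cases hj : j ≤ 2 * n
  · have h1 := (staB D.slm).1 j y hj hy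
    exact hW.tr_gr hX (hW.mul_gr hX hx h1) (by omega)
  · rw [D.slm.top j y hy (by omega), psi, map_zero, mul_zero, map_zero]

theorem nondeg_gr (i : ℕ) (x : W.gr X i) (h : ∀ y, ps D i x y = 0) : x = 0 := by
  have h1 : (x : W.coh X) = 0 := by
    refine BLK.psi_nondeg hW staB hX hξ D _ fun z => ?_
    rw [symm_gr hW hX hξ D x.2]
    have : psi W X ξ Lam D.slm.internal (x : W.coh X) z = 0 := by
      refine hW.hom_induction hX (P := fun z => psi W X ξ Lam D.slm.internal (x : W.coh X) z = 0)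
        z ?_ ?_ ?_
      · intro j z hz
        by_cases hij : i = j
        · subst hij
          exact h ⟨z, hz⟩
        · exact orth hW hX hξ D x.2 hz hij
      · rw [psi, map_zero, mul_zero, map_zero]
      · intro a b ha hb
        rw [psi] at ha hb ⊢
        rw [map_add, mul_add, map_add, ha, hb, add_zero]
    rw [this, mul_zero]
  exact Subtype.ext h1

end one

end GB26

open GB26 in
theorem gb26 : GbStatement.{u, w} := by
  intro k _ W 𝒱 hW m X n mem ξ hξ hHL hAL
  choose Lam hLam using fun a => PP.lam hW (mem a) (hξ a) (hHL a) (hAL a)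
  have hfin : ∀ a, FiniteDimensional ℂ (W.coh (X a)) := fun a => hW.finite (mem a)
  obtain ⟨N, b, t, D0, htyp, hodd, hτ, hgram⟩ := exists_dat.{w} (Λ := Σ a : Fin m, Fin (2 * n a + 1))
    (fun α => W.gr (X α.1) (α.2 : ℕ)) (fun α => Odd (α.2 : ℕ))
    (fun α => ps (hLam α.1) (α.2 : ℕ))
    (fun α x y ho => by
      rw [ps_apply, ps_apply, symm_gr hW (mem α.1) (hξ α.1) (hLam α.1) x.2, ho.neg_one_pow]
      ring)
    (fun α x y ho => by
      rw [ps_apply, ps_apply, symm_gr hW (mem α.1) (hξ α.1) (hLam α.1) x.2,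
        (Nat.not_odd_iff_even.1 ho).neg_one_pow]
      ring)
    (fun α x h => nondeg_gr hW (mem α.1) (hξ α.1) (hLam α.1) _ x h)
  classical
  let I : Type := Σ α : (Σ a : Fin m, Fin (2 * n a + 1)), Fin (N α)
  let D : Dat I (Fin m × ℕ) :=
    { typ := fun x => (x.1.1, (x.1.2 : ℕ))
      odd := fun l => Odd l.2
      τ := D0.τ
      s := D0.s
      τ_τ := D0.τ_τ
      typ_τ := fun x => by
        have h := congrArg (fun z : I => ((z.1.1, (z.1.2 : ℕ)) : Fin m × ℕ)) (hτ x)
        exact h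
      s_val := D0.s_val
      even_τ := fun x hx => D0.even_τ x (by rw [hodd, htyp]; exact hx)
      odd_τ := fun x hx => D0.odd_τ x (by rw [hodd, htyp]; exact hx) }
  let e : ∀ a, I → W.coh (X a) := fun a x =>
    Pi.single (M := fun a => W.coh (X a)) x.1.1 ((b x.1 x.2 : W.gr (X x.1.1) (x.1.2 : ℕ)) :
      W.coh (X x.1.1)) a
  have he : ∀ (a : Fin m) (i : Fin (2 * n a + 1)) (p : Fin (N ⟨a, i⟩)),
      e a ⟨⟨a, i⟩, p⟩ = (b ⟨a, i⟩ p : W.coh (X a)) := fun a i p => Pi.single_eq_same _ _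
  refine ⟨{ hW := hW, X := X, n := n, mem := mem, ξ := ξ, ξ_alg := hξ, Lam := Lam, lam := hLam,
            I := I, fin := inferInstance, dec := inferInstance, D := D,
            odd_iff := fun _ => Iff.rfl, e := e, e_ne := ?_, e_gr := ?_, e_psi := ?_,
            e_span := ?_ }, rfl, rfl, HEq.rfl⟩
  · intro a x hx
    exact Pi.single_eq_of_ne (Ne.symm hx) _
  · intro a x
    by_cases hx : x.1.1 = a
    · obtain ⟨⟨a', i⟩, p⟩ := x
      obtain rfl : a' = a := hx
      rw [he]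
      exact (b ⟨a', i⟩ p).2
    · have : e a x = 0 := Pi.single_eq_of_ne (Ne.symm hx) _
      rw [this]
      exact zero_mem _
  · intro a x y hx hy
    obtain ⟨⟨a', i⟩, p⟩ := x
    obtain rfl : a' = a := hx
    obtain ⟨⟨a'', j⟩, q⟩ := y
    obtain rfl : a'' = a' := hy
    rw [he, he]
    by_cases hij : i = j
    · subst hij
      have h1 := hgram ⟨a'', i⟩ p q
      rw [ps_apply] at h1
      rw [h1]
      refine if_congr ?_ rfl rfl
      change q = t ⟨a'', i⟩ p ↔ (⟨⟨a'', i⟩, q⟩ : I) = D0.τ ⟨⟨a'', i⟩, p⟩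
      rw [hτ]
      constructor
      · rintro rfl; rfl
      · intro h
        simpa using h
    · rw [orth hW (mem a'') (hξ a'') (hLam a'') (b _ p).2 (b _ q).2
        (fun h => hij (Fin.ext h)), if_neg]
      change ¬ (⟨⟨a'', j⟩, q⟩ : I) = D0.τ ⟨⟨a'', i⟩, p⟩
      rw [hτ]
      intro h
      apply hij
      have h2 := congrArg (fun z : I => z.1) h
      simp only [Sigma.mk.injEq, heq_eq_eq, true_and] at h2
      exact h2.symm
  · intro a
    rw [eq_top_iff]
    rintro x -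
    refine hW.hom_induction (mem a) (P := fun x => x ∈ Submodule.span ℂ (Set.range (e a))) x
      ?_ (zero_mem _) (fun _ _ h h' => add_mem h h')
    intro i x hx
    by_cases hi : i ≤ 2 * n a
    · have h1 := (b ⟨a, ⟨i, by omega⟩⟩).mem_span ⟨x, hx⟩
      have h2 : (Submodule.span ℂ (Set.range (b ⟨a, ⟨i, by omega⟩⟩))).map
          (W.gr (X a) i).subtype ≤ Submodule.span ℂ (Set.range (e a)) := by
        rw [Submodule.map_span, Submodule.span_le]
        rintro _ ⟨_, ⟨p, rfl⟩, rfl⟩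
        refine Submodule.subset_span ⟨⟨⟨a, ⟨i, by omega⟩⟩, p⟩, ?_⟩
        exact he a ⟨i, by omega⟩ p
      exact h2 ⟨⟨x, hx⟩, h1, rfl⟩
    · rw [hW.top_gr (mem a) hx (by omega)]
      exact zero_mem _

end Pool.Agent.Lib.MP_361a6f_ag.FL
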