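import Mathlib

/-!
# Finite level: tensors, isometries and diagrams in coordinates

The abstract part of the theorem that positivity (nondegeneracy) at a finite level passes to all
levels. `I` indexes a basis of a complex vector space `V`, orthonormal (symplectic) for a form `ψ`
on the even (odd) letters; tensors of length `L` are functions on `Fin L → I`.
-/

open Filter Topology MeasureTheory

namespace Pool.Agent.Lib.MP_361a6f_ag.FL

/-- a basis indexed by `I`, adapted to the form `ψ(e_i, e_j) = s_i` if `j = τ i`, and `0`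
otherwise; `typ i` is the letter of `i` -/
structure Dat (I Λ : Type) where
  typ : I → Λ
  odd : Λ → Prop
  τ : I → I
  s : I → ℂ
  τ_τ : ∀ i, τ (τ i) = i
  typ_τ : ∀ i, typ (τ i) = typ i
  s_val : ∀ i, s i = 1 ∨ s i = -1
  even_τ : ∀ i, ¬ odd (typ i) → τ i = i ∧ s i = 1
  odd_τ : ∀ i, odd (typ i) → τ i ≠ i ∧ s (τ i) = -s i

/-- tensors of length `L` -/
abbrev Ten (I : Type) (L : ℕ) : Type := (Fin L → I) → ℂ

noncomputable section

variable {I Λ : Type} [Fintype I] [DecidableEq I] [DecidableEq Λ] (D : Dat I Λ)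

/-- the sign of a word -/
def sg {L : ℕ} (w : Fin L → I) : ℂ := ∏ i, D.s (w i)

/-- the form `ψ` -/
def psiT {L : ℕ} (u v : Ten I L) : ℂ := ∑ w, sg D w * (u w * v (D.τ ∘ w))

/-- the antilinear operator `J₀` -/
def jT {L : ℕ} (u : Ten I L) : Ten I L :=
  fun w => sg D (D.τ ∘ w) * (starRingEnd ℂ) (u (D.τ ∘ w))

/-- the hermitian form -/
def hT {L : ℕ} (u v : Ten I L) : ℂ := ∑ w, u w * (starRingEnd ℂ) (v w)

/-- the action of a matrix on tensors -/
def gT (g : Matrix I I ℂ) {L : ℕ} (u : Ten I L) : Ten I L :=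
  fun w => ∑ w', (∏ i, g (w i) (w' i)) * u w'

/-- the action of a matrix as a derivation -/
def aT (A : Matrix I I ℂ) {L : ℕ} (u : Ten I L) : Ten I L :=
  fun w => ∑ i, ∑ j, A (w i) j * u (Function.update w i j)

/-- the outer product -/
def outer {p q : ℕ} (u : Ten I p) (v : Ten I q) : Ten I (p + q) :=
  fun w => u (fun i => w (Fin.castAdd q i)) * v (fun i => w (Fin.natAdd p i))

/-- permutation of the slots -/
def permT {L : ℕ} (σ : Equiv.Perm (Fin L)) (u : Ten I L) : Ten I L := fun w => u (w ∘ σ)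

/-- contraction of `u` with the first slots of `m`, by `ψ` -/
def cont {p c : ℕ} (u : Ten I p) (m : Ten I (p + c)) : Ten I c :=
  fun w => ∑ w' : Fin p → I, sg D w' * (u w' * m (Fin.append (D.τ ∘ w') w))

/-- the invariant tensor of length `2` of the letter `α` -/
def om (α : Λ) : Ten I 2 :=
  fun w => if D.typ (w 0) = α ∧ w 1 = D.τ (w 0) then D.s (w 0) else 0

/-- matchings: permuted outer products of the tensors `om α` -/
inductive IsMatch : (L : ℕ) → Ten I L → Prop
  | nil : IsMatch 0 (fun _ => 1)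
  | step (L : ℕ) (m : Ten I L) (α : Λ) : IsMatch L m → IsMatch (L + 2) (outer m (om D α))
  | perm (L : ℕ) (m : Ten I L) (σ : Equiv.Perm (Fin L)) : IsMatch L m → IsMatch L (permT σ m)

/-- the matrix of `ψ` -/
def Psi : Matrix I I ℂ := Matrix.of fun i j => if j = D.τ i then D.s i else 0

/-- `g` preserves the letters and `ψ` -/
def IsG (g : Matrix I I ℂ) : Prop :=
  (∀ i j, D.typ i ≠ D.typ j → g i j = 0) ∧ g.transpose * Psi D * g = Psi D

/-- the unitary elements of the group -/
def IsK (g : Matrix I I ℂ) : Prop := IsG D g ∧ g.conjTranspose * g = 1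

/-- the Lie algebra -/
def IsLie (A : Matrix I I ℂ) : Prop :=
  (∀ i j, D.typ i ≠ D.typ j → A i j = 0) ∧ A.transpose * Psi D + Psi D * A = 0

/-! ### Tuples of tensors and diagrams -/

variable {ι : Type} [Fintype ι] (len : ι → ℕ)

/-- tuples of tensors -/
abbrev Tup (I : Type) {ι : Type} (len : ι → ℕ) : Type := ∀ i, Ten I (len i)

variable {len}

/-- the action of a matrix on tuples -/
def gS (g : Matrix I I ℂ) (s : Tup I len) : Tup I len := fun i => gT g (s i)

/-- the action as a derivation -/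
def aS (A : Matrix I I ℂ) (s : Tup I len) : Tup I len := fun i => aT A (s i)

/-- `J₀` on tuples -/
def jS (s : Tup I len) : Tup I len := fun i => jT D (s i)

/-- the hermitian form on tuples -/
def hS (s s' : Tup I len) : ℂ := ∑ i, hT (s i) (s' i)

/-- the outer product of the members of a tuple with the indices in a list -/
def prodT (s : Tup I len) : (l : List ι) → Ten I (l.map len).sum
  | [] => fun _ => 1
  | i :: l => outer (s i) (prodT s l)

/-- the diagram map: contraction of an outer product of members of `s` with `m` -/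
def dm (c : ℕ) (l : List ι) (m : Ten I ((l.map len).sum + c)) (s : Tup I len) : Ten I c :=
  cont D (prodT s l) m

variable (len) in
/-- the space of the diagram maps -/
def DM (c : ℕ) : Submodule ℂ (Tup I len → Ten I c) :=
  Submodule.span ℂ {f | ∃ (l : List ι) (m : Ten I ((l.map len).sum + c)),
    IsMatch D _ m ∧ f = dm D c l m}

/-- the complex span of the values of the diagram maps at `s` -/
def MT (s : Tup I len) (c : ℕ) : Submodule ℂ (Ten I c) :=
  Submodule.span ℂ {u | ∃ (l : List ι) (m : Ten I ((l.map len).sum + c)),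
    IsMatch D _ m ∧ u = dm D c l m s}

/-- the real span of the values of the diagram maps at `s` -/
def RT (s : Tup I len) (c : ℕ) : Submodule ℝ (Ten I c) :=
  Submodule.span ℝ {u | ∃ (l : List ι) (m : Ten I ((l.map len).sum + c)),
    IsMatch D _ m ∧ u = dm D c l m s}

/-- `ψ` is positive definite on the real span in length `c` -/
def PosAt (s : Tup I len) (c : ℕ) : Prop :=
  ∀ u ∈ RT D s c, u ≠ 0 → ∃ r : ℝ, 0 < r ∧ psiT D u u = (r : ℂ)

/-- `ψ` is nondegenerate on the complex span in length `c` -/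
def NdAt (s : Tup I len) (c : ℕ) : Prop :=
  ∀ u ∈ MT D s c, u ≠ 0 → ∃ v ∈ MT D s c, psiT D u v ≠ 0

/-- `s` is a critical point of the norm on its orbit -/
def Minimal (s : Tup I len) : Prop := ∀ A, IsLie D A → hS (aS A s) s = 0

/-- polynomial maps on tuples -/
def PolyMap {c : ℕ} (P : Tup I len → Ten I c) : Prop :=
  ∃ p : (Fin c → I) → MvPolynomial (Σ i, (Fin (len i) → I)) ℂ,
    ∀ s w, P s w = MvPolynomial.eval (fun x => s x.1 x.2) (p w)

/-! ### The compact group with its Haar measure -/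

/-- a model of the compact group of all `g` with `IsK D g` -/
structure HM (D : Dat I Λ) where
  K : Type
  [grp : Group K]
  [top : TopologicalSpace K]
  [itg : IsTopologicalGroup K]
  [cpt : CompactSpace K]
  [t2 : T2Space K]
  [sc : SecondCountableTopology K]
  [ms : MeasurableSpace K]
  [bs : BorelSpace K]
  mat : K →* Matrix I I ℂ
  cont_mat : Continuous mat
  mem : ∀ k, IsK D (mat k)
  surj : ∀ g, IsK D g → ∃ k, mat k = g
  inj : Function.Injective mat
  μ : Measure K
  [prob : IsProbabilityMeasure μ]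
  [left_inv : μ.IsMulLeftInvariant]
  [right_inv : μ.IsMulRightInvariant]
  [inv_inv : μ.IsInvInvariant]
  [open_pos : μ.IsOpenPosMeasure]

attribute [instance] HM.grp HM.top HM.itg HM.cpt HM.t2 HM.sc HM.ms HM.bs HM.prob HM.left_inv
  HM.right_inv HM.inv_inv HM.open_pos

/-- the distance from `k s` to `s`, in the norm of `hS` -/
def dl {D : Dat I Λ} (H : HM D) (s : Tup I len) (k : H.K) : ℝ :=
  Real.sqrt (hS (gS (H.mat k) s - s) (gS (H.mat k) s - s)).re

end

/-! ### Statements of the rows -/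

section rows

variable (I Λ : Type)

/-- Row FFT: invariant tensors are combinations of matchings. -/
def FftStatement : Prop :=
  ∀ {I Λ : Type} [Fintype I] [DecidableEq I] [DecidableEq Λ] (D : Dat I Λ) (L : ℕ) (u : Ten I L),
    (∀ g, IsK D g → gT g u = u) → u ∈ Submodule.span ℂ {m | IsMatch D L m}

/-- Row CPT: the compact group and its Haar measure. -/
def CptStatement : Prop :=
  ∀ {I Λ : Type} [Fintype I] [DecidableEq I] [DecidableEq Λ] (D : Dat I Λ), Nonempty (HM D)

/-- Row AVG: the average of a polynomial map is a diagram map. -/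
def AvgStatement : Prop :=
  ∀ {I Λ ι : Type} [Fintype I] [DecidableEq I] [DecidableEq Λ] [Fintype ι] {len : ι → ℕ}
    {D : Dat I Λ} (H : HM D) (c : ℕ) (P : Tup I len → Ten I c), PolyMap P →
    (fun s => ∫ k, gT (H.mat k) (P (gS (H.mat k⁻¹) s)) ∂H.μ) ∈ DM D len c

/-- Row VOL: lower bound for the volume of the set of the `k` with `|k s - s| < r`. -/
def VolStatement : Prop :=
  ∀ {I Λ ι : Type} [Fintype I] [DecidableEq I] [DecidableEq Λ] [Fintype ι] {len : ι → ℕ}
    {D : Dat I Λ} (H : HM D) (s : Tup I len),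
    ∃ (c : ℝ) (m : ℕ), 0 < c ∧ ∀ r : ℝ, 0 < r → r ≤ 1 → c * r ^ m ≤ (H.μ {k | dl H s k < r}).toReal

/-- Row PHA: the phase of `h(k s, s)` and the normal component of `k s - s` near the stabiliser
of `s`. -/
def PhaStatement : Prop :=
  ∀ {I Λ ι : Type} [Fintype I] [DecidableEq I] [DecidableEq Λ] [Fintype ι] {len : ι → ℕ}
    {D : Dat I Λ} (H : HM D) (s : Tup I len),
    (Minimal D s → ∀ ε : ℝ, 0 < ε → ∃ η : ℝ, 0 < η ∧ ∀ k, dl H s k < η →
      |(hS (gS (H.mat k) s) s).im| ≤ ε * dl H s k ^ 2) ∧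
    (∀ ε : ℝ, 0 < ε → ∃ η : ℝ, 0 < η ∧ ∀ k, dl H s k < η → ∀ ν : Tup I len,
      (∀ A, IsLie D A → hS ν (aS A s) = 0) →
      ‖hS ν (gS (H.mat k) s - s)‖ ≤ ε * Real.sqrt (hS ν ν).re * dl H s k)

/-- Row L1: minimal points with the same invariants are conjugate under the compact group. -/
def L1Statement : Prop :=
  ∀ {I Λ ι : Type} [Fintype I] [DecidableEq I] [DecidableEq Λ] [Fintype ι] {len : ι → ℕ}
    {D : Dat I Λ} (H : HM D) (s s' : Tup I len), Minimal D s → hS s s ≠ 0 → hS s' s' = hS s s →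
    (∀ (l : List ι) (m : Ten I ((l.map len).sum + 0)), IsMatch D _ m →
      dm D 0 l m s' = dm D 0 l m s) → ∃ k, gS (H.mat k) s = s'

/-- Row L2: at a minimal point the tensors fixed by the stabiliser are values of diagram maps. -/
def L2Statement : Prop :=
  ∀ {I Λ ι : Type} [Fintype I] [DecidableEq I] [DecidableEq Λ] [Fintype ι] {len : ι → ℕ}
    {D : Dat I Λ} (H : HM D) (s : Tup I len), Minimal D s → hS s s ≠ 0 → ∀ (c : ℕ) (v : Ten I c),
    (∀ k, gS (H.mat k) s = s → gT (H.mat k) v = v) → v ∈ MT D s c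

/-- Row MIN: a minimal point in the closure of the orbit. -/
def MinStatement : Prop :=
  ∀ {I Λ ι : Type} [Fintype I] [DecidableEq I] [DecidableEq Λ] [Fintype ι] {len : ι → ℕ}
    (D : Dat I Λ) (t : Tup I len), ∃ (s : Tup I len) (g : ℕ → Matrix I I ℂ),
    (∀ j, IsG D (g j)) ∧ Tendsto (fun j => gS (g j) t) atTop (𝓝 s) ∧ Minimal D s

/-- Row CLO: the orbit is closed. -/
def CloStatement : Prop :=
  ∀ {I Λ ι : Type} [Fintype I] [DecidableEq I] [DecidableEq Λ] [Fintype ι] {len : ι → ℕ}
    {D : Dat I Λ} (_ : HM D) (t s : Tup I len), (∀ i, NdAt D t (len i)) → hS s s ≠ 0 →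
    Minimal D s → ∀ g : ℕ → Matrix I I ℂ, (∀ j, IsG D (g j)) →
    Tendsto (fun j => gS (g j) t) atTop (𝓝 s) → ∃ g, IsG D g ∧ gS g s = t

/-- Row REAL: a minimal point at which the real span of the diagrams is positive is fixed by
`J₀`. -/
def RealStatement : Prop :=
  ∀ {I Λ ι : Type} [Fintype I] [DecidableEq I] [DecidableEq Λ] [Fintype ι] {len : ι → ℕ}
    {D : Dat I Λ} (_ : HM D) (s : Tup I len), Minimal D s → hS s s ≠ 0 →
    (∀ i, PosAt D s (len i)) → PosAt D s 0 → jS D (jS D s) = s → jS D s = s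

/-- Theorem X (nondegenerate form). -/
def XStatement : Prop :=
  ∀ {I Λ ι : Type} [Fintype I] [DecidableEq I] [DecidableEq Λ] [Fintype ι] {len : ι → ℕ}
    (D : Dat I Λ) (t : Tup I len), (∀ i, NdAt D t (len i)) →
    (∃ i, len i = 0 ∧ ∀ w, t i w = 1) →
    ∃ g, IsG D g ∧ ∀ (c : ℕ) (v : Ten I c), (∀ x, IsG D x → gS x t = t → gT x v = v) →
      v ∈ MT D t c ∧ gT g (jT D (gT g⁻¹ v)) ∈ MT D t c

/-- Theorem Y (positive form). -/
def YStatement : Prop :=
  ∀ {I Λ ι : Type} [Fintype I] [DecidableEq I] [DecidableEq Λ] [Fintype ι] {len : ι → ℕ}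
    (D : Dat I Λ) (t : Tup I len), (∀ i, PosAt D t (len i)) →
    (∃ i, len i = 0 ∧ ∀ w, t i w = 1) → jS D (jS D t) = t →
    ∃ g, IsG D g ∧ (∀ i, gT g (jT D (gT g⁻¹ (t i))) = t i) ∧
      ∀ (c : ℕ) (v : Ten I c), (∀ x, IsG D x → gS x t = t → gT x v = v) → v ∈ MT D t c

end rows

end Pool.Agent.Lib.MP_361a6f_ag.FL
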