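import Mathlib
import Pool.Agent.Lib.MP_361a6f_ag.FL.Defs

/-!
# Row CPT: the compact group of the isometries which are unitary, with its Haar measure
-/

open MeasureTheory Measure

namespace Pool.Agent.Lib.MP_361a6f_ag.FL

namespace CptAux

section haar

variable {G : Type} [Group G] [TopologicalSpace G] [IsTopologicalGroup G] [CompactSpace G]
  [MeasurableSpace G] [BorelSpace G]

theorem right_inv (μ : Measure G) [μ.IsHaarMeasure] [IsProbabilityMeasure μ] :
    μ.IsMulRightInvariant := by
  constructor
  intro g
  have : IsProbabilityMeasure (map (fun x => x * g) μ) :=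
    Measure.isProbabilityMeasure_map (measurable_mul_const g).aemeasurable
  have : (map (fun x => x * g) μ).IsHaarMeasure := isHaarMeasure_map_mul_right μ g
  exact isHaarMeasure_eq_of_isProbabilityMeasure _ _

theorem inv_inv (μ : Measure G) [μ.IsHaarMeasure] [IsProbabilityMeasure μ] :
    μ.IsInvInvariant := by
  have := right_inv μ
  constructor
  have h1 : IsProbabilityMeasure μ.inv :=
    Measure.isProbabilityMeasure_map measurable_inv.aemeasurable
  have h2 : μ.inv.IsMulLeftInvariant := inferInstance
  have h3 : μ.inv.IsHaarMeasure := by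
    refine isHaarMeasure_of_isCompact_nonempty_interior μ.inv Set.univ isCompact_univ ?_ ?_ ?_
    · rw [interior_univ]; exact Set.univ_nonempty
    · simp
    · simp
  exact isHaarMeasure_eq_of_isProbabilityMeasure _ _

end haar

variable {I Λ : Type} [Fintype I] [DecidableEq I] [DecidableEq Λ] (D : Dat I Λ)

omit [DecidableEq Λ] in
theorem isG_one : IsG D (1 : Matrix I I ℂ) := by
  constructor
  · intro i j h
    exact Matrix.one_apply_ne (fun e => h (by rw [e]))
  · simp

theorem isG_mul {g h : Matrix I I ℂ} (hg : IsG D g) (hh : IsG D h) : IsG D (g * h) := by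
  constructor
  · intro i j hij
    rw [Matrix.mul_apply]
    refine Finset.sum_eq_zero fun k _ => ?_
    by_cases e : D.typ i = D.typ k
    · have : D.typ k ≠ D.typ j := fun e' => hij (e.trans e')
      rw [hh.1 k j this, mul_zero]
    · rw [hg.1 i k e, zero_mul]
  · rw [Matrix.transpose_mul]
    calc h.transpose * g.transpose * Psi D * (g * h)
        = h.transpose * (g.transpose * Psi D * g) * h := by simp only [Matrix.mul_assoc]
      _ = Psi D := by rw [hg.2, hh.2]

omit [DecidableEq Λ] in
theorem isG_conj {g : Matrix I I ℂ} (hg : IsG D g) (h1 : g * g.conjTranspose = 1) :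
    IsG D g.conjTranspose := by
  have h2 : g.conjTranspose * g = 1 := mul_eq_one_comm.mp h1
  constructor
  · intro i j hij
    rw [Matrix.conjTranspose_apply, hg.1 j i (fun e => hij e.symm), star_zero]
  · -- from gᵀ Ψ g = Ψ
    have h3 : g.conjTranspose.transpose * g.transpose = 1 := by
      rw [← Matrix.transpose_mul, h1, Matrix.transpose_one]
    calc g.conjTranspose.transpose * Psi D * g.conjTranspose
        = g.conjTranspose.transpose * (g.transpose * Psi D * g) * g.conjTranspose := by
          rw [hg.2]
      _ = (g.conjTranspose.transpose * g.transpose) * Psi D * (g * g.conjTranspose) := by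
          simp only [Matrix.mul_assoc]
      _ = Psi D := by rw [h3, h1, Matrix.one_mul, Matrix.mul_one]

/-- the group as a subgroup of the unitary group -/
def KK : Subgroup (unitary (Matrix I I ℂ)) where
  carrier := {u | IsG D (u : Matrix I I ℂ)}
  mul_mem' := by
    intro a b ha hb
    exact isG_mul D ha hb
  one_mem' := isG_one D
  inv_mem' := by
    intro a ha
    have h1 : (a : Matrix I I ℂ) * (a : Matrix I I ℂ).conjTranspose = 1 :=
      Unitary.mul_star_self_of_mem a.2
    exact isG_conj D ha h1

theorem isClosed_K : IsClosed {g : Matrix I I ℂ | IsK D g} := by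
  have h1 : IsClosed {g : Matrix I I ℂ | ∀ i j, D.typ i ≠ D.typ j → g i j = 0} := by
    have : {g : Matrix I I ℂ | ∀ i j, D.typ i ≠ D.typ j → g i j = 0} =
        ⋂ i, ⋂ j, {g : Matrix I I ℂ | D.typ i ≠ D.typ j → g i j = 0} := by
      ext g; simp
    rw [this]
    refine isClosed_iInter fun i => isClosed_iInter fun j => ?_
    by_cases e : D.typ i = D.typ j
    · simp [e]
    · simp only [ne_eq, e, not_false_eq_true, forall_const]
      exact isClosed_eq (by fun_prop) continuous_const
  have h2 : IsClosed {g : Matrix I I ℂ | g.transpose * Psi D * g = Psi D} :=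
    isClosed_eq (by fun_prop) continuous_const
  have h3 : IsClosed {g : Matrix I I ℂ | g.conjTranspose * g = 1} :=
    isClosed_eq (by fun_prop) continuous_const
  have : {g : Matrix I I ℂ | IsK D g} =
      ({g : Matrix I I ℂ | ∀ i j, D.typ i ≠ D.typ j → g i j = 0} ∩
        {g : Matrix I I ℂ | g.transpose * Psi D * g = Psi D}) ∩
        {g : Matrix I I ℂ | g.conjTranspose * g = 1} := by
    ext g; rfl
  rw [this]
  exact (h1.inter h2).inter h3

theorem isCompact_K : IsCompact {g : Matrix I I ℂ | IsK D g} := by
  have hc : IsCompact (Set.pi Set.univ fun _ : I => Set.pi Set.univ fun _ : I =>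
      Metric.closedBall (0 : ℂ) 1) :=
    isCompact_univ_pi fun _ => isCompact_univ_pi fun _ => isCompact_closedBall 0 1
  refine IsCompact.of_isClosed_subset (X := Matrix I I ℂ) hc (isClosed_K D) ?_
  intro g hg
  have hu : g ∈ Matrix.unitaryGroup I ℂ := by
    rw [Matrix.mem_unitaryGroup_iff']
    exact hg.2
  intro i _ j _
  rw [mem_closedBall_zero_iff]
  exact entry_norm_bound_of_unitary hu i j

end CptAux

open CptAux

theorem cpt : CptStatement := by
  intro I Λ _ _ _ D
  let K : Type := KK D
  let j : K → Matrix I I ℂ := fun k => ((k : unitary (Matrix I I ℂ)) : Matrix I I ℂ)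
  have hj : Topology.IsEmbedding j :=
    Topology.IsEmbedding.subtypeVal.comp Topology.IsEmbedding.subtypeVal
  have hr : Set.range j = {g : Matrix I I ℂ | IsK D g} := by
    ext g
    constructor
    · rintro ⟨k, rfl⟩
      exact ⟨k.2, Unitary.star_mul_self_of_mem k.1.2⟩
    · intro hg
      have h1 : g.conjTranspose * g = 1 := hg.2
      have h2 : g * g.conjTranspose = 1 := mul_eq_one_comm.mp h1
      exact ⟨⟨⟨g, Unitary.mem_iff.mpr ⟨h1, h2⟩⟩, hg.1⟩, rfl⟩
  have hcs : CompactSpace K := by
    rw [← isCompact_univ_iff, hj.isCompact_iff, Set.image_univ, hr]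
    exact isCompact_K D
  have ht2 : T2Space K := hj.t2Space
  have hM : SecondCountableTopology (Matrix I I ℂ) :=
    inferInstanceAs (SecondCountableTopology (I → I → ℂ))
  have hsc : SecondCountableTopology K := hj.secondCountableTopology
  let ms : MeasurableSpace K := borel K
  have bs : BorelSpace K := ⟨rfl⟩
  let μ : Measure K := haarMeasure (⊤ : TopologicalSpace.PositiveCompacts K)
  have hp : IsProbabilityMeasure μ := ⟨haarMeasure_self (K₀ := (⊤ : TopologicalSpace.PositiveCompacts K))⟩
  have hri : μ.IsMulRightInvariant := right_inv μ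
  have hi : μ.IsInvInvariant := inv_inv μ
  exact ⟨{ K := K
           mat := (Submonoid.subtype _).comp (KK D).subtype
           cont_mat := hj.continuous
           mem := fun k => by
             have : j k ∈ Set.range j := ⟨k, rfl⟩
             rw [hr] at this
             exact this
           surj := fun g hg => by
             have : g ∈ Set.range j := by rw [hr]; exact hg
             exact this
           inj := hj.injective
           μ := μ }⟩

end Pool.Agent.Lib.MP_361a6f_ag.FL
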