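import Pool.Agent.Lib.MP_361a6f_ag.FL.GeoDefs
import Pool.Agent.Lib.MP_361a6f_ag.PP.BC

/-!
# Row GBC: extension of the coefficients
-/

open CategoryTheory AlgebraicGeometry MonoidalCategory CartesianMonoidalCategory

universe u v w

set_option linter.unusedSectionVars false

namespace Pool.Agent.Lib.MP_361a6f_ag.FL

open Pool.Agent.Lib.MP_361a6f_ag.H3 Pool.Agent.Lib.MP_361a6f_ag.SQ
  Pool.Agent.Lib.MP_361a6f_ag.IP2 Pool.Agent.Lib.MP_361a6f_ag.PP

namespace GBC

variable {k : Type u} [Field k] {K : Type v} [Field K] [CharZero K] [Algebra K ℂ]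
  {W : CohomologyData.{u, v, w} k K} {𝒱 : VarietyClass k} {m : ℕ} {X : Fin m → Sch k}
  {n : Fin m → ℕ} {ξ : ∀ a, W.coh (X a)}

theorem pol_inc (ξ : ∀ a, W.coh (X a)) (P : Prd m) :
    inc W (P.pol W ξ) = P.pol W.ext' (fun a => inc W (ξ a)) := by
  induction P with
  | leaf a => rfl
  | prod P Q ihP ihQ =>
    have e1 : (Prd.prod P Q).pol W.ext' (fun a => inc W (ξ a))
        = W.ext'.pull (fst (P.obj X) (Q.obj X)) (P.pol W.ext' (fun a => inc W (ξ a)))
          + W.ext'.pull (snd (P.obj X) (Q.obj X)) (Q.pol W.ext' (fun a => inc W (ξ a))) := rfl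
    rw [e1, ← ihP, ← ihQ, ext_pull, ext_pull]
    exact inc_add _ _

theorem isPol_inc {P : Prd m} {η : W.coh (P.obj X)} (h : IsPol W ξ P η) :
    IsPol W.ext' (fun a => inc W (ξ a)) P (inc W η) := by
  induction h with
  | leaf a c hc =>
    have h1 := IsPol.leaf (W := W.ext') (ξ := fun a => inc W (ξ a)) a c hc
    have h2 : inc W (W.scal (c : K) (ξ a)) = W.ext'.scal (c : ℂ) (inc W (ξ a)) := by
      change inc W ((c : K) • ξ a) = _
      rw [inc_smul, map_ratCast]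
    exact (congrArg (IsPol W.ext' (fun a => inc W (ξ a)) (Prd.leaf a)) h2).mpr h1
  | prod P Q η θ _ _ ihP ihQ =>
    have h1 := IsPol.prod (W := W.ext') (ξ := fun a => inc W (ξ a)) P Q _ _ ihP ihQ
    have h2 : inc W (W.pb (Sch.pr₁ (P.obj X) (Q.obj X)) η + W.pb (Sch.pr₂ (P.obj X) (Q.obj X)) θ)
        = W.ext'.pb (Sch.pr₁ (P.obj X) (Q.obj X)) (inc W η)
          + W.ext'.pb (Sch.pr₂ (P.obj X) (Q.obj X)) (inc W θ) := by
      change inc W (W.pull (fst (P.obj X) (Q.obj X)) η + W.pull (snd (P.obj X) (Q.obj X)) θ)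
        = W.ext'.pull (fst (P.obj X) (Q.obj X)) (inc W η)
          + W.ext'.pull (snd (P.obj X) (Q.obj X)) (inc W θ)
      rw [ext_pull, ext_pull]
      exact inc_add _ _
    exact (congrArg (IsPol W.ext' (fun a => inc W (ξ a)) (Prd.prod P Q)) h2).mpr h1

theorem gen_inc {N : ℕ} {P : Prd m} {z : W.coh (P.obj X)} (h : Gen W X N P z) :
    Gen W.ext' X N P (inc W z) := by
  induction h with
  | alg P l z hP hz => exact Gen.alg P l _ hP (inc_alg hz)
  | ext P Q z z' _ _ ih ih' =>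
    have h1 := Gen.ext (W := W.ext') P Q _ _ ih ih'
    have h2 : inc W (W.ext z z') = W.ext'.ext (inc W z) (inc W z') := by
      change inc W (W.pull (fst (P.obj X) (Q.obj X)) z * W.pull (snd (P.obj X) (Q.obj X)) z')
        = W.ext'.pull (fst (P.obj X) (Q.obj X)) (inc W z)
          * W.ext'.pull (snd (P.obj X) (Q.obj X)) (inc W z')
      rw [ext_pull, ext_pull]
      exact inc_mul _ _
    exact (congrArg (Gen W.ext' X N (Prd.prod P Q)) h2).mpr h1
  | cup P z z' hN _ _ ih ih' =>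
    have h1 := Gen.cup (W := W.ext') P _ _ hN ih ih'
    have h2 : inc W (W.cup z z') = W.ext'.cup (inc W z) (inc W z') := inc_mul _ _
    rw [h2]
    exact h1
  | pb P Q f z hf _ ih =>
    have h1 := Gen.pb (W := W.ext') P Q f _ hf ih
    have h2 : W.ext'.pb f (inc W z) = inc W (W.pb f z) := by
      change W.ext'.pull f (inc W z) = inc W (W.pull f z)
      rw [ext_pull]
    rw [h2] at h1
    exact h1
  | pf P Q f z hf _ ih =>
    have h1 := Gen.pf (W := W.ext') P Q f _ hf ih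
    have h2 : W.ext'.pf f (inc W z) = inc W (W.pf f z) := by
      change W.ext'.push f (inc W z) = inc W (W.push f z)
      rw [ext_push]
    rw [h2] at h1
    exact h1

theorem genSpan_inc {N : ℕ} {P : Prd m} {z : W.coh (P.obj X)} (h : z ∈ genSpan W X N P) :
    inc W z ∈ genSpan W.ext' X N P := by
  refine Submodule.span_induction (p := fun x _ => inc W x ∈ genSpan W.ext' X N P)
    ?_ ?_ ?_ ?_ h
  · intro z hz
    exact Submodule.subset_span (gen_inc hz)
  · rw [inc_zero]; exact zero_mem _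
  · intro a b _ _ ha hb
    rw [inc_add]; exact add_mem ha hb
  · intro t a _ ha
    rw [inc_smul]; exact Submodule.smul_mem _ _ ha

theorem isPol_alg (hW : IsWeilCohomology W 𝒱) (hX : ∀ a, 𝒱.mem (X a) (n a))
    (hξ : ∀ a, ξ a ∈ W.alg (X a) 1) {P : Prd m} {η : W.coh (P.obj X)} (h : IsPol W ξ P η) :
    η ∈ W.alg (P.obj X) 1 := by
  induction h with
  | leaf a c hc => exact W.alg_smul _ (hξ a)
  | prod P Q η θ _ _ ihP ihQ =>
    have hp := 𝒱.prod (memP hX P) (memP hX Q)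
    exact add_mem (hW.pull_alg hp (memP hX P) _ ihP) (hW.pull_alg hp (memP hX Q) _ ihQ)

theorem pol_alg (hW : IsWeilCohomology W 𝒱) (hX : ∀ a, 𝒱.mem (X a) (n a))
    (hξ : ∀ a, ξ a ∈ W.alg (X a) 1) (P : Prd m) : P.pol W ξ ∈ W.alg (P.obj X) 1 := by
  induction P with
  | leaf a => exact hξ a
  | prod P Q ihP ihQ =>
    have hp := 𝒱.prod (memP hX P) (memP hX Q)
    exact add_mem (hW.pull_alg hp (memP hX P) _ ihP) (hW.pull_alg hp (memP hX Q) _ ihQ)

end GBC

/-- Row GBC. -/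
theorem gbc : GbcStatement.{u, v, w} := by
  intro hRc k _ K _ _ ι W 𝒱 hW m X n hX ξ hξ hL hΛ N hN hQ P η hη
  let _ : Algebra K ℂ := ι.toAlgebra
  have hW' : IsWeilCohomology W.ext' 𝒱 := ext_weil hW
  obtain ⟨hb1, -, -⟩ := bc.{u, v, w} hW
  have hξ1 : ∀ a, ξ a ∈ W.alg (X a) 1 := fun a => (hξ a).1
  have key := hRc hW' hX (ξ := fun a => inc W (ξ a))
    (fun a => (hb1 (hX a) (ξ a) (hξ1 a)).2.2.1 (hξ a))
    (fun a => (hb1 (hX a) (ξ a) (hξ1 a)).1 (hL a))
    (fun a => (hb1 (hX a) (ξ a) (hξ1 a)).2.1 (hL a) (hΛ a)) N hN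
    (fun Q hQN => by
      have h := (hb1 (memP hX Q) _ (GBC.pol_alg hW hX hξ1 Q)).2.2.2.1 (hQ Q hQN)
      rwa [GBC.pol_inc] at h)
    P (inc W η) (GBC.isPol_inc hη)
  exact (hb1 (memP hX P) η (GBC.isPol_alg hW hX hξ1 hη)).2.2.2.2 (genSpan W X N P)
    (genSpan W.ext' X N P) (fun x hx => GBC.genSpan_inc hx) key

end Pool.Agent.Lib.MP_361a6f_ag.FL
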