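import Pool.Agent.Lib.MP_361a6f_ag.FL.GBC

/-!
# Extension of the coefficients for the second clause of Theorem R

`Q1` for all products with all classes `Σ c_i pr_i^* ξ`, from `Q1` for the products in a set `T`.
-/

open CategoryTheory AlgebraicGeometry MonoidalCategory CartesianMonoidalCategory

universe u v w

set_option linter.unusedSectionVars false

namespace Pool.Agent.Lib.MP_361a6f_ag.FL

open Pool.Agent.Lib.MP_361a6f_ag.H3 Pool.Agent.Lib.MP_361a6f_ag.SQ
  Pool.Agent.Lib.MP_361a6f_ag.IP2 Pool.Agent.Lib.MP_361a6f_ag.PP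

/-- `Q1` for the products in `T` (and one choice of the classes `ξ`) implies `Q1` for all products
with all classes `Σ c_i pr_i^* ξ`; for all `ξ`. -/
def Descends {k : Type u} [Field k] {K : Type v} [Field K] (W : CohomologyData.{u, v, w} k K)
    {m : ℕ} (X : Fin m → Sch k) (n : Fin m → ℕ) (T : Prd m → Prop) : Prop :=
  ∀ ξ : ∀ a, W.coh (X a), (∀ a, PositiveDivisor W (X a) (n a) (ξ a)) →
    (∀ a, HardLefschetz W (X a) (n a) (ξ a)) → (∀ a, AlgebraicLambda W (X a) (n a) (ξ a)) →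
    (∀ P : Prd m, T P → HodgeType W (P.obj X) (P.dim n) (P.pol W ξ)) →
    ∀ (P : Prd m) (η : W.coh (P.obj X)), IsPol W ξ P η → HodgeType W (P.obj X) (P.dim n) η

/-- base change for `Descends` -/
theorem Descends.of_ext {k : Type u} [Field k] {K : Type v} [Field K] [CharZero K] [Algebra K ℂ]
    {W : CohomologyData.{u, v, w} k K} {𝒱 : VarietyClass k} (hW : IsWeilCohomology W 𝒱)
    {m : ℕ} {X : Fin m → Sch k} {n : Fin m → ℕ} (hX : ∀ a, 𝒱.mem (X a) (n a))
    {T : Prd m → Prop} (h : Descends W.ext' X n T) : Descends W X n T := by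
  intro ξ hξ hL hΛ hQ P η hη
  obtain ⟨hb1, -, -⟩ := bc.{u, v, w} hW
  have hξ1 : ∀ a, ξ a ∈ W.alg (X a) 1 := fun a => (hξ a).1
  have key := h (fun a => inc W (ξ a))
    (fun a => (hb1 (hX a) (ξ a) (hξ1 a)).2.2.1 (hξ a))
    (fun a => (hb1 (hX a) (ξ a) (hξ1 a)).1 (hL a))
    (fun a => (hb1 (hX a) (ξ a) (hξ1 a)).2.1 (hL a) (hΛ a))
    (fun Q hQT => by
      have h := (hb1 (memP hX Q) _ (GBC.pol_alg hW hX hξ1 Q)).2.2.2.1 (hQ Q hQT)
      rwa [GBC.pol_inc] at h)
    P (inc W η) (GBC.isPol_inc hη)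
  exact hodge_ext.mp key

/-- The second clause of Theorem R with complex coefficients: there is `N` such that `Q1` for the
products of at most `N` factors implies `Q1` for all products, uniformly in the polarisations. -/
def RinfcStatement : Prop :=
  ∀ {k : Type u} [Field k] {W : CohomologyData.{u, 0, w} k ℂ} {𝒱 : VarietyClass k}
    (_ : IsWeilCohomology W 𝒱) {m : ℕ} {X : Fin m → Sch k} {n : Fin m → ℕ}
    (_ : ∀ a, 𝒱.mem (X a) (n a)), ∃ N : ℕ, Descends W X n fun P => P.size ≤ N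

/-- The second clause of Theorem R. -/
def ThmRinfStatement : Prop :=
  ∀ {k : Type u} [Field k] {K : Type v} [Field K] [CharZero K] (_ : K →+* ℂ)
    (W : CohomologyData.{u, v, w} k K) (𝒱 : VarietyClass k) (_ : IsWeilCohomology W 𝒱)
    {m : ℕ} {X : Fin m → Sch k} {n : Fin m → ℕ} (_ : ∀ a, 𝒱.mem (X a) (n a)),
    ∃ N : ℕ, Descends W X n fun P => P.size ≤ N

/-- Row GBC'. -/
theorem gbci : RinfcStatement.{u, w} → ThmRinfStatement.{u, v, w} := by
  intro h k _ K _ _ ι W 𝒱 hW m X n hX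
  let _ : Algebra K ℂ := ι.toAlgebra
  obtain ⟨N, hN⟩ := h (ext_weil hW) hX
  exact ⟨N, hN.of_ext hW hX⟩

end Pool.Agent.Lib.MP_361a6f_ag.FL
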