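import Pool.Agent.Lib.MP_361a6f_ag.FL.Noe
import Pool.Agent.Lib.MP_361a6f_ag.FL.QpsI
import Pool.Agent.Lib.MP_361a6f_ag.FL.GT
import Pool.Agent.Lib.MP_361a6f_ag.FL.GJ
import Pool.Agent.Lib.MP_361a6f_ag.FL.GBCi

/-!
# The second clause of Theorem R

There is a level `N`, which depends only on the cohomology theory and the factors, such that
positivity in the lengths `≤ N` gives a real structure that fixes the algebraic classes in all
lengths.
-/

open CategoryTheory AlgebraicGeometry MonoidalCategory CartesianMonoidalCategory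

universe u v w

set_option autoImplicit false
set_option linter.unusedSectionVars false

namespace Pool.Agent.Lib.MP_361a6f_ag.FL

open Pool.Agent.Lib.MP_361a6f_ag.H3 Pool.Agent.Lib.MP_361a6f_ag.SQ
  Pool.Agent.Lib.MP_361a6f_ag.PP

namespace GTI

variable {k : Type u} [Field k] {W : CohomologyData.{u, 0, w} k ℂ} {𝒱 : VarietyClass k} {m : ℕ}
  (H : Host W 𝒱 m) (a1 : Alg1) {x : Matrix H.I H.I ℂ}

/-- the action of a matrix on the cohomology of a product -/
noncomputable def gP (x : Matrix H.I H.I ℂ) (P : Prd m) : Module.End ℂ (W.coh (P.obj H.X)) where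
  toFun z := ∑ w, gT x (H.tc P z) w • H.E P w
  map_add' y z := by
    rw [map_add, a1.gT_add, ← Finset.sum_add_distrib]
    refine Finset.sum_congr rfl fun w _ => ?_
    rw [Pi.add_apply, add_smul]
  map_smul' c z := by
    rw [map_smul, a1.gT_smul, RingHom.id_apply, Finset.smul_sum]
    refine Finset.sum_congr rfl fun w _ => ?_
    rw [Pi.smul_apply, smul_assoc]

theorem tc_gP (hx : IsG H.D x) (ge : H.GeFacts) (P : Prd m) (z : W.coh (P.obj H.X)) :
    H.tc P (gP H a1 x P z) = gT x (H.tc P z) := by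
  refine ge.tc_sum P _ ?_
  refine GJ.gT_supp H.D hx (H.Off P) ?_ (ge.tc_off P z)
  rintro w w' h ⟨i, hi⟩
  exact ⟨i, by rw [← h i]; exact hi⟩

theorem gP_prod (a2 : Alg2) (hx : IsG H.D x) (ge : H.GeFacts) (P Q : Prd m)
    (y : W.coh (P.obj H.X)) (z : W.coh (Q.obj H.X)) :
    gP H a1 x (.prod P Q) (W.pull (fst (P.obj H.X) (Q.obj H.X)) y
        * W.pull (snd (P.obj H.X) (Q.obj H.X)) z)
      = W.pull (fst (P.obj H.X) (Q.obj H.X)) (gP H a1 x P y)
        * W.pull (snd (P.obj H.X) (Q.obj H.X)) (gP H a1 x Q z) := by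
  refine ge.inj (.prod P Q) ?_
  rw [tc_gP H a1 hx ge, ge.tc_outer, ge.tc_outer, tc_gP H a1 hx ge, tc_gP H a1 hx ge]
  exact a2.outer_gT x _ _

/-- the action of a matrix is the action of a family of operators -/
theorem act_eq (a2 : Alg2) (hx : IsG H.D x) (ge : H.GeFacts) : ∀ P : Prd m,
    Noe.act H.hW H.mem (fun a => gP H a1 x (.leaf a)) P = gP H a1 x P
  | .leaf _ => rfl
  | .prod P Q => by
    let T : W.coh (P.obj H.X ⊗ Q.obj H.X) →ₗ[ℂ] W.coh (P.obj H.X ⊗ Q.obj H.X) :=
      gP H a1 x (.prod P Q)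
    have h : ten H.hW (FL.memP H.mem P) (FL.memP H.mem Q)
        (Noe.act H.hW H.mem (fun a => gP H a1 x (.leaf a)) P)
        (Noe.act H.hW H.mem (fun a => gP H a1 x (.leaf a)) Q) = T := by
      refine lin_ext H.hW (FL.memP H.mem P) (FL.memP H.mem Q) _ _ fun y z => ?_
      rw [ten_gen, act_eq a2 hx ge P, act_eq a2 hx ge Q]
      exact (gP_prod H a1 a2 hx ge P Q y z).symm
    exact h

/-- tensors of length `0` are fixed -/
theorem gT_zero {I : Type} [Fintype I] (x : Matrix I I ℂ) (u : Ten I 0) : gT x u = u := by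
  funext w
  have hw : ∀ w' : Fin 0 → I, w' = w := fun w' => Subsingleton.elim _ _
  rw [gT, Fintype.sum_eq_single w (fun w' h => absurd (hw w') h), Fin.prod_univ_zero, one_mul]

end GTI

/-- Row GTI: there is a level, uniform in the polarisations, in which positivity gives a real
structure that fixes all algebraic classes on all products. -/
def GtiStatement : Prop :=
  ∀ {k : Type u} [Field k] {W : CohomologyData.{u, 0, w} k ℂ} {𝒱 : VarietyClass k}
    (_ : IsWeilCohomology W 𝒱) {m : ℕ} {X : Fin m → Sch k} {n : Fin m → ℕ}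
    (_ : ∀ a, 𝒱.mem (X a) (n a)), ∃ N : ℕ, ∀ H : Host W 𝒱 m, H.X = X → H.n = n → H.Pos N →
      ∃ g, ∀ M, H.Fix M g

open GTI in
/-- Row GTI. -/
theorem gti (hY : YStatement) (hAt : AtStatement.{u, w}) (hge : GeStatement.{u, w}) (a1 : Alg1)
    (a2 : Alg2) : GtiStatement.{u, w} := by
  intro k _ W 𝒱 hW m X n hX
  obtain ⟨ι, _, P, z, hz, hfin⟩ := Noe.exists_finite hW hX
  refine ⟨Finset.univ.sup fun i => (P i).size, ?_⟩
  rintro H rfl rfl hpos
  have ge := hge H
  let len : Option ι → ℕ := fun i => i.elim 0 (fun i => (P i).size)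
  let t : Tup H.I len := fun i => match i with
    | none => fun _ => 1
    | some i => H.tc (P i) (z i)
  have ht : ∀ i, t i ∈ H.At (len i) := by
    intro i
    match i with
    | none => exact (aSys_at (hAt H)).one
    | some i => exact AddSubgroup.subset_closure (Or.inr ⟨P i, rfl, z i, hz i, rfl⟩)
  have hlen : ∀ i, len i ≤ Finset.univ.sup fun i => (P i).size := by
    intro i
    match i with
    | none => exact Nat.zero_le _
    | some i => exact Finset.le_sup (f := fun i => (P i).size) (Finset.mem_univ i)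
  have hstab : ∀ x, IsG H.D x → gS x t = t → ∀ L u, u ∈ H.At L → gT x u = u := by
    intro x hx hxt L u hu
    have h1 : ∀ i, Noe.act H.hW H.mem (fun a => gP H a1 x (.leaf a)) (P i) (z i) = z i := by
      intro i
      rw [act_eq H a1 a2 hx ge]
      refine ge.inj (P i) ?_
      rw [tc_gP H a1 hx ge]
      exact congrFun hxt (some i)
    have h2 := hfin (fun a => gP H a1 x (.leaf a)) h1
    refine AddSubgroup.closure_induction (p := fun u _ => gT x u = u) ?_ ?_ ?_ ?_ hu
    · rintro u (⟨rfl, q, rfl⟩ | ⟨Q, rfl, y, hy, rfl⟩)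
      · exact gT_zero x _
      · have h3 := h2 Q y hy
        have h4 : gP H a1 x Q y = y := by
          rw [← act_eq H a1 a2 hx ge]
          exact h3
        have h5 := tc_gP H a1 hx ge Q y
        rw [h4] at h5
        exact h5.symm
    · have := a1.gT_smul x 0 (0 : Ten H.I L)
      rwa [zero_smul, zero_smul] at this
    · intro a b _ _ ha hb
      rw [a1.gT_add, ha, hb]
    · intro a _ ha
      have := a1.gT_smul x (-1) a
      rwa [neg_one_smul, neg_one_smul, ha] at this
  obtain ⟨g, hg, h⟩ := qpsI hY a1 a2 (aSys_at (hAt H)) t ht ⟨none, rfl, fun _ => rfl⟩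
    (fun i u hu h0 => hpos (len i) (hlen i) u hu h0) hstab
  exact ⟨g, fun M => ⟨hg, fun L _ u hu => h L u hu⟩⟩

/-- **The second clause of Theorem R**, with complex coefficients, for the products of exactly `N`
factors, for all large `N`. -/
theorem rinfcE (gb : GbStatement.{u, w}) (gpos : GposStatement.{u, w}) (gti : GtiStatement.{u, w})
    (gj : GjStatement.{u, w}) (gm : GmStatement.{u, w}) (gq : GqStatement.{u, w}) :
    ∀ {k : Type u} [Field k] {W : CohomologyData.{u, 0, w} k ℂ} {𝒱 : VarietyClass k}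
      (_ : IsWeilCohomology W 𝒱) {m : ℕ} {X : Fin m → Sch k} {n : Fin m → ℕ}
      (_ : ∀ a, 𝒱.mem (X a) (n a)), ∃ N₀ : ℕ, ∀ N, N₀ ≤ N → Descends W X n fun P => P.size = N := by
  intro k _ W 𝒱 hW m X n hmem
  obtain ⟨N₀, hN⟩ := gti hW hmem
  refine ⟨N₀, fun N hNN => ?_⟩
  intro ξ hξ hHL hAL hQ P η hη
  obtain ⟨H, rfl, rfl, hξ'⟩ := gb hW hmem (fun a => (hξ a).1) hHL hAL
  obtain rfl := eq_of_heq hξ'
  have hpos : H.Pos N₀ := fun L hL => gpos H N hξ hQ L (hL.trans hNN)
  obtain ⟨g, hg⟩ := hN H rfl rfl hpos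
  have h2 : 2 ≤ max 2 P.size := le_max_left _ _
  obtain ⟨J, hJ⟩ := gj H (max 2 P.size) h2 g (hg _)
  have h := gq H (max 2 P.size) g J hJ (gm H _ h2 g J hJ) P η hη
  intro j hj x hx hprim hne
  exact h j hj x hx (Submodule.subset_span (Gen.alg P j x (le_max_right _ _) hx)) hprim hne

/-- base change for the second clause of Theorem R, in the form for all large `N` -/
theorem gbciE (h : ∀ {k : Type u} [Field k] {W : CohomologyData.{u, 0, w} k ℂ}
      {𝒱 : VarietyClass k} (_ : IsWeilCohomology W 𝒱) {m : ℕ} {X : Fin m → Sch k}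
      {n : Fin m → ℕ} (_ : ∀ a, 𝒱.mem (X a) (n a)),
      ∃ N₀ : ℕ, ∀ N, N₀ ≤ N → Descends W X n fun P => P.size = N) :
    ∀ {k : Type u} [Field k] {K : Type v} [Field K] [CharZero K] (_ : K →+* ℂ)
      (W : CohomologyData.{u, v, w} k K) (𝒱 : VarietyClass k) (_ : IsWeilCohomology W 𝒱)
      {m : ℕ} {X : Fin m → Sch k} {n : Fin m → ℕ} (_ : ∀ a, 𝒱.mem (X a) (n a)),
      ∃ N₀ : ℕ, ∀ N, N₀ ≤ N → Descends W X n fun P => P.size = N := by
  intro k _ K _ _ ι W 𝒱 hW m X n hX
  let _ : Algebra K ℂ := ι.toAlgebra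
  obtain ⟨N₀, hN⟩ := h (ext_weil hW) hX
  exact ⟨N₀, fun N hNN => (hN N hNN).of_ext hW hX⟩

/-- **The second clause of Theorem R**, with complex coefficients. -/
theorem rinfc (gb : GbStatement.{u, w}) (gpos : GposStatement.{u, w}) (gti : GtiStatement.{u, w})
    (gj : GjStatement.{u, w}) (gm : GmStatement.{u, w}) (gq : GqStatement.{u, w}) :
    RinfcStatement.{u, w} := by
  intro k _ W 𝒱 hW m X n hmem
  obtain ⟨N, hN⟩ := gti hW hmem
  refine ⟨N, ?_⟩
  intro ξ hξ hHL hAL hQ P η hη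
  obtain ⟨H, rfl, rfl, hξ'⟩ := gb hW hmem (fun a => (hξ a).1) hHL hAL
  obtain rfl := eq_of_heq hξ'
  obtain ⟨g, hg⟩ := hN H rfl rfl (gpos H N hξ (fun P hP => hQ P hP.le))
  have h2 : 2 ≤ max 2 P.size := le_max_left _ _
  obtain ⟨J, hJ⟩ := gj H (max 2 P.size) h2 g (hg _)
  have h := gq H (max 2 P.size) g J hJ (gm H _ h2 g J hJ) P η hη
  intro j hj x hx hprim hne
  exact h j hj x hx (Submodule.subset_span (Gen.alg P j x (le_max_right _ _) hx)) hprim hne

end Pool.Agent.Lib.MP_361a6f_ag.FL
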