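import Pool.Agent.Lib.MP_361a6f_ag.FL.GM
import Pool.Agent.Lib.MP_361a6f_ag.FL.GeoDefs

/-!
# Row GM for the host
-/

open CategoryTheory AlgebraicGeometry MonoidalCategory CartesianMonoidalCategory

universe u v w

set_option autoImplicit false

namespace Pool.Agent.Lib.MP_361a6f_ag.FL

open Pool.Agent.Lib.MP_361a6f_ag.H3 Pool.Agent.Lib.MP_361a6f_ag.SQ
  Pool.Agent.Lib.MP_361a6f_ag.PP

/-- the real structures of a host form a compatible system -/
theorem Host.JFacts.jsys {k : Type u} [Field k] {m : ℕ} {W : CohomologyData.{u, 0, w} k ℂ}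
    {𝒱 : VarietyClass k} {H : Host W 𝒱 m} {N : ℕ} {g : Matrix H.I H.I ℂ}
    {J : ∀ P : Prd m, W.coh (P.obj H.X) →ₛₗ[starRingEnd ℂ] W.coh (P.obj H.X)}
    (F : H.JFacts N g J) : GM.JSys W H.X J where
  gr P := (F.rs P).gr
  one P := (F.rs P).one
  tr P := (F.rs P).tr
  surj P := by
    have _ := H.hW.finite (H.memP P)
    refine PCA.surj_of_inj (J P) ?_
    rw [injective_iff_map_eq_zero]
    intro x hx
    by_contra hne
    obtain ⟨r, hr, h⟩ := (F.rs P).pos x hne
    rw [hx] at h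
    have h0 : psi W (P.obj H.X) (P.pol W H.ξ) (H.LamP P) (F.rs P).slm.internal x 0 = 0 := by
      rw [psi, map_zero, mul_zero, map_zero]
    rw [h0] at h
    exact hr.ne' (by exact_mod_cast h.symm)
  prod := F.prod

/-- Row GM. -/
theorem gm : GmStatement.{u, w} := by
  intro k _ W 𝒱 m H N _ g J F
  exact (GM.main H.hW H.mem F.jsys (fun P l z hP hz => F.fix P hP z
    (AddSubgroup.mem_iSup_of_mem l hz))).2.2

end Pool.Agent.Lib.MP_361a6f_ag.FL
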