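import Pool.Agent.Lib.MP_361a6f_ag.FL.L12
import Pool.Agent.Lib.MP_361a6f_ag.RR.Vol

/-!
# Row VOL: the volume of the set of the `k` with `|k s - s| < r`
-/

open Filter Topology MeasureTheory

set_option autoImplicit false

namespace Pool.Agent.Lib.MP_361a6f_ag.FL

open L12 in
/-- Row VOL. -/
theorem vol (a1 : Alg1) : VolStatement := by
  intro I Λ ι _ _ _ _ len D H s
  obtain ⟨c, hc, h⟩ := Pool.Agent.RR.vol_ball (K := H.K) H.μ
    (fun k : H.K => emb (gS (H.mat k) s)) (R := ‖emb s‖)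
    (fun k => (norm_gS H a1 k s).le) (by
      intro g k k'
      rw [map_mul, map_mul, gS_mul a1, gS_mul a1, ← emb_sub, ← gS_sub a1, norm_gS H a1, emb_sub])
  refine ⟨c, _, hc, fun r hr hr1 => (h r hr hr1).trans (le_of_eq ?_)⟩
  rw [Measure.real]
  congr 2
  ext k
  simp only [Set.mem_ofPred_eq]
  rw [dl_eq, map_one, gS_one a1]

end Pool.Agent.Lib.MP_361a6f_ag.FL
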