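import Pool.Agent.Lib.MP_361a6f_ag.FL.Fft
import Pool.Agent.Lib.MP_361a6f_ag.FL.Alg1
import Pool.Agent.Lib.MP_361a6f_ag.FL.Al2
import Pool.Agent.Lib.MP_361a6f_ag.FL.Avg
import Pool.Agent.Lib.MP_361a6f_ag.FL.Vol
import Pool.Agent.Lib.MP_361a6f_ag.FL.Tan
import Pool.Agent.Lib.MP_361a6f_ag.FL.Pha
import Pool.Agent.Lib.MP_361a6f_ag.FL.L12
import Pool.Agent.Lib.MP_361a6f_ag.FL.MinT
import Pool.Agent.Lib.MP_361a6f_ag.FL.Clo
import Pool.Agent.Lib.MP_361a6f_ag.FL.Real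
import Pool.Agent.Lib.MP_361a6f_ag.FL.XY
import Pool.Agent.Lib.MP_361a6f_ag.FL.GT
import Pool.Agent.Lib.MP_361a6f_ag.FL.Ge
import Pool.Agent.Lib.MP_361a6f_ag.FL.Gr
import Pool.Agent.Lib.MP_361a6f_ag.FL.AtRow
import Pool.Agent.Lib.MP_361a6f_ag.FL.GPos
import Pool.Agent.Lib.MP_361a6f_ag.FL.GJ
import Pool.Agent.Lib.MP_361a6f_ag.FL.GmRow
import Pool.Agent.Lib.MP_361a6f_ag.FL.GQ
import Pool.Agent.Lib.MP_361a6f_ag.FL.GBC
import Pool.Agent.Lib.MP_361a6f_ag.FL.RC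
import Pool.Agent.Lib.MP_361a6f_ag.FL.Cpt
import Pool.Agent.Lib.MP_361a6f_ag.FL.GB26
import Pool.Agent.Lib.MP_361a6f_ag.FL.GTI
import Pool.Agent.Lib.MP_361a6f_ag.PP.Rsp
import Pool.Agent.Lib.MP_361a6f_ag.PP.RSC
import Pool.Agent.Lib.MP_361a6f_ag.PP.RSQ
import Pool.Agent.Lib.MP_361a6f_ag.PP.SPN
import Pool.Agent.Lib.MP_361a6f_ag.PP.LMP
import Pool.Agent.Lib.MP_361a6f_ag.PP.TAL
import Pool.Agent.Lib.MP_361a6f_ag.PP.STP
import Pool.Agent.Lib.MP_361a6f_ag.PP.StaB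
import Pool.Agent.Lib.MP_361a6f_ag.PP.SL2

/-!
# Theorem R: assembly
-/

universe u v w

namespace Pool.Agent.Lib.MP_361a6f_ag.FL

open Pool.Agent.Lib.MP_361a6f_ag.H3 Pool.Agent.Lib.MP_361a6f_ag.SQ
  Pool.Agent.Lib.MP_361a6f_ag.PP

/-- Theorem Y -/
theorem mainY : YStatement :=
  have hvol : VolStatement := vol alg1
  have hpha : PhaStatement := pha alg1 tan
  have havg : AvgStatement := avg fft alg1 alg2
  have hl1 : L1Statement := l1 alg1 hvol hpha havg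
  have hl2 : L2Statement := l2 alg1 hvol hpha havg
  thmY alg1 alg2 cpt (FL.min alg1) (clo alg1 alg2 hvol hpha havg) hl2 (real alg1 alg2 hl1 hl2)

/-- products of real structures -/
theorem mainRsp : RspStatement.{u, w} := rsp (lmp tal) (stp sl2 staB)

/-- Theorem R -/
theorem mainR : ThmRStatement.{u, v, w} :=
  thmR (rc gb26 (gpos ge (gr ge)) (gt mainY at_ alg1) (gj staB mainRsp alg1 alg2 ge) gm
    (gq mainRsp (rsc staB) (rsq sl2 staB) spn)) gbc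

/-- Theorem R, the second clause -/
theorem mainRinf {k : Type u} [Field k] {K : Type v} [Field K] [CharZero K] (ι : K →+* ℂ)
    (W : CohomologyData.{u, v, w} k K) (𝒱 : VarietyClass k) (hW : IsWeilCohomology W 𝒱)
    {m : ℕ} {X : Fin m → Sch k} {n : Fin m → ℕ} (hX : ∀ a, 𝒱.mem (X a) (n a)) :
    ∃ N₀ : ℕ, ∀ N, N₀ ≤ N → Descends W X n fun P => P.size = N :=
  gbciE (rinfcE gb26 (gpos ge (gr ge)) (gti mainY at_ ge alg1 alg2)
    (gj staB mainRsp alg1 alg2 ge) gm (gq mainRsp (rsc staB) (rsq sl2 staB) spn)) ι W 𝒱 hW hX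

end Pool.Agent.Lib.MP_361a6f_ag.FL
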