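import Pool.Agent.Lib.MP_361a6f_ag.FL.Slice

/-!
# Row CLO: auxiliary results (only Mathlib)
-/

open Filter Topology NormedSpace MeasureTheory

set_option autoImplicit false
set_option linter.unusedSectionVars false

namespace Pool.Agent.Lib.MP_361a6f_ag.FL

namespace CloAux

section slice

variable {T : Type} [NormedAddCommGroup T] [NormedSpace ℂ T] [FiniteDimensional ℂ T]

/-- a limit `s` of the orbit that is not in the orbit: a direction `ν ≠ 0` in the slice that
kills the derivatives of all functions which are constant on the orbit -/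
theorem exists_direction (𝔤 : Submodule ℂ (T →L[ℂ] T)) (N : Submodule ℂ T) (s : T)
    (hN : ∀ x : T, ∃ A ∈ 𝔤, ∃ n ∈ N, x = A s + n) (Orb : Set T)
    (hexp : ∀ A ∈ 𝔤, ∀ x, exp A x ∈ Orb → x ∈ Orb) (hlim : s ∈ closure Orb) (hs : s ∉ Orb) :
    ∃ ν ∈ N, ν ≠ 0 ∧ ∀ (W : Type) [NormedAddCommGroup W] [NormedSpace ℂ W] (f : T → W),
      DifferentiableAt ℂ f s → (∀ x ∈ Orb, f x = f s) → fderiv ℂ f s ν = 0 := by
  have : ProperSpace T := FiniteDimensional.proper ℂ T
  have : CompleteSpace T := FiniteDimensional.complete ℂ T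
  have : FiniteDimensional ℂ (T →L[ℂ] T) := inferInstance
  have : CompleteSpace 𝔤 := FiniteDimensional.complete ℂ 𝔤
  have : CompleteSpace N := FiniteDimensional.complete ℂ _
  -- points `s + n` of the orbit, `n → 0` in the slice
  have key : ∀ e : ℝ, 0 < e → ∃ n : T, n ∈ N ∧ ‖n‖ < e ∧ n ≠ 0 ∧ s + n ∈ Orb := by
    intro e he
    have h1 := MP361FL.slice_nhds 𝔤 N s hN he
    obtain ⟨y, hy, hyO⟩ := ((mem_closure_iff_frequently.1 hlim).and_eventually h1).exists
    obtain ⟨A, hA, n, hn, -, hn1, hyn⟩ := hyO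
    have e1 : s + n ∈ Orb := hexp A hA _ (by rw [← hyn]; exact hy)
    refine ⟨n, hn, hn1, ?_, e1⟩
    intro h
    rw [h, add_zero] at e1
    exact hs e1
  choose u hu1 hu2 hu3 hu4 using fun n : ℕ => key (1 / ((n : ℝ) + 1)) (by positivity)
  set v : ℕ → T := fun n => (((‖u n‖⁻¹ : ℝ)) : ℂ) • u n with hv
  have hvn : ∀ n, v n ∈ Metric.sphere (0 : T) 1 := by
    intro n
    rw [mem_sphere_zero_iff_norm, hv]
    simp only
    rw [norm_smul, Complex.norm_real, Real.norm_of_nonneg (by positivity),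
      inv_mul_cancel₀ (norm_ne_zero_iff.2 (hu3 n))]
  obtain ⟨ν, hν, φ, hφ, hlimν⟩ := (isCompact_sphere (0 : T) 1).tendsto_subseq hvn
  have hνN : ν ∈ N := by
    have hcl : IsClosed (N : Set T) := N.closed_of_finiteDimensional
    exact hcl.mem_of_tendsto hlimν (Eventually.of_forall fun n =>
      Submodule.smul_mem _ _ (hu1 (φ n)))
  have hu0 : Tendsto u atTop (𝓝 0) := by
    rw [tendsto_zero_iff_norm_tendsto_zero]
    exact squeeze_zero (fun n => norm_nonneg _) (fun n => (hu2 n).le)
      tendsto_one_div_add_atTop_nhds_zero_nat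
  refine ⟨ν, hνN, ?_, ?_⟩
  · intro h0
    rw [h0, mem_sphere_zero_iff_norm, norm_zero] at hν
    exact zero_ne_one hν
  · intro W _ _ f hd hc
    have hfu : ∀ n, f (s + u n) = f s := fun n => hc _ (hu4 n)
    have h1 := (hasFDerivAt_iff_isLittleO_nhds_zero.1 hd.hasFDerivAt).comp_tendsto hu0
    have h2 : Tendsto (fun n => fderiv ℂ f s (v n)) atTop (𝓝 0) := by
      rw [Metric.tendsto_atTop]
      intro e he
      obtain ⟨M, hM⟩ := eventually_atTop.1 (h1.bound (half_pos he))
      refine ⟨M, fun n hn => ?_⟩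
      have h4 := hM n hn
      simp only [Function.comp_apply, hfu n, sub_self, zero_sub, norm_neg] at h4
      have hpos : 0 < ‖u n‖ := norm_pos_iff.2 (hu3 n)
      rw [dist_zero_right, hv]
      simp only
      rw [map_smul, norm_smul, Complex.norm_real, Real.norm_of_nonneg (by positivity)]
      have h5 : ‖u n‖⁻¹ * ‖fderiv ℂ f s (u n)‖ ≤ ‖u n‖⁻¹ * (e / 2 * ‖u n‖) :=
        mul_le_mul_of_nonneg_left h4 (by positivity)
      have h6 : ‖u n‖⁻¹ * (e / 2 * ‖u n‖) = e / 2 := by
        field_simp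
      linarith
    have h3' : Tendsto (fun n => fderiv ℂ f s (v (φ n))) atTop (𝓝 (fderiv ℂ f s ν)) :=
      ((fderiv ℂ f s).continuous.tendsto ν).comp hlimν
    exact tendsto_nhds_unique h3' (h2.comp hφ.tendsto_atTop)

/-- a linear map with `L (f s) = Df(s) ν` -/
theorem exists_linear (𝓕 : Submodule ℂ (T → T)) {s ν : T} (hd : ∀ f ∈ 𝓕, DifferentiableAt ℂ f s)
    (hder : ∀ f ∈ 𝓕, f s = 0 → fderiv ℂ f s ν = 0) :
    ∃ L : T →ₗ[ℂ] T, ∀ f ∈ 𝓕, L (f s) = fderiv ℂ f s ν := by
  set ev : 𝓕 →ₗ[ℂ] T :=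
    { toFun := fun f => (f : T → T) s
      map_add' := fun _ _ => rfl
      map_smul' := fun _ _ => rfl } with hev
  set dv : 𝓕 →ₗ[ℂ] T :=
    { toFun := fun f => fderiv ℂ (f : T → T) s ν
      map_add' := fun f g => by
        have := fderiv_add (hd f f.2) (hd g g.2)
        show fderiv ℂ ((f : T → T) + (g : T → T)) s ν = _
        rw [this]
        rfl
      map_smul' := fun c f => by
        have := fderiv_const_smul (hd f f.2) c
        show fderiv ℂ (c • (f : T → T)) s ν = _
        rw [this]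
        rfl } with hdv
  have hker : LinearMap.ker ev ≤ LinearMap.ker dv := by
    intro f hf
    rw [LinearMap.mem_ker] at hf ⊢
    exact hder f f.2 hf
  set L₀ : LinearMap.range ev →ₗ[ℂ] T :=
    ((LinearMap.ker ev).liftQ dv hker).comp ev.quotKerEquivRange.symm.toLinearMap with hL₀
  obtain ⟨L, hL⟩ := LinearMap.exists_extend L₀
  refine ⟨L, fun f hf => ?_⟩
  have e1 : L (f s) = L₀ ⟨ev ⟨f, hf⟩, LinearMap.mem_range_self ev _⟩ := by
    rw [← hL]
    rfl
  have e2 : ev.quotKerEquivRange.symm ⟨ev ⟨f, hf⟩, LinearMap.mem_range_self ev _⟩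
      = (LinearMap.ker ev).mkQ ⟨f, hf⟩ := by
    rw [LinearEquiv.symm_apply_eq]
    rfl
  rw [e1, hL₀, LinearMap.comp_apply, LinearEquiv.coe_coe, e2, Submodule.mkQ_apply,
    Submodule.liftQ_apply]
  rfl

end slice

/-- the derivative at `z = 0` of the integrals of `(a + z b)^d (G + z F)` -/
theorem hasDerivAt_int {K : Type*} [TopologicalSpace K] [CompactSpace K] [MeasurableSpace K]
    [BorelSpace K] {μ : Measure K} [IsFiniteMeasure μ] {W : Type*} [NormedAddCommGroup W]
    [NormedSpace ℂ W] [FiniteDimensional ℂ W] {a b : K → ℂ} {F G : K → W} (ha : Continuous a)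
    (hb : Continuous b) (hF : Continuous F) (hG : Continuous G) (d : ℕ) :
    HasDerivAt (fun z : ℂ => ∫ k, (a k + z * b k) ^ d • (G k + z • F k) ∂μ)
      (∫ k, (((d : ℂ) * a k ^ (d - 1) * b k) • G k + a k ^ d • F k) ∂μ) 0 := by
  have : ProperSpace W := FiniteDimensional.proper ℂ W
  have : CompleteSpace W := FiniteDimensional.complete ℂ W
  have hint : ∀ {f : K → W}, Continuous f → Integrable f μ := fun hf =>
    hf.integrable_of_hasCompactSupport (HasCompactSupport.of_compactSpace _)
  set F' : ℂ → K → W := fun z k => (((d : ℂ) * (a k + z * b k) ^ (d - 1) * b k) • (G k + z • F k)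
    + (a k + z * b k) ^ d • F k) with hF'
  have hc : Continuous fun x : ℂ × K => F' x.1 x.2 := by
    rw [hF']
    fun_prop
  obtain ⟨C, hC⟩ := ((isCompact_closedBall (0 : ℂ) 1).prod
    (isCompact_univ (X := K))).exists_bound_of_continuousOn hc.continuousOn
  have h := hasDerivAt_integral_of_dominated_loc_of_deriv_le (μ := μ) (𝕜 := ℂ) (x₀ := (0 : ℂ))
    (F := fun z k => (a k + z * b k) ^ d • (G k + z • F k)) (F' := F') (bound := fun _ => C)
    (s := Metric.ball 0 1) (Metric.ball_mem_nhds _ one_pos)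
    (Eventually.of_forall fun z => (hint (by fun_prop)).aestronglyMeasurable)
    (hint (by fun_prop)) (hint (by rw [hF']; fun_prop)).aestronglyMeasurable
    (Eventually.of_forall fun k z hz => hC (z, k) ⟨Metric.ball_subset_closedBall hz,
      Set.mem_univ k⟩) (integrable_const _)
    (Eventually.of_forall fun k z _ => by
      have h1 : HasDerivAt (fun z : ℂ => a k + z * b k) (b k) z := by
        simpa using ((hasDerivAt_id z).mul_const (b k)).const_add (a k)
      have h2 : HasDerivAt (fun z : ℂ => G k + z • F k) (F k) z := by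
        simpa using ((hasDerivAt_id z).smul_const (F k)).const_add (G k)
      have h3 := (h1.pow d).smul h2
      refine h3.congr_deriv ?_
      rw [hF']
      simp only
      rw [add_comm]
      rfl)
  have h1 := h.2
  refine h1.congr_deriv ?_
  rw [hF']
  simp

end CloAux

end Pool.Agent.Lib.MP_361a6f_ag.FL
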