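import Pool.Agent.Lib.MP_361a6f_ag.FL.Al1b

/-!
# Row CPT: the compact group and its Haar measure
-/

open Filter Topology MeasureTheory

namespace Pool.Agent.Lib.MP_361a6f_ag.FL

namespace CptTB

section haar

variable {G : Type} [Group G] [TopologicalSpace G] [IsTopologicalGroup G] [CompactSpace G]
  [MeasurableSpace G] [BorelSpace G] [SecondCountableTopology G]

theorem eq_of_prob (μ μ' : Measure G) [Measure.IsHaarMeasure μ] [IsProbabilityMeasure μ]
    [μ'.IsMulLeftInvariant] [IsProbabilityMeasure μ'] : μ' = μ := by
  have h := Measure.isMulInvariant_eq_smul_of_compactSpace μ' μ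
  have h1 : μ' Set.univ = (Measure.haarScalarFactor μ' μ • μ) Set.univ := by rw [← h]
  rw [Measure.smul_apply, measure_univ, measure_univ] at h1
  have h2 : Measure.haarScalarFactor μ' μ = 1 := by
    have h3 : ((Measure.haarScalarFactor μ' μ : NNReal) : ENNReal) = 1 := by
      rw [ENNReal.smul_def, smul_eq_mul, mul_one] at h1
      exact h1.symm
    exact_mod_cast h3
  rw [h2, one_smul] at h
  exact h

theorem right_inv (μ : Measure G) [Measure.IsHaarMeasure μ] [IsProbabilityMeasure μ] :
    μ.IsMulRightInvariant := by
  constructor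
  intro g
  have : IsProbabilityMeasure (Measure.map (fun x => x * g) μ) :=
    Measure.isProbabilityMeasure_map (measurable_mul_const g).aemeasurable
  exact eq_of_prob μ _

theorem inv_inv (μ : Measure G) [Measure.IsHaarMeasure μ] [IsProbabilityMeasure μ] :
    μ.IsInvInvariant := by
  constructor
  have h := right_inv μ
  have h2 : IsProbabilityMeasure μ.inv := by
    unfold Measure.inv
    exact Measure.isProbabilityMeasure_map measurable_inv.aemeasurable
  exact eq_of_prob μ _

end haar

variable {I Λ : Type} [Fintype I] [DecidableEq I] [DecidableEq Λ] (D : Dat I Λ)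

/-- the compact group -/
noncomputable def grp : Subgroup (Matrix.unitaryGroup I ℂ) where
  carrier := {u | IsG D (u : Matrix I I ℂ)}
  mul_mem' {a b} ha hb := AL1B.G_mul D _ _ ha hb
  one_mem' := AL1B.G_one D
  inv_mem' {a} ha := by
    have h := (AL1B.G_inv D _ ha).1
    have h1 : ((a : Matrix I I ℂ))⁻¹ = ((a⁻¹ : Matrix.unitaryGroup I ℂ) : Matrix I I ℂ) := by
      refine Matrix.inv_eq_left_inv ?_
      exact Unitary.coe_star_mul_self a
    rw [h1] at h
    exact h

/-- the matrix of an element -/
noncomputable def mat : grp D →* Matrix I I ℂ :=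
  (Submonoid.subtype (Matrix.unitaryGroup I ℂ)).comp (grp D).subtype

theorem mat_apply (k : grp D) : mat D k = ((k : Matrix.unitaryGroup I ℂ) : Matrix I I ℂ) := rfl

theorem mat_embedding : IsEmbedding (mat D) :=
  IsEmbedding.subtypeVal.comp IsEmbedding.subtypeVal

theorem mem (k : grp D) : IsK D (mat D k) := by
  refine ⟨k.2, ?_⟩
  exact Unitary.coe_star_mul_self k.1

theorem range_mat : Set.range (mat D) = {g | IsK D g} := by
  ext g
  constructor
  · rintro ⟨k, rfl⟩
    exact mem D k
  · intro hg
    have hu : g ∈ Matrix.unitaryGroup I ℂ := Matrix.mem_unitaryGroup_iff'.2 hg.2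
    exact ⟨⟨⟨g, hu⟩, hg.1⟩, rfl⟩

omit [DecidableEq Λ] in
theorem isClosed_K : IsClosed {g : Matrix I I ℂ | IsK D g} := by
  have h1 : IsClosed {g : Matrix I I ℂ | ∀ i j, D.typ i ≠ D.typ j → g i j = 0} := by
    have he : {g : Matrix I I ℂ | ∀ i j, D.typ i ≠ D.typ j → g i j = 0} =
        ⋂ i, ⋂ j, ⋂ (_ : D.typ i ≠ D.typ j), {g : Matrix I I ℂ | g i j = 0} := by
      ext g
      simp
    rw [he]
    exact isClosed_iInter fun i => isClosed_iInter fun j => isClosed_iInter fun _ =>
      isClosed_eq ((continuous_apply j).comp (continuous_apply i)) continuous_const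
  have h2 : IsClosed {g : Matrix I I ℂ | g.transpose * Psi D * g = Psi D} :=
    isClosed_eq (((continuous_id.matrix_transpose).matrix_mul continuous_const).matrix_mul
      continuous_id) continuous_const
  have h3 : IsClosed {g : Matrix I I ℂ | g.conjTranspose * g = 1} :=
    isClosed_eq ((continuous_id.matrix_conjTranspose).matrix_mul continuous_id) continuous_const
  exact (h1.inter h2).inter h3

omit [DecidableEq Λ] in
theorem isCompact_K : IsCompact {g : Matrix I I ℂ | IsK D g} := by
  have h1 : IsCompact (Set.univ.pi fun _ : I => Set.univ.pi fun _ : I =>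
      Metric.closedBall (0 : ℂ) 1) :=
    isCompact_univ_pi fun _ => isCompact_univ_pi fun _ => isCompact_closedBall _ _
  refine h1.of_isClosed_subset (isClosed_K D) ?_
  intro g hg i _ j _
  have hu : g ∈ Matrix.unitaryGroup I ℂ := Matrix.mem_unitaryGroup_iff'.2 hg.2
  rw [mem_closedBall_zero_iff]
  exact entry_norm_bound_of_unitary hu i j

theorem compact : CompactSpace (grp D) := by
  constructor
  rw [(mat_embedding D).isCompact_iff, Set.image_univ, range_mat]
  exact isCompact_K D

end CptTB

/-- Row CPT. -/
theorem cptB : CptStatement := by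
  intro I Λ _ _ _ D
  have hc : CompactSpace (CptTB.grp D) := CptTB.compact D
  let ms : MeasurableSpace (CptTB.grp D) := borel _
  have bs : BorelSpace (CptTB.grp D) := ⟨rfl⟩
  have scM : SecondCountableTopology (Matrix I I ℂ) :=
    inferInstanceAs (SecondCountableTopology (I → I → ℂ))
  have sc : SecondCountableTopology (CptTB.grp D) :=
    (CptTB.mat_embedding D).secondCountableTopology
  obtain ⟨μ, hμ⟩ : ∃ μ : Measure (CptTB.grp D), μ = Measure.haarMeasure ⊤ := ⟨_, rfl⟩
  have hH : μ.IsHaarMeasure := by rw [hμ]; infer_instance
  have hP : IsProbabilityMeasure μ := by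
    constructor
    rw [hμ]
    exact Measure.haarMeasure_self
  exact ⟨{ K := CptTB.grp D
           cpt := hc
           ms := ms
           bs := bs
           sc := sc
           mat := CptTB.mat D
           cont_mat := (CptTB.mat_embedding D).continuous
           mem := CptTB.mem D
           surj := fun g hg => by
             have h : g ∈ Set.range (CptTB.mat D) := by rw [CptTB.range_mat]; exact hg
             exact h
           inj := (CptTB.mat_embedding D).injective
           μ := μ
           prob := hP
           left_inv := inferInstance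
           right_inv := CptTB.right_inv μ
           inv_inv := CptTB.inv_inv μ
           open_pos := inferInstance }⟩

end Pool.Agent.Lib.MP_361a6f_ag.FL
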