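import Pool.Agent.Lib.MP_361a6f_ag.FL.Defs
import Pool.Agent.Lib.MP_361a6f_ag.RM.FftB

/-!
# Row FFT

Invariant tensors are combinations of matchings (from `MP361RM.Crd.fft`).
-/

open scoped ComplexConjugate

namespace Pool.Agent.Lib.MP_361a6f_ag.FL

set_option linter.unusedSectionVars false

open MP361RM

variable {I Λ : Type} [Fintype I] [DecidableEq I] [DecidableEq Λ]

open Classical in
/-- the coordinates of `D` -/
noncomputable def toCrd (D : Dat I Λ) : Crd Λ I where
  typ := D.typ
  bar := D.τ
  sg := D.s
  eps := fun α => if D.odd α then -1 else 1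
  bar_bar := D.τ_τ
  typ_bar := D.typ_τ
  sg_pm := D.s_val
  eps_pm := fun α => by
    by_cases h : D.odd α
    · right; rw [if_pos h]
    · left; rw [if_neg h]
  sg_bar := fun a => by
    by_cases h : D.odd (D.typ a)
    · rw [if_pos h, (D.odd_τ a h).2]
      rcases D.s_val a with h1 | h1 <;> rw [h1] <;> norm_num
    · rw [if_neg h, (D.even_τ a h).1, (D.even_τ a h).2, one_mul]
  real := fun a h => by
    by_cases h1 : D.odd (D.typ a)
    · rw [if_pos h1] at h
      norm_num at h
    · exact (D.even_τ a h1).1

lemma isK_of_mem (D : Dat I Λ) {k : Matrix I I ℂ} (hk : k ∈ (toCrd D).K) : IsK D k := by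
  have hu := (Matrix.mem_unitaryGroup_iff').1 hk.1
  rw [Matrix.star_eq_conjTranspose] at hu
  refine ⟨⟨hk.2.1, ?_⟩, hu⟩
  ext a b
  have h1 : ∀ q, (k.transpose * Psi D) a q = k (D.τ q) a * D.s (D.τ q) := by
    intro q
    rw [Matrix.mul_apply, Finset.sum_eq_single (D.τ q)]
    · rw [Matrix.transpose_apply]
      unfold Psi
      rw [Matrix.of_apply, D.τ_τ, if_pos rfl]
    · intro p _ hp
      unfold Psi
      rw [Matrix.of_apply, if_neg, mul_zero]
      intro h
      apply hp
      rw [h, D.τ_τ]
    · intro h; exact absurd (Finset.mem_univ _) h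
  rw [Matrix.mul_apply]
  simp only [h1]
  have h2 : ∀ q, k (D.τ q) a * D.s (D.τ q) * k q b =
      D.s (D.τ b) * (conj (k (D.τ q) (D.τ b)) * k (D.τ q) a) := by
    intro q
    have h3 : k q b = D.s (D.τ q) * D.s (D.τ b) * conj (k (D.τ q) (D.τ b)) := by
      have h4 := hk.2.2 (D.τ q) (D.τ b)
      have h5 : k (D.τ (D.τ q)) (D.τ (D.τ b)) =
        D.s (D.τ q) * D.s (D.τ b) * conj (k (D.τ q) (D.τ b)) := h4
      rwa [D.τ_τ, D.τ_τ] at h5
    rw [h3]
    have h6 : D.s (D.τ q) * D.s (D.τ q) = 1 := by
      rcases D.s_val (D.τ q) with h | h <;> rw [h] <;> norm_num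
    linear_combination (k (D.τ q) a * D.s (D.τ b) * conj (k (D.τ q) (D.τ b))) * h6
  simp only [h2]
  rw [← Finset.mul_sum]
  let tE : I ≃ I := ⟨D.τ, D.τ, D.τ_τ, D.τ_τ⟩
  have h3 : ∑ q, conj (k (D.τ q) (D.τ b)) * k (D.τ q) a =
      ∑ q, conj (k q (D.τ b)) * k q a :=
    Equiv.sum_comp tE (fun q => conj (k q (D.τ b)) * k q a)
  have h4 := congrFun (congrFun hu (D.τ b)) a
  rw [Matrix.mul_apply] at h4
  simp only [Matrix.conjTranspose_apply, RCLike.star_def] at h4
  rw [h3, h4]
  unfold Psi
  rw [Matrix.of_apply]
  by_cases h5 : b = D.τ a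
  · rw [if_pos h5, h5, D.τ_τ, Matrix.one_apply_eq, mul_one]
  · rw [if_neg h5, Matrix.one_apply_ne, mul_zero]
    intro h6
    apply h5
    rw [← h6, D.τ_τ]

/-- Row FFT. -/
theorem fft : FftStatement := by
  intro I Λ _ _ _ D L u hu
  have key := (toCrd D).fft (fun L => Submodule.span ℂ {m | IsMatch D L m})
    (Submodule.subset_span IsMatch.nil) ?_ ?_ u (fun k hk => hu k (isK_of_mem D hk))
  · exact key
  · intro L m π hm
    induction hm using Submodule.span_induction with
    | mem x hx => exact Submodule.subset_span (IsMatch.perm L x π hx)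
    | zero => exact Submodule.zero_mem _
    | add x y _ _ hx hy => exact Submodule.add_mem _ hx hy
    | smul z x _ hx => exact Submodule.smul_mem _ z hx
  · intro L m α hm
    induction hm using Submodule.span_induction with
    | mem x hx =>
      apply Submodule.subset_span
      have h1 := IsMatch.step L x α hx
      let σ : Equiv.Perm (Fin (L + 2)) :=
        finSumFinEquiv.symm.trans ((Equiv.sumComm _ _).trans (finSumFinEquiv.trans
          (finCongr (Nat.add_comm 2 L))))
      have h2 := IsMatch.perm (L + 2) _ σ h1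
      have h3 : permT σ (outer x (om D α)) = (fun w : Fin (L + 2) → I =>
          (toCrd D).om α (w 0) (w 1) * x (fun i => w i.succ.succ)) := by
        funext w
        unfold permT outer
        have e1 : ∀ i : Fin L, σ (Fin.castAdd 2 i) = i.succ.succ := by
          intro i
          apply Fin.ext
          simp [σ]
        have e2 : σ (Fin.natAdd L 0) = 0 := by
          apply Fin.ext
          simp [σ]
        have e3 : σ (Fin.natAdd L 1) = 1 := by
          apply Fin.ext
          simp [σ]
        have e4 : (fun i : Fin L => (w ∘ σ) (Fin.castAdd 2 i)) = fun i => w i.succ.succ := by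
          funext i
          show w (σ _) = _
          rw [e1]
        rw [e4, mul_comm]
        congr 1
        unfold om Crd.om
        show (if D.typ (w (σ (Fin.natAdd L 0))) = α ∧ w (σ (Fin.natAdd L 1)) =
          D.τ (w (σ (Fin.natAdd L 0))) then D.s (w (σ (Fin.natAdd L 0))) else 0) = _
        rw [e2, e3]
        rfl
      rw [← h3]
      exact h2
    | zero =>
      have : (fun w : Fin (L + 2) → I => (toCrd D).om α (w 0) (w 1) *
        (0 : Ten I L) (fun i => w i.succ.succ)) = 0 := by
        funext w; simp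
      rw [this]; exact Submodule.zero_mem _
    | add x y _ _ hx hy =>
      have : (fun w : Fin (L + 2) → I => (toCrd D).om α (w 0) (w 1) *
        (x + y) (fun i => w i.succ.succ)) =
        (fun w : Fin (L + 2) → I => (toCrd D).om α (w 0) (w 1) * x (fun i => w i.succ.succ)) +
        (fun w : Fin (L + 2) → I => (toCrd D).om α (w 0) (w 1) * y (fun i => w i.succ.succ)) := by
        funext w; simp [mul_add]
      rw [this]; exact Submodule.add_mem _ hx hy
    | smul z x _ hx =>
      have : (fun w : Fin (L + 2) → I => (toCrd D).om α (w 0) (w 1) *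
        (z • x) (fun i => w i.succ.succ)) =
        z • (fun w : Fin (L + 2) → I => (toCrd D).om α (w 0) (w 1) *
          x (fun i => w i.succ.succ)) := by
        funext w; simp; ring
      rw [this]; exact Submodule.smul_mem _ z hx

end Pool.Agent.Lib.MP_361a6f_ag.FL
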