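import Pool.Agent.Lib.MP_361a6f_ag.FL.AlgDefs

/-!
# Row REAL: a minimal point with positive diagrams is fixed by `J₀`
-/

open Filter Topology MeasureTheory

namespace Pool.Agent.Lib.MP_361a6f_ag.FL

namespace RealT

variable {I Λ ι : Type} [Fintype I] [DecidableEq I] [DecidableEq Λ] [Fintype ι] {len : ι → ℕ}

theorem hS_jS (a1 : Alg1) (D : Dat I Λ) (s : Tup I len) : hS (jS D s) (jS D s) = hS s s := by
  unfold hS jS
  exact Finset.sum_congr rfl fun i _ => a1.hT_jT_jT D (s i) (s i)

omit [DecidableEq I] [DecidableEq Λ] in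
theorem psi_neg_right (D : Dat I Λ) {L : ℕ} (u v : Ten I L) : psiT D u (-v) = -psiT D u v := by
  unfold psiT
  rw [← Finset.sum_neg_distrib]
  exact Finset.sum_congr rfl fun w _ => by simp

/-- a complex number whose square is a positive real is real -/
theorem conj_of_sq {z : ℂ} {r : ℝ} (hr : 0 < r) (h : z * z = (r : ℂ)) :
    (starRingEnd ℂ) z = z := by
  have him : (z * z).im = 0 := by rw [h]; exact Complex.ofReal_im r
  have hre : (z * z).re = r := by rw [h]; exact Complex.ofReal_re r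
  rw [Complex.mul_im] at him
  rw [Complex.mul_re] at hre
  have h0 : z.re * z.im = 0 := by linarith
  rw [Complex.conj_eq_iff_im]
  rcases mul_eq_zero.mp h0 with h1 | h1
  · exfalso
    rw [h1] at hre
    nlinarith [mul_self_nonneg z.im]
  · exact h1

omit [DecidableEq I] [DecidableEq Λ] in
/-- the invariants of a tuple with `PosAt D s 0` are fixed by `J₀` -/
theorem jT_zero (D : Dat I Λ) (u : Ten I 0)
    (h : u ≠ 0 → ∃ r : ℝ, 0 < r ∧ psiT D u u = (r : ℂ)) : jT D u = u := by
  by_cases hu : u = 0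
  · rw [hu]
    funext w
    simp [jT]
  · obtain ⟨r, hr, hr'⟩ := h hu
    funext w
    have hw : ∀ w' : Fin 0 → I, w' = w := fun w' => Subsingleton.elim _ _
    have h1 : psiT D u u = u w * u w := by
      unfold psiT
      rw [Fintype.sum_eq_single w (fun w' hw' => absurd (hw w') hw')]
      rw [hw (D.τ ∘ w)]
      simp [sg]
    have h2 : u w * u w = (r : ℂ) := by rw [← h1, hr']
    unfold jT
    rw [hw (D.τ ∘ w), conj_of_sq hr h2]
    simp [sg]

omit [Fintype ι] in
/-- `v + σ v` is in the real span -/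
theorem add_sigma_mem (a1 : Alg1) (D : Dat I Λ) (s : Tup I len) (g : Matrix I I ℂ) (c : ℕ)
    (hg : ∀ (l : List ι) (m : Ten I ((l.map len).sum + c)), IsMatch D _ m →
      gT g (jT D (dm D c l m s)) = dm D c l m s)
    (v : Ten I c) (hv : v ∈ MT D s c) :
    ∀ z : ℂ, z • v + gT g (jT D (z • v)) ∈ RT D s c := by
  unfold MT at hv
  induction hv using Submodule.span_induction with
  | mem x hx =>
    obtain ⟨l, m, hm, rfl⟩ := hx
    intro z
    rw [a1.jT_smul, a1.gT_smul, hg l m hm, ← add_smul]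
    have h1 : z + (starRingEnd ℂ) z = ((2 * z.re : ℝ) : ℂ) := by
      rw [Complex.add_conj]
    rw [h1]
    have h2 : (((2 * z.re : ℝ) : ℂ) • dm D c l m s) = (2 * z.re : ℝ) • dm D c l m s := by
      funext w
      simp
    rw [h2]
    exact Submodule.smul_mem _ _ (Submodule.subset_span ⟨l, m, hm, rfl⟩)
  | zero =>
    intro z
    have h0 : jT D (0 : Ten I c) = 0 := by
      have := a1.jT_smul D (0 : ℂ) (0 : Ten I c)
      simpa using this
    have h1 : gT g (0 : Ten I c) = 0 := by
      have := a1.gT_smul g (0 : ℂ) (0 : Ten I c)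
      simpa using this
    rw [smul_zero, h0, h1, add_zero]
    exact Submodule.zero_mem _
  | add x y _ _ hx hy =>
    intro z
    rw [smul_add, a1.jT_add, a1.gT_add]
    have := Submodule.add_mem _ (hx z) (hy z)
    have he : z • x + z • y + (gT g (jT D (z • x)) + gT g (jT D (z • y)))
        = z • x + gT g (jT D (z • x)) + (z • y + gT g (jT D (z • y))) := by abel
    rw [he]
    exact this
  | smul a x _ hx =>
    intro z
    rw [smul_smul]
    exact hx (z * a)

end RealT

open RealT in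
/-- Row REAL. -/
theorem real (a1 : Alg1) (a2 : Alg2) (l1 : L1Statement) (l2 : L2Statement) : RealStatement := by
  intro I Λ ι _ _ _ _ len D H s hmin hne hpos hpos0 hjj
  -- the invariants are real
  have hinv : ∀ (l : List ι) (m : Ten I ((l.map len).sum + 0)), IsMatch D _ m →
      dm D 0 l m (jS D s) = dm D 0 l m s := by
    intro l m hm
    rw [a2.dm_jS D 0 l m s hm]
    exact jT_zero D _ (hpos0 _ (Submodule.subset_span ⟨l, m, hm, rfl⟩))
  obtain ⟨k, hk⟩ := l1 H s (jS D s) hmin hne (hS_jS a1 D s) hinv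
  have hK : IsK D (H.mat k) := H.mem k
  have hK' : IsK D (H.mat k⁻¹) := H.mem k⁻¹
  have hkk : ∀ {L : ℕ} (u : Ten I L), gT (H.mat k⁻¹) (gT (H.mat k) u) = u := by
    intro L u
    rw [← a1.gT_mul, ← map_mul, inv_mul_cancel, map_one, a1.gT_one]
  have hki : ∀ i, gT (H.mat k) (s i) = jT D (s i) := fun i => congrFun hk i
  have hjji : ∀ i, jT D (jT D (s i)) = s i := fun i => congrFun hjj i
  have hneg : ∀ {L : ℕ} (g : Matrix I I ℂ) (u : Ten I L), gT g (-u) = -gT g u := by
    intro L g u
    have := a1.gT_smul g (-1 : ℂ) u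
    simpa using this
  have hjneg : ∀ {L : ℕ} (u : Ten I L), jT D (-u) = -jT D u := by
    intro L u
    have := a1.jT_smul D (-1 : ℂ) u
    simpa using this
  funext i
  by_contra hcon
  obtain ⟨u, hu⟩ : ∃ u : Ten I (len i), u = s i + -jT D (s i) := ⟨_, rfl⟩
  have hu0 : u ≠ 0 := by
    intro h0
    apply hcon
    show jT D (s i) = s i
    rw [hu, ← sub_eq_add_neg, sub_eq_zero] at h0
    exact h0.symm
  have hju : jT D u = -u := by
    rw [hu, a1.jT_add, hjneg, hjji]
    abel
  have hgu : gT (H.mat k) u = -u := by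
    rw [hu, a1.gT_add, hneg, ← a1.jT_gT D _ _ hK, hki, hjji]
    abel
  have hgu' : gT (H.mat k⁻¹) u = -u := by
    have h := hkk u
    rw [hgu, hneg] at h
    rw [← h, neg_neg]
    rw [h]
  -- `u` is fixed by the stabiliser
  have humem : u ∈ MT D s (len i) := by
    refine l2 H s hmin hne (len i) u ?_
    intro k' hk'
    have h1 : gT (H.mat k') (s i) = s i := congrFun hk' i
    rw [hu, a1.gT_add, hneg, ← a1.jT_gT D _ _ (H.mem k'), h1]
  -- the real structure
  have hg : ∀ (l : List ι) (m : Ten I ((l.map len).sum + len i)), IsMatch D _ m →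
      gT (H.mat k⁻¹) (jT D (dm D (len i) l m s)) = dm D (len i) l m s := by
    intro l m hm
    rw [← a2.dm_jS D (len i) l m s hm, ← hk, a2.dm_gS D (len i) l m _ s hm hK.1, hkk]
  have hR := add_sigma_mem a1 D s (H.mat k⁻¹) (len i) hg u humem (1 / 2 : ℂ)
  have hσ : gT (H.mat k⁻¹) (jT D ((1 / 2 : ℂ) • u)) = (1 / 2 : ℂ) • u := by
    rw [a1.jT_smul, a1.gT_smul, hju, hneg, hgu', neg_neg]
    congr 1
    rw [map_div₀, map_one, Complex.conj_ofNat]
  rw [hσ, ← add_smul] at hR
  have h12 : ((1 / 2 : ℂ) + 1 / 2) = 1 := by norm_num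
  rw [h12, one_smul] at hR
  obtain ⟨r, hr, hr'⟩ := hpos i u hR hu0
  have h3 : psiT D u (jT D u) = hT u u := a1.psiT_jT D u u
  rw [hju, psi_neg_right, hr', a1.hT_self] at h3
  have h4 : -r = ∑ w, ‖u w‖ ^ 2 := by exact_mod_cast h3
  have h5 : 0 ≤ ∑ w, ‖u w‖ ^ 2 := Finset.sum_nonneg fun w _ => by positivity
  linarith

end Pool.Agent.Lib.MP_361a6f_ag.FL
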