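import Pool.Agent.Lib.MP_361a6f_ag.PP.FIX

/-!
# Antilinear operators on products: multiplicativity and compatibility with coordinate maps
-/

open CategoryTheory AlgebraicGeometry MonoidalCategory CartesianMonoidalCategory

universe u v w

set_option autoImplicit false
set_option linter.unusedSectionVars false

namespace Pool.Agent.Lib.MP_361a6f_ag.FL

open Pool.Agent.Lib.MP_361a6f_ag.H3 Pool.Agent.Lib.MP_361a6f_ag.SQ
  Pool.Agent.Lib.MP_361a6f_ag.IP2 Pool.Agent.Lib.MP_361a6f_ag.PP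

namespace GMpre

variable {k : Type u} [Field k] {W : CohomologyData.{u, 0, w} k ℂ} {𝒱 : VarietyClass k}

/-- `Tr(δ_*(1) · w) = Tr(δ^* w)` -/
theorem tr_diag (hW : IsWeilCohomology W 𝒱) {X P : Sch k} {n p : ℕ} (hX : 𝒱.mem X n)
    (hP : 𝒱.mem P p) (δ : X ⟶ P) (z : W.coh P) :
    W.tr P (W.push δ 1 * z) = W.tr X (W.pull δ z) := by
  rw [hW.push_adj hX hP, one_mul]

/-- the pull-back along a section of a projection -/
theorem pull_section (W : CohomologyData.{u, 0, w} k ℂ) {X P : Sch k} (δ : X ⟶ P) (a : P ⟶ X)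
    (h : δ ≫ a = 𝟙 X) (x : W.coh X) : W.pull δ (W.pull a x) = x := by
  rw [← W.pull_comp, h, W.pull_id]

/-- `j` is multiplicative if the class of the small diagonal of `X³` is fixed -/
theorem mul_of_diag (hW : IsWeilCohomology W 𝒱) {X P : Sch k} {n p : ℕ} (hX : 𝒱.mem X n)
    (hP : 𝒱.mem P p) (δ : X ⟶ P) (a b c : P ⟶ X) (ha : δ ≫ a = 𝟙 X) (hb : δ ≫ b = 𝟙 X)
    (hc : δ ≫ c = 𝟙 X) (j : W.coh X →ₛₗ[starRingEnd ℂ] W.coh X)
    (J : W.coh P →ₛₗ[starRingEnd ℂ] W.coh P)
    (hjt : ∀ x y, W.tr X (j x * j y) = starRingEnd ℂ (W.tr X (x * y)))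
    (hjs : Function.Surjective j)
    (hJt : ∀ x y, W.tr P (J x * J y) = starRingEnd ℂ (W.tr P (x * y)))
    (hJ : ∀ x y z, J (W.pull a x * W.pull b y * W.pull c z)
      = W.pull a (j x) * W.pull b (j y) * W.pull c (j z))
    (hδ : J (W.push δ 1) = W.push δ 1) (x y : W.coh X) : j (x * y) = j x * j y := by
  have key : ∀ x y z, W.tr P (W.push δ 1 * (W.pull a x * W.pull b y * W.pull c z))
      = W.tr X (x * y * z) := by
    intro x y z
    rw [tr_diag hW hX hP, map_mul (W.pull δ), map_mul (W.pull δ), pull_section W δ a ha, pull_section W δ b hb,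
      pull_section W δ c hc]
  rw [← sub_eq_zero]
  refine hW.duality hX _ fun z => ?_
  obtain ⟨z, rfl⟩ := hjs z
  have h1 : W.tr X (j x * j y * j z) = starRingEnd ℂ (W.tr X (x * y * z)) := by
    rw [← key, ← key, ← hJ, ← hJt, hδ]
  rw [sub_mul, map_sub, hjt, h1, sub_self]

/-- the tensor product of graded multiplicative antilinear operators is multiplicative -/
theorem mul_prod (hW : IsWeilCohomology W 𝒱) {Y X : Sch k} {d n : ℕ} (hY : 𝒱.mem Y d)
    (hX : 𝒱.mem X n) (jY : W.coh Y →ₛₗ[starRingEnd ℂ] W.coh Y)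
    (jX : W.coh X →ₛₗ[starRingEnd ℂ] W.coh X)
    (J : W.coh (Y ⊗ X) →ₛₗ[starRingEnd ℂ] W.coh (Y ⊗ X))
    (hJ : ∀ y x, J (W.pull (fst Y X) y * W.pull (snd Y X) x)
      = W.pull (fst Y X) (jY y) * W.pull (snd Y X) (jX x))
    (gY : ∀ i y, y ∈ W.gr Y i → jY y ∈ W.gr Y i) (gX : ∀ i x, x ∈ W.gr X i → jX x ∈ W.gr X i)
    (mY : ∀ x y, jY (x * y) = jY x * jY y) (mX : ∀ x y, jX (x * y) = jX x * jX y)
    (u v : W.coh (Y ⊗ X)) : J (u * v) = J u * J v := by
  have hYX := 𝒱.prod hY hX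
  -- the swap of the inner factors
  have swap : ∀ i l (x : W.coh X) (y : W.coh Y), x ∈ W.gr X i → y ∈ W.gr Y l →
      W.pull (snd Y X) x * W.pull (fst Y X) y
        = ((-1 : ℂ) ^ (i * l)) • (W.pull (fst Y X) y * W.pull (snd Y X) x) := fun i l x y hx hy =>
    hW.comm_gr hYX (hW.pull_gr hYX hX _ hx) (hW.pull_gr hYX hY _ hy)
  have step : ∀ (y y' : W.coh Y) (x x' : W.coh X),
      J (W.pull (fst Y X) y * W.pull (snd Y X) x * (W.pull (fst Y X) y' * W.pull (snd Y X) x'))
        = J (W.pull (fst Y X) y * W.pull (snd Y X) x)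
          * J (W.pull (fst Y X) y' * W.pull (snd Y X) x') := by
    intro y y' x x'
    refine hW.hom_induction hX (P := fun x => J (W.pull (fst Y X) y * W.pull (snd Y X) x
        * (W.pull (fst Y X) y' * W.pull (snd Y X) x'))
        = J (W.pull (fst Y X) y * W.pull (snd Y X) x)
          * J (W.pull (fst Y X) y' * W.pull (snd Y X) x')) x ?_ ?_ ?_
    · intro i x hx
      refine hW.hom_induction hY (P := fun y' => J (W.pull (fst Y X) y * W.pull (snd Y X) x
        * (W.pull (fst Y X) y' * W.pull (snd Y X) x'))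
        = J (W.pull (fst Y X) y * W.pull (snd Y X) x)
          * J (W.pull (fst Y X) y' * W.pull (snd Y X) x')) y' ?_ ?_ ?_
      · intro l y' hy'
        have e : ∀ (y y' : W.coh Y) (x x' : W.coh X), x ∈ W.gr X i → y' ∈ W.gr Y l →
            W.pull (fst Y X) y * W.pull (snd Y X) x * (W.pull (fst Y X) y' * W.pull (snd Y X) x')
              = ((-1 : ℂ) ^ (i * l)) • (W.pull (fst Y X) (y * y')
                * W.pull (snd Y X) (x * x')) := by
          intro y y' x x' hx hy'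
          calc W.pull (fst Y X) y * W.pull (snd Y X) x
                * (W.pull (fst Y X) y' * W.pull (snd Y X) x')
              = W.pull (fst Y X) y * (W.pull (snd Y X) x * W.pull (fst Y X) y')
                * W.pull (snd Y X) x' := by simp only [mul_assoc]
            _ = _ := by
              rw [swap i l x y' hx hy', map_mul, map_mul, mul_smul_comm, smul_mul_assoc]
              simp only [mul_assoc]
        rw [e y y' x x' hx hy', hJ, hJ, e _ _ _ _ (gX i x hx) (gY l y' hy'), map_smulₛₗ, hJ, mY, mX]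
        congr 1
        rw [map_pow, map_neg, map_one]
      · simp only [map_zero, zero_mul, mul_zero]
      · intro a b ha hb
        rw [map_add, add_mul, mul_add, map_add, ha, hb, map_add, mul_add]
    · simp only [map_zero, zero_mul, mul_zero]
    · intro a b ha hb
      rw [map_add, mul_add, add_mul, map_add, ha, hb, map_add, add_mul]
  have hu : u ∈ Submodule.span ℂ {z | ∃ (x : W.coh Y) (y : W.coh X),
      z = W.pull (fst Y X) x * W.pull (snd Y X) y} := by
    rw [hW.kunneth_span hY hX]; trivial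
  have hv : v ∈ Submodule.span ℂ {z | ∃ (x : W.coh Y) (y : W.coh X),
      z = W.pull (fst Y X) x * W.pull (snd Y X) y} := by
    rw [hW.kunneth_span hY hX]; trivial
  induction hu using Submodule.span_induction with
  | mem u hu =>
    obtain ⟨y, x, rfl⟩ := hu
    induction hv using Submodule.span_induction with
    | mem v hv =>
      obtain ⟨y', x', rfl⟩ := hv
      exact step y y' x x'
    | zero => simp only [map_zero, mul_zero]
    | add a b _ _ ha hb => rw [mul_add, map_add, ha, hb, map_add, mul_add]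
    | smul c a _ ha => rw [mul_smul_comm, map_smulₛₗ, ha, map_smulₛₗ, mul_smul_comm]
  | zero => simp only [map_zero, zero_mul]
  | add a b _ _ ha hb => rw [add_mul, map_add, ha, hb, map_add, add_mul]
  | smul c a _ ha => rw [smul_mul_assoc, map_smulₛₗ, ha, map_smulₛₗ, smul_mul_assoc]

/-- compatibility with the pull-back along a map to a product, from the components -/
theorem pull_comm (hW : IsWeilCohomology W 𝒱) {Q Y X : Sch k} {d n : ℕ} (hY : 𝒱.mem Y d)
    (hX : 𝒱.mem X n) (jY : W.coh Y →ₛₗ[starRingEnd ℂ] W.coh Y)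
    (jX : W.coh X →ₛₗ[starRingEnd ℂ] W.coh X)
    (J : W.coh (Y ⊗ X) →ₛₗ[starRingEnd ℂ] W.coh (Y ⊗ X))
    (JQ : W.coh Q →ₛₗ[starRingEnd ℂ] W.coh Q)
    (hJ : ∀ y x, J (W.pull (fst Y X) y * W.pull (snd Y X) x)
      = W.pull (fst Y X) (jY y) * W.pull (snd Y X) (jX x))
    (mQ : ∀ x y, JQ (x * y) = JQ x * JQ y) (c : Q ⟶ Y ⊗ X)
    (h1 : ∀ y, JQ (W.pull (c ≫ fst Y X) y) = W.pull (c ≫ fst Y X) (jY y))
    (h2 : ∀ x, JQ (W.pull (c ≫ snd Y X) x) = W.pull (c ≫ snd Y X) (jX x))
    (z : W.coh (Y ⊗ X)) : JQ (W.pull c z) = W.pull c (J z) := by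
  have hz : z ∈ Submodule.span ℂ {z | ∃ (x : W.coh Y) (y : W.coh X),
      z = W.pull (fst Y X) x * W.pull (snd Y X) y} := by
    rw [hW.kunneth_span hY hX]; trivial
  induction hz using Submodule.span_induction with
  | mem z hz =>
    obtain ⟨y, x, rfl⟩ := hz
    rw [hJ, map_mul (W.pull c), map_mul (W.pull c), mQ, ← W.pull_comp, ← W.pull_comp, ← W.pull_comp, ← W.pull_comp,
      h1, h2]
  | zero => simp only [map_zero]
  | add a b _ _ ha hb => rw [map_add, map_add, ha, hb, map_add, map_add]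
  | smul r a _ ha => rw [map_smul, map_smulₛₗ, ha, map_smulₛₗ, map_smul]

/-- compatibility with the push-forward, from compatibility with the pull-back -/
theorem push_comm (hW : IsWeilCohomology W 𝒱) {Q P : Sch k} {q p : ℕ} (hQ : 𝒱.mem Q q)
    (hP : 𝒱.mem P p) (JQ : W.coh Q →ₛₗ[starRingEnd ℂ] W.coh Q)
    (JP : W.coh P →ₛₗ[starRingEnd ℂ] W.coh P)
    (hQt : ∀ x y, W.tr Q (JQ x * JQ y) = starRingEnd ℂ (W.tr Q (x * y)))
    (hPt : ∀ x y, W.tr P (JP x * JP y) = starRingEnd ℂ (W.tr P (x * y)))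
    (hPs : Function.Surjective JP) (c : Q ⟶ P)
    (hc : ∀ z, JQ (W.pull c z) = W.pull c (JP z)) (x : W.coh Q) :
    JP (W.push c x) = W.push c (JQ x) := by
  rw [← sub_eq_zero]
  refine hW.duality hP _ fun y => ?_
  obtain ⟨y, rfl⟩ := hPs y
  rw [sub_mul, map_sub, hPt, hW.push_adj hQ hP, hW.push_adj hQ hP, ← hc, hQt, sub_self]

/-- a product of operators on the first factor -/
theorem fst_prod {Y X : Sch k} (jY : W.coh Y →ₛₗ[starRingEnd ℂ] W.coh Y)
    (jX : W.coh X →ₛₗ[starRingEnd ℂ] W.coh X)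
    (J : W.coh (Y ⊗ X) →ₛₗ[starRingEnd ℂ] W.coh (Y ⊗ X))
    (hJ : ∀ y x, J (W.pull (fst Y X) y * W.pull (snd Y X) x)
      = W.pull (fst Y X) (jY y) * W.pull (snd Y X) (jX x)) (y : W.coh Y) (h1 : jX 1 = 1) :
    J (W.pull (fst Y X) y) = W.pull (fst Y X) (jY y) := by
  have h := hJ y 1
  rwa [h1, map_one, mul_one, mul_one] at h

/-- a product of operators on the second factor -/
theorem snd_prod {Y X : Sch k} (jY : W.coh Y →ₛₗ[starRingEnd ℂ] W.coh Y)
    (jX : W.coh X →ₛₗ[starRingEnd ℂ] W.coh X)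
    (J : W.coh (Y ⊗ X) →ₛₗ[starRingEnd ℂ] W.coh (Y ⊗ X))
    (hJ : ∀ y x, J (W.pull (fst Y X) y * W.pull (snd Y X) x)
      = W.pull (fst Y X) (jY y) * W.pull (snd Y X) (jX x)) (x : W.coh X) (h1 : jY 1 = 1) :
    J (W.pull (snd Y X) x) = W.pull (snd Y X) (jX x) := by
  have h := hJ 1 x
  rwa [h1, map_one, one_mul, one_mul] at h

end GMpre

end Pool.Agent.Lib.MP_361a6f_ag.FL
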