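import Pool.Agent.Lib.MP_361a6f_ag.FL.GeoDefs

/-!
# Finitely many algebraic classes cut out the group that fixes all algebraic classes
-/

open CategoryTheory AlgebraicGeometry MonoidalCategory CartesianMonoidalCategory

universe u v w

set_option autoImplicit false
set_option linter.unusedSectionVars false

namespace Pool.Agent.Lib.MP_361a6f_ag.FL

open Pool.Agent.Lib.MP_361a6f_ag.H3 Pool.Agent.Lib.MP_361a6f_ag.SQ
  Pool.Agent.Lib.MP_361a6f_ag.PP

/-- a set of polynomials has the same common zeros as one of its finite subsets -/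
theorem exists_finset_zeros {V : Type*} [Finite V] (E : Set (MvPolynomial V ℂ)) :
    ∃ E' : Finset (MvPolynomial V ℂ), (E' : Set (MvPolynomial V ℂ)) ⊆ E ∧
      ∀ v : V → ℂ, (∀ p ∈ E', MvPolynomial.eval v p = 0) → ∀ p ∈ E, MvPolynomial.eval v p = 0 := by
  have hfg : (Submodule.span (MvPolynomial V ℂ) E).FG := IsNoetherian.noetherian _
  obtain ⟨E', hE', hspan⟩ := (Submodule.fg_span_iff_fg_span_finset_subset E).1 hfg
  refine ⟨E', hE', fun v hv p hp => ?_⟩
  have hp' : p ∈ Submodule.span (MvPolynomial V ℂ) (E' : Set (MvPolynomial V ℂ)) := by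
    rw [← hspan]
    exact Submodule.subset_span hp
  refine Submodule.span_induction (p := fun p _ => MvPolynomial.eval v p = 0) ?_ ?_ ?_ ?_ hp'
  · intro p hp
    exact hv p hp
  · exact map_zero _
  · intro a b _ _ ha hb
    rw [map_add, ha, hb, add_zero]
  · intro a b _ hb
    rw [smul_eq_mul, map_mul, hb, mul_zero]

namespace Noe

variable {k : Type u} [Field k] {W : CohomologyData.{u, 0, w} k ℂ} {𝒱 : VarietyClass k} {m : ℕ}
  {X : Fin m → Sch k} {n : Fin m → ℕ} (hW : IsWeilCohomology W 𝒱)
  (hX : ∀ a, 𝒱.mem (X a) (n a))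

/-- the action of a family of operators on the cohomology of a product -/
noncomputable def act (g : ∀ a, Module.End ℂ (W.coh (X a))) :
    (P : Prd m) → Module.End ℂ (W.coh (P.obj X))
  | .leaf a => g a
  | .prod P Q => ten hW (memP hX P) (memP hX Q) (act g P) (act g Q)

/-- the matrix entries -/
abbrev Var (W : CohomologyData.{u, 0, w} k ℂ) (X : Fin m → Sch k) : Type :=
  Σ a : Fin m, Fin (Module.finrank ℂ (W.coh (X a))) × Fin (Module.finrank ℂ (W.coh (X a)))

/-- the matrix entries of a family of operators -/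
noncomputable def ent (hfin : ∀ a, Module.Finite ℂ (W.coh (X a)))
    (g : ∀ a, Module.End ℂ (W.coh (X a))) (v : Var W X) : ℂ :=
  have := hfin v.1
  (Module.finBasis ℂ (W.coh (X v.1))).repr
    (g v.1 (Module.finBasis ℂ (W.coh (X v.1)) v.2.2)) v.2.1

variable (hfin : ∀ a, Module.Finite ℂ (W.coh (X a)))

/-- the values of functionals on `g z` are polynomials in the entries of `g` -/
theorem poly : ∀ (P : Prd m) (z : W.coh (P.obj X)) (φ : W.coh (P.obj X) →ₗ[ℂ] ℂ),
    ∃ p : MvPolynomial (Var W X) ℂ, ∀ g : ∀ a, Module.End ℂ (W.coh (X a)),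
      MvPolynomial.eval (ent hfin g) p = φ (act hW hX g P z)
  | .leaf a, z, φ => by
    have := hfin a
    set f := Module.finBasis ℂ (W.coh (X a)) with hf
    have key : ∀ (z : W.coh (X a)) (φ : W.coh (X a) →ₗ[ℂ] ℂ),
        ∃ p : MvPolynomial (Var W X) ℂ, ∀ g : ∀ a, Module.End ℂ (W.coh (X a)),
          MvPolynomial.eval (ent hfin g) p = φ (g a z) := by
      intro z φ
      refine ⟨∑ j, ∑ i, MvPolynomial.C (f.repr z j * φ (f i)) *
        MvPolynomial.X (⟨a, (i, j)⟩ : Var W X), fun g => ?_⟩
      rw [map_sum]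
      have h1 : φ (g a z) = ∑ j, f.repr z j * φ (g a (f j)) := by
        conv_lhs => rw [← f.sum_repr z]
        rw [map_sum, map_sum]
        refine Finset.sum_congr rfl fun j _ => ?_
        rw [map_smul, map_smul, smul_eq_mul]
      rw [h1]
      refine Finset.sum_congr rfl fun j _ => ?_
      have h2 : φ (g a (f j)) = ∑ i, f.repr (g a (f j)) i * φ (f i) := by
        conv_lhs => rw [← f.sum_repr (g a (f j))]
        rw [map_sum]
        refine Finset.sum_congr rfl fun i _ => ?_
        rw [map_smul, smul_eq_mul]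
      rw [h2, map_sum, Finset.mul_sum]
      refine Finset.sum_congr rfl fun i _ => ?_
      rw [map_mul, MvPolynomial.eval_C, MvPolynomial.eval_X]
      have h3 : ent hfin g (⟨a, (i, j)⟩ : Var W X) = f.repr (g a (f j)) i := rfl
      rw [h3]
      ring
    exact key z φ
  | .prod P Q, z, φ => by
    have hP := memP hX P
    have hQ := memP hX Q
    have := hW.finite hP
    have := hW.finite hQ
    set F := Module.finBasis ℂ (W.coh (P.obj X)) with hF
    set G := Module.finBasis ℂ (W.coh (Q.obj X)) with hG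
    let ψ : W.coh (P.obj X ⊗ Q.obj X) →ₗ[ℂ] ℂ := φ
    have key : ∀ z : W.coh (P.obj X ⊗ Q.obj X), ∃ p : MvPolynomial (Var W X) ℂ,
        ∀ g : ∀ a, Module.End ℂ (W.coh (X a)), MvPolynomial.eval (ent hfin g) p
          = ψ (ten hW hP hQ (act hW hX g P) (act hW hX g Q) z) := by
      intro z
      refine prod_induction hW hP hQ (P := fun z => ∃ p : MvPolynomial (Var W X) ℂ,
        ∀ g : ∀ a, Module.End ℂ (W.coh (X a)), MvPolynomial.eval (ent hfin g) p
          = ψ (ten hW hP hQ (act hW hX g P) (act hW hX g Q) z)) z ?_ ?_ ?_ ?_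
      · intro x y
        choose p hp using fun i => poly P x (F.coord i)
        choose q hq using fun j => poly Q y (G.coord j)
        refine ⟨∑ i, ∑ j, p i * q j * MvPolynomial.C
          (ψ (W.pull (fst (P.obj X) (Q.obj X)) (F i) * W.pull (snd (P.obj X) (Q.obj X)) (G j))),
          fun g => ?_⟩
        rw [ten_gen]
        conv_rhs => rw [← F.sum_repr (act hW hX g P x), ← G.sum_repr (act hW hX g Q y)]
        rw [map_sum, map_sum (W.pull (fst (P.obj X) (Q.obj X))), Finset.sum_mul, map_sum]
        refine Finset.sum_congr rfl fun i _ => ?_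
        rw [map_sum, map_sum (W.pull (snd (P.obj X) (Q.obj X))), Finset.mul_sum, map_sum]
        refine Finset.sum_congr rfl fun j _ => ?_
        rw [map_mul, map_mul, MvPolynomial.eval_C, hp, hq, map_smul (W.pull _),
          map_smul (W.pull _), smul_mul_assoc, mul_smul_comm, map_smul, map_smul, smul_eq_mul,
          smul_eq_mul, Module.Basis.coord_apply, Module.Basis.coord_apply]
        ring
      · exact ⟨0, fun g => by rw [map_zero, map_zero, map_zero]⟩
      · rintro a b ⟨p, hp⟩ ⟨q, hq⟩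
        exact ⟨p + q, fun g => by rw [map_add, map_add, map_add, hp, hq]⟩
      · rintro c a ⟨p, hp⟩
        exact ⟨MvPolynomial.C c * p, fun g => by
          rw [map_mul, MvPolynomial.eval_C, hp, map_smul, map_smul, smul_eq_mul]⟩
    exact key z

/-- **Finitely many algebraic classes** on products cut out the families of operators that fix
all algebraic classes on all products. -/
theorem exists_finite : ∃ (ι : Type) (_ : Fintype ι) (P : ι → Prd m)
    (z : ∀ i, W.coh ((P i).obj X)), (∀ i, z i ∈ tot W ((P i).obj X)) ∧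
    ∀ g : ∀ a, Module.End ℂ (W.coh (X a)), (∀ i, act hW hX g (P i) (z i) = z i) →
      ∀ (Q : Prd m), ∀ y ∈ tot W (Q.obj X), act hW hX g Q y = y := by
  classical
  have hfin : ∀ a, Module.Finite ℂ (W.coh (X a)) := fun a => hW.finite (hX a)
  let E : Set (MvPolynomial (Var W X) ℂ) := {p | ∃ (P : Prd m) (z : W.coh (P.obj X))
    (φ : W.coh (P.obj X) →ₗ[ℂ] ℂ), z ∈ tot W (P.obj X) ∧
      ∀ g : ∀ a, Module.End ℂ (W.coh (X a)),
        MvPolynomial.eval (ent hfin g) p = φ (act hW hX g P z - z)}
  obtain ⟨E', hE', hz⟩ := exists_finset_zeros E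
  choose P z φ hzt hev using fun p : E' => hE' p.2
  -- a copy of the index set in `Type`
  obtain ⟨r, ⟨e⟩⟩ : ∃ r, Nonempty (Fin r ≃ E') := ⟨_, ⟨E'.equivFin.symm⟩⟩
  refine ⟨Fin r, inferInstance, fun i => P (e i), fun i => z (e i), fun i => hzt (e i),
    fun g hg Q y hy => ?_⟩
  have h0 : ∀ p ∈ E', MvPolynomial.eval (ent hfin g) p = 0 := by
    intro p hp
    obtain ⟨i, hi⟩ := e.surjective ⟨p, hp⟩
    have h1 : act hW hX g (P (e i)) (z (e i)) = z (e i) := hg i
    have h2 := hev (e i) g
    rw [h1, sub_self, map_zero] at h2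
    have h3 : ((e i : E') : MvPolynomial (Var W X) ℂ) = p := congrArg Subtype.val hi
    rwa [h3] at h2
  have := hW.finite (memP hX Q)
  rw [← sub_eq_zero, ← Module.forall_dual_apply_eq_zero_iff ℂ]
  intro φ
  obtain ⟨p, hp⟩ := poly hW hX hfin Q y φ
  have h2 := hz (ent hfin g) h0 (p - MvPolynomial.C (φ y)) ⟨Q, y, φ, hy, fun g => by
    rw [map_sub, MvPolynomial.eval_C, hp, map_sub]⟩
  rw [map_sub, MvPolynomial.eval_C, hp] at h2
  rw [map_sub]
  exact h2

end Noe

end Pool.Agent.Lib.MP_361a6f_ag.FL
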