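import Mathlib

/-!
Theorem R / DN (MP_361a6f_ag, MP_54168f_ag), row NP: exponential, small logarithm, nearest point,
phase estimate.  Host free: only Mathlib.
-/

open NormedSpace Filter Topology Asymptotics

namespace FLNp

section Taylor

variable {A : Type*} [NormedRing A] [NormedAlgebra ℝ A] [CompleteSpace A]

/-- Second order Taylor bound of the exponential. -/
theorem exp_taylor2 : ∃ C > 0, ∃ r > 0, ∀ x : A, ‖x‖ < r → ‖exp x - 1 - x‖ ≤ C * ‖x‖ ^ 2 := by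
  have h := (exp_hasFPowerSeriesAt_zero (𝕂 := ℝ) (𝔸 := A)).isBigO_sub_partialSum_pow 2
  obtain ⟨C, hC, h⟩ := h.exists_pos
  rw [IsBigOWith] at h
  obtain ⟨r, hr, h⟩ := Metric.eventually_nhds_iff.1 h
  refine ⟨C, hC, r, hr, fun x hx => ?_⟩
  have h1 := h (y := x) (by simpa [dist_eq_norm] using hx)
  simp only [zero_add, FormalMultilinearSeries.partialSum, Finset.sum_range_succ,
    Finset.sum_range_zero, expSeries_apply_eq] at h1
  simp at h1
  rwa [sub_sub]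

/-- Third order Taylor bound of the exponential. -/
theorem exp_taylor3 : ∃ C > 0, ∃ r > 0, ∀ x : A, ‖x‖ < r →
    ‖exp x - 1 - x - (2⁻¹ : ℝ) • (x * x)‖ ≤ C * ‖x‖ ^ 3 := by
  have h := (exp_hasFPowerSeriesAt_zero (𝕂 := ℝ) (𝔸 := A)).isBigO_sub_partialSum_pow 3
  obtain ⟨C, hC, h⟩ := h.exists_pos
  rw [IsBigOWith] at h
  obtain ⟨r, hr, h⟩ := Metric.eventually_nhds_iff.1 h
  refine ⟨C, hC, r, hr, fun x hx => ?_⟩
  have h1 := h (y := x) (by simpa [dist_eq_norm] using hx)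
  simp only [zero_add, FormalMultilinearSeries.partialSum, Finset.sum_range_succ,
    Finset.sum_range_zero, expSeries_apply_eq] at h1
  simp at h1
  have h2 : exp x - 1 - x - (2⁻¹ : ℝ) • (x * x) = exp x - (1 + x + (2⁻¹ : ℝ) • x ^ 2) := by
    rw [sq]; abel
  rw [h2]
  exact h1

/-- The exponential is bi-Lipschitz near `0`. -/
theorem exp_bilip : ∃ r > 0, ∀ x y : A, ‖x‖ < r → ‖y‖ < r →
    ‖x - y‖ ≤ 2 * ‖exp x - exp y‖ ∧ ‖exp x - exp y‖ ≤ 2 * ‖x - y‖ := by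
  have h := (hasStrictFDerivAt_exp_zero (𝕂 := ℝ) (𝔸 := A))
  obtain ⟨s, hs, h⟩ := h.approximates_deriv_on_nhds (c := 1 / 2) (Or.inr (by norm_num))
  obtain ⟨r, hr, hrs⟩ := Metric.mem_nhds_iff.1 hs
  refine ⟨r, hr, fun x y hx hy => ?_⟩
  have h1 := h x (hrs (by simpa using hx)) y (hrs (by simpa using hy))
  simp only [one_apply_eq_self] at h1
  have h2 : ‖x - y‖ ≤ ‖exp x - exp y‖ + ‖exp x - exp y - (x - y)‖ := by
    have := norm_sub_le (exp x - exp y) (exp x - exp y - (x - y))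
    rwa [sub_sub_cancel] at this
  have h3 : ‖exp x - exp y‖ ≤ ‖x - y‖ + ‖exp x - exp y - (x - y)‖ := by
    have := norm_add_le (x - y) (exp x - exp y - (x - y))
    rwa [add_sub_cancel] at this
  have h4 : ((1 / 2 : NNReal) : ℝ) = 1 / 2 := by norm_num
  rw [h4] at h1
  constructor <;> linarith

/-- Small logarithm: near `1` every element is `exp x` with `x` small. -/
theorem exists_small_log {r' : ℝ} (hr' : 0 < r') : ∃ e > 0, ∀ g : A, ‖g - 1‖ < e →
    ∃ x : A, ‖x‖ < r' ∧ exp x = g ∧ ‖x‖ ≤ 2 * ‖g - 1‖ := by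
  obtain ⟨r, hr, hb⟩ := exp_bilip (A := A)
  have h : HasStrictFDerivAt (exp : A → A) ((ContinuousLinearEquiv.refl ℝ A : A ≃L[ℝ] A) : A →L[ℝ] A) 0 :=
    hasStrictFDerivAt_exp_zero (𝕂 := ℝ) (𝔸 := A)
  have h1 := h.map_nhds_eq_of_equiv
  rw [exp_zero] at h1
  have h2 : exp '' Metric.ball (0 : A) (min r r') ∈ 𝓝 (1 : A) := by
    rw [← h1]
    exact image_mem_map (Metric.ball_mem_nhds _ (lt_min hr hr'))
  obtain ⟨e, he, h3⟩ := Metric.mem_nhds_iff.1 h2
  refine ⟨e, he, fun g hg => ?_⟩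
  obtain ⟨x, hx, rfl⟩ := h3 (show g ∈ Metric.ball 1 e by simpa [dist_eq_norm] using hg)
  have hx' : ‖x‖ < min r r' := by simpa using hx
  have := (hb x 0 (hx'.trans_le (min_le_left _ _)) (by simpa using hr)).1
  refine ⟨x, hx'.trans_le (min_le_right _ _), rfl, ?_⟩
  simpa using this

end Taylor

section Nearest

variable {A T : Type*} [NormedRing A] [NormedAlgebra ℝ A] [CompleteSpace A]
  [NormedAddCommGroup T] [NormedSpace ℝ T] [CompleteSpace T]

/-- Data: a compact group `K` in a real Banach algebra `A`, its Lie algebra `kk` (the exponential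
of `kk` lies in `K`, and small elements of `K` have a small logarithm in `kk`), and a
representation `act` on `T` with derivative `D`. -/
structure Rep (A T : Type*) [NormedRing A] [NormedAlgebra ℝ A]
    [NormedAddCommGroup T] [NormedSpace ℝ T] where
  K : Set A
  kk : Submodule ℝ A
  act : A → T → T
  D : A →L[ℝ] (T →L[ℝ] T)
  isCompact : IsCompact K
  one_mem : 1 ∈ K
  mul_mem : ∀ g ∈ K, ∀ h ∈ K, g * h ∈ K
  inv_mem : ∀ g ∈ K, ∃ h ∈ K, g * h = 1 ∧ h * g = 1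
  exp_mem : ∀ η ∈ kk, exp η ∈ K
  log_mem : ∀ r > 0, ∃ e > 0, ∀ g ∈ K, ‖g - 1‖ < e → ∃ η ∈ kk, ‖η‖ < r ∧ exp η = g
  act_one : ∀ v, act 1 v = v
  act_mul : ∀ g ∈ K, ∀ h ∈ K, ∀ v, act (g * h) v = act g (act h v)
  act_cont : ∀ v, ContinuousOn (fun g => act g v) K
  act_exp : ∀ η ∈ kk, ∀ v, act (exp η) v = exp (D η) v

theorem exp_apply_of_apply_eq_zero (X : T →L[ℝ] T) (v : T) (h : X v = 0) : exp X v = v := by
  have h1 := exp_series_hasSum_exp' (𝕂 := ℝ) X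
  have h2 := (ContinuousLinearMap.apply ℝ T v).hasSum h1
  have h3 : HasSum (fun n : ℕ => (ContinuousLinearMap.apply ℝ T v) ((n.factorial : ℝ)⁻¹ • X ^ n))
      v := by
    convert! hasSum_single (α := T)
      (f := fun n : ℕ => (ContinuousLinearMap.apply ℝ T v) ((n.factorial : ℝ)⁻¹ • X ^ n)) 0 ?_ using 1
    · simp
    · intro n hn
      obtain ⟨m, rfl⟩ := Nat.exists_eq_succ_of_ne_zero hn
      simp [pow_succ, h]
  exact h2.unique h3

theorem Rep.nearest [FiniteDimensional ℝ A] (R : Rep A T) (s : T) :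
    ∃ C > 0, ∃ r > 0, ∀ g ∈ R.K, ‖R.act g s - s‖ < r →
      ∃ η ∈ R.kk, ∃ k ∈ R.K, R.act k s = s ∧ g = exp η * k ∧ ‖η‖ ≤ C * ‖R.act g s - s‖ := by
  by_contra hcon
  push Not at hcon
  have hseq : ∀ n : ℕ, ∃ g ∈ R.K, ‖R.act g s - s‖ < 1 / ((n : ℝ) + 1) ∧
      ∀ η ∈ R.kk, ∀ k ∈ R.K, R.act k s = s → g = exp η * k →
        ((n : ℝ) + 1) * ‖R.act g s - s‖ < ‖η‖ := fun n =>
    hcon ((n : ℝ) + 1) (by positivity) (1 / ((n : ℝ) + 1)) (by positivity)
  choose g₀ hg₀K hg₀s hg₀ using hseq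
  obtain ⟨a, haK, φ, hφ, hφa⟩ := R.isCompact.tendsto_subseq hg₀K
  set S : Set A := R.K ∩ (fun g => R.act g s) ⁻¹' {s} with hS
  have hSclosed : IsClosed S :=
    (R.act_cont s).preimage_isClosed_of_isClosed R.isCompact.isClosed isClosed_singleton
  have hScomp : IsCompact S := R.isCompact.of_isClosed_subset hSclosed Set.inter_subset_left
  have h1S : (1 : A) ∈ S := ⟨R.one_mem, R.act_one s⟩
  have hactφ : Tendsto (fun n => R.act (g₀ (φ n)) s) atTop (𝓝 (R.act a s)) := by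
    have := (R.act_cont s a haK).tendsto
    refine this.comp ?_
    exact tendsto_nhdsWithin_iff.2 ⟨hφa, Eventually.of_forall fun n => hg₀K _⟩
  have hn1 : Tendsto (fun n : ℕ => 1 / ((n : ℝ) + 1)) atTop (𝓝 0) :=
    tendsto_one_div_add_atTop_nhds_zero_nat
  have hsmall : Tendsto (fun n => ‖R.act (g₀ (φ n)) s - s‖) atTop (𝓝 0) := by
    refine squeeze_zero (fun _ => norm_nonneg _) (fun n => ?_) hn1
    refine (hg₀s _).le.trans ?_
    have : n ≤ φ n := hφ.id_le n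
    have h2 : (n : ℝ) ≤ φ n := by exact_mod_cast this
    exact one_div_le_one_div_of_le (by positivity) (by linarith)
  have haS : a ∈ S := by
    refine ⟨haK, ?_⟩
    have h1 : Tendsto (fun n => R.act (g₀ (φ n)) s) atTop (𝓝 s) :=
      tendsto_iff_norm_sub_tendsto_zero.2 hsmall
    exact tendsto_nhds_unique hactφ h1
  obtain ⟨M₀, hM₀⟩ := R.isCompact.isBounded.exists_norm_le
  set M : ℝ := max M₀ 1 with hMdef
  have hM : ∀ x ∈ R.K, ‖x‖ ≤ M := fun x hx => (hM₀ x hx).trans (le_max_left _ _)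
  have hM1 : (1 : ℝ) ≤ M := le_max_right _ _
  have hMpos : 0 < M := by linarith
  obtain ⟨r₁, hr₁, hbl⟩ := exp_bilip (A := A)
  obtain ⟨C₂, hC₂, r₂, hr₂, htay⟩ := exp_taylor2 (A := T →L[ℝ] T)
  have hDc : ∃ c > 0, ∀ x : A, ‖R.D x‖ ≤ c * ‖x‖ :=
    ⟨‖R.D‖ + 1, by positivity, fun x => (R.D.le_opNorm x).trans (by
      have := norm_nonneg x; nlinarith)⟩
  obtain ⟨c, hc, hDc⟩ := hDc
  obtain ⟨e, he, hlog⟩ := R.log_mem (min r₁ (r₂ / c)) (lt_min hr₁ (by positivity))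
  -- the nearest points
  have hnear : ∀ n, ∃ k ∈ S, Metric.infDist (g₀ (φ n)) S = dist (g₀ (φ n)) k := fun n =>
    hScomp.exists_infDist_eq_dist ⟨1, h1S⟩ _
  choose k hkS hk using hnear
  have hkS2 : ∀ n, R.act (k n) s = s := fun n => (hkS n).2
  have hd0 : Tendsto (fun n => dist (g₀ (φ n)) (k n)) atTop (𝓝 0) := by
    refine squeeze_zero (fun _ => dist_nonneg) (fun n => ?_)
      (tendsto_iff_dist_tendsto_zero.1 hφa)
    rw [← hk]
    exact Metric.infDist_le_dist_of_mem haS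
  have hinv : ∀ n, ∃ k' ∈ R.K, k n * k' = 1 ∧ k' * k n = 1 := fun n => R.inv_mem _ (hkS n).1
  choose k' hk'K hk'1 hk'2 using hinv
  have hkap : ∀ n, ‖g₀ (φ n) * k' n - 1‖ ≤ M * dist (g₀ (φ n)) (k n) := by
    intro n
    have h1 : g₀ (φ n) * k' n - 1 = (g₀ (φ n) - k n) * k' n := by
      rw [sub_mul, hk'1]
    rw [h1, dist_eq_norm, mul_comm M]
    refine (norm_mul_le _ _).trans ?_
    exact mul_le_mul_of_nonneg_left (hM _ (hk'K n)) (norm_nonneg _)
  have hev : ∀ᶠ n in atTop, ‖g₀ (φ n) * k' n - 1‖ < e := by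
    have h1 : Tendsto (fun n => M * dist (g₀ (φ n)) (k n)) atTop (𝓝 0) := by
      simpa using hd0.const_mul M
    filter_upwards [h1.eventually (gt_mem_nhds he)] with n hn
    exact (hkap n).trans_lt hn
  have hη : ∀ n, ∃ η ∈ R.kk, ‖g₀ (φ n) * k' n - 1‖ < e →
      ‖η‖ < min r₁ (r₂ / c) ∧ exp η = g₀ (φ n) * k' n := by
    intro n
    by_cases h : ‖g₀ (φ n) * k' n - 1‖ < e
    · obtain ⟨η, h1, h2, h3⟩ := hlog _ (R.mul_mem _ (hg₀K _) _ (hk'K n)) h
      exact ⟨η, h1, fun _ => ⟨h2, h3⟩⟩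
    · exact ⟨0, R.kk.zero_mem, fun h' => absurd h' h⟩
  choose η hηk hη using hη
  -- consequences for large n
  have hmain : ∀ᶠ n in atTop, ‖η n‖ < r₁ ∧ c * ‖η n‖ < r₂ ∧ g₀ (φ n) = exp (η n) * k n ∧
      ‖η n‖ ≤ 2 * (M * dist (g₀ (φ n)) (k n)) ∧
      ((n : ℝ) + 1) * ‖R.act (g₀ (φ n)) s - s‖ < ‖η n‖ := by
    filter_upwards [hev] with n hn
    obtain ⟨h1, h2⟩ := hη n hn
    have h3 : g₀ (φ n) = exp (η n) * k n := by
      rw [h2, mul_assoc, hk'2, mul_one]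
    refine ⟨h1.trans_le (min_le_left _ _), ?_, h3, ?_, ?_⟩
    · have := h1.trans_le (min_le_right _ _)
      rw [lt_div_iff₀ hc] at this
      linarith
    · have h4 := (hbl (η n) 0 (h1.trans_le (min_le_left _ _)) (by simpa using hr₁)).1
      simp only [sub_zero, exp_zero] at h4
      rw [h2] at h4
      exact h4.trans (mul_le_mul_of_nonneg_left (hkap n) (by norm_num))
    · have h5 := hg₀ (φ n) (η n) (hηk n) (k n) (hkS n).1 (hkS n).2 h3
      have : n ≤ φ n := hφ.id_le n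
      have h6 : (n : ℝ) ≤ φ n := by exact_mod_cast this
      refine lt_of_le_of_lt ?_ h5
      exact mul_le_mul_of_nonneg_right (by linarith) (norm_nonneg _)
  have hη0 : Tendsto (fun n => ‖η n‖) atTop (𝓝 0) := by
    have h1 : Tendsto (fun n => 2 * (M * dist (g₀ (φ n)) (k n))) atTop (𝓝 0) := by
      simpa using (hd0.const_mul M).const_mul 2
    refine squeeze_zero' (Eventually.of_forall fun _ => norm_nonneg _) ?_ h1
    filter_upwards [hmain] with n hn using hn.2.2.2.1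
  -- normalised directions
  have hu : ∀ n, ‖η n‖⁻¹ • η n ∈ Metric.closedBall (0 : A) 1 := by
    intro n
    rw [mem_closedBall_zero_iff, norm_smul, norm_inv, norm_norm]
    by_cases h : ‖η n‖ = 0
    · simp [h]
    · rw [inv_mul_cancel₀ h]
  have hprop : ProperSpace A := FiniteDimensional.proper_real A
  obtain ⟨u, -, ψ, hψ, hψu⟩ := (isCompact_closedBall (0 : A) 1).tendsto_subseq hu
  have hkc : IsClosed (R.kk : Set A) := R.kk.closed_of_finiteDimensional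
  have hukk : u ∈ R.kk := hkc.mem_of_tendsto hψu
    (Eventually.of_forall fun n => R.kk.smul_mem _ (hηk _))
  have hψt := hψ.tendsto_atTop
  have hDu : R.D u s = 0 := by
    have h1 : Tendsto (fun n => R.D (‖η (ψ n)‖⁻¹ • η (ψ n)) s) atTop (𝓝 (R.D u s)) := by
      have hcont : Continuous fun x : A => R.D x s :=
        (ContinuousLinearMap.apply ℝ T s).continuous.comp R.D.continuous
      exact (hcont.tendsto u).comp hψu
    have h2 : Tendsto (fun n => R.D (‖η (ψ n)‖⁻¹ • η (ψ n)) s) atTop (𝓝 0) := by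
      have hb : Tendsto (fun n : ℕ => 1 / ((n : ℝ) + 1) + C₂ * c ^ 2 * ‖s‖ * ‖η n‖) atTop
          (𝓝 0) := by
        simpa using hn1.add (hη0.const_mul (C₂ * c ^ 2 * ‖s‖))
      refine squeeze_zero_norm' ?_ (hb.comp hψt)
      filter_upwards [hψt.eventually hmain] with n hn
      obtain ⟨a1, a2, a3, a4, a5⟩ := hn
      set m := ψ n
      have hpos : 0 < ‖η m‖ := lt_of_le_of_lt (by positivity) a5
      have b1 : ‖R.D (η m)‖ < r₂ := lt_of_le_of_lt (hDc _) a2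
      have b2 := htay _ b1
      have b3 : R.act (g₀ (φ m)) s = exp (R.D (η m)) s := by
        rw [a3, R.act_mul _ (R.exp_mem _ (hηk m)) _ (hkS m).1, hkS2 m,
          R.act_exp _ (hηk m)]
      have b4 : R.D (η m) s = (R.act (g₀ (φ m)) s - s) -
          (exp (R.D (η m)) - 1 - R.D (η m)) s := by
        rw [b3]
        simp only [sub_apply, one_apply_eq_self]
        abel
      have b5 : ‖R.D (η m) s‖ ≤ ‖R.act (g₀ (φ m)) s - s‖ + C₂ * (c * ‖η m‖) ^ 2 * ‖s‖ := by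
        rw [b4]
        refine (norm_sub_le _ _).trans (add_le_add le_rfl ?_)
        refine (ContinuousLinearMap.le_opNorm _ _).trans ?_
        refine mul_le_mul_of_nonneg_right (b2.trans ?_) (norm_nonneg _)
        exact mul_le_mul_of_nonneg_left
          (pow_le_pow_left₀ (norm_nonneg _) (hDc _) 2) hC₂.le
      rw [map_smul, smul_apply, norm_smul, norm_inv, norm_norm]
      rw [inv_mul_le_iff₀ hpos]
      have b6 : ‖R.act (g₀ (φ m)) s - s‖ ≤ 1 / ((m : ℝ) + 1) * ‖η m‖ := by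
        rw [div_mul_eq_mul_div, one_mul, le_div_iff₀ (by positivity)]
        linarith
      simp only [Function.comp_apply]
      calc ‖R.D (η m) s‖ ≤ 1 / ((m : ℝ) + 1) * ‖η m‖ + C₂ * (c * ‖η m‖) ^ 2 * ‖s‖ := by linarith
        _ = ‖η m‖ * (1 / ((m : ℝ) + 1) + C₂ * c ^ 2 * ‖s‖ * ‖η m‖) := by ring
    exact tendsto_nhds_unique h1 h2
  -- contradiction
  have hfin : ∀ᶠ n in atTop, ‖‖η (ψ n)‖⁻¹ • η (ψ n) - u‖ < 1 / (4 * M ^ 2) := by
    have := tendsto_iff_norm_sub_tendsto_zero.1 hψu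
    exact this.eventually (gt_mem_nhds (by positivity))
  have hfin2 : ∀ᶠ n in atTop, ‖‖η (ψ n)‖ • u‖ < r₁ := by
    have h1 : Tendsto (fun n => ‖‖η (ψ n)‖ • u‖) atTop (𝓝 0) := by
      have h2 := ((hη0.comp hψt).smul_const u).norm
      simpa using h2
    exact h1.eventually (gt_mem_nhds hr₁)
  obtain ⟨n, hn1, hn2, hn3⟩ := (hfin.and (hfin2.and (hψt.eventually hmain))).exists
  obtain ⟨a1, a2, a3, a4, a5⟩ := hn3
  set m := ψ n
  have hpos : 0 < ‖η m‖ := lt_of_le_of_lt (by positivity) a5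
  have hmem : exp (‖η m‖ • u) * k m ∈ S := by
    have h1 : ‖η m‖ • u ∈ R.kk := R.kk.smul_mem _ hukk
    refine ⟨R.mul_mem _ (R.exp_mem _ h1) _ (hkS m).1, ?_⟩
    show R.act (exp (‖η m‖ • u) * k m) s = s
    rw [R.act_mul _ (R.exp_mem _ h1) _ (hkS m).1, hkS2 m, R.act_exp _ h1]
    apply exp_apply_of_apply_eq_zero
    rw [map_smul, smul_apply, hDu, smul_zero]
  have h1 : dist (g₀ (φ m)) (k m) ≤ dist (g₀ (φ m)) (exp (‖η m‖ • u) * k m) := by
    rw [← hk]
    exact Metric.infDist_le_dist_of_mem hmem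
  have h2 : dist (g₀ (φ m)) (exp (‖η m‖ • u) * k m) ≤ 2 * ‖η m - ‖η m‖ • u‖ * M := by
    rw [a3, dist_eq_norm, ← sub_mul]
    refine (norm_mul_le _ _).trans ?_
    exact mul_le_mul (hbl _ _ a1 hn2).2 (hM _ (hkS m).1) (norm_nonneg _) (by positivity)
  have h3 : ‖η m - ‖η m‖ • u‖ = ‖η m‖ * ‖‖η m‖⁻¹ • η m - u‖ := by
    rw [← norm_smul_of_nonneg hpos.le, smul_sub, smul_smul, mul_inv_cancel₀ hpos.ne', one_smul]
  rw [h3] at h2
  have hd : 0 < dist (g₀ (φ m)) (k m) := by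
    by_contra h
    push Not at h
    have h4 : dist (g₀ (φ m)) (k m) = 0 := le_antisymm h dist_nonneg
    rw [h4] at a4
    linarith
  have h5 : ‖η m‖ * ‖‖η m‖⁻¹ • η m - u‖ ≤
      2 * (M * dist (g₀ (φ m)) (k m)) * ‖‖η m‖⁻¹ • η m - u‖ :=
    mul_le_mul_of_nonneg_right a4 (norm_nonneg _)
  have h6 : dist (g₀ (φ m)) (k m) ≤
      4 * M ^ 2 * dist (g₀ (φ m)) (k m) * ‖‖η m‖⁻¹ • η m - u‖ := by
    have h7 := mul_le_mul_of_nonneg_right h5 (show 0 ≤ 2 * M by positivity)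
    nlinarith
  have h8 : 4 * M ^ 2 * dist (g₀ (φ m)) (k m) * ‖‖η m‖⁻¹ • η m - u‖ <
      dist (g₀ (φ m)) (k m) := by
    have h9 : ‖‖η m‖⁻¹ • η m - u‖ * (4 * M ^ 2) < 1 := by
      rwa [← lt_div_iff₀ (by positivity)]
    calc 4 * M ^ 2 * dist (g₀ (φ m)) (k m) * ‖‖η m‖⁻¹ • η m - u‖
        = dist (g₀ (φ m)) (k m) * (‖‖η m‖⁻¹ • η m - u‖ * (4 * M ^ 2)) := by ring
      _ < dist (g₀ (φ m)) (k m) * 1 := mul_lt_mul_of_pos_left h9 hd
      _ = _ := mul_one _
  exact absurd h6 (not_le.2 h8)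

end Nearest

end FLNp
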