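import Pool.Agent.Lib.MP_361a6f_ag.FL.GeoDefs

/-!
# Theorem R with complex coefficients, from its rows
-/

open CategoryTheory AlgebraicGeometry MonoidalCategory CartesianMonoidalCategory

universe u v w

namespace Pool.Agent.Lib.MP_361a6f_ag.FL

open Pool.Agent.Lib.MP_361a6f_ag.H3 Pool.Agent.Lib.MP_361a6f_ag.SQ
  Pool.Agent.Lib.MP_361a6f_ag.PP

/-- Theorem R over `ℂ`. -/
theorem rc (gb : GbStatement.{u, w}) (gpos : GposStatement.{u, w}) (gt : GtStatement.{u, w})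
    (gj : GjStatement.{u, w}) (gm : GmStatement.{u, w}) (gq : GqStatement.{u, w}) :
    RcStatement.{u, w} := by
  intro k _ W 𝒱 hW m X n hmem ξ hpos hHL hAL N hN hQ P η hη
  obtain ⟨H, rfl, rfl, hξ⟩ := gb hW hmem (fun a => (hpos a).1) hHL hAL
  obtain rfl := eq_of_heq hξ
  obtain ⟨g, hg⟩ := gt H N (gpos H N hpos hQ)
  obtain ⟨J, hJ⟩ := gj H N hN g hg
  exact gq H N g J hJ (gm H N hN g J hJ) P η hη

/-- Theorem R. -/
theorem thmR (rc : RcStatement.{u, w}) (gbc : GbcStatement.{u, v, w}) :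
    ThmRStatement.{u, v, w} := gbc rc

end Pool.Agent.Lib.MP_361a6f_ag.FL
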