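import Mathlib

/-!
# A slice at a point for a linear group

`g` is a space of operators on the finite dimensional space `E`, `N` a complement of `g s`.  Every
point near `s` is of the form `exp(A) (s + n)` with small `A ∈ g`, `n ∈ N`.
-/

set_option autoImplicit false

open Filter NormedSpace
open scoped Topology

namespace MP361FL

section gen

variable {𝕂 E G N : Type*} [RCLike 𝕂] [NormedAddCommGroup E] [NormedSpace 𝕂 E]
  [NormedAddCommGroup G] [NormedSpace 𝕂 G] [NormedAddCommGroup N] [NormedSpace 𝕂 N]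

/-- the map `(A, n) ↦ exp(A) (s + n)` -/
noncomputable def sliceMap (a : G →L[𝕂] (E →L[𝕂] E)) (b : N →L[𝕂] E) (s : E)
    (p : G × N) : E := exp (a p.1) (s + b p.2)

/-- its derivative at the origin -/
noncomputable def sliceD (a : G →L[𝕂] (E →L[𝕂] E)) (b : N →L[𝕂] E) (s : E) :
    (G × N) →L[𝕂] E :=
  ((ContinuousLinearMap.apply 𝕂 E s).comp (a.comp (ContinuousLinearMap.fst 𝕂 G N)))
    + b.comp (ContinuousLinearMap.snd 𝕂 G N)

theorem sliceD_apply (a : G →L[𝕂] (E →L[𝕂] E)) (b : N →L[𝕂] E) (s : E) (p : G × N) :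
    sliceD a b s p = a p.1 s + b p.2 := by
  simp [sliceD]

theorem hasStrictFDerivAt_sliceMap [CompleteSpace E] (a : G →L[𝕂] (E →L[𝕂] E)) (b : N →L[𝕂] E)
    (s : E) : HasStrictFDerivAt (sliceMap a b s) (sliceD a b s) 0 := by
  have h1 : HasStrictFDerivAt (fun p : G × N => a p.1)
      (a.comp (ContinuousLinearMap.fst 𝕂 G N)) 0 :=
    (a.comp (ContinuousLinearMap.fst 𝕂 G N)).hasStrictFDerivAt
  have h2 : HasStrictFDerivAt (fun p : G × N => s + b p.2)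
      (b.comp (ContinuousLinearMap.snd 𝕂 G N)) 0 :=
    (b.comp (ContinuousLinearMap.snd 𝕂 G N)).hasStrictFDerivAt.const_add s
  have h0 : HasStrictFDerivAt (exp : (E →L[𝕂] E) → (E →L[𝕂] E)) (1 : (E →L[𝕂] E) →L[𝕂] (E →L[𝕂] E))
      (a (0 : G × N).1) := by
    have h := hasStrictFDerivAt_exp_zero (𝕂 := 𝕂) (𝔸 := E →L[𝕂] E)
    simpa using h
  have h3 : HasStrictFDerivAt (fun p : G × N => exp (a p.1))
      ((1 : (E →L[𝕂] E) →L[𝕂] (E →L[𝕂] E)).comp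
        (a.comp (ContinuousLinearMap.fst 𝕂 G N))) 0 :=
    HasStrictFDerivAt.comp (g := exp) (f := fun p : G × N => a p.1) (0 : G × N) h0 h1
  have h4 := h3.clm_apply h2
  refine h4.congr_fderiv ?_
  ext p
  · simp [sliceD]
  · simp [sliceD]

theorem slice_nhds' [CompleteSpace E] [CompleteSpace G] [CompleteSpace N]
    (a : G →L[𝕂] (E →L[𝕂] E)) (b : N →L[𝕂] E) (s : E)
    (h : ∀ x : E, ∃ A n, x = a A s + b n) {ε : ℝ} (hε : 0 < ε) :
    ∀ᶠ y in 𝓝 s, ∃ A n, ‖A‖ < ε ∧ ‖n‖ < ε ∧ y = exp (a A) (s + b n) := by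
  have hsurj : (sliceD a b s).range = ⊤ := by
    rw [LinearMap.range_eq_top]
    intro x
    obtain ⟨A, n, rfl⟩ := h x
    exact ⟨(A, n), sliceD_apply a b s _⟩
  have hmap : map (sliceMap a b s) (𝓝 0) = 𝓝 (sliceMap a b s 0) :=
    (hasStrictFDerivAt_sliceMap a b s).map_nhds_eq_of_surj hsurj
  have h0 : sliceMap a b s 0 = s := by simp [sliceMap]
  rw [h0] at hmap
  rw [← hmap]
  rw [Filter.eventually_map]
  have h1 : ∀ᶠ p : G × N in 𝓝 0, ‖p‖ < ε := by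
    have : Metric.ball (0 : G × N) ε ∈ 𝓝 (0 : G × N) := Metric.ball_mem_nhds _ hε
    filter_upwards [this] with p hp
    simpa using hp
  filter_upwards [h1] with p hp
  refine ⟨p.1, p.2, ?_, ?_, rfl⟩
  · exact (norm_fst_le p).trans_lt hp
  · exact (norm_snd_le p).trans_lt hp

end gen

variable {𝕂 E : Type*} [RCLike 𝕂] [NormedAddCommGroup E] [NormedSpace 𝕂 E]

/-- every point near `s` is `exp(A) (s + n)` with `A ∈ g`, `n ∈ N` small -/
theorem slice_nhds [CompleteSpace E] (g : Submodule 𝕂 (E →L[𝕂] E))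
    (N : Submodule 𝕂 E) (s : E) [CompleteSpace g] [CompleteSpace N]
    (h : ∀ x : E, ∃ A ∈ g, ∃ n ∈ N, x = A s + n) {ε : ℝ} (hε : 0 < ε) :
    ∀ᶠ y in 𝓝 s, ∃ A ∈ g, ∃ n ∈ N, ‖A‖ < ε ∧ ‖n‖ < ε ∧ y = exp A (s + n) := by
  have h0 : ∀ x : E, ∃ (A : g) (n : N), x = (g.subtypeL A) s + N.subtypeL n := by
    intro x
    obtain ⟨A, hA, n, hn, e⟩ := h x
    exact ⟨⟨A, hA⟩, ⟨n, hn⟩, e⟩
  have h1 := slice_nhds' (𝕂 := 𝕂) (G := g) (N := N) g.subtypeL N.subtypeL s h0 hε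
  filter_upwards [h1] with y hy
  obtain ⟨A, n, hA, hn, e⟩ := hy
  exact ⟨A, A.2, n, n.2, hA, hn, e⟩

/-- sequences: if `y j → s` then `y j = exp(A j) (s + n j)` for large `j`, with `A j → 0`,
`n j → 0` -/
theorem slice_seq [CompleteSpace E] (g : Submodule 𝕂 (E →L[𝕂] E))
    (N : Submodule 𝕂 E) (s : E) [CompleteSpace g] [CompleteSpace N]
    (h : ∀ x : E, ∃ A ∈ g, ∃ n ∈ N, x = A s + n) (y : ℕ → E) (hy : Tendsto y atTop (𝓝 s)) :
    ∃ (A : ℕ → E →L[𝕂] E) (n : ℕ → E), (∀ j, A j ∈ g) ∧ (∀ j, n j ∈ N) ∧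
      Tendsto A atTop (𝓝 0) ∧ Tendsto n atTop (𝓝 0) ∧ ∀ᶠ j in atTop, y j = exp (A j) (s + n j) := by
  classical
  -- choose the best `ε` of the form `1/(m+1)`, `m ≤ j`
  let P : ℕ → ℕ → Prop := fun j m => ∃ A ∈ g, ∃ n ∈ N, ‖A‖ < 1 / ((m : ℝ) + 1) ∧
    ‖n‖ < 1 / ((m : ℝ) + 1) ∧ y j = exp A (s + n)
  have hP : ∀ m, ∀ᶠ j in atTop, P j m := fun m =>
    hy.eventually (slice_nhds g N s h (by positivity))
  let M : ℕ → ℕ := fun j => Nat.findGreatest (P j) j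
  have hM : Tendsto M atTop atTop := by
    rw [tendsto_atTop]
    intro m
    filter_upwards [hP m, eventually_ge_atTop m] with j hj hjm
    exact Nat.le_findGreatest hjm hj
  have hch : ∀ j, ∃ (A : E →L[𝕂] E) (n : E), A ∈ g ∧ n ∈ N ∧ (P j 0 → ‖A‖ < 1 / ((M j : ℝ) + 1) ∧
      ‖n‖ < 1 / ((M j : ℝ) + 1) ∧ y j = exp A (s + n)) ∧ (¬ P j 0 → A = 0 ∧ n = 0) := by
    intro j
    by_cases h0 : P j 0
    · have h1 : P j (M j) := Nat.findGreatest_spec (P := P j) (Nat.zero_le j) h0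
      obtain ⟨A, hA, n, hn, h2, h3, h4⟩ := h1
      exact ⟨A, n, hA, hn, fun _ => ⟨h2, h3, h4⟩, fun h => absurd h0 h⟩
    · exact ⟨0, 0, g.zero_mem, N.zero_mem, fun h => absurd h h0, fun _ => ⟨rfl, rfl⟩⟩
  choose A n hA hn h1 h2 using hch
  have hlim : Tendsto (fun j => 1 / ((M j : ℝ) + 1)) atTop (𝓝 0) :=
    tendsto_one_div_add_atTop_nhds_zero_nat.comp hM
  have hA0 : ∀ j, ‖A j‖ ≤ 1 / ((M j : ℝ) + 1) := by
    intro j
    by_cases h0 : P j 0
    · exact (h1 j h0).1.le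
    · rw [(h2 j h0).1, norm_zero]; positivity
  have hn0 : ∀ j, ‖n j‖ ≤ 1 / ((M j : ℝ) + 1) := by
    intro j
    by_cases h0 : P j 0
    · exact (h1 j h0).2.1.le
    · rw [(h2 j h0).2, norm_zero]; positivity
  refine ⟨A, n, hA, hn, ?_, ?_, ?_⟩
  · exact squeeze_zero_norm hA0 hlim
  · exact squeeze_zero_norm hn0 hlim
  · filter_upwards [hP 0] with j hj
    exact (h1 j hj).2.2

end MP361FL
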